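import Mathlib

set_option autoImplicit false
set_option linter.unusedSectionVars false
set_option linter.unusedVariables false

namespace Pool.Agent.Helper82.Gap

open Finset

open scoped Classical in
/-- The standard simplicial sign: parity of the number of elements of `σ` below `v`. -/
noncomputable def sg (K : Type*) [CommRing K] {V : Type*} [LinearOrder V] (v : V) (σ : Finset V) : K :=
  (-1) ^ (σ.filter (· < v)).card

section
variable {V : Type*} [LinearOrder V] {K : Type*} [CommRing K]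

lemma sg_mul_self (v : V) (σ : Finset V) : sg K v σ * sg K v σ = 1 := by
  unfold sg
  rw [← mul_pow]; simp

lemma sg_erase_self (v : V) (σ : Finset V) : sg K v (σ.erase v) = sg K v σ := by
  unfold sg
  congr 2
  ext x
  simp only [mem_filter, mem_erase]
  constructor
  · rintro ⟨⟨_, h⟩, h2⟩; exact ⟨h, h2⟩
  · rintro ⟨h, h2⟩; exact ⟨⟨h2.ne, h⟩, h2⟩

lemma sg_insert_self (v : V) (σ : Finset V) : sg K v (insert v σ) = sg K v σ := by
  unfold sg
  congr 2
  ext x
  simp only [mem_filter, mem_insert]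
  constructor
  · rintro ⟨h | h, h2⟩
    · exact absurd h h2.ne
    · exact ⟨h, h2⟩
  · rintro ⟨h, h2⟩; exact ⟨Or.inr h, h2⟩

lemma sg_insert_lt {v w : V} {σ : Finset V} (h : w < v) (hw : w ∉ σ) :
    sg K v (insert w σ) = - sg K v σ := by
  unfold sg
  rw [filter_insert, if_pos h, card_insert_of_notMem (by simp [hw]), pow_succ]
  ring

lemma sg_insert_gt {v w : V} {σ : Finset V} (h : v < w) :
    sg K v (insert w σ) = sg K v σ := by
  unfold sg
  rw [filter_insert, if_neg (not_lt.mpr h.le)]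

lemma sg_anti {v w : V} {σ : Finset V} (hvw : v ≠ w) (hv : v ∉ σ) (hw : w ∉ σ) :
    sg K v σ * sg K w (insert v σ) = - (sg K w σ * sg K v (insert w σ)) := by
  rcases lt_or_gt_of_ne hvw with h | h
  · rw [sg_insert_lt h hv, sg_insert_gt h]; ring
  · rw [sg_insert_gt h, sg_insert_lt h hw]; ring

/-- the cochain operator -/
noncomputable def up (f : Finset V → K) (σ : Finset V) : K :=
  ∑ v ∈ σ, sg K v σ * f (σ.erase v)

lemma up_up (f : Finset V → K) (σ : Finset V) : up (up f) σ = 0 := by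
  unfold up
  simp_rw [mul_sum]
  rw [Finset.sum_sigma']
  apply Finset.sum_involution (fun (p : (_ : V) × V) _ => (⟨p.2, p.1⟩ : (_ : V) × V))
  · rintro ⟨v, w⟩ hp
    simp only [mem_sigma, mem_erase] at hp ⊢
    obtain ⟨hv, hwv, hw⟩ := hp
    rw [erase_right_comm (a := v) (b := w)]
    have key : sg K v σ * sg K w (σ.erase v) = - (sg K w σ * sg K v (σ.erase w)) := by
      set ρ := (σ.erase v).erase w with hρ
      have h1 : σ.erase v = insert w ρ := by
        rw [hρ, insert_erase]; exact mem_erase.mpr ⟨hwv, hw⟩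
      have h2 : σ.erase w = insert v ρ := by
        rw [hρ, erase_right_comm, insert_erase]; exact mem_erase.mpr ⟨hwv.symm, hv⟩
      have h3 : sg K v σ = sg K v (insert w ρ) := by rw [← h1, sg_erase_self]
      have h4 : sg K w σ = sg K w (insert v ρ) := by rw [← h2, sg_erase_self]
      rw [h3, h4, h1, h2, sg_insert_self, sg_insert_self]
      have := sg_anti (K := K) (σ := ρ) hwv.symm (v := v) (w := w)
        (by rw [hρ]; simp) (by rw [hρ]; simp)
      linear_combination this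
    linear_combination (f ((σ.erase w).erase v)) * key
  · rintro ⟨v, w⟩ hp _
    simp only [mem_sigma, mem_erase] at hp
    intro h
    simp only [Sigma.mk.injEq] at h
    exact hp.2.1 h.1
  · rintro ⟨v, w⟩ hp
    simp only [mem_sigma, mem_erase] at hp ⊢
    exact ⟨hp.2.2, hp.2.1.symm, hp.1⟩
  · rintro ⟨v, w⟩ hp
    rfl

lemma up_add (f g : Finset V → K) (σ : Finset V) : up (f + g) σ = up f σ + up g σ := by
  unfold up
  simp only [Pi.add_apply, mul_add, sum_add_distrib]

lemma up_sub (f g : Finset V → K) (σ : Finset V) : up (f - g) σ = up f σ - up g σ := by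
  unfold up
  simp only [Pi.sub_apply, mul_sub, sum_sub_distrib]

lemma up_zero (σ : Finset V) : up (0 : Finset V → K) σ = 0 := by
  unfold up; simp

lemma up_congr {f g : Finset V → K} {σ : Finset V} (h : ∀ v ∈ σ, f (σ.erase v) = g (σ.erase v)) :
    up f σ = up g σ := by
  unfold up
  exact sum_congr rfl fun v hv => by rw [h v hv]

lemma up_eq_zero {f : Finset V → K} {σ : Finset V} (h : ∀ v ∈ σ, f (σ.erase v) = 0) :
    up f σ = 0 := by
  unfold up
  exact sum_eq_zero fun v hv => by rw [h v hv, mul_zero]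

open scoped Classical in
/-- restriction to a family -/
noncomputable def cut (F : Set (Finset V)) (f : Finset V → K) (σ : Finset V) : K :=
  if σ ∈ F then f σ else 0

lemma cut_of_mem {F : Set (Finset V)} {f : Finset V → K} {σ : Finset V} (h : σ ∈ F) :
    cut F f σ = f σ := by unfold cut; rw [if_pos h]

lemma cut_of_not_mem {F : Set (Finset V)} {f : Finset V → K} {σ : Finset V} (h : σ ∉ F) :
    cut F f σ = 0 := by unfold cut; rw [if_neg h]

/-- convexity of a family of finite sets -/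
def Cvx (F : Set (Finset V)) : Prop :=
  ∀ ρ σ τ : Finset V, ρ ⊆ σ → σ ⊆ τ → ρ ∈ F → τ ∈ F → σ ∈ F

/-- `f` is supported on the members of `F` of cardinality `n` -/
def Sup (F : Set (Finset V)) (n : ℕ) (f : Finset V → K) : Prop :=
  ∀ σ, f σ ≠ 0 → σ ∈ F ∧ σ.card = n

/-- `f` is supported on the members of `F` of cardinality `n - 1` (empty if `n = 0`) -/
def SupP (F : Set (Finset V)) (n : ℕ) (f : Finset V → K) : Prop :=
  ∀ σ, f σ ≠ 0 → σ ∈ F ∧ σ.card + 1 = n

/-- exactness of the cochain complex spanned by `F` at cardinality `n` -/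
def Ex (K : Type*) [CommRing K] (F : Set (Finset V)) (n : ℕ) : Prop :=
  ∀ f : Finset V → K, Sup F n f → (∀ σ ∈ F, up f σ = 0) →
    ∃ g : Finset V → K, SupP F n g ∧ ∀ σ ∈ F, up g σ = f σ

lemma up_cut_up {F : Set (Finset V)} (hF : Cvx F) {f : Finset V → K}
    (hf : ∀ σ, f σ ≠ 0 → σ ∈ F) {σ : Finset V} (hσ : σ ∈ F) : up (cut F (up f)) σ = 0 := by
  rw [← up_up f σ]
  apply up_congr
  intro v hv
  by_cases h : σ.erase v ∈ F
  · rw [cut_of_mem h]
  · rw [cut_of_not_mem h]
    symm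
    apply up_eq_zero
    intro w hw
    by_contra hne
    exact h (hF _ _ _ (erase_subset w _) (erase_subset v _) (hf _ hne) hσ)

lemma Sup.sub {F : Set (Finset V)} {n : ℕ} {f g : Finset V → K} (hf : Sup F n f) (hg : Sup F n g) :
    Sup F n (f - g) := by
  intro σ h
  by_cases h1 : f σ = 0
  · apply hg; intro h2; apply h; simp [h1, h2]
  · exact hf _ h1

lemma SupP.sub {F : Set (Finset V)} {n : ℕ} {f g : Finset V → K} (hf : SupP F n f) (hg : SupP F n g) :
    SupP F n (f - g) := by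
  intro σ h
  by_cases h1 : f σ = 0
  · apply hg; intro h2; apply h; simp [h1, h2]
  · exact hf _ h1

lemma SupP.add {F : Set (Finset V)} {n : ℕ} {f g : Finset V → K} (hf : SupP F n f) (hg : SupP F n g) :
    SupP F n (f + g) := by
  intro σ h
  by_cases h1 : f σ = 0
  · apply hg; intro h2; apply h; simp [h1, h2]
  · exact hf _ h1

lemma sup_cut {F A : Set (Finset V)} {n : ℕ} {f : Finset V → K} (hf : Sup F n f) : Sup A n (cut A f) := by
  intro σ h
  by_cases h1 : σ ∈ A
  · rw [cut_of_mem h1] at h; exact ⟨h1, (hf _ h).2⟩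
  · rw [cut_of_not_mem h1] at h; exact absurd rfl h

lemma supP_cut {F A : Set (Finset V)} {n : ℕ} {f : Finset V → K} (hf : SupP F n f) : SupP A n (cut A f) := by
  intro σ h
  by_cases h1 : σ ∈ A
  · rw [cut_of_mem h1] at h; exact ⟨h1, (hf _ h).2⟩
  · rw [cut_of_not_mem h1] at h; exact absurd rfl h

lemma SupP.mono {F A : Set (Finset V)} {n : ℕ} {f : Finset V → K} (hf : SupP A n f) (h : A ⊆ F) :
    SupP F n f := fun σ hσ => ⟨h (hf σ hσ).1, (hf σ hσ).2⟩

lemma Sup.mono {F A : Set (Finset V)} {n : ℕ} {f : Finset V → K} (hf : Sup A n f) (h : A ⊆ F) :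
    Sup F n f := fun σ hσ => ⟨h (hf σ hσ).1, (hf σ hσ).2⟩

/-- cardinality bookkeeping: the operator raises the size by one -/
lemma card_of_up_ne {F : Set (Finset V)} {n : ℕ} {f : Finset V → K} (hf : SupP F n f) {σ : Finset V}
    (h : up f σ ≠ 0) : σ.card = n := by
  by_contra hne
  apply h
  apply up_eq_zero
  intro v hv
  by_contra h2
  have := (hf _ h2).2
  rw [card_erase_of_mem hv] at this
  have : 0 < σ.card := card_pos.mpr ⟨v, hv⟩
  omega

lemma sup_cut_up {F : Set (Finset V)} {n : ℕ} {f : Finset V → K} (hf : SupP F n f) :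
    Sup F n (cut F (up f)) := by
  intro σ h
  by_cases h1 : σ ∈ F
  · rw [cut_of_mem h1] at h; exact ⟨h1, card_of_up_ne hf h⟩
  · rw [cut_of_not_mem h1] at h; exact absurd rfl h

/-- two-step filtration -/
theorem Ex.union {A B F : Set (Finset V)} (hF : Cvx F) (hAF : ∀ σ, σ ∈ F ↔ σ ∈ A ∨ σ ∈ B)
    (hAB : ∀ σ ∈ A, σ ∉ B) (hlow : ∀ σ ∈ A, ∀ v ∈ σ, σ.erase v ∉ B) {n : ℕ}
    (hA : Ex K A n) (hB : Ex K B n) : Ex K F n := by
  intro f hf hcyc
  have hAF' : A ⊆ F := fun σ h => (hAF σ).2 (Or.inl h)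
  have hBF' : B ⊆ F := fun σ h => (hAF σ).2 (Or.inr h)
  -- the part on A
  obtain ⟨gA, hgA, hgA2⟩ := hA (cut A f) (sup_cut hf) (by
    intro σ hσ
    rw [← hcyc σ (hAF' hσ)]
    apply up_congr
    intro v hv
    by_cases h : σ.erase v ∈ A
    · rw [cut_of_mem h]
    · rw [cut_of_not_mem h]
      symm
      by_contra hne
      rcases (hAF _).1 (hf _ hne).1 with h1 | h1
      · exact h h1
      · exact hlow σ hσ v hv h1)
  have hgAF : SupP F n gA := hgA.mono hAF'
  set f' : Finset V → K := f - cut F (up gA) with hf'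
  have hf'sup : Sup F n f' := hf.sub (sup_cut_up hgAF)
  have hf'A : ∀ σ ∈ A, f' σ = 0 := by
    intro σ hσ
    rw [hf', Pi.sub_apply, cut_of_mem (hAF' hσ), hgA2 σ hσ, cut_of_mem hσ, sub_self]
  have hf'cyc : ∀ σ ∈ F, up f' σ = 0 := by
    intro σ hσ
    rw [hf', up_sub, hcyc σ hσ, up_cut_up hF (fun τ hτ => (hgAF τ hτ).1) hσ, sub_zero]
  obtain ⟨gB, hgB, hgB2⟩ := hB (cut B f') (sup_cut hf'sup) (by
    intro σ hσ
    rw [← hf'cyc σ (hBF' hσ)]
    apply up_congr
    intro v hv
    by_cases h : σ.erase v ∈ B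
    · rw [cut_of_mem h]
    · rw [cut_of_not_mem h]
      symm
      by_contra hne
      rcases (hAF _).1 (hf'sup _ hne).1 with h1 | h1
      · exact hne (hf'A _ h1)
      · exact h h1)
  refine ⟨gA + gB, hgAF.add (hgB.mono hBF'), ?_⟩
  intro σ hσ
  rw [up_add]
  rcases (hAF σ).1 hσ with h | h
  · have : up gB σ = 0 := by
      apply up_eq_zero
      intro v hv
      by_contra hne
      exact hlow σ h v hv (hgB _ hne).1
    rw [this, add_zero, hgA2 σ h, cut_of_mem h]
  · rw [hgB2 σ h, cut_of_mem h, hf', Pi.sub_apply, cut_of_mem hσ]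
    ring

/-- the upper part of a family -/
theorem Ex.upper {A B F : Set (Finset V)} (hF : Cvx F) (hAF : ∀ σ, σ ∈ F ↔ σ ∈ A ∨ σ ∈ B)
    (hAB : ∀ σ ∈ A, σ ∉ B) (hlow : ∀ σ ∈ A, ∀ v ∈ σ, σ.erase v ∉ B) {n : ℕ}
    (hFn : Ex K F (n + 1)) (hA : Ex K A n) : Ex K B (n + 1) := by
  intro f hf hcyc
  have hAF' : A ⊆ F := fun σ h => (hAF σ).2 (Or.inl h)
  have hBF' : B ⊆ F := fun σ h => (hAF σ).2 (Or.inr h)
  have hfA : ∀ σ ∈ A, up f σ = 0 := by
    intro σ hσ
    apply up_eq_zero
    intro v hv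
    by_contra hne
    exact hlow σ hσ v hv (hf _ hne).1
  obtain ⟨g, hg, hg2⟩ := hFn f (hf.mono hBF') (by
    intro σ hσ
    rcases (hAF σ).1 hσ with h | h
    · exact hfA σ h
    · exact hcyc σ h)
  have hgA : Sup A n (cut A g) := by
    intro σ h
    by_cases h1 : σ ∈ A
    · rw [cut_of_mem h1] at h
      exact ⟨h1, by have := (hg _ h).2; omega⟩
    · rw [cut_of_not_mem h1] at h; exact absurd rfl h
  obtain ⟨h, hh, hh2⟩ := hA (cut A g) hgA (by
    intro σ hσ
    have h1 : up g σ = 0 := by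
      rw [hg2 σ (hAF' hσ)]
      by_contra hne
      exact hAB σ hσ (hf _ hne).1
    rw [← h1]
    apply up_congr
    intro v hv
    by_cases h : σ.erase v ∈ A
    · rw [cut_of_mem h]
    · rw [cut_of_not_mem h]
      symm
      by_contra hne
      rcases (hAF _).1 (hg _ hne).1 with h2 | h2
      · exact h h2
      · exact hlow σ hσ v hv h2)
  have hhF : SupP F n h := hh.mono hAF'
  refine ⟨g - cut F (up h), ?_, ?_⟩
  · intro σ hne
    have hσF : σ ∈ F ∧ σ.card + 1 = n + 1 := by
      by_cases h1 : g σ = 0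
      · have : cut F (up h) σ ≠ 0 := by
          intro h2; apply hne; simp [h1, h2]
        have := sup_cut_up hhF σ this
        exact ⟨this.1, by omega⟩
      · exact hg _ h1
    refine ⟨?_, hσF.2⟩
    rcases (hAF σ).1 hσF.1 with h1 | h1
    · exfalso
      apply hne
      rw [Pi.sub_apply, cut_of_mem hσF.1, hh2 σ h1, cut_of_mem h1, sub_self]
    · exact h1
  · intro σ hσ
    rw [up_sub, hg2 σ (hBF' hσ), up_cut_up hF (fun τ hτ => (hhF τ hτ).1) (hBF' hσ), sub_zero]

/-- the lower part of a family -/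
theorem Ex.lower {A B F : Set (Finset V)} (hF : Cvx F) (hAF : ∀ σ, σ ∈ F ↔ σ ∈ A ∨ σ ∈ B)
    (hAB : ∀ σ ∈ A, σ ∉ B) (hlow : ∀ σ ∈ A, ∀ v ∈ σ, σ.erase v ∉ B) {n : ℕ}
    (hFn : Ex K F n) (hB : Ex K B (n + 1)) : Ex K A n := by
  intro f hf hcyc
  have hAF' : A ⊆ F := fun σ h => (hAF σ).2 (Or.inl h)
  have hBF' : B ⊆ F := fun σ h => (hAF σ).2 (Or.inr h)
  have hfF : Sup F n f := hf.mono hAF'
  have hr : Sup B (n + 1) (cut B (up f)) := by
    intro σ h
    by_cases h1 : σ ∈ B
    · rw [cut_of_mem h1] at h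
      refine ⟨h1, card_of_up_ne (F := F) (f := f) ?_ h⟩
      intro τ hτ
      exact ⟨(hfF τ hτ).1, by rw [(hfF τ hτ).2]⟩
    · rw [cut_of_not_mem h1] at h; exact absurd rfl h
  have hcutF : ∀ σ ∈ F, σ ∉ B → up f σ = 0 := by
    intro σ hσ hB'
    rcases (hAF σ).1 hσ with h | h
    · exact hcyc σ h
    · exact absurd h hB'
  obtain ⟨h, hh, hh2⟩ := hB (cut B (up f)) hr (by
    intro σ hσ
    rw [← up_cut_up hF (f := f) (fun τ hτ => (hfF τ hτ).1) (hBF' hσ)]
    apply up_congr
    intro v hv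
    by_cases h1 : σ.erase v ∈ B
    · rw [cut_of_mem h1, cut_of_mem (hBF' h1)]
    · rw [cut_of_not_mem h1]
      by_cases h2 : σ.erase v ∈ F
      · rw [cut_of_mem h2, hcutF _ h2 h1]
      · rw [cut_of_not_mem h2])
  have hhn : Sup F n h := fun σ hσ => ⟨hBF' (hh σ hσ).1, by have := (hh σ hσ).2; omega⟩
  have hhA : ∀ σ ∈ A, up h σ = 0 := by
    intro σ hσ
    apply up_eq_zero
    intro v hv
    by_contra hne
    exact hlow σ hσ v hv (hh _ hne).1
  obtain ⟨g, hg, hg2⟩ := hFn (f - h) (hfF.sub hhn) (by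
    intro σ hσ
    rw [up_sub]
    rcases (hAF σ).1 hσ with h1 | h1
    · rw [hcyc σ h1, hhA σ h1, sub_self]
    · rw [hh2 σ h1, cut_of_mem h1, sub_self])
  refine ⟨cut A g, supP_cut hg, ?_⟩
  intro σ hσ
  have h1 : up (cut A g) σ = up g σ := by
    apply up_congr
    intro v hv
    by_cases h : σ.erase v ∈ A
    · rw [cut_of_mem h]
    · rw [cut_of_not_mem h]
      symm
      by_contra hne
      rcases (hAF _).1 (hg _ hne).1 with h2 | h2
      · exact h h2
      · exact hlow σ hσ v hv h2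
  rw [h1, hg2 σ (hAF' hσ), Pi.sub_apply]
  have : h σ = 0 := by
    by_contra hne
    exact hAB σ hσ (hh _ hne).1
  rw [this, sub_zero]

/-- a family with a cone point is exact -/
theorem Ex.cone {F : Set (Finset V)} (x : V) (hx : ∀ σ, x ∉ σ → (σ ∈ F ↔ insert x σ ∈ F)) (n : ℕ) :
    Ex K F n := by
  classical
  intro f hf hcyc
  refine ⟨fun σ => if x ∈ σ then 0 else sg K x σ * f (insert x σ), ?_, ?_⟩
  · intro σ hne
    by_cases h : x ∈ σ
    · simp [h] at hne
    · simp only [h, if_false] at hne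
      have h1 : f (insert x σ) ≠ 0 := fun h2 => hne (by rw [h2, mul_zero])
      have h2 := hf _ h1
      refine ⟨(hx σ h).2 h2.1, ?_⟩
      rw [card_insert_of_notMem h] at h2
      exact h2.2
  · intro σ hσ
    by_cases h : x ∈ σ
    · -- only the term v = x survives
      unfold up
      rw [Finset.sum_eq_single x]
      · simp only [mem_erase, ne_eq, not_true_eq_false, false_and, if_false]
        rw [insert_erase h, sg_erase_self, ← mul_assoc, sg_mul_self, one_mul]
      · intro v hv hvx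
        have : x ∈ σ.erase v := mem_erase.mpr ⟨hvx.symm, h⟩
        simp [this]
      · intro h'; exact absurd h h'
    · have h1 : insert x σ ∈ F := (hx σ h).1 hσ
      have h2 := hcyc _ h1
      unfold up at h2
      rw [sum_insert h, erase_insert h] at h2
      -- multiply by the sign of x
      have h3 : f σ = - (sg K x σ * ∑ v ∈ σ, sg K v (insert x σ) * f ((insert x σ).erase v)) := by
        rw [sg_insert_self] at h2
        have h4 : sg K x σ * (sg K x σ * f σ) = f σ := by rw [← mul_assoc, sg_mul_self, one_mul]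
        linear_combination (sg K x σ) * h2 - h4
      rw [h3, mul_sum, ← sum_neg_distrib]
      unfold up
      apply sum_congr rfl
      intro v hv
      have hvx : v ≠ x := fun h' => h (h' ▸ hv)
      have hx' : x ∉ σ.erase v := fun h' => h (mem_of_mem_erase h')
      show sg K v σ * (if x ∈ σ.erase v then 0 else sg K x (σ.erase v) * f (insert x (σ.erase v))) = _
      rw [if_neg hx']
      have e1 : (insert x σ).erase v = insert x (σ.erase v) := by
        rw [erase_insert_of_ne hvx.symm]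
      rw [e1]
      have key := sg_anti (K := K) (σ := σ.erase v) (v := v) (w := x) hvx (by simp) hx'
      have e2 : sg K v (insert x σ) = sg K v (insert x (σ.erase v)) := by
        rw [← e1, sg_erase_self]
      have e3 : sg K x σ = sg K x (insert v (σ.erase v)) := by rw [insert_erase hv]
      rw [e2, e3, ← sg_erase_self v σ]
      have s1 := sg_mul_self (K := K) v (σ.erase v)
      have s2 := sg_mul_self (K := K) x (σ.erase v)
      have s3 := sg_mul_self (K := K) v (insert x (σ.erase v))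
      have s4 := sg_mul_self (K := K) x (insert v (σ.erase v))
      set a := sg K v (σ.erase v)
      set b := sg K x (σ.erase v)
      set c := sg K x (insert v (σ.erase v))
      set d := sg K v (insert x (σ.erase v))
      set F' := f (insert x (σ.erase v))
      -- a c = - b d ; want a b F = - (c d F)
      have : a * b = - (c * d) := by
        have h5 : a * c * (b * c) = - (b * d) * (b * c) := by rw [key]
        have h6 : a * b * (c * c) = - (c * d) * (b * b) := by linear_combination h5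
        rw [s4, s2] at h6
        linear_combination h6
      linear_combination F' * this

/-- trivial exactness above the maximal size -/
theorem Ex.of_card {F : Set (Finset V)} {n : ℕ} (h : ∀ σ ∈ F, σ.card ≠ n) : Ex K F n := by
  intro f hf hcyc
  refine ⟨0, fun σ hσ => absurd rfl hσ, fun σ hσ => ?_⟩
  rw [up_zero]
  symm
  by_contra hne
  exact h σ (hf _ hne).1 (hf _ hne).2

theorem Ex.congr {F G : Set (Finset V)} {n : ℕ} (h : ∀ σ, σ ∈ F ↔ σ ∈ G) (hF : Ex K F n) : Ex K G n := by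
  have : F = G := Set.ext h
  rw [← this]; exact hF

/-- two subfamilies closed under faces -/
theorem Ex.mv {A B F : Set (Finset V)} (hF : Cvx F) (hB' : Cvx B)
    (hAF : ∀ σ, σ ∈ F ↔ σ ∈ A ∨ σ ∈ B)
    (hA1 : ∀ σ ∈ A, ∀ v ∈ σ, σ.erase v ∈ F → σ.erase v ∈ A)
    (hB1 : ∀ σ ∈ B, ∀ v ∈ σ, σ.erase v ∈ F → σ.erase v ∈ B) {n : ℕ}
    (hA : Ex K A (n + 1)) (hB : Ex K B (n + 1)) (hAB : Ex K (A ∩ B) n) : Ex K F (n + 1) := by
  have h1 : Ex K (B \ A) (n + 1) := by
    refine Ex.upper (A := A ∩ B) (B := B \ A) (F := B) hB' ?_ ?_ ?_ hB hAB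
    · intro σ
      simp only [Set.mem_inter_iff, Set.mem_sdiff]
      tauto
    · rintro σ ⟨h1, h2⟩ ⟨h3, h4⟩
      exact h4 h1
    · rintro σ ⟨h1, h2⟩ v hv ⟨h3, h4⟩
      exact h4 (hA1 σ h1 v hv ((hAF _).2 (Or.inr h3)))
  refine Ex.union (A := A) (B := B \ A) hF ?_ ?_ ?_ hA h1
  · intro σ
    rw [hAF]
    simp only [Set.mem_sdiff]
    tauto
  · rintro σ h1 ⟨h3, h4⟩
    exact h4 h1
  · rintro σ h1 v hv ⟨h3, h4⟩
    exact h4 (hA1 σ h1 v hv ((hAF _).2 (Or.inr h3)))

/-- direct sum over labels -/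
theorem Ex.labels {F : Set (Finset V)} {L : Type*} (lab : Finset V → L)
    (hlab : ∀ σ ∈ F, ∀ v ∈ σ, σ.erase v ∈ F → lab (σ.erase v) = lab σ) {n : ℕ}
    (h : ∀ l, Ex K {σ | σ ∈ F ∧ lab σ = l} n) : Ex K F n := by
  intro f hf hcyc
  have H : ∀ l, ∃ g : Finset V → K, SupP {σ | σ ∈ F ∧ lab σ = l} n g ∧
      ∀ σ ∈ {σ | σ ∈ F ∧ lab σ = l}, up g σ = cut {σ | σ ∈ F ∧ lab σ = l} f σ := by
    intro l
    refine h l _ (sup_cut hf) ?_
    intro σ hσ
    rw [← hcyc σ hσ.1]
    apply up_congr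
    intro v hv
    by_cases h1 : σ.erase v ∈ F
    · rw [cut_of_mem]
      exact ⟨h1, by rw [hlab σ hσ.1 v hv h1]; exact hσ.2⟩
    · rw [cut_of_not_mem (fun h2 => h1 h2.1)]
      symm
      by_contra hne
      exact h1 (hf _ hne).1
  choose g hg hg2 using H
  refine ⟨fun σ => g (lab σ) σ, ?_, ?_⟩
  · intro σ hne
    have := hg _ _ hne
    exact ⟨this.1.1, this.2⟩
  · intro σ hσ
    have h1 := hg2 (lab σ) σ ⟨hσ, rfl⟩
    rw [cut_of_mem (show σ ∈ {τ | τ ∈ F ∧ lab τ = lab σ} from ⟨hσ, rfl⟩)] at h1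
    rw [← h1]
    apply up_congr
    intro v hv
    by_cases h2 : σ.erase v ∈ F
    · rw [hlab σ hσ v hv h2]
    · have e1 : g (lab (σ.erase v)) (σ.erase v) = 0 := by
        by_contra hne; exact h2 (hg _ _ hne).1.1
      have e2 : g (lab σ) (σ.erase v) = 0 := by
        by_contra hne; exact h2 (hg _ _ hne).1.1
      rw [e1, e2]

/-- filtration by a rank and a label -/
theorem Ex.filtration {F : Set (Finset V)} (hF : Cvx F) (rk : Finset V → ℕ) {L : Type*}
    (lab : Finset V → L) (R : ℕ) (hR : ∀ σ ∈ F, rk σ < R)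
    (hmono : ∀ σ ∈ F, ∀ v ∈ σ, σ.erase v ∈ F →
      (rk (σ.erase v) < rk σ ∨ (rk (σ.erase v) = rk σ ∧ lab (σ.erase v) = lab σ))) {n : ℕ}
    (h : ∀ r l, Ex K {σ | σ ∈ F ∧ rk σ = r ∧ lab σ = l} n) : Ex K F n := by
  -- monotonicity along inclusions inside F
  have hmono' : ∀ σ ∈ F, ∀ τ ∈ F, τ ⊆ σ → rk τ ≤ rk σ := by
    intro σ hσ
    induction' hc : σ.card using Nat.strong_induction_on with c ih generalizing σ
    intro τ hτ hsub
    by_cases heq : τ = σ
    · rw [heq]
    · obtain ⟨v, hv, hvτ⟩ := Finset.exists_of_ssubset (lt_of_le_of_ne hsub heq)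
      have h1 : τ ⊆ σ.erase v := fun x hx => mem_erase.mpr ⟨fun h => hvτ (h ▸ hx), hsub hx⟩
      have h2 : σ.erase v ∈ F := hF _ _ _ h1 (erase_subset _ _) hτ hσ
      have h3 := ih (σ.erase v).card (by rw [card_erase_of_mem hv, ← hc]; have : 0 < σ.card := card_pos.mpr ⟨v, hv⟩; omega)
        (σ.erase v) h2 rfl τ hτ h1
      rcases hmono σ hσ v hv h2 with h4 | h4 <;> omega
  have key : ∀ r, Ex K {σ | σ ∈ F ∧ rk σ < r} n := by
    intro r
    induction r with
    | zero => exact Ex.of_card (by rintro σ ⟨_, h⟩; omega)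
    | succ r ih =>
      refine Ex.union (A := {σ | σ ∈ F ∧ rk σ < r}) (B := {σ | σ ∈ F ∧ rk σ = r}) ?_ ?_ ?_ ?_ ih ?_
      · rintro ρ σ τ h1 h2 ⟨h3, h3'⟩ ⟨h4, h4'⟩
        have h5 := hF _ _ _ h1 h2 h3 h4
        exact ⟨h5, lt_of_le_of_lt (hmono' τ h4 σ h5 h2) h4'⟩
      · intro σ
        simp only [Set.mem_ofPred_eq]
        constructor
        · rintro ⟨h1, h2⟩
          rcases Nat.lt_succ_iff_lt_or_eq.mp h2 with h3 | h3
          · exact Or.inl ⟨h1, h3⟩
          · exact Or.inr ⟨h1, h3⟩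
        · rintro (⟨h1, h2⟩ | ⟨h1, h2⟩)
          · exact ⟨h1, by omega⟩
          · exact ⟨h1, by omega⟩
      · rintro σ ⟨h1, h2⟩ ⟨h3, h4⟩
        omega
      · rintro σ ⟨h1, h2⟩ v hv ⟨h3, h4⟩
        have := hmono' σ h1 _ h3 (erase_subset _ _)
        omega
      · refine Ex.labels lab ?_ ?_
        · rintro σ ⟨h1, h2⟩ v hv ⟨h3, h4⟩
          rcases hmono σ h1 v hv h3 with h5 | h5
          · omega
          · exact h5.2
        · intro l
          refine Ex.congr ?_ (h r l)
          intro σ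
          simp only [Set.mem_ofPred_eq]
          tauto
  refine Ex.congr ?_ (key R)
  intro σ
  exact ⟨fun h => h.1, fun h => ⟨h, hR σ h⟩⟩

end

end Pool.Agent.Helper82.Gap
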