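import Mathlib
import Pool.Agent.Helper82.GapChain

set_option autoImplicit false
set_option linter.unusedSectionVars false
set_option linter.unusedVariables false

namespace Pool.Agent.Helper82.Gap

open Finset

section
variable {V : Type*} [LinearOrder V] {K : Type*} [CommRing K]

open scoped Classical in
/-- neighbours of `S` inside `Y` -/
noncomputable def nb (G : SimpleGraph V) (S Y : Finset V) : Finset V :=
  Y.filter (fun y => ∃ x ∈ S, G.Adj x y)

lemma mem_nb {G : SimpleGraph V} {S Y : Finset V} {y : V} :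
    y ∈ nb G S Y ↔ y ∈ Y ∧ ∃ x ∈ S, G.Adj x y := by
  unfold nb; simp

lemma nb_subset (G : SimpleGraph V) (S Y : Finset V) : nb G S Y ⊆ Y := fun y hy => (mem_nb.1 hy).1

lemma nb_mono {G : SimpleGraph V} {S S' Y Y' : Finset V} (h : S ⊆ S') (h' : Y ⊆ Y') :
    nb G S Y ⊆ nb G S' Y' := by
  intro y hy
  rw [mem_nb] at hy ⊢
  obtain ⟨h1, x, hx, h2⟩ := hy
  exact ⟨h' h1, x, h hx, h2⟩

/-- the Hall condition for matching `W` into `Y` -/
def Hall (G : SimpleGraph V) (W Y : Finset V) : Prop :=
  ∀ S ⊆ W, S.card ≤ (nb G S Y).card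

lemma Hall.mono {G : SimpleGraph V} {W Y Y' : Finset V} (h : Hall G W Y) (hY : Y ⊆ Y') :
    Hall G W Y' := fun S hS => (h S hS).trans (card_le_card (nb_mono (Subset.refl _) hY))

/-- the deficiency -/
noncomputable def dfc (G : SimpleGraph V) (W X : Finset V) : ℕ :=
  W.powerset.sup (fun S => S.card - (nb G S X).card)

lemma le_dfc {G : SimpleGraph V} {W X S : Finset V} (hS : S ⊆ W) :
    S.card ≤ (nb G S X).card + dfc G W X := by
  have := Finset.le_sup (f := fun S => S.card - (nb G S X).card) (mem_powerset.mpr hS)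
  unfold dfc
  have h2 : S.card - (nb G S X).card ≤ W.powerset.sup (fun S => S.card - (nb G S X).card) := this
  omega

lemma exists_dfc (G : SimpleGraph V) (W X : Finset V) :
    ∃ S ⊆ W, S.card = (nb G S X).card + dfc G W X := by
  by_cases h : dfc G W X = 0
  · refine ⟨∅, empty_subset _, ?_⟩
    rw [h]
    simp [nb]
  · obtain ⟨S, hS, hS2⟩ := Finset.exists_mem_eq_sup W.powerset ⟨∅, mem_powerset.mpr (empty_subset _)⟩
      (fun S => S.card - (nb G S X).card)
    refine ⟨S, mem_powerset.mp hS, ?_⟩
    have h1 : dfc G W X = S.card - (nb G S X).card := hS2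
    omega

lemma dfc_anti {G : SimpleGraph V} {W X X' : Finset V} (h : X ⊆ X') : dfc G W X' ≤ dfc G W X := by
  obtain ⟨S, hS, hS2⟩ := exists_dfc G W X'
  have h1 := le_dfc (G := G) (X := X) hS
  have h2 := card_le_card (nb_mono (G := G) (Subset.refl S) h)
  omega

lemma dfc_le_card (G : SimpleGraph V) (W X : Finset V) : dfc G W X ≤ W.card := by
  obtain ⟨S, hS, hS2⟩ := exists_dfc G W X
  have := card_le_card hS
  omega

lemma hall_iff_dfc {G : SimpleGraph V} {W X : Finset V} : Hall G W X ↔ dfc G W X = 0 := by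
  constructor
  · intro h
    obtain ⟨S, hS, hS2⟩ := exists_dfc G W X
    have := h S hS
    omega
  · intro h S hS
    have := le_dfc (G := G) (X := X) hS
    omega

lemma nb_submod (G : SimpleGraph V) {S S' X Y : Finset V} (hXY : X ⊆ Y) :
    (nb G (S ∪ S') X).card + (nb G (S ∩ S') Y).card ≤ (nb G S Y).card + (nb G S' X).card := by
  have h1 : nb G (S ∪ S') X = nb G S X ∪ nb G S' X := by
    ext y
    simp only [mem_union, mem_nb]
    constructor
    · rintro ⟨h1, x, hx | hx, h2⟩
      · exact Or.inl ⟨h1, x, hx, h2⟩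
      · exact Or.inr ⟨h1, x, hx, h2⟩
    · rintro (⟨h1, x, hx, h2⟩ | ⟨h1, x, hx, h2⟩)
      · exact ⟨h1, x, Or.inl hx, h2⟩
      · exact ⟨h1, x, Or.inr hx, h2⟩
  have h2 : nb G (S ∩ S') Y ⊆ (nb G S Y \ nb G S X) ∪ (nb G S X ∩ nb G S' X) := by
    intro y hy
    simp only [mem_union, mem_sdiff, mem_inter, mem_nb] at hy ⊢
    obtain ⟨h1, x, ⟨hx, hx'⟩, h2⟩ := hy
    by_cases hyX : y ∈ X
    · exact Or.inr ⟨⟨hyX, x, hx, h2⟩, ⟨hyX, x, hx', h2⟩⟩
    · exact Or.inl ⟨⟨h1, x, hx, h2⟩, fun h => hyX h.1⟩
  have h3 := card_union_add_card_inter (nb G S X) (nb G S' X)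
  have h4 := (card_le_card h2).trans (card_union_le _ _)
  have h5 : nb G S X ⊆ nb G S Y := nb_mono (Subset.refl _) hXY
  have h6 := card_sdiff_add_card_eq_card h5
  rw [h1]
  omega

lemma hall_drop {G : SimpleGraph V} {W X Y : Finset V} {x : V} (hXY : X ⊆ Y)
    (hd : dfc G W X ≤ dfc G W (insert x X)) (hH : Hall G W (insert x Y)) : Hall G W Y := by
  by_cases hxY : x ∈ Y
  · rwa [insert_eq_of_mem hxY] at hH
  have hxX : x ∉ X := fun h => hxY (hXY h)
  intro S hS
  by_contra hcon
  obtain ⟨S0, hS0, hS0c⟩ := exists_dfc G W (insert x X)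
  have h1 := le_dfc (G := G) (X := X) hS0
  have hno : ∀ u ∈ S0, ¬ G.Adj u x := by
    intro u hu hadj
    have h2 : nb G S0 (insert x X) = insert x (nb G S0 X) := by
      ext y
      simp only [mem_insert, mem_nb]
      constructor
      · rintro ⟨h1 | h1, h2⟩
        · exact Or.inl h1
        · exact Or.inr ⟨h1, h2⟩
      · rintro (h1 | ⟨h1, h2⟩)
        · rw [h1]; exact ⟨Or.inl rfl, u, hu, hadj⟩
        · exact ⟨Or.inr h1, h2⟩
    rw [h2, card_insert_of_notMem (fun h => hxX (mem_nb.1 h).1)] at hS0c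
    omega
  have e1 : nb G S0 (insert x X) = nb G S0 X := by
    ext y
    simp only [mem_insert, mem_nb]
    constructor
    · rintro ⟨h1 | h1, u, hu, h2⟩
      · rw [h1] at h2; exact absurd h2 (hno u hu)
      · exact ⟨h1, u, hu, h2⟩
    · rintro ⟨h1, h2⟩
      exact ⟨Or.inr h1, h2⟩
  have e2 : nb G (S ∩ S0) (insert x Y) = nb G (S ∩ S0) Y := by
    ext y
    simp only [mem_insert, mem_nb, mem_inter]
    constructor
    · rintro ⟨h1 | h1, u, hu, h2⟩
      · rw [h1] at h2; exact absurd h2 (hno u hu.2)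
      · exact ⟨h1, u, hu, h2⟩
    · rintro ⟨h1, h2⟩
      exact ⟨Or.inr h1, h2⟩
  rw [e1] at hS0c
  have h3 := nb_submod G (S := S) (S' := S0) hXY
  have h4 := le_dfc (G := G) (X := X) (union_subset hS hS0)
  have h5 := hH (S ∩ S0) (inter_subset_left.trans hS)
  rw [e2] at h5
  have h6 := card_union_add_card_inter S S0
  have h7 := dfc_anti (G := G) (W := W) (subset_insert x X)
  omega

/-- The matroid lemma: exactness of the complex of sets satisfying a Hall condition. -/
theorem ex_hall (G : SimpleGraph V) (W : Finset V) (Q : Finset V) : ∀ (P X : Finset V),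
    Disjoint P Q → Disjoint X Q → ∀ n, P.card + dfc G W X < n →
    Ex K {σ : Finset V | P ⊆ σ ∧ σ ⊆ P ∪ Q ∧ Hall G W (X ∪ (σ ∩ Q))} n := by
  classical
  induction Q using Finset.induction_on with
  | empty =>
    intro P X _ _ n hn
    apply Ex.of_card
    rintro σ ⟨h1, h2, _⟩
    rw [union_empty] at h2
    rw [subset_antisymm h2 h1]
    omega
  | insert x Q hxQ ih =>
    intro P X hPQ hXQ n hn
    rw [disjoint_insert_right] at hPQ hXQ
    obtain ⟨hxP, hPQ⟩ := hPQ
    obtain ⟨hxX, hXQ⟩ := hXQ
    by_cases hd : dfc G W X ≤ dfc G W (insert x X)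
    · apply Ex.cone x
      intro σ hxσ
      simp only [Set.mem_ofPred_eq]
      have e1 : σ ∩ insert x Q = σ ∩ Q := by
        ext y; simp only [mem_inter, mem_insert]
        constructor
        · rintro ⟨h1, h2 | h2⟩
          · rw [h2] at h1; exact absurd h1 hxσ
          · exact ⟨h1, h2⟩
        · rintro ⟨h1, h2⟩; exact ⟨h1, Or.inr h2⟩
      have e2 : (insert x σ) ∩ insert x Q = insert x (σ ∩ Q) := by
        rw [← insert_inter_distrib]
      rw [e1, e2]
      constructor
      · rintro ⟨h1, h2, h3⟩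
        refine ⟨h1.trans (subset_insert _ _), ?_, h3.mono (union_subset_union_right (subset_insert _ _))⟩
        intro y hy
        rcases mem_insert.1 hy with h | h
        · rw [h]; simp
        · exact h2 h
      · rintro ⟨h1, h2, h3⟩
        refine ⟨?_, (subset_insert _ _).trans h2, ?_⟩
        · intro y hy
          rcases mem_insert.1 (h1 hy) with h | h
          · rw [h] at hy; exact absurd hy hxP
          · exact h
        · rw [union_insert] at h3
          exact hall_drop subset_union_left hd h3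
    · push Not at hd
      have ihA := ih P X hPQ hXQ n hn
      have ihB := ih (insert x P) (insert x X) (by rw [disjoint_insert_left]; exact ⟨hxQ, hPQ⟩)
        (by rw [disjoint_insert_left]; exact ⟨hxQ, hXQ⟩) n (by rw [card_insert_of_notMem hxP]; omega)
      refine Ex.union (A := {σ : Finset V | P ⊆ σ ∧ σ ⊆ P ∪ Q ∧ Hall G W (X ∪ (σ ∩ Q))})
        (B := {σ : Finset V | insert x P ⊆ σ ∧ σ ⊆ insert x P ∪ Q ∧ Hall G W (insert x X ∪ (σ ∩ Q))})
        ?_ ?_ ?_ ?_ ihA ihB
      · rintro ρ σ τ h1 h2 ⟨h3, h4, h5⟩ ⟨h6, h7, h8⟩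
        exact ⟨h3.trans h1, h2.trans h7, h5.mono (union_subset_union_right (inter_subset_inter_right h1))⟩
      · intro σ
        simp only [Set.mem_ofPred_eq]
        by_cases hxσ : x ∈ σ
        · have e2 : σ ∩ insert x Q = insert x (σ ∩ Q) := by
            ext y; simp only [mem_inter, mem_insert]
            constructor
            · rintro ⟨h1, h2 | h2⟩
              · exact Or.inl h2
              · exact Or.inr ⟨h1, h2⟩
            · rintro (h1 | ⟨h1, h2⟩)
              · rw [h1]; exact ⟨hxσ, Or.inl rfl⟩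
              · exact ⟨h1, Or.inr h2⟩
          have e3 : X ∪ insert x (σ ∩ Q) = insert x (X ∪ (σ ∩ Q)) := union_insert _ _ _
          have e4 : insert x X ∪ (σ ∩ Q) = insert x (X ∪ (σ ∩ Q)) := insert_union _ _ _
          have e5 : insert x P ∪ Q = insert x (P ∪ Q) := insert_union _ _ _
          have e6 : P ∪ insert x Q = insert x (P ∪ Q) := union_insert _ _ _
          rw [e2, e3, e4, e5, e6]
          constructor
          · rintro ⟨h1, h2, h3⟩
            exact Or.inr ⟨insert_subset hxσ h1, h2, h3⟩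
          · rintro (⟨h1, h2, h3⟩ | ⟨h1, h2, h3⟩)
            · exfalso
              rcases mem_union.1 (h2 hxσ) with h | h
              · exact hxP h
              · exact hxQ h
            · exact ⟨(subset_insert _ _).trans h1, h2, h3⟩
        · have e1 : σ ∩ insert x Q = σ ∩ Q := by
            ext y; simp only [mem_inter, mem_insert]
            constructor
            · rintro ⟨h1, h2 | h2⟩
              · rw [h2] at h1; exact absurd h1 hxσ
              · exact ⟨h1, h2⟩
            · rintro ⟨h1, h2⟩; exact ⟨h1, Or.inr h2⟩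
          rw [e1]
          constructor
          · rintro ⟨h1, h2, h3⟩
            refine Or.inl ⟨h1, ?_, h3⟩
            intro y hy
            rcases mem_union.1 (h2 hy) with h | h
            · exact mem_union_left _ h
            · rcases mem_insert.1 h with h | h
              · rw [h] at hy; exact absurd hy hxσ
              · exact mem_union_right _ h
          · rintro (⟨h1, h2, h3⟩ | ⟨h1, h2, h3⟩)
            · refine ⟨h1, h2.trans (union_subset_union_right (subset_insert _ _)), h3⟩
            · exact absurd (h1 (mem_insert_self _ _)) hxσ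
      · rintro σ ⟨h1, h2, h3⟩ ⟨h4, h5, h6⟩
        rcases mem_union.1 (h2 (h4 (mem_insert_self _ _))) with h | h
        · exact hxP h
        · exact hxQ h
      · rintro σ ⟨h1, h2, h3⟩ v hv ⟨h4, h5, h6⟩
        rcases mem_union.1 (h2 (mem_of_mem_erase (h4 (mem_insert_self _ _)))) with h | h
        · exact hxP h
        · exact hxQ h

/-- The form used later. -/
theorem ex_hall' (G : SimpleGraph V) (W P Q : Finset V) (hPQ : Disjoint P Q) {n : ℕ}
    (hn : P.card + W.card < n) :
    Ex K {σ : Finset V | P ⊆ σ ∧ σ ⊆ P ∪ Q ∧ Hall G W (σ ∩ Q)} n := by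
  have := ex_hall (K := K) G W Q P ∅ hPQ (disjoint_empty_left _) n
    (by have := dfc_le_card G W ∅; omega)
  refine Ex.congr ?_ this
  intro σ
  simp

end

end Pool.Agent.Helper82.Gap
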