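import Mathlib
import Pool.Agent.Helper82.GapHall

set_option autoImplicit false
set_option linter.unusedSectionVars false
set_option linter.unusedVariables false

namespace Pool.Agent.Helper82.Gap

open Finset

section
variable {V : Type*} [LinearOrder V]

/-- half-integral covers, doubled: values `0`, `1`, `2` -/
def Cov (G : SimpleGraph V) (σ : Finset V) (x : V → ℕ) : Prop :=
  (∀ v, x v ≤ 2) ∧ ∀ u ∈ σ, ∀ v ∈ σ, G.Adj u v → 2 ≤ x u + x v

/-- the weight of a cover -/
def wt (σ : Finset V) (x : V → ℕ) : ℕ := ∑ v ∈ σ, x v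

/-- twice the fractional cover number -/
noncomputable def t2 (G : SimpleGraph V) (σ : Finset V) : ℕ :=
  sInf {w | ∃ x, Cov G σ x ∧ wt σ x = w}

/-- optimal covers -/
def Opt (G : SimpleGraph V) (σ : Finset V) (x : V → ℕ) : Prop :=
  Cov G σ x ∧ wt σ x = t2 G σ

lemma t2_le {G : SimpleGraph V} {σ : Finset V} {x : V → ℕ} (h : Cov G σ x) : t2 G σ ≤ wt σ x :=
  Nat.sInf_le ⟨x, h, rfl⟩

lemma exists_opt (G : SimpleGraph V) (σ : Finset V) : ∃ x, Opt G σ x := by
  have h : {w | ∃ x, Cov G σ x ∧ wt σ x = w}.Nonempty :=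
    ⟨_, fun _ => 2, ⟨fun _ => le_refl 2, fun _ _ _ _ _ => by norm_num⟩, rfl⟩
  obtain ⟨x, h1, h2⟩ := Nat.sInf_mem h
  exact ⟨x, h1, h2⟩

lemma Opt.of_le {G : SimpleGraph V} {σ : Finset V} {x : V → ℕ} (h : Cov G σ x)
    (hw : wt σ x ≤ t2 G σ) : Opt G σ x := ⟨h, le_antisymm hw (t2_le h)⟩

/-- join -/
def jn (x y : V → ℕ) (v : V) : ℕ :=
  if x v = 1 then y v else if y v = 1 then x v else if x v = y v then x v else 1

/-- meet -/
def mt (x y : V → ℕ) (v : V) : ℕ := if x v = y v then x v else 1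

lemma Cov.jn {G : SimpleGraph V} {σ : Finset V} {x y : V → ℕ} (hx : Cov G σ x) (hy : Cov G σ y) :
    Cov G σ (jn x y) := by
  constructor
  · intro v
    have := hx.1 v; have := hy.1 v
    unfold Gap.jn; split_ifs <;> omega
  · intro u hu v hv huv
    have h1 := hx.2 u hu v hv huv
    have h2 := hy.2 u hu v hv huv
    have := hx.1 v; have := hy.1 v; have := hx.1 u; have := hy.1 u
    unfold Gap.jn; split_ifs <;> omega

lemma Cov.mt {G : SimpleGraph V} {σ : Finset V} {x y : V → ℕ} (hx : Cov G σ x) (hy : Cov G σ y) :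
    Cov G σ (mt x y) := by
  constructor
  · intro v
    have := hx.1 v; have := hy.1 v
    unfold Gap.mt; split_ifs <;> omega
  · intro u hu v hv huv
    have h1 := hx.2 u hu v hv huv
    have h2 := hy.2 u hu v hv huv
    have := hx.1 v; have := hy.1 v; have := hx.1 u; have := hy.1 u
    unfold Gap.mt; split_ifs <;> omega

lemma wt_jn_mt {G : SimpleGraph V} {σ : Finset V} {x y : V → ℕ} (hx : Cov G σ x) (hy : Cov G σ y) :
    wt σ (jn x y) + wt σ (mt x y) = wt σ x + wt σ y := by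
  unfold wt
  rw [← sum_add_distrib, ← sum_add_distrib]
  apply sum_congr rfl
  intro v hv
  have := hx.1 v; have := hy.1 v
  unfold jn mt; split_ifs <;> omega

lemma Opt.jn {G : SimpleGraph V} {σ : Finset V} {x y : V → ℕ} (hx : Opt G σ x) (hy : Opt G σ y) :
    Opt G σ (jn x y) := by
  have h1 := wt_jn_mt hx.1 hy.1
  have h2 := t2_le (hx.1.mt hy.1)
  have h3 := hx.2
  have h4 := hy.2
  exact Opt.of_le (hx.1.jn hy.1) (by omega)

/-- `x` where it is integral, `y` elsewhere -/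
def ov (x y : V → ℕ) (v : V) : ℕ := if x v = 1 then y v else x v

lemma Opt.ov {G : SimpleGraph V} {σ : Finset V} {x y : V → ℕ} (hx : Opt G σ x) (hy : Opt G σ y) :
    Opt G σ (ov x y) := by
  have h : Gap.ov x y = Gap.jn (Gap.jn x y) x := by
    funext v
    have := hx.1.1 v; have := hy.1.1 v
    unfold Gap.ov Gap.jn; split_ifs <;> omega
  rw [h]
  exact (hx.jn hy).jn hx

open scoped Classical in
/-- the least half-set -/
noncomputable def Cmin (G : SimpleGraph V) (σ : Finset V) : Finset V :=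
  σ.filter (fun v => ∀ x, Opt G σ x → x v = 1)

lemma mem_Cmin {G : SimpleGraph V} {σ : Finset V} {v : V} :
    v ∈ Cmin G σ ↔ v ∈ σ ∧ ∀ x, Opt G σ x → x v = 1 := by
  unfold Cmin; simp

lemma exists_opt_min (G : SimpleGraph V) (σ : Finset V) :
    ∃ x, Opt G σ x ∧ ∀ v ∈ σ, (x v = 1 ↔ v ∈ Cmin G σ) := by
  classical
  have hex : ∃ n, ∃ x, Opt G σ x ∧ (σ.filter (fun v => x v = 1)).card = n := by
    obtain ⟨x, hx⟩ := exists_opt G σ
    exact ⟨_, x, hx, rfl⟩
  obtain ⟨x, hx, hxc⟩ := Nat.find_spec hex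
  refine ⟨x, hx, ?_⟩
  intro v hv
  constructor
  · intro hv1
    rw [mem_Cmin]
    refine ⟨hv, fun y hy => ?_⟩
    by_contra hne
    have hz := hx.ov hy
    have hlt : (σ.filter (fun v => ov x y v = 1)).card < (σ.filter (fun v => x v = 1)).card := by
      apply card_lt_card
      constructor
      · intro w hw
        rw [mem_filter] at hw ⊢
        refine ⟨hw.1, ?_⟩
        by_contra h
        have := hw.2
        unfold ov at this
        rw [if_neg h] at this
        exact h this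
      · intro h
        have h1 := h (mem_filter.mpr ⟨hv, hv1⟩)
        rw [mem_filter] at h1
        have := h1.2
        unfold ov at this
        rw [if_pos hv1] at this
        exact hne this
    rw [hxc] at hlt
    exact Nat.find_min hex hlt ⟨_, hz, rfl⟩
  · intro h
    exact (mem_Cmin.1 h).2 x hx

lemma Cov.mono {G : SimpleGraph V} {σ τ : Finset V} {x : V → ℕ} (h : Cov G σ x) (hs : τ ⊆ σ) :
    Cov G τ x := ⟨h.1, fun u hu v hv => h.2 u (hs hu) v (hs hv)⟩

lemma wt_mono {σ τ : Finset V} {x : V → ℕ} (hs : τ ⊆ σ) : wt τ x ≤ wt σ x :=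
  sum_le_sum_of_subset hs

lemma t2_mono {G : SimpleGraph V} {σ τ : Finset V} (hs : τ ⊆ σ) : t2 G τ ≤ t2 G σ := by
  obtain ⟨x, hx⟩ := exists_opt G σ
  rw [← hx.2]
  exact (t2_le (hx.1.mono hs)).trans (wt_mono hs)

lemma wt_erase {σ : Finset V} {x : V → ℕ} {v : V} (hv : v ∈ σ) : x v + wt (σ.erase v) x = wt σ x := by
  unfold wt
  exact add_sum_erase σ x hv

lemma Opt.erase {G : SimpleGraph V} {σ : Finset V} {v : V} (hv : v ∈ σ)
    (ht : t2 G (σ.erase v) = t2 G σ) {x : V → ℕ} (hx : Opt G σ x) :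
    x v = 0 ∧ Opt G (σ.erase v) x := by
  have h1 := wt_erase (x := x) hv
  have h2 := t2_le (hx.1.mono (erase_subset v σ))
  have h3 := hx.2
  exact ⟨by omega, Opt.of_le (hx.1.mono (erase_subset v σ)) (by omega)⟩

lemma Cmin_erase {G : SimpleGraph V} {σ : Finset V} {v : V} (hv : v ∈ σ)
    (ht : t2 G (σ.erase v) = t2 G σ) : Cmin G (σ.erase v) ⊆ Cmin G σ := by
  intro w hw
  rw [mem_Cmin] at hw ⊢
  exact ⟨mem_of_mem_erase hw.1, fun x hx => hw.2 x (Opt.erase hv ht hx).2⟩

/-- the Hall condition for optimal covers -/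
lemma Opt.hall {G : SimpleGraph V} {σ : Finset V} {x : V → ℕ} (hx : Opt G σ x) :
    Hall G (σ.filter (fun v => x v = 2)) (σ.filter (fun v => x v = 0)) := by
  classical
  intro S hS
  by_contra hcon
  push Not at hcon
  set I := σ.filter (fun v => x v = 0) with hI
  set N := nb G S I with hN
  have hS' : ∀ v ∈ S, v ∈ σ ∧ x v = 2 := fun v hv => by
    have := hS hv; rwa [mem_filter] at this
  have hN' : ∀ v ∈ N, v ∈ σ ∧ x v = 0 := fun v hv => by
    have := nb_subset _ _ _ hv; rwa [hI, mem_filter] at this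
  let y : V → ℕ := fun v => if v ∈ S ∨ v ∈ N then 1 else x v
  have hy : Cov G σ y := by
    constructor
    · intro v
      have := hx.1.1 v
      show (if v ∈ S ∨ v ∈ N then 1 else x v) ≤ 2
      split_ifs <;> omega
    · intro u hu v hv huv
      show 2 ≤ (if u ∈ S ∨ u ∈ N then 1 else x u) + (if v ∈ S ∨ v ∈ N then 1 else x v)
      have key : ∀ u ∈ σ, ∀ v ∈ σ, G.Adj u v → (u ∈ S ∨ u ∈ N) → ¬ (v ∈ S ∨ v ∈ N) → 1 ≤ x v := by
        intro u hu v hv huv h1 h2
        have h3 := hx.1.2 u hu v hv huv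
        rcases h1 with h1 | h1
        · by_contra h4
          apply h2
          right
          rw [hN, mem_nb, hI, mem_filter]
          exact ⟨⟨hv, by omega⟩, u, h1, huv⟩
        · have := (hN' u h1).2
          omega
      by_cases h1 : u ∈ S ∨ u ∈ N
      · by_cases h2 : v ∈ S ∨ v ∈ N
        · rw [if_pos h1, if_pos h2]
        · rw [if_pos h1, if_neg h2]
          have := key u hu v hv huv h1 h2
          omega
      · by_cases h2 : v ∈ S ∨ v ∈ N
        · rw [if_neg h1, if_pos h2]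
          have := key v hv u hu huv.symm h2 h1
          omega
        · rw [if_neg h1, if_neg h2]
          exact hx.1.2 u hu v hv huv
  have hwt : wt σ y + S.card = wt σ x + N.card := by
    have e1 : S.card = ∑ v ∈ σ, (if v ∈ S then 1 else 0) := by
      rw [← card_filter]
      congr 1
      ext v
      rw [mem_filter]
      exact ⟨fun h => ⟨(hS' v h).1, h⟩, fun h => h.2⟩
    have e2 : N.card = ∑ v ∈ σ, (if v ∈ N then 1 else 0) := by
      rw [← card_filter]
      congr 1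
      ext v
      rw [mem_filter]
      exact ⟨fun h => ⟨(hN' v h).1, h⟩, fun h => h.2⟩
    unfold wt
    rw [e1, e2, ← sum_add_distrib, ← sum_add_distrib]
    apply sum_congr rfl
    intro v hv
    show (if v ∈ S ∨ v ∈ N then 1 else x v) + _ = _
    by_cases h1 : v ∈ S
    · have h2 := (hS' v h1).2
      have h3 : v ∉ N := fun h => by have := (hN' v h).2; omega
      simp [h1, h3, h2]
    · by_cases h3 : v ∈ N
      · have h2 := (hN' v h3).2
        simp [h1, h3, h2]
      · simp [h1, h3]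
  have h1 := t2_le hy
  have h2 := hx.2
  omega

/-- weak duality -/
lemma hall_weight {G : SimpleGraph V} {U I : Finset V} (h : Hall G U I) {y : V → ℕ}
    (hy : ∀ v, y v ≤ 2) (hc : ∀ u ∈ U, ∀ i ∈ I, G.Adj u i → 2 ≤ y u + y i) :
    2 * U.card ≤ ∑ v ∈ U, y v + ∑ v ∈ I, y v := by
  classical
  have h1 : (U.filter (fun v => y v ≤ 1)).card ≤ (I.filter (fun v => 1 ≤ y v)).card := by
    refine (h _ (filter_subset _ _)).trans (card_le_card ?_)
    intro i hi
    rw [mem_nb] at hi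
    obtain ⟨hi1, u, hu, hui⟩ := hi
    rw [mem_filter] at hu ⊢
    have := hc u hu.1 i hi1 hui
    exact ⟨hi1, by omega⟩
  have h2 : (U.filter (fun v => y v = 0)).card ≤ (I.filter (fun v => y v = 2)).card := by
    refine (h _ (filter_subset _ _)).trans (card_le_card ?_)
    intro i hi
    rw [mem_nb] at hi
    obtain ⟨hi1, u, hu, hui⟩ := hi
    rw [mem_filter] at hu ⊢
    have := hc u hu.1 i hi1 hui
    have := hy i
    exact ⟨hi1, by omega⟩
  have h3 : 2 * U.card = ∑ v ∈ U, y v + (U.filter (fun v => y v ≤ 1)).card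
      + (U.filter (fun v => y v = 0)).card := by
    rw [card_filter, card_filter, ← sum_add_distrib, ← sum_add_distrib, mul_comm, ← smul_eq_mul,
      ← sum_const]
    apply sum_congr rfl
    intro v hv
    have := hy v
    split_ifs <;> omega
  have h4 : ∑ v ∈ I, y v = (I.filter (fun v => 1 ≤ y v)).card + (I.filter (fun v => y v = 2)).card := by
    rw [card_filter, card_filter, ← sum_add_distrib]
    apply sum_congr rfl
    intro v hv
    have := hy v
    split_ifs <;> omega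
  omega

/-- gap-free graphs: no induced pair of disjoint edges -/
def GapFree (G : SimpleGraph V) : Prop :=
  ∀ a b c d, G.Adj a b → G.Adj c d → a ≠ c → a ≠ d → b ≠ c → b ≠ d →
    G.Adj a c ∨ G.Adj a d ∨ G.Adj b c ∨ G.Adj b d

lemma far_indep {G : SimpleGraph V} (hG : GapFree G) {C : Finset V} {a b u v : V}
    (ha : a ∈ C) (hb : b ∈ C) (hab : G.Adj a b) (hu : ∀ c ∈ C, ¬ G.Adj c u)
    (hv : ∀ c ∈ C, ¬ G.Adj c v) : ¬ G.Adj u v := by
  intro huv
  have h1 : a ≠ u := fun h => hu b hb (h ▸ hab.symm)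
  have h2 : b ≠ u := fun h => hu a ha (h ▸ hab)
  have h3 : a ≠ v := fun h => hv b hb (h ▸ hab.symm)
  have h4 : b ≠ v := fun h => hv a ha (h ▸ hab)
  rcases hG a b u v hab huv h1 h3 h2 h4 with h | h | h | h
  · exact hu a ha h
  · exact hv a ha h
  · exact hu b hb h
  · exact hv b hb h

lemma Cmin_edge {G : SimpleGraph V} {σ : Finset V} {x : V → ℕ} (hx : Opt G σ x)
    (hxC : ∀ v ∈ σ, (x v = 1 ↔ v ∈ Cmin G σ)) (hne : (Cmin G σ).Nonempty) :
    ∃ a ∈ Cmin G σ, ∃ b ∈ Cmin G σ, G.Adj a b := by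
  classical
  by_contra hcon
  push Not at hcon
  let y : V → ℕ := fun v => if v ∈ Cmin G σ then 0 else x v
  have hCs : ∀ v ∈ Cmin G σ, v ∈ σ := fun v hv => (mem_Cmin.1 hv).1
  have hy : Cov G σ y := by
    constructor
    · intro v
      have := hx.1.1 v
      show (if v ∈ Cmin G σ then 0 else x v) ≤ 2
      split_ifs <;> omega
    · intro u hu v hv huv
      show 2 ≤ (if u ∈ Cmin G σ then 0 else x u) + (if v ∈ Cmin G σ then 0 else x v)
      have key : ∀ u ∈ σ, ∀ v ∈ σ, G.Adj u v → u ∈ Cmin G σ → v ∉ Cmin G σ ∧ x v = 2 := by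
        intro u hu v hv huv h1
        have h2 : v ∉ Cmin G σ := fun h => hcon u h1 v h huv
        have h3 := hx.1.2 u hu v hv huv
        have h4 := (hxC u hu).2 h1
        have h5 : x v ≠ 1 := fun h => h2 ((hxC v hv).1 h)
        have := hx.1.1 v
        exact ⟨h2, by omega⟩
      by_cases h1 : u ∈ Cmin G σ
      · obtain ⟨h2, h3⟩ := key u hu v hv huv h1
        rw [if_pos h1, if_neg h2]; omega
      · by_cases h2 : v ∈ Cmin G σ
        · obtain ⟨h2', h3⟩ := key v hv u hu huv.symm h2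
          rw [if_neg h1, if_pos h2]; omega
        · rw [if_neg h1, if_neg h2]; exact hx.1.2 u hu v hv huv
  have hlt : wt σ y < wt σ x := by
    unfold wt
    obtain ⟨c, hc⟩ := hne
    apply sum_lt_sum
    · intro v hv
      show (if v ∈ Cmin G σ then 0 else x v) ≤ x v
      split_ifs <;> omega
    · refine ⟨c, hCs c hc, ?_⟩
      show (if c ∈ Cmin G σ then 0 else x c) < x c
      rw [if_pos hc, (hxC c (hCs c hc)).2 hc]
      norm_num
  have h1 := t2_le hy
  have h2 := hx.2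
  omega

lemma Opt.two {G : SimpleGraph V} {σ : Finset V} {x : V → ℕ} (hx : Opt G σ x)
    (hxC : ∀ v ∈ σ, (x v = 1 ↔ v ∈ Cmin G σ)) {v : V} (hv : v ∈ σ) (hvC : v ∉ Cmin G σ)
    {c : V} (hc : c ∈ Cmin G σ) (hcv : G.Adj c v) : x v = 2 := by
  have h1 := hx.1.2 c (mem_Cmin.1 hc).1 v hv hcv
  have h2 := (hxC c (mem_Cmin.1 hc).1).2 hc
  have h3 : x v ≠ 1 := fun h => hvC ((hxC v hv).1 h)
  have := hx.1.1 v
  omega

lemma Opt.zero {G : SimpleGraph V} (hG : GapFree G) {σ : Finset V} {x : V → ℕ} (hx : Opt G σ x)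
    (hxC : ∀ v ∈ σ, (x v = 1 ↔ v ∈ Cmin G σ)) (hne : (Cmin G σ).Nonempty) {v : V} (hv : v ∈ σ)
    (hvC : v ∉ Cmin G σ) (hfar : ∀ c ∈ Cmin G σ, ¬ G.Adj c v) : x v = 0 := by
  classical
  obtain ⟨a, ha, b, hb, hab⟩ := Cmin_edge hx hxC hne
  by_contra hx0
  let y : V → ℕ := fun v => if v ∉ Cmin G σ ∧ ∀ c ∈ Cmin G σ, ¬ G.Adj c v then 0 else x v
  have hy : Cov G σ y := by
    constructor
    · intro v
      have := hx.1.1 v
      show (if v ∉ Cmin G σ ∧ ∀ c ∈ Cmin G σ, ¬ G.Adj c v then 0 else x v) ≤ 2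
      split_ifs <;> omega
    · intro u hu v hv huv
      show 2 ≤ (if u ∉ Cmin G σ ∧ ∀ c ∈ Cmin G σ, ¬ G.Adj c u then 0 else x u) +
        (if v ∉ Cmin G σ ∧ ∀ c ∈ Cmin G σ, ¬ G.Adj c v then 0 else x v)
      have key : ∀ u ∈ σ, ∀ v ∈ σ, G.Adj u v → (u ∉ Cmin G σ ∧ ∀ c ∈ Cmin G σ, ¬ G.Adj c u) →
          ¬ (v ∉ Cmin G σ ∧ ∀ c ∈ Cmin G σ, ¬ G.Adj c v) ∧ x v = 2 := by
        intro u hu v hv huv h1
        have hvC : v ∉ Cmin G σ := fun h => h1.2 v h huv.symm
        have h2 : ¬ (v ∉ Cmin G σ ∧ ∀ c ∈ Cmin G σ, ¬ G.Adj c v) := by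
          rintro ⟨h3, h4⟩
          exact far_indep hG ha hb hab h1.2 h4 huv
        refine ⟨h2, ?_⟩
        have h3 : ∃ c ∈ Cmin G σ, G.Adj c v := by
          by_contra h4
          push Not at h4
          exact h2 ⟨hvC, h4⟩
        obtain ⟨c, hc, hcv⟩ := h3
        exact hx.two hxC hv hvC hc hcv
      by_cases h1 : (u ∉ Cmin G σ ∧ ∀ c ∈ Cmin G σ, ¬ G.Adj c u)
      · obtain ⟨h2, h3⟩ := key u hu v hv huv h1
        rw [if_pos h1, if_neg h2]; omega
      · by_cases h2 : (v ∉ Cmin G σ ∧ ∀ c ∈ Cmin G σ, ¬ G.Adj c v)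
        · obtain ⟨h2', h3⟩ := key v hv u hu huv.symm h2
          rw [if_neg h1, if_pos h2]; omega
        · rw [if_neg h1, if_neg h2]; exact hx.1.2 u hu v hv huv
  have hlt : wt σ y < wt σ x := by
    unfold wt
    apply sum_lt_sum
    · intro v hv
      show (if v ∉ Cmin G σ ∧ ∀ c ∈ Cmin G σ, ¬ G.Adj c v then 0 else x v) ≤ x v
      split_ifs <;> omega
    · refine ⟨v, hv, ?_⟩
      show (if v ∉ Cmin G σ ∧ ∀ c ∈ Cmin G σ, ¬ G.Adj c v then 0 else x v) < x v
      rw [if_pos ⟨hvC, hfar⟩]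
      omega
  have h1 := t2_le hy
  have h2 := hx.2
  omega

end

end Pool.Agent.Helper82.Gap
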