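import Mathlib
import Pool.Agent.Helper82.GapCover

set_option autoImplicit false
set_option linter.unusedSectionVars false
set_option linter.unusedVariables false

namespace Pool.Agent.Helper82.Gap

open Finset

section
variable {V : Type*} [LinearOrder V] {K : Type*} [CommRing K]

open scoped Classical in
/-- vertices of `X` outside `C` with no neighbour in `C` -/
noncomputable def far (G : SimpleGraph V) (C X : Finset V) : Finset V :=
  X.filter (fun v => v ∉ C ∧ ∀ c ∈ C, ¬ G.Adj c v)

open scoped Classical in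
/-- vertices of `X` outside `C` with a neighbour in `C` -/
noncomputable def near (G : SimpleGraph V) (C X : Finset V) : Finset V :=
  X.filter (fun v => v ∉ C ∧ ∃ c ∈ C, G.Adj c v)

lemma mem_far {G : SimpleGraph V} {C X : Finset V} {v : V} :
    v ∈ far G C X ↔ v ∈ X ∧ v ∉ C ∧ ∀ c ∈ C, ¬ G.Adj c v := by unfold far; simp

lemma mem_near {G : SimpleGraph V} {C X : Finset V} {v : V} :
    v ∈ near G C X ↔ v ∈ X ∧ v ∉ C ∧ ∃ c ∈ C, G.Adj c v := by unfold near; simp

lemma sum_three {σ C U : Finset V} (hC : C ⊆ σ) (hU : U ⊆ σ) (hd : Disjoint C U) (f : V → ℕ) :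
    ∑ v ∈ σ, (if v ∈ C then f v else if v ∈ U then 2 else 0) = ∑ v ∈ C, f v + 2 * U.card := by
  have h1 : ∀ v ∈ σ, (if v ∈ C then f v else if v ∈ U then 2 else 0)
      = (if v ∈ C then f v else 0) + (if v ∈ U then 2 else 0) := by
    intro v _
    by_cases h : v ∈ C
    · have : v ∉ U := fun h' => (disjoint_left.1 hd h) h'
      simp [h, this]
    · simp [h]
  rw [sum_congr rfl h1, sum_add_distrib, sum_ite_mem, sum_ite_mem, inter_eq_right.2 hC,
    inter_eq_right.2 hU, sum_const, smul_eq_mul, mul_comm]

theorem ex_stratum_C {G : SimpleGraph V} (hG : GapFree G) (X C0 U : Finset V)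
    (hC0 : C0.Nonempty) {τ n : ℕ} (hn : τ < n) :
    Ex K {σ : Finset V | σ ⊆ X ∧ t2 G σ = τ ∧ Cmin G σ = C0 ∧ near G C0 σ = U} n := by
  classical
  by_cases hne : ∃ σ0, σ0 ⊆ X ∧ t2 G σ0 = τ ∧ Cmin G σ0 = C0 ∧ near G C0 σ0 = U
  swap
  · apply Ex.of_card
    intro σ hσ
    exact absurd ⟨σ, hσ⟩ hne
  obtain ⟨σ0, h0X, h0t, h0C, h0U⟩ := hne
  obtain ⟨x0, hx0, hx0C⟩ := exists_opt_min G σ0
  have hC0σ : C0 ⊆ σ0 := by rw [← h0C]; exact fun v hv => (mem_Cmin.1 hv).1
  have hUσ : U ⊆ σ0 := by rw [← h0U]; exact fun v hv => (mem_near.1 hv).1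
  have hUn : ∀ u ∈ U, u ∉ C0 ∧ ∃ c ∈ C0, G.Adj c u := by
    rw [← h0U]; exact fun v hv => (mem_near.1 hv).2
  have hdisj : Disjoint C0 U := disjoint_left.2 fun v h1 h2 => (hUn v h2).1 h1
  obtain ⟨a, ha, b, hb, hab⟩ := Cmin_edge hx0 hx0C (by rw [h0C]; exact hC0)
  rw [h0C] at ha hb
  have hx0v : ∀ v ∈ σ0, v ∉ C0 → x0 v = if v ∈ U then 2 else 0 := by
    intro v hv hvC
    by_cases hvU : v ∈ U
    · rw [if_pos hvU]
      obtain ⟨_, c, hc, hcv⟩ := hUn v hvU
      exact hx0.two hx0C hv (by rw [h0C]; exact hvC) (by rw [h0C]; exact hc) hcv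
    · rw [if_neg hvU]
      refine hx0.zero hG hx0C (by rw [h0C]; exact hC0) hv (by rw [h0C]; exact hvC) ?_
      rw [h0C]
      intro c hc hcv
      apply hvU
      rw [← h0U, mem_near]
      exact ⟨hv, hvC, c, hc, hcv⟩
  have hwt0 : ∀ y : V → ℕ, wt σ0 (fun v => if v ∈ C0 then y v else x0 v) = ∑ v ∈ C0, y v + 2 * U.card := by
    intro y
    unfold wt
    rw [← sum_three hC0σ hUσ hdisj y]
    apply sum_congr rfl
    intro v hv
    by_cases h : v ∈ C0
    · simp [h]
    · simp only [h, if_false]
      exact hx0v v hv h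
  have hτ : τ = C0.card + 2 * U.card := by
    rw [← h0t, ← hx0.2]
    have h1 : wt σ0 x0 = wt σ0 (fun v => if v ∈ C0 then 1 else x0 v) := by
      unfold wt
      apply sum_congr rfl
      intro v hv
      by_cases h : v ∈ C0
      · simp only [h, if_true]
        rw [(hx0C v hv)]; rw [h0C]; exact h
      · simp [h]
    rw [h1, hwt0]; simp
  -- replacing on C0
  have hrep : ∀ (σ : Finset V) (y : V → ℕ), C0 ⊆ σ → Cov G σ y →
      Cov G σ0 (fun v => if v ∈ C0 then y v else x0 v) := by
    intro σ y hσ hy
    constructor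
    · intro v
      have := hy.1 v; have := hx0.1.1 v
      show (if v ∈ C0 then y v else x0 v) ≤ 2
      split_ifs <;> omega
    · intro u hu v hv huv
      show 2 ≤ (if u ∈ C0 then y u else x0 u) + (if v ∈ C0 then y v else x0 v)
      by_cases h1 : u ∈ C0
      · by_cases h2 : v ∈ C0
        · rw [if_pos h1, if_pos h2]; exact hy.2 u (hσ h1) v (hσ h2) huv
        · rw [if_pos h1, if_neg h2]
          have := hx0.two hx0C hv (by rw [h0C]; exact h2) (by rw [h0C]; exact h1) huv
          omega
      · by_cases h2 : v ∈ C0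
        · rw [if_neg h1, if_pos h2]
          have := hx0.two hx0C hu (by rw [h0C]; exact h1) (by rw [h0C]; exact h2) huv.symm
          omega
        · rw [if_neg h1, if_neg h2]; exact hx0.1.2 u hu v hv huv
  have hlow : ∀ (σ : Finset V) (y : V → ℕ), C0 ⊆ σ → Cov G σ y → C0.card ≤ ∑ v ∈ C0, y v := by
    intro σ y hσ hy
    have h1 := t2_le (hrep σ y hσ hy)
    rw [hwt0, h0t, hτ] at h1
    omega
  set Q := far G C0 X with hQ
  have hUQ : Disjoint (C0 ∪ U) Q := by
    rw [disjoint_left]
    intro v hv hvQ
    rw [hQ, mem_far] at hvQ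
    rcases mem_union.1 hv with h | h
    · exact hvQ.2.1 h
    · obtain ⟨_, c, hc, hcv⟩ := hUn v h
      exact hvQ.2.2 c hc hcv
  have hcard : (C0 ∪ U).card + U.card < n := by
    rw [card_union_of_disjoint hdisj]; omega
  refine Ex.congr ?_ (ex_hall' (K := K) G U (C0 ∪ U) Q hUQ hcard)
  intro σ
  simp only [Set.mem_ofPred_eq]
  constructor
  · rintro ⟨hP, hPQ, hH⟩
    have hC0s : C0 ⊆ σ := (subset_union_left).trans hP
    have hUs : U ⊆ σ := (subset_union_right).trans hP
    have hcases : ∀ v ∈ σ, v ∉ C0 → v ∉ U → v ∈ Q := by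
      intro v hv h1 h2
      rcases mem_union.1 (hPQ hv) with h | h
      · rcases mem_union.1 h with h | h
        · exact absurd h h1
        · exact absurd h h2
      · exact h
    let x1 : V → ℕ := fun v => if v ∈ C0 then 1 else if v ∈ U then 2 else 0
    have hx1c : Cov G σ x1 := by
      constructor
      · intro v
        show (if v ∈ C0 then 1 else if v ∈ U then 2 else 0) ≤ 2
        split_ifs <;> omega
      · intro u hu v hv huv
        have key : ∀ u ∈ σ, ∀ v ∈ σ, G.Adj u v → u ∉ C0 → u ∉ U → v ∉ C0 ∧ v ∈ U := by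
          intro u hu v hv huv h1 h2
          have hq := hcases u hu h1 h2
          rw [hQ, mem_far] at hq
          have h3 : v ∉ C0 := fun h => hq.2.2 v h huv.symm
          refine ⟨h3, ?_⟩
          by_contra h4
          have hq' := hcases v hv h3 h4
          rw [hQ, mem_far] at hq'
          exact far_indep hG ha hb hab hq.2.2 hq'.2.2 huv
        show 2 ≤ (if u ∈ C0 then 1 else if u ∈ U then 2 else 0) +
          (if v ∈ C0 then 1 else if v ∈ U then 2 else 0)
        by_cases h1 : u ∈ C0
        · by_cases h2 : v ∈ C0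
          · rw [if_pos h1, if_pos h2]
          · by_cases h3 : v ∈ U
            · rw [if_pos h1, if_neg h2, if_pos h3]; omega
            · exact absurd h1 (key v hv u hu huv.symm h2 h3).1
        · by_cases h3 : u ∈ U
          · rw [if_neg h1, if_pos h3]; omega
          · obtain ⟨h4, h5⟩ := key u hu v hv huv h1 h3
            rw [if_neg h4, if_pos h5]; omega
    have hwt1 : wt σ x1 = τ := by
      unfold wt
      rw [sum_three hC0s hUs hdisj (fun _ => 1), hτ]
      simp
    have hbound : ∀ y : V → ℕ, Cov G σ y → ∑ v ∈ C0, y v + 2 * U.card ≤ wt σ y := by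
      intro y hy
      have h1 := hall_weight hH hy.1 (fun u hu i hi hui => hy.2 u (hUs hu) i (mem_inter.1 hi).1 hui)
      have h2 : ∑ v ∈ C0, y v + (∑ v ∈ U, y v + ∑ v ∈ σ ∩ Q, y v) ≤ wt σ y := by
        unfold wt
        rw [← add_assoc, ← sum_union hdisj, ← sum_union (disjoint_of_subset_right inter_subset_right hUQ)]
        apply sum_le_sum_of_subset
        exact union_subset hP inter_subset_left
      omega
    have ht : t2 G σ = τ := by
      apply le_antisymm
      · rw [← hwt1]; exact t2_le hx1c
      · obtain ⟨y, hy⟩ := exists_opt G σ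
        rw [← hy.2]
        have h1 := hbound y hy.1
        have h2 := hlow σ y hC0s hy.1
        omega
    have hx1 : Opt G σ x1 := ⟨hx1c, by rw [hwt1, ht]⟩
    refine ⟨?_, ht, ?_, ?_⟩
    · intro v hv
      by_cases h1 : v ∈ C0
      · exact h0X (hC0σ h1)
      · by_cases h2 : v ∈ U
        · exact h0X (hUσ h2)
        · have := hcases v hv h1 h2
          rw [hQ, mem_far] at this
          exact this.1
    · apply subset_antisymm
      · intro v hv
        have h1 := (mem_Cmin.1 hv).2 x1 hx1
        by_contra h2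
        have h3 : x1 v = if v ∈ U then 2 else 0 := by
          show (if v ∈ C0 then 1 else if v ∈ U then 2 else 0) = _
          rw [if_neg h2]
        rw [h3] at h1
        split_ifs at h1 <;> omega
      · intro v hv
        rw [mem_Cmin]
        refine ⟨hC0s hv, fun y hy => ?_⟩
        have h1 := hbound y hy.1
        rw [hy.2, ht, hτ] at h1
        have h2 := hlow σ y hC0s hy.1
        have h3 : Opt G σ0 (fun v => if v ∈ C0 then y v else x0 v) := by
          refine Opt.of_le (hrep σ y hC0s hy.1) ?_
          rw [hwt0, h0t, hτ]; omega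
        have h4 : v ∈ Cmin G σ0 := by rw [h0C]; exact hv
        have h5 := (mem_Cmin.1 h4).2 _ h3
        simpa [hv] using h5
    · ext v
      rw [mem_near]
      constructor
      · rintro ⟨h1, h2, c, hc, hcv⟩
        by_contra h3
        have := hcases v h1 h2 h3
        rw [hQ, mem_far] at this
        exact this.2.2 c hc hcv
      · intro h
        exact ⟨hUs h, (hUn v h).1, (hUn v h).2⟩
  · rintro ⟨hσX, hσt, hσC, hσU⟩
    obtain ⟨x, hx, hxC⟩ := exists_opt_min G σ
    have hCne : (Cmin G σ).Nonempty := by rw [hσC]; exact hC0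
    have hC0s : C0 ⊆ σ := by rw [← hσC]; exact fun v hv => (mem_Cmin.1 hv).1
    have hUs : U ⊆ σ := by rw [← hσU]; exact fun v hv => (mem_near.1 hv).1
    refine ⟨union_subset hC0s hUs, ?_, ?_⟩
    · intro v hv
      by_cases h1 : v ∈ C0
      · exact mem_union_left _ (mem_union_left _ h1)
      · by_cases h2 : v ∈ U
        · exact mem_union_left _ (mem_union_right _ h2)
        · apply mem_union_right
          rw [hQ, mem_far]
          refine ⟨hσX hv, h1, fun c hc hcv => h2 ?_⟩
          rw [← hσU, mem_near]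
          exact ⟨hv, h1, c, hc, hcv⟩
    · have h1 := hx.hall
      have e1 : σ.filter (fun v => x v = 2) = U := by
        ext v
        rw [mem_filter]
        constructor
        · rintro ⟨hv, hv2⟩
          have h2 : v ∉ C0 := by
            intro h
            have := (hxC v hv).2 (by rw [hσC]; exact h)
            omega
          by_contra h3
          have h4 := hx.zero hG hxC hCne hv (by rw [hσC]; exact h2) (by
            rw [hσC]
            intro c hc hcv
            apply h3
            rw [← hσU, mem_near]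
            exact ⟨hv, h2, c, hc, hcv⟩)
          omega
        · intro hv
          refine ⟨hUs hv, ?_⟩
          obtain ⟨h2, c, hc, hcv⟩ := hUn v hv
          exact hx.two hxC (hUs hv) (by rw [hσC]; exact h2) (by rw [hσC]; exact hc) hcv
      rw [e1] at h1
      apply h1.mono
      intro v hv
      rw [mem_filter] at hv
      rw [mem_inter, hQ, mem_far]
      have h2 : v ∉ C0 := by
        intro h
        have := (hxC v hv.1).2 (by rw [hσC]; exact h)
        omega
      refine ⟨hv.1, hσX hv.1, h2, fun c hc hcv => ?_⟩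
      have := hx.two hxC hv.1 (by rw [hσC]; exact h2) (by rw [hσC]; exact hc) hcv
      omega

end

end Pool.Agent.Helper82.Gap
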