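import Mathlib
import Pool.Agent.Helper82.GapStrata

set_option autoImplicit false
set_option linter.unusedSectionVars false
set_option linter.unusedVariables false

namespace Pool.Agent.Helper82.Gap

open Finset

section
variable {V : Type*} [LinearOrder V] {K : Type*} [CommRing K]

/-- independent sets -/
def Ind (G : SimpleGraph V) (σ : Finset V) : Prop := ∀ u ∈ σ, ∀ v ∈ σ, ¬ G.Adj u v

lemma Ind.mono {G : SimpleGraph V} {σ τ : Finset V} (h : Ind G σ) (hs : τ ⊆ σ) : Ind G τ :=
  fun u hu v hv => h u (hs hu) v (hs hv)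

lemma cvx_of_down {F : Set (Finset V)} (h : ∀ σ ∈ F, ∀ τ, τ ⊆ σ → τ ∈ F) : Cvx F :=
  fun _ σ τ _ h2 _ h4 => h τ h4 σ h2

/-- independent sets of `X` to which every vertex of `S` may be added -/
def PS (G : SimpleGraph V) (X S : Finset V) : Set (Finset V) :=
  {ρ | ρ ⊆ X ∧ Ind G ρ ∧ ∀ v ∈ S, ∀ w ∈ ρ, ¬ G.Adj v w}

/-- members of `PS` to which moreover some vertex of `U` may be added -/
def XS (G : SimpleGraph V) (X S U : Finset V) : Set (Finset V) :=
  {ρ | ρ ∈ PS G X S ∧ ∃ u ∈ U, ∀ w ∈ ρ, ¬ G.Adj u w}

lemma PS_down {G : SimpleGraph V} {X S : Finset V} : ∀ σ ∈ PS G X S, ∀ τ, τ ⊆ σ → τ ∈ PS G X S := by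
  rintro σ ⟨h1, h2, h3⟩ τ hτ
  exact ⟨hτ.trans h1, h2.mono hτ, fun v hv w hw => h3 v hv w (hτ hw)⟩

lemma XS_down {G : SimpleGraph V} {X S U : Finset V} :
    ∀ σ ∈ XS G X S U, ∀ τ, τ ⊆ σ → τ ∈ XS G X S U := by
  rintro σ ⟨h1, u, hu, h2⟩ τ hτ
  exact ⟨PS_down σ h1 τ hτ, u, hu, fun w hw => h2 w (hτ hw)⟩

lemma ex_PS {G : SimpleGraph V} (hG : GapFree G) {X S : Finset V} (hS : S ⊆ X) (hne : S.Nonempty)
    {n : ℕ} (hn : 1 ≤ n) : Ex K (PS G X S) n := by
  classical
  by_cases hadj : ∃ a ∈ S, ∃ b ∈ S, G.Adj a b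
  · obtain ⟨a, ha, b, hb, hab⟩ := hadj
    by_cases hx : ∃ x ∈ X, ∀ v ∈ S, ¬ G.Adj v x
    · obtain ⟨x, hxX, hx⟩ := hx
      apply Ex.cone x
      intro ρ hxρ
      constructor
      · rintro ⟨h1, h2, h3⟩
        refine ⟨insert_subset hxX h1, ?_, ?_⟩
        · have h4 : ∀ w ∈ insert x ρ, ∀ c ∈ S, ¬ G.Adj c w := by
            intro w hw c hc
            rcases mem_insert.1 hw with h | h
            · rw [h]; exact hx c hc
            · exact h3 c hc w h
          intro u hu v hv
          exact far_indep hG ha hb hab (h4 u hu) (h4 v hv)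
        · intro v hv w hw
          rcases mem_insert.1 hw with h | h
          · rw [h]; exact hx v hv
          · exact h3 v hv w h
      · intro h
        exact PS_down _ h _ (subset_insert _ _)
    · push Not at hx
      apply Ex.of_card
      rintro ρ ⟨h1, h2, h3⟩ hc
      have : ρ = ∅ := by
        rw [eq_empty_iff_forall_notMem]
        intro w hw
        obtain ⟨v, hv, hvw⟩ := hx w (h1 hw)
        exact h3 v hv w hw hvw
      rw [this, card_empty] at hc
      omega
  · push Not at hadj
    obtain ⟨v, hv⟩ := hne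
    apply Ex.cone v
    intro ρ hvρ
    constructor
    · rintro ⟨h1, h2, h3⟩
      refine ⟨insert_subset (hS hv) h1, ?_, ?_⟩
      · intro a ha b hb
        rcases mem_insert.1 ha with h | h
        · rcases mem_insert.1 hb with h' | h'
          · rw [h, h']; exact G.loopless.irrefl v
          · rw [h]; exact h3 v hv b h'
        · rcases mem_insert.1 hb with h' | h'
          · rw [h']; exact fun hh => h3 v hv a h hh.symm
          · exact h2 a h b h'
      · intro a ha b hb
        rcases mem_insert.1 hb with h' | h'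
        · rw [h']; exact hadj a ha v hv
        · exact h3 a ha b h'
    · intro h
      exact PS_down _ h _ (subset_insert _ _)

lemma ex_XS {G : SimpleGraph V} (hG : GapFree G) {X : Finset V} (U : Finset V) :
    U ⊆ X → U.Nonempty → ∀ S, S ⊆ X → ∀ n, U.card ≤ n → Ex K (XS G X S U) n := by
  classical
  induction U using Finset.induction_on with
  | empty => intro _ h; exact absurd h (by simp)
  | insert u U hu ih =>
    intro hUX _ S hS n hn
    have huX : u ∈ X := hUX (mem_insert_self _ _)
    have hUX' : U ⊆ X := (subset_insert _ _).trans hUX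
    rw [card_insert_of_notMem hu] at hn
    rcases U.eq_empty_or_nonempty with hU | hU
    · subst hU
      have h1 := ex_PS (K := K) hG (insert_subset huX hS) ⟨u, mem_insert_self _ _⟩ (n := n) (by
        simp at hn; omega)
      refine Ex.congr ?_ h1
      intro σ
      constructor
      · rintro ⟨h2, h3, h4⟩
        exact ⟨⟨h2, h3, fun v hv => h4 v (mem_insert_of_mem hv)⟩, u, mem_insert_self _ _,
          h4 u (mem_insert_self _ _)⟩
      · rintro ⟨⟨h2, h3, h4⟩, u', hu', h5⟩
        refine ⟨h2, h3, ?_⟩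
        intro v hv
        rcases mem_insert.1 hv with h | h
        · have : u' = u := by simpa using hu'
          rw [h, ← this]; exact h5
        · exact h4 v h
    · obtain ⟨m, rfl⟩ : ∃ m, n = m + 1 := ⟨n - 1, by omega⟩
      refine Ex.mv (A := XS G X S U) (B := PS G X (insert u S)) (cvx_of_down XS_down)
        (cvx_of_down PS_down) ?_ (fun σ h v hv _ => XS_down _ h _ (erase_subset _ _))
        (fun σ h v hv _ => PS_down _ h _ (erase_subset _ _)) (ih hUX' hU S hS _ (by omega))
        (ex_PS hG (insert_subset huX hS) ⟨u, mem_insert_self _ _⟩ (by omega)) ?_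
      · intro σ
        constructor
        · rintro ⟨⟨h2, h3, h4⟩, u', hu', h5⟩
          rcases mem_insert.1 hu' with h | h
          · right
            refine ⟨h2, h3, ?_⟩
            intro v hv
            rcases mem_insert.1 hv with h' | h'
            · rw [h', ← h]; exact h5
            · exact h4 v h'
          · left
            exact ⟨⟨h2, h3, h4⟩, u', h, h5⟩
        · rintro (⟨⟨h2, h3, h4⟩, u', hu', h5⟩ | ⟨h2, h3, h4⟩)
          · exact ⟨⟨h2, h3, h4⟩, u', mem_insert_of_mem hu', h5⟩
          · exact ⟨⟨h2, h3, fun v hv => h4 v (mem_insert_of_mem hv)⟩, u, mem_insert_self _ _,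
              h4 u (mem_insert_self _ _)⟩
      · refine Ex.congr ?_ (ih hUX' hU (insert u S) (insert_subset huX hS) m (by omega))
        intro σ
        constructor
        · rintro ⟨h1, u', hu', h5⟩
          exact ⟨⟨⟨h1.1, h1.2.1, fun v hv => h1.2.2 v (mem_insert_of_mem hv)⟩, u', hu', h5⟩, h1⟩
        · rintro ⟨⟨h1, u', hu', h5⟩, h2⟩
          exact ⟨h2, u', hu', h5⟩

/-- the least set of maximal deficiency -/
noncomputable def Smin (G : SimpleGraph V) (U I : Finset V) : Finset V := by
  classical
  exact U.filter (fun v => ∀ S ⊆ U, S.card = (nb G S I).card + dfc G U I → v ∈ S)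

lemma mem_Smin {G : SimpleGraph V} {U I : Finset V} {v : V} :
    v ∈ Smin G U I ↔ v ∈ U ∧ ∀ S ⊆ U, S.card = (nb G S I).card + dfc G U I → v ∈ S := by
  unfold Smin; simp

lemma opt_inter {G : SimpleGraph V} {U I S S' : Finset V} (hS : S ⊆ U) (hS' : S' ⊆ U)
    (h : S.card = (nb G S I).card + dfc G U I) (h' : S'.card = (nb G S' I).card + dfc G U I) :
    (S ∩ S').card = (nb G (S ∩ S') I).card + dfc G U I := by
  have h1 := nb_submod G (S := S) (S' := S') (Subset.refl I)
  have h2 := le_dfc (G := G) (X := I) (union_subset hS hS')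
  have h3 := le_dfc (G := G) (X := I) ((inter_subset_left (s₁ := S) (s₂ := S')).trans hS)
  have h4 := card_union_add_card_inter S S'
  omega

lemma Smin_subset (G : SimpleGraph V) (U I : Finset V) : Smin G U I ⊆ U :=
  fun v hv => (mem_Smin.1 hv).1

lemma Smin_spec (G : SimpleGraph V) (U I : Finset V) :
    (Smin G U I).card = (nb G (Smin G U I) I).card + dfc G U I := by
  classical
  have hex : ∃ n, ∃ S ⊆ U, S.card = (nb G S I).card + dfc G U I ∧ S.card = n := by
    obtain ⟨S, hS, h⟩ := exists_dfc G U I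
    exact ⟨_, S, hS, h, rfl⟩
  obtain ⟨S, hS, hSo, hSc⟩ := Nat.find_spec hex
  have key : Smin G U I = S := by
    apply subset_antisymm
    · intro v hv
      exact (mem_Smin.1 hv).2 S hS hSo
    · intro v hv
      rw [mem_Smin]
      refine ⟨hS hv, fun S' hS' hSo' => ?_⟩
      by_contra hv'
      have h1 := opt_inter hS hS' hSo hSo'
      have h2 : (S ∩ S').card < S.card := by
        apply card_lt_card
        refine ⟨inter_subset_left, fun h => hv' ?_⟩
        exact (mem_inter.1 (h hv)).2
      rw [hSc] at h2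
      exact Nat.find_min hex h2 ⟨_, (inter_subset_left).trans hS, h1, rfl⟩
  rw [key]; exact hSo

lemma Smin_le {G : SimpleGraph V} {U I S : Finset V} (hS : S ⊆ U)
    (h : S.card = (nb G S I).card + dfc G U I) : Smin G U I ⊆ S :=
  fun v hv => (mem_Smin.1 hv).2 S hS h

/-- independent sets dominating `U` and violating the Hall condition -/
def EE (G : SimpleGraph V) (X U : Finset V) : Set (Finset V) :=
  {I | I ⊆ X ∧ Ind G I ∧ (∀ u ∈ U, ∃ v ∈ I, G.Adj u v) ∧ ¬ Hall G U I}

lemma ex_EE {G : SimpleGraph V} (hG : GapFree G) {X U : Finset V} {n : ℕ} (hn : U.card ≤ n) :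
    Ex K (EE G X U) n := by
  classical
  have hcvx : Cvx (EE G X U) := by
    rintro ρ σ τ h1 h2 ⟨h3, h4, h5, h6⟩ ⟨h7, h8, h9, h10⟩
    refine ⟨h2.trans h7, h8.mono h2, ?_, fun h => h10 (h.mono h2)⟩
    intro u hu
    obtain ⟨v, hv, huv⟩ := h5 u hu
    exact ⟨v, h1 hv, huv⟩
  refine Ex.filtration hcvx (fun I => (U.card - dfc G U I) * (U.card + 1) + (Smin G U I).card)
    (fun I => (Smin G U I, nb G (Smin G U I) I)) ((U.card + 1) * (U.card + 1)) ?_ ?_ ?_
  · intro σ hσ
    have h1 := card_le_card (Smin_subset G U σ)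
    have h2 : (U.card - dfc G U σ) * (U.card + 1) ≤ U.card * (U.card + 1) :=
      Nat.mul_le_mul_right _ (Nat.sub_le _ _)
    show (U.card - dfc G U σ) * (U.card + 1) + (Smin G U σ).card < (U.card + 1) * (U.card + 1)
    nlinarith
  · intro σ hσ v hv hσv
    have h1 := dfc_anti (G := G) (W := U) (erase_subset v σ)
    have h2 := dfc_le_card G U (σ.erase v)
    have h3 := card_le_card (Smin_subset G U (σ.erase v))
    rcases h1.lt_or_eq with h | h
    · left
      show (U.card - dfc G U (σ.erase v)) * (U.card + 1) + (Smin G U (σ.erase v)).card <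
        (U.card - dfc G U σ) * (U.card + 1) + (Smin G U σ).card
      have h4 : U.card - dfc G U (σ.erase v) + 1 ≤ U.card - dfc G U σ := by omega
      have h5 := Nat.mul_le_mul_right (U.card + 1) h4
      nlinarith
    · have h4 : Smin G U (σ.erase v) ⊆ Smin G U σ := by
        apply Smin_le (Smin_subset G U σ)
        have h5 := Smin_spec G U σ
        have h6 := card_le_card (nb_mono (G := G) (Subset.refl (Smin G U σ)) (erase_subset v σ))
        have h7 := le_dfc (G := G) (X := σ.erase v) (Smin_subset G U σ)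
        omega
      show (U.card - dfc G U (σ.erase v)) * (U.card + 1) + (Smin G U (σ.erase v)).card <
        (U.card - dfc G U σ) * (U.card + 1) + (Smin G U σ).card ∨ _
      rcases (card_le_card h4).lt_or_eq with h5 | h5
      · left; rw [h]; omega
      · right
        have h6 : Smin G U (σ.erase v) = Smin G U σ := eq_of_subset_of_card_le h4 h5.ge
        refine ⟨by simp only [h, h5], ?_⟩
        have h7 : nb G (Smin G U σ) (σ.erase v) = nb G (Smin G U σ) σ := by
          apply eq_of_subset_of_card_le (nb_mono (Subset.refl _) (erase_subset v σ))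
          have h8 := Smin_spec G U σ
          have h9 := Smin_spec G U (σ.erase v)
          rw [h6] at h9
          omega
        show (Smin G U (σ.erase v), nb G (Smin G U (σ.erase v)) (σ.erase v)) = _
        rw [h6, h7]
  · rintro r ⟨S, T⟩
    by_cases hne : ∃ I0, I0 ∈ EE G X U ∧ (U.card - dfc G U I0) * (U.card + 1) + (Smin G U I0).card = r ∧
        (Smin G U I0, nb G (Smin G U I0) I0) = (S, T)
    swap
    · apply Ex.of_card
      intro σ hσ
      exact absurd ⟨σ, hσ⟩ hne
    obtain ⟨I0, ⟨h0X, h0I, h0D, h0H⟩, h0r, h0l⟩ := hne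
    rw [Prod.mk.injEq] at h0l
    obtain ⟨h0S, h0T⟩ := h0l
    rw [h0S] at h0T h0r
    have hS0 := Smin_spec G U I0
    rw [h0S, h0T] at hS0
    have hd1 : 1 ≤ dfc G U I0 := by
      by_contra h
      exact h0H (hall_iff_dfc.2 (by omega))
    have hSU : S ⊆ U := by rw [← h0S]; exact Smin_subset G U I0
    have hTI0 : T ⊆ I0 := by rw [← h0T]; exact nb_subset _ _ _
    have hdU := dfc_le_card G U I0
    -- an edge between S and T
    have hnbr : ∀ s ∈ S, ∃ t ∈ T, G.Adj s t := by
      intro s hs
      obtain ⟨t, ht, hst⟩ := h0D s (hSU hs)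
      refine ⟨t, ?_, hst⟩
      rw [← h0T, mem_nb]
      exact ⟨ht, s, hs, hst⟩
    obtain ⟨s0, hs0⟩ : S.Nonempty := by
      rw [← card_pos]; omega
    obtain ⟨t0, ht0, hst0⟩ := hnbr s0 hs0
    set Q := far G (S ∪ T) X with hQ
    have hTQ : Disjoint T Q := by
      rw [disjoint_left]
      intro v hv hvQ
      rw [hQ, mem_far] at hvQ
      exact hvQ.2.1 (mem_union_right _ hv)
    have hUS : (U \ S).card = U.card - S.card := card_sdiff_of_subset hSU
    have hSUc := card_le_card hSU
    have hcard : T.card + (U \ S).card < n := by omega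
    refine Ex.congr ?_ (ex_hall' (K := K) G (U \ S) T Q hTQ hcard)
    intro I
    simp only [Set.mem_ofPred_eq]
    constructor
    · rintro ⟨hTI, hIQ, hH⟩
      have hnbS : nb G S I = T := by
        ext y
        rw [mem_nb]
        constructor
        · rintro ⟨hy, s, hs, hsy⟩
          rcases mem_union.1 (hIQ hy) with h | h
          · exact h
          · rw [hQ, mem_far] at h
            exact absurd hsy (h.2.2 s (mem_union_left _ hs))
        · intro hy
          rw [← h0T, mem_nb] at hy
          exact ⟨hTI (by rw [← h0T, mem_nb]; exact hy), hy.2⟩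
      have hInd : Ind G I := by
        have key : ∀ u ∈ I, ∀ v ∈ I, v ∈ Q → ¬ G.Adj u v := by
          intro u hu v hv hvQ huv
          rw [hQ, mem_far] at hvQ
          rcases mem_union.1 (hIQ hu) with h | h
          · exact hvQ.2.2 u (mem_union_right _ h) huv
          · rw [hQ, mem_far] at h
            exact far_indep hG (mem_union_left _ hs0) (mem_union_right _ ht0) hst0 h.2.2 hvQ.2.2 huv
        intro u hu v hv huv
        rcases mem_union.1 (hIQ hv) with h | h
        · rcases mem_union.1 (hIQ hu) with h' | h'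
          · exact h0I u (hTI0 h') v (hTI0 h) huv
          · exact key v hv u hu h' huv.symm
        · exact key u hu v hv h huv
      have hdom : ∀ u ∈ U, ∃ v ∈ I, G.Adj u v := by
        intro u hu
        by_cases huS : u ∈ S
        · obtain ⟨t, ht, h⟩ := hnbr u huS
          exact ⟨t, hTI ht, h⟩
        · have h1 := hH {u} (by simpa using ⟨hu, huS⟩)
          rw [card_singleton] at h1
          obtain ⟨y, hy⟩ := card_pos.1 h1
          rw [mem_nb] at hy
          obtain ⟨hy1, x, hx, hxy⟩ := hy
          rw [mem_singleton] at hx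
          exact ⟨y, (mem_inter.1 hy1).1, hx ▸ hxy⟩
      -- lower bound on neighbourhoods
      have hlow : ∀ S' ⊆ U, (nb G (S' ∩ S) I0).card + (S' \ S).card ≤ (nb G S' I).card := by
        intro S' hS'
        have h1 : nb G (S' ∩ S) I0 ∪ nb G (S' \ S) (I ∩ Q) ⊆ nb G S' I := by
          intro y hy
          rcases mem_union.1 hy with h | h
          · rw [mem_nb] at h ⊢
            obtain ⟨h1, x, hx, hxy⟩ := h
            refine ⟨hTI ?_, x, (mem_inter.1 hx).1, hxy⟩
            rw [← h0T, mem_nb]
            exact ⟨h1, x, (mem_inter.1 hx).2, hxy⟩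
          · rw [mem_nb] at h ⊢
            obtain ⟨h1, x, hx, hxy⟩ := h
            exact ⟨(mem_inter.1 h1).1, x, (mem_sdiff.1 hx).1, hxy⟩
        have h2 : Disjoint (nb G (S' ∩ S) I0) (nb G (S' \ S) (I ∩ Q)) := by
          rw [disjoint_left]
          intro y hy hy'
          have h3 : y ∈ T := by
            rw [← h0T]
            exact nb_mono (inter_subset_right) (Subset.refl _) hy
          have h4 := (mem_inter.1 (nb_subset _ _ _ hy')).2
          exact disjoint_left.1 hTQ h3 h4
        have h3 := card_le_card h1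
        rw [card_union_of_disjoint h2] at h3
        have h4 := hH (S' \ S) (sdiff_subset_sdiff hS' (Subset.refl _))
        omega
      have hdfc : dfc G U I = dfc G U I0 := by
        apply le_antisymm
        · obtain ⟨S', hS', hc'⟩ := exists_dfc G U I
          have h1 := hlow S' hS'
          have h2 := le_dfc (G := G) (X := I0) ((inter_subset_left (s₁ := S') (s₂ := S)).trans hS')
          have h3 := card_inter_add_card_sdiff S' S
          omega
        · have h1 := le_dfc (G := G) (X := I) hSU
          rw [hnbS] at h1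
          omega
      have hSm : Smin G U I = S := by
        apply subset_antisymm
        · apply Smin_le hSU
          rw [hnbS, hdfc]; exact hS0
        · intro v hv
          rw [mem_Smin]
          refine ⟨hSU hv, fun S' hS' hc' => ?_⟩
          have h1 := hlow S' hS'
          have h2 := le_dfc (G := G) (X := I0) ((inter_subset_left (s₁ := S') (s₂ := S)).trans hS')
          have h3 := card_inter_add_card_sdiff S' S
          have h4 : (S' ∩ S).card = (nb G (S' ∩ S) I0).card + dfc G U I0 := by
            rw [hdfc] at hc'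
            omega
          have h5 := Smin_le ((inter_subset_left (s₁ := S') (s₂ := S)).trans hS') h4
          rw [h0S] at h5
          exact (mem_inter.1 (h5 hv)).1
      refine ⟨⟨?_, hInd, hdom, ?_⟩, ?_, ?_⟩
      · intro v hv
        rcases mem_union.1 (hIQ hv) with h | h
        · exact h0X (hTI0 h)
        · rw [hQ, mem_far] at h; exact h.1
      · intro h
        have := hall_iff_dfc.1 h
        omega
      · rw [hSm, hdfc]; exact h0r
      · rw [hSm, hnbS]
    · rintro ⟨⟨hIX, hII, hID, hIH⟩, hIr, hIl⟩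
      rw [Prod.mk.injEq] at hIl
      obtain ⟨hIS, hIT⟩ := hIl
      rw [hIS] at hIT hIr
      have hS1 := Smin_spec G U I
      rw [hIS, hIT] at hS1
      have hTI : T ⊆ I := by rw [← hIT]; exact nb_subset _ _ _
      have hQI : ∀ v ∈ I, v ∉ T → v ∈ Q := by
        intro v hv hvT
        rw [hQ, mem_far]
        refine ⟨hIX hv, ?_, ?_⟩
        · rw [mem_union]
          rintro (h | h)
          · obtain ⟨w, hw, hvw⟩ := hID v (hSU h)
            exact hII v hv w hw hvw
          · exact hvT h
        · intro c hc hcv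
          rcases mem_union.1 hc with h | h
          · apply hvT
            rw [← hIT, mem_nb]
            exact ⟨hv, c, h, hcv⟩
          · exact hII c (hTI h) v hv hcv
      refine ⟨hTI, ?_, ?_⟩
      · intro v hv
        by_cases h : v ∈ T
        · exact mem_union_left _ h
        · exact mem_union_right _ (hQI v hv h)
      · intro S2 hS2
        have hd : Disjoint S S2 := by
          rw [disjoint_left]
          intro v hv hv2
          exact (mem_sdiff.1 (hS2 hv2)).2 hv
        have h1 := le_dfc (G := G) (X := I) (union_subset hSU (hS2.trans sdiff_subset))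
        rw [card_union_of_disjoint hd] at h1
        have h2 : nb G (S ∪ S2) I ⊆ T ∪ nb G S2 (I ∩ Q) := by
          intro y hy
          by_cases hyT : y ∈ T
          · exact mem_union_left _ hyT
          · apply mem_union_right
            rw [mem_nb] at hy ⊢
            obtain ⟨hy1, x, hx, hxy⟩ := hy
            refine ⟨mem_inter.2 ⟨hy1, hQI y hy1 hyT⟩, x, ?_, hxy⟩
            rcases mem_union.1 hx with h | h
            · exfalso
              apply hyT
              rw [← hIT, mem_nb]
              exact ⟨hy1, x, h, hxy⟩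
            · exact h
        have h3 := (card_le_card h2).trans (card_union_le _ _)
        omega

/-- the key exactness statement for sets independent and Hall-dominating `U` -/
theorem ex_IU {G : SimpleGraph V} (hG : GapFree G) {X U : Finset V} (hU : U ⊆ X) {k : ℕ}
    (hk : U.card ≤ k) (hΔ : Ex K {I : Finset V | I ⊆ X ∧ Ind G I} (k + 1)) :
    Ex K {I : Finset V | I ⊆ X ∧ Ind G I ∧ Hall G U I} (k + 1) := by
  classical
  have hD : Ex K {I : Finset V | I ⊆ X ∧ Ind G I ∧ ∀ u ∈ U, ∃ v ∈ I, G.Adj u v} (k + 1) := by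
    rcases U.eq_empty_or_nonempty with h | h
    · refine Ex.congr ?_ hΔ
      intro σ
      simp [h]
    · refine Ex.upper (A := XS G X ∅ U) (B := {I : Finset V | I ⊆ X ∧ Ind G I ∧ ∀ u ∈ U, ∃ v ∈ I, G.Adj u v})
        (F := {I : Finset V | I ⊆ X ∧ Ind G I}) ?_ ?_ ?_ ?_ hΔ (ex_XS hG U hU h ∅ (empty_subset _) k hk)
      · exact cvx_of_down (fun σ hσ τ hτ => ⟨hτ.trans hσ.1, hσ.2.mono hτ⟩)
      · intro σ
        simp only [Set.mem_ofPred_eq]
        constructor
        · rintro ⟨h1, h2⟩
          by_cases h3 : ∃ u ∈ U, ∀ w ∈ σ, ¬ G.Adj u w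
          · left
            exact ⟨⟨h1, h2, by simp⟩, h3⟩
          · right
            push Not at h3
            exact ⟨h1, h2, h3⟩
        · rintro (⟨⟨h1, h2, _⟩, _⟩ | ⟨h1, h2, _⟩)
          · exact ⟨h1, h2⟩
          · exact ⟨h1, h2⟩
      · rintro σ ⟨_, u, hu, h1⟩ ⟨_, _, h2⟩
        obtain ⟨v, hv, huv⟩ := h2 u hu
        exact h1 v hv huv
      · rintro σ ⟨_, u, hu, h1⟩ w hw ⟨_, _, h2⟩
        obtain ⟨v, hv, huv⟩ := h2 u hu
        exact h1 v (mem_of_mem_erase hv) huv
  refine Ex.upper (A := EE G X U) (B := {I : Finset V | I ⊆ X ∧ Ind G I ∧ Hall G U I})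
    (F := {I : Finset V | I ⊆ X ∧ Ind G I ∧ ∀ u ∈ U, ∃ v ∈ I, G.Adj u v}) ?_ ?_ ?_ ?_ hD (ex_EE hG hk)
  · rintro ρ σ τ h1 h2 ⟨h3, h4, h5⟩ ⟨h7, h8, h9⟩
    refine ⟨h2.trans h7, h8.mono h2, ?_⟩
    intro u hu
    obtain ⟨v, hv, huv⟩ := h5 u hu
    exact ⟨v, h1 hv, huv⟩
  · intro σ
    constructor
    · rintro ⟨h1, h2, h3⟩
      by_cases h4 : Hall G U σ
      · exact Or.inr ⟨h1, h2, h4⟩
      · exact Or.inl ⟨h1, h2, h3, h4⟩
    · rintro (⟨h1, h2, h3, _⟩ | ⟨h1, h2, h4⟩)
      · exact ⟨h1, h2, h3⟩
      · refine ⟨h1, h2, ?_⟩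
        intro u hu
        have h5 := h4 {u} (by simpa using hu)
        rw [card_singleton] at h5
        obtain ⟨y, hy⟩ := card_pos.1 h5
        rw [mem_nb] at hy
        obtain ⟨hy1, x, hx, hxy⟩ := hy
        rw [mem_singleton] at hx
        exact ⟨y, hy1, hx ▸ hxy⟩
  · rintro σ ⟨_, _, _, h1⟩ ⟨_, _, h2⟩
    exact h1 h2
  · rintro σ ⟨_, _, _, h1⟩ v hv ⟨_, _, h2⟩
    exact h1 (h2.mono (erase_subset _ _))

end

end Pool.Agent.Helper82.Gap
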