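import Mathlib
import Pool.Agent.Helper82.GapDelta

set_option autoImplicit false
set_option linter.unusedSectionVars false
set_option linter.unusedVariables false

namespace Pool.Agent.Helper82.Gap

open Finset

section
variable {V : Type*} [LinearOrder V] {K : Type*} [CommRing K]

lemma up_shift (x : V) {f : Finset V → K} (hf : ∀ σ, x ∉ σ → f σ = 0) {I : Finset V} (hI : x ∉ I) :
    up f (insert x I) = - (sg K x I * up (fun J => sg K x J * f (insert x J)) I) := by
  unfold up
  rw [sum_insert hI, erase_insert hI, hf I hI, mul_zero, zero_add, mul_sum, ← sum_neg_distrib]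
  apply sum_congr rfl
  intro v hv
  have hvx : v ≠ x := fun h' => hI (h' ▸ hv)
  have hx' : x ∉ I.erase v := fun h' => hI (mem_of_mem_erase h')
  have e1 : (insert x I).erase v = insert x (I.erase v) := by
    rw [erase_insert_of_ne hvx.symm]
  rw [e1]
  have key := sg_anti (K := K) (σ := I.erase v) (v := v) (w := x) hvx (by simp) hx'
  have e2 : sg K v (insert x I) = sg K v (insert x (I.erase v)) := by
    rw [← e1, sg_erase_self]
  have e3 : sg K x I = sg K x (insert v (I.erase v)) := by rw [insert_erase hv]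
  rw [e2, e3, ← sg_erase_self v I]
  have s2 := sg_mul_self (K := K) x (I.erase v)
  set a := sg K v (I.erase v)
  set b := sg K x (I.erase v)
  set c := sg K x (insert v (I.erase v))
  set d := sg K v (insert x (I.erase v))
  set F' := f (insert x (I.erase v))
  -- a c = - b d, b b = 1
  linear_combination (b * F') * key - (d * F') * s2

/-- shifting a family by one vertex -/
theorem Ex.shift1 {F' : Set (Finset V)} (x : V) (hx : ∀ I ∈ F', x ∉ I) {k : ℕ} (h : Ex K F' k) :
    Ex K {σ | x ∈ σ ∧ σ.erase x ∈ F'} (k + 1) := by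
  classical
  intro f hf hcyc
  have hf0 : ∀ σ, x ∉ σ → f σ = 0 := by
    intro σ hσ
    by_contra hne
    exact hσ (hf _ hne).1.1
  have hsup : Sup F' k (fun J => if x ∈ J then 0 else sg K x J * f (insert x J)) := by
    intro J hJ
    by_cases hxJ : x ∈ J
    · simp [hxJ] at hJ
    · simp only [hxJ, if_false] at hJ
      have h1 : f (insert x J) ≠ 0 := fun h' => hJ (by rw [h', mul_zero])
      obtain ⟨⟨_, h3⟩, h4⟩ := hf _ h1
      rw [erase_insert hxJ] at h3
      rw [card_insert_of_notMem hxJ] at h4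
      exact ⟨h3, by omega⟩
  have hupeq : ∀ (w : Finset V → K) (I : Finset V), x ∉ I →
      up (fun J => if x ∈ J then 0 else sg K x J * w (insert x J)) I =
      up (fun J => sg K x J * w (insert x J)) I := by
    intro w I hI
    apply up_congr
    intro v hv
    have hx' : x ∉ I.erase v := fun h' => hI (mem_of_mem_erase h')
    simp only [hx', if_false]
  obtain ⟨g, hg, hg2⟩ := h _ hsup (by
    intro I hI
    have hxI := hx I hI
    rw [hupeq f I hxI]
    have h1 := hcyc (insert x I) ⟨mem_insert_self _ _, by rw [erase_insert hxI]; exact hI⟩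
    rw [up_shift x hf0 hxI] at h1
    have h2 := sg_mul_self (K := K) x I
    linear_combination (-(sg K x I)) * h1 - (up (fun J => sg K x J * f (insert x J)) I) * h2)
  refine ⟨fun σ => if x ∈ σ then - (sg K x (σ.erase x) * g (σ.erase x)) else 0, ?_, ?_⟩
  · intro σ hσ
    by_cases hxσ : x ∈ σ
    · simp only [hxσ, if_true] at hσ
      have h1 : g (σ.erase x) ≠ 0 := fun h' => hσ (by rw [h', mul_zero, neg_zero])
      obtain ⟨h2, h3⟩ := hg _ h1
      refine ⟨⟨hxσ, h2⟩, ?_⟩
      rw [card_erase_of_mem hxσ] at h3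
      have : 0 < σ.card := card_pos.mpr ⟨x, hxσ⟩
      omega
    · simp [hxσ] at hσ
  · rintro σ ⟨hxσ, hσ⟩
    have hxI : x ∉ σ.erase x := by simp
    obtain ⟨I, hI, rfl⟩ : ∃ I, x ∉ I ∧ σ = insert x I := ⟨σ.erase x, hxI, (insert_erase hxσ).symm⟩
    rw [erase_insert hI] at hσ
    rw [up_shift x (by intro τ hτ; simp [hτ]) hI]
    have h1 : up (fun J => sg K x J * (if x ∈ insert x J then
        - (sg K x ((insert x J).erase x) * g ((insert x J).erase x)) else 0)) I = - up g I := by
      have h2 : up (fun J => sg K x J * (if x ∈ insert x J then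
        - (sg K x ((insert x J).erase x) * g ((insert x J).erase x)) else 0)) I = up (0 - g) I := by
        apply up_congr
        intro v hv
        have hx' : x ∉ I.erase v := fun h' => hI (mem_of_mem_erase h')
        simp only [mem_insert_self, if_true, erase_insert hx', Pi.sub_apply, Pi.zero_apply]
        have h3 := sg_mul_self (K := K) x (I.erase v)
        linear_combination (- g (I.erase v)) * h3
      rw [h2, up_sub, up_zero, zero_sub]
    rw [h1, hg2 I hσ]
    simp only [hI, if_false]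
    have h3 := sg_mul_self (K := K) x I
    linear_combination (f (insert x I)) * h3

theorem Ex.shift {F' : Set (Finset V)} (U : Finset V) : (∀ I ∈ F', Disjoint I U) → ∀ {k : ℕ},
    Ex K F' k → Ex K {σ | U ⊆ σ ∧ σ \ U ∈ F'} (k + U.card) := by
  classical
  induction U using Finset.induction_on with
  | empty =>
    intro _ k h
    refine Ex.congr ?_ h
    intro σ; simp
  | insert x U hxU ih =>
    intro hd k h
    have h1 := ih (fun I hI => disjoint_of_subset_right (subset_insert _ _) (hd I hI)) h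
    have h2 := Ex.shift1 x (F' := {σ | U ⊆ σ ∧ σ \ U ∈ F'}) (by
      rintro σ ⟨h2, h3⟩ hxσ
      have h4 := hd _ h3
      exact disjoint_left.1 h4 (mem_sdiff.2 ⟨hxσ, hxU⟩) (mem_insert_self _ _)) h1
    rw [card_insert_of_notMem hxU, ← add_assoc]
    refine Ex.congr ?_ h2
    intro σ
    simp only [Set.mem_ofPred_eq]
    constructor
    · rintro ⟨h3, h4, h5⟩
      refine ⟨insert_subset h3 (h4.trans (erase_subset _ _)), ?_⟩
      convert h5 using 1
      ext y; simp only [mem_sdiff, mem_insert, mem_erase]; tauto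
    · rintro ⟨h3, h4⟩
      refine ⟨h3 (mem_insert_self _ _), ?_, ?_⟩
      · intro y hy
        rw [mem_erase]
        exact ⟨fun h => hxU (h ▸ hy), h3 (mem_insert_of_mem hy)⟩
      · convert h4 using 1
        ext y; simp only [mem_sdiff, mem_insert, mem_erase]; tauto

/-- `U` is a vertex cover of `σ` satisfying the Hall condition into its complement -/
def MCov (G : SimpleGraph V) (U σ : Finset V) : Prop :=
  U ⊆ σ ∧ Ind G (σ \ U) ∧ Hall G U (σ \ U)

/-- the integral cover function -/
noncomputable def ic (U : Finset V) (v : V) : ℕ := if v ∈ U then 2 else 0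

lemma cov_ic {G : SimpleGraph V} {U σ : Finset V} (h : Ind G (σ \ U)) : Cov G σ (ic U) := by
  constructor
  · intro v; unfold ic; split_ifs <;> omega
  · intro u hu v hv huv
    unfold ic
    by_cases h1 : u ∈ U
    · rw [if_pos h1]; omega
    · by_cases h2 : v ∈ U
      · rw [if_pos h2]; omega
      · exact absurd huv (h u (mem_sdiff.2 ⟨hu, h1⟩) v (mem_sdiff.2 ⟨hv, h2⟩))

lemma wt_ic {U σ : Finset V} (h : U ⊆ σ) : wt σ (ic U) = 2 * U.card := by
  unfold wt ic
  rw [sum_ite_mem, inter_eq_right.2 h, sum_const, smul_eq_mul, mul_comm]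

lemma mcov_iff {G : SimpleGraph V} {U σ : Finset V} :
    MCov G U σ ↔ U ⊆ σ ∧ Ind G (σ \ U) ∧ t2 G σ = 2 * U.card := by
  classical
  constructor
  · rintro ⟨h1, h2, h3⟩
    refine ⟨h1, h2, ?_⟩
    apply le_antisymm
    · rw [← wt_ic h1]; exact t2_le (cov_ic h2)
    · obtain ⟨y, hy⟩ := exists_opt G σ
      rw [← hy.2]
      have h4 := hall_weight h3 hy.1.1 (fun u hu i hi hui =>
        hy.1.2 u (h1 hu) i (mem_sdiff.1 hi).1 hui)
      unfold wt
      rw [← sum_sdiff h1]
      omega
  · rintro ⟨h1, h2, h3⟩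
    refine ⟨h1, h2, ?_⟩
    have h4 : Opt G σ (ic U) := ⟨cov_ic h2, by rw [wt_ic h1, h3]⟩
    have h5 := h4.hall
    have e1 : σ.filter (fun v => ic U v = 2) = U := by
      ext v
      rw [mem_filter]
      unfold ic
      constructor
      · rintro ⟨_, h⟩
        by_contra hv
        rw [if_neg hv] at h; omega
      · intro hv
        exact ⟨h1 hv, by rw [if_pos hv]⟩
    have e2 : σ.filter (fun v => ic U v = 0) = σ \ U := by
      ext v
      rw [mem_filter, mem_sdiff]
      unfold ic
      constructor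
      · rintro ⟨hv, h⟩
        refine ⟨hv, fun hvU => ?_⟩
        rw [if_pos hvU] at h; omega
      · rintro ⟨hv, h⟩
        exact ⟨hv, by rw [if_neg h]⟩
    rw [e1, e2] at h5
    exact h5

lemma MCov.opt {G : SimpleGraph V} {U σ : Finset V} (h : MCov G U σ) : Opt G σ (ic U) := by
  obtain ⟨h1, h2, h3⟩ := mcov_iff.1 h
  exact ⟨cov_ic h2, by rw [wt_ic h1, h3]⟩

/-- the family of `σ` for which `U` is a minimum cover -/
def FU (G : SimpleGraph V) (X U : Finset V) : Set (Finset V) := {σ | σ ⊆ X ∧ MCov G U σ}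

lemma FU_cvx (G : SimpleGraph V) (X U : Finset V) : Cvx (FU G X U) := by
  rintro ρ σ τ h1 h2 ⟨h3, h4, h5, h6⟩ ⟨h7, h8, h9, h10⟩
  refine ⟨h2.trans h7, h4.trans h1, h9.mono (sdiff_subset_sdiff h2 (Subset.refl _)),
    h6.mono (sdiff_subset_sdiff h1 (Subset.refl _))⟩

/-- the Koenig stratum -/
def SK (G : SimpleGraph V) (X : Finset V) (h : ℕ) : Set (Finset V) :=
  {σ | σ ⊆ X ∧ t2 G σ = 2 * h ∧ Cmin G σ = ∅}

lemma mem_SK {G : SimpleGraph V} {X : Finset V} {h : ℕ} {σ : Finset V} :
    σ ∈ SK G X h ↔ σ ⊆ X ∧ ∃ U : Finset V, U.card = h ∧ MCov G U σ := by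
  classical
  constructor
  · rintro ⟨h1, h2, h3⟩
    refine ⟨h1, ?_⟩
    obtain ⟨x, hx, hxC⟩ := exists_opt_min G σ
    have hx1 : ∀ v ∈ σ, x v ≠ 1 := by
      intro v hv h4
      have := (hxC v hv).1 h4
      rw [h3] at this
      simp at this
    set U := σ.filter (fun v => x v = 2) with hU
    have hUσ : U ⊆ σ := filter_subset _ _
    have e1 : wt σ x = 2 * U.card := by
      rw [← wt_ic hUσ]
      unfold wt ic
      apply sum_congr rfl
      intro v hv
      have h4 := hx1 v hv
      have h5 := hx.1.1 v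
      by_cases h6 : x v = 2
      · rw [if_pos (by rw [hU, mem_filter]; exact ⟨hv, h6⟩)]; exact h6
      · rw [if_neg (by rw [hU, mem_filter]; tauto)]; omega
    have e2 : U.card = h := by
      have := hx.2
      omega
    refine ⟨U, e2, mcov_iff.2 ⟨hUσ, ?_, by rw [h2, e2]⟩⟩
    intro u hu v hv huv
    rw [mem_sdiff, hU, mem_filter] at hu hv
    have h4 := hx.1.2 u hu.1 v hv.1 huv
    have h5 := hx1 u hu.1
    have h6 := hx1 v hv.1
    have h7 := hx.1.1 u
    have h8 := hx.1.1 v
    have h9 : x u ≠ 2 := fun h => hu.2 ⟨hu.1, h⟩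
    have h10 : x v ≠ 2 := fun h => hv.2 ⟨hv.1, h⟩
    omega
  · rintro ⟨h1, U, hUc, hU⟩
    refine ⟨h1, by rw [(mcov_iff.1 hU).2.2, hUc], ?_⟩
    rw [eq_empty_iff_forall_notMem]
    intro v hv
    have h2 := (mem_Cmin.1 hv).2 _ hU.opt
    unfold ic at h2
    split_ifs at h2
    all_goals omega

lemma FU_sub_SK {G : SimpleGraph V} {X U : Finset V} {h : ℕ} (hU : U.card = h) {σ : Finset V}
    (hσ : σ ∈ FU G X U) : σ ∈ SK G X h := mem_SK.2 ⟨hσ.1, U, hU, hσ.2⟩

lemma FU_erase {G : SimpleGraph V} {X U : Finset V} {h : ℕ} (hU : U.card = h) {σ : Finset V}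
    (hσ : σ ∈ FU G X U) {v : V} (hv : v ∈ σ) (hσv : σ.erase v ∈ SK G X h) :
    σ.erase v ∈ FU G X U := by
  classical
  obtain ⟨h1, h2, h3, h4⟩ := hσ
  refine ⟨hσv.1, ?_⟩
  have hvU : v ∉ U := by
    intro hvU
    have h5 : Ind G (σ.erase v \ U.erase v) := by
      refine h3.mono ?_
      intro y hy
      rw [mem_sdiff, mem_erase, mem_erase] at hy
      rw [mem_sdiff]
      exact ⟨hy.1.2, fun h => hy.2 ⟨hy.1.1, h⟩⟩
    have h6 := t2_le (cov_ic h5)
    rw [wt_ic (erase_subset_erase v h2), hσv.2.1, card_erase_of_mem hvU] at h6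
    have : 0 < U.card := card_pos.mpr ⟨v, hvU⟩
    omega
  rw [mcov_iff]
  refine ⟨fun y hy => mem_erase.2 ⟨fun h => hvU (h ▸ hy), h2 hy⟩, ?_, by rw [hσv.2.1, hU]⟩
  exact h3.mono (sdiff_subset_sdiff (erase_subset _ _) (Subset.refl _))

theorem ex_FU {G : SimpleGraph V} (hG : GapFree G) {X U : Finset V} (hU : U ⊆ X) {k : ℕ}
    (hk : U.card ≤ k) (hΔ : Ex K {I : Finset V | I ⊆ X ∧ Ind G I} (k + 1)) :
    Ex K (FU G X U) (k + 1 + U.card) := by
  classical
  refine Ex.congr ?_ (Ex.shift (K := K) U (F' := {I : Finset V | I ⊆ X ∧ Ind G I ∧ Hall G U I}) ?_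
    (ex_IU hG hU hk hΔ))
  · intro σ
    simp only [Set.mem_ofPred_eq]
    constructor
    · rintro ⟨h1, h2, h3, h4⟩
      refine ⟨?_, h1, h3, h4⟩
      intro v hv
      by_cases h : v ∈ U
      · exact hU h
      · exact h2 (mem_sdiff.2 ⟨hv, h⟩)
    · rintro ⟨h1, h2, h3, h4⟩
      exact ⟨h2, sdiff_subset.trans h1, h3, h4⟩
  · rintro I ⟨h1, h2, h3⟩
    rw [disjoint_left]
    intro u huI huU
    have h5 := h3 {u} (by simpa using huU)
    rw [card_singleton] at h5
    obtain ⟨y, hy⟩ := card_pos.1 h5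
    rw [mem_nb] at hy
    obtain ⟨hy1, x, hx, hxy⟩ := hy
    rw [mem_singleton] at hx
    exact h2 u huI y hy1 (hx ▸ hxy)

end

end Pool.Agent.Helper82.Gap
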