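import Mathlib
import Pool.Agent.Helper82.GapTree

set_option autoImplicit false
set_option linter.unusedSectionVars false
set_option linter.unusedVariables false

namespace Pool.Agent.Helper82.Gap

open Finset

section
variable {V : Type*} [LinearOrder V] {K : Type*} [CommRing K]

/-- first facts on two minimum covers -/
lemma mcov_nb {G : SimpleGraph V} {U U' σ : Finset V} (hU : MCov G U σ) (hU' : MCov G U' σ)
    (hc : U.card = U'.card) : nb G (U \ U') (σ \ U) = U' \ U := by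
  have h1 : nb G (U \ U') (σ \ U) ⊆ U' \ U := by
    intro y hy
    rw [mem_nb, mem_sdiff] at hy
    obtain ⟨⟨hy1, hy2⟩, x, hx, hxy⟩ := hy
    rw [mem_sdiff] at hx ⊢
    refine ⟨?_, hy2⟩
    by_contra h
    exact hU'.2.1 x (mem_sdiff.2 ⟨hU.1 hx.1, hx.2⟩) y (mem_sdiff.2 ⟨hy1, h⟩) hxy
  apply eq_of_subset_of_card_le h1
  have h2 := hU.2.2 (U \ U') sdiff_subset
  have h3 : (U \ U').card = (U' \ U).card := by
    have h4 := card_sdiff_add_card_inter U U'
    have h5 := card_sdiff_add_card_inter U' U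
    rw [inter_comm] at h5
    omega
  omega

/-- the ground set for a pair -/
noncomputable def QP (G : SimpleGraph V) (X U U' : Finset V) : Finset V := by
  classical
  exact X.filter (fun v => v ∉ U ∧ v ∉ U' ∧ (∀ c ∈ U, c ∉ U' → ¬ G.Adj c v) ∧
    (∀ c ∈ U', c ∉ U → ¬ G.Adj c v))

lemma mem_QP {G : SimpleGraph V} {X U U' : Finset V} {v : V} :
    v ∈ QP G X U U' ↔ v ∈ X ∧ v ∉ U ∧ v ∉ U' ∧ (∀ c ∈ U, c ∉ U' → ¬ G.Adj c v) ∧
    (∀ c ∈ U', c ∉ U → ¬ G.Adj c v) := by
  unfold QP; simp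

lemma QP_comm (G : SimpleGraph V) (X U U' : Finset V) : QP G X U U' = QP G X U' U := by
  ext v
  rw [mem_QP, mem_QP]
  tauto

lemma pair_aux {G : SimpleGraph V} (hG : GapFree G) {X U U' σ0 σ : Finset V} (hne : U ≠ U')
    (hc : U.card = U'.card) (h0 : MCov G U σ0) (h0' : MCov G U' σ0)
    (hP : U ∪ U' ⊆ σ) (hPQ : σ ⊆ (U ∪ U') ∪ QP G X U U')
    (hH : Hall G (U ∩ U') (σ ∩ QP G X U U')) : MCov G U σ := by
  classical
  have hnb := mcov_nb h0 h0' hc
  have hUs : U ⊆ σ := subset_union_left.trans hP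
  have hU's : U' ⊆ σ := subset_union_right.trans hP
  -- an edge between U \ U' and U' \ U
  have hS : (U \ U').Nonempty := by
    rw [sdiff_nonempty]
    intro h
    exact hne (eq_of_subset_of_card_le h hc.ge)
  obtain ⟨s, hs⟩ := hS
  have h1 := h0.2.2 {s} (by rw [singleton_subset_iff]; exact (mem_sdiff.1 hs).1)
  rw [card_singleton] at h1
  obtain ⟨t, ht⟩ := card_pos.1 h1
  have ht' : t ∈ U' \ U := by
    rw [← hnb]
    exact nb_mono (singleton_subset_iff.2 hs) (Subset.refl _) ht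
  rw [mem_nb] at ht
  obtain ⟨_, s', hs', hst⟩ := ht
  rw [mem_singleton] at hs'
  subst hs'
  rw [mem_sdiff] at hs ht'
  have hfar2 : ∀ u ∈ QP G X U U', ∀ v ∈ QP G X U U', ¬ G.Adj u v := by
    intro u hu v hv
    rw [mem_QP] at hu hv
    refine far_indep hG (C := {s', t}) (a := s') (b := t) (by simp) (by simp) hst ?_ ?_
    · intro c hc
      rw [mem_insert, mem_singleton] at hc
      rcases hc with h | h
      · rw [h]; exact hu.2.2.2.1 s' hs.1 hs.2
      · rw [h]; exact hu.2.2.2.2 t ht'.1 ht'.2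
    · intro c hc
      rw [mem_insert, mem_singleton] at hc
      rcases hc with h | h
      · rw [h]; exact hv.2.2.2.1 s' hs.1 hs.2
      · rw [h]; exact hv.2.2.2.2 t ht'.1 ht'.2
  have hcase : ∀ v ∈ σ \ U, v ∈ U' \ U ∨ v ∈ QP G X U U' := by
    intro v hv
    rw [mem_sdiff] at hv
    rcases mem_union.1 (hPQ hv.1) with h | h
    · rcases mem_union.1 h with h | h
      · exact absurd h hv.2
      · exact Or.inl (mem_sdiff.2 ⟨h, hv.2⟩)
    · exact Or.inr h
  refine ⟨hUs, ?_, ?_⟩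
  · intro u hu v hv huv
    rcases hcase u hu with h | h
    · rcases hcase v hv with h' | h'
      · rw [mem_sdiff] at h h'
        exact h0.2.1 u (mem_sdiff.2 ⟨h0'.1 h.1, h.2⟩) v (mem_sdiff.2 ⟨h0'.1 h'.1, h'.2⟩) huv
      · rw [mem_QP] at h'
        rw [mem_sdiff] at h
        exact h'.2.2.2.2 u h.1 h.2 huv
    · rcases hcase v hv with h' | h'
      · rw [mem_QP] at h
        rw [mem_sdiff] at h'
        exact h.2.2.2.2 v h'.1 h'.2 huv.symm
      · exact hfar2 u h v h' huv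
  · intro S hS
    have e1 : nb G (S \ U') (σ0 \ U) ∪ nb G (S ∩ U') (σ ∩ QP G X U U') ⊆ nb G S (σ \ U) := by
      intro y hy
      rcases mem_union.1 hy with h | h
      · have h2 : y ∈ U' \ U := by
          rw [← hnb]
          exact nb_mono (sdiff_subset_sdiff hS (Subset.refl _)) (Subset.refl _) h
        rw [mem_nb] at h ⊢
        obtain ⟨_, x, hx, hxy⟩ := h
        rw [mem_sdiff] at h2
        exact ⟨mem_sdiff.2 ⟨hU's h2.1, h2.2⟩, x, (mem_sdiff.1 hx).1, hxy⟩
      · rw [mem_nb] at h ⊢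
        obtain ⟨h2, x, hx, hxy⟩ := h
        rw [mem_inter, mem_QP] at h2
        exact ⟨mem_sdiff.2 ⟨h2.1, h2.2.2.1⟩, x, (mem_inter.1 hx).1, hxy⟩
    have e2 : Disjoint (nb G (S \ U') (σ0 \ U)) (nb G (S ∩ U') (σ ∩ QP G X U U')) := by
      rw [disjoint_left]
      intro y hy hy'
      have h2 : y ∈ U' \ U := by
        rw [← hnb]
        exact nb_mono (sdiff_subset_sdiff hS (Subset.refl _)) (Subset.refl _) hy
      have h3 := nb_subset _ _ _ hy'
      rw [mem_inter, mem_QP] at h3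
      exact h3.2.2.2.1 (mem_sdiff.1 h2).1
    have e3 := card_le_card e1
    rw [card_union_of_disjoint e2] at e3
    have e4 := h0.2.2 (S \ U') (sdiff_subset.trans hS)
    have e5 := hH (S ∩ U') (inter_subset_inter hS (Subset.refl _))
    have e6 := card_sdiff_add_card_inter S U'
    omega

theorem ex_pair {G : SimpleGraph V} (hG : GapFree G) {X U U' : Finset V} (hne : U ≠ U')
    {h : ℕ} (hU : U.card = h) (hU' : U'.card = h) {n : ℕ} (hn : 2 * h < n) :
    Ex K (FU G X U ∩ FU G X U') n := by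
  classical
  by_cases hex : ∃ σ0, σ0 ∈ FU G X U ∩ FU G X U'
  swap
  · apply Ex.of_card
    intro σ hσ
    exact absurd ⟨σ, hσ⟩ hex
  obtain ⟨σ0, ⟨h0X, h0⟩, ⟨_, h0'⟩⟩ := hex
  have hd : Disjoint (U ∪ U') (QP G X U U') := by
    rw [disjoint_left]
    intro v hv hvQ
    rw [mem_QP] at hvQ
    rcases mem_union.1 hv with h | h
    · exact hvQ.2.1 h
    · exact hvQ.2.2.1 h
  have hcard : (U ∪ U').card + (U ∩ U').card < n := by
    rw [card_union_add_card_inter]; omega
  refine Ex.congr ?_ (ex_hall' (K := K) G (U ∩ U') (U ∪ U') (QP G X U U') hd hcard)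
  intro σ
  constructor
  · rintro ⟨hP, hPQ, hH⟩
    have hX : σ ⊆ X := by
      intro v hv
      rcases mem_union.1 (hPQ hv) with h | h
      · rcases mem_union.1 h with h | h
        · exact h0X (h0.1 h)
        · exact h0X (h0'.1 h)
      · exact (mem_QP.1 h).1
    refine ⟨⟨hX, pair_aux hG hne (by omega) h0 h0' hP hPQ hH⟩, hX, ?_⟩
    rw [union_comm] at hP
    rw [union_comm U U', QP_comm] at hPQ
    rw [inter_comm U U', QP_comm] at hH
    exact pair_aux hG (Ne.symm hne) (by omega) h0' h0 hP hPQ hH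
  · rintro ⟨⟨hX, h1⟩, ⟨_, h1'⟩⟩
    have hQ : ∀ v ∈ σ, v ∉ U → v ∉ U' → v ∈ QP G X U U' := by
      intro v hv hvU hvU'
      rw [mem_QP]
      refine ⟨hX hv, hvU, hvU', ?_, ?_⟩
      · intro c hc hc'
        exact h1'.2.1 c (mem_sdiff.2 ⟨h1.1 hc, hc'⟩) v (mem_sdiff.2 ⟨hv, hvU'⟩)
      · intro c hc hc'
        exact h1.2.1 c (mem_sdiff.2 ⟨h1'.1 hc, hc'⟩) v (mem_sdiff.2 ⟨hv, hvU⟩)
    refine ⟨union_subset h1.1 h1'.1, ?_, ?_⟩
    · intro v hv
      by_cases hvU : v ∈ U
      · exact mem_union_left _ (mem_union_left _ hvU)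
      · by_cases hvU' : v ∈ U'
        · exact mem_union_left _ (mem_union_right _ hvU')
        · exact mem_union_right _ (hQ v hv hvU hvU')
    · intro S hS
      have hnb := mcov_nb h1 h1' (by omega)
      have hSU : S ⊆ U := hS.trans inter_subset_left
      have hd2 : Disjoint S (U \ U') := by
        rw [disjoint_left]
        intro v hv hv'
        exact (mem_sdiff.1 hv').2 (mem_inter.1 (hS hv)).2
      have e1 := h1.2.2 (S ∪ (U \ U')) (union_subset hSU sdiff_subset)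
      rw [card_union_of_disjoint hd2] at e1
      have e2 : nb G (S ∪ (U \ U')) (σ \ U) ⊆ (U' \ U) ∪ nb G S (σ ∩ QP G X U U') := by
        intro y hy
        rw [mem_nb, mem_sdiff] at hy
        obtain ⟨⟨hy1, hy2⟩, x, hx, hxy⟩ := hy
        by_cases hyU' : y ∈ U'
        · exact mem_union_left _ (mem_sdiff.2 ⟨hyU', hy2⟩)
        · apply mem_union_right
          have h5 := hQ y hy1 hy2 hyU'
          rw [mem_nb, mem_inter]
          refine ⟨⟨hy1, h5⟩, x, ?_, hxy⟩
          rcases mem_union.1 hx with h | h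
          · exact h
          · rw [mem_QP] at h5
            rw [mem_sdiff] at h
            exact absurd hxy (h5.2.2.2.1 x h.1 h.2)
      have e3 := (card_le_card e2).trans (card_union_le _ _)
      have h3 : (U \ U').card = (U' \ U).card := by
        have h4 := card_sdiff_add_card_inter U U'
        have h5 := card_sdiff_add_card_inter U' U
        rw [inter_comm] at h5
        omega
      omega

/-- membership in the set of minimum covers of cardinality `h` -/
def MC (G : SimpleGraph V) (h : ℕ) (σ U : Finset V) : Prop := U.card = h ∧ MCov G U σ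

/-- prime pairs -/
def Prm (G : SimpleGraph V) (h : ℕ) (U U' : Finset V) : Prop :=
  ∀ Y : Finset V, U ∩ U' ⊆ Y → Y ⊆ U ∪ U' → Y.card = h → Ind G ((U ∪ U') \ Y) → Y = U ∨ Y = U'

lemma Prm.symm {G : SimpleGraph V} {h : ℕ} {U U' : Finset V} (hp : Prm G h U U') : Prm G h U' U := by
  intro Y h1 h2 h3 h4
  rw [inter_comm] at h1
  rw [union_comm] at h2 h4
  exact (hp Y h1 h2 h3 h4).symm

lemma tight_inter {G : SimpleGraph V} (hG : GapFree G) {h : ℕ} {σ U R : Finset V}
    (hU : MC G h σ U) (hR : MC G h σ R) {S1 S2 : Finset V} (h1 : S1 ⊆ U \ R) (h2 : S2 ⊆ U \ R)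
    (n1 : S1.Nonempty) (n2 : S2.Nonempty) (t1 : (nb G S1 (σ \ U)).card = S1.card)
    (t2 : (nb G S2 (σ \ U)).card = S2.card) :
    (S1 ∩ S2).Nonempty ∧ (nb G (S1 ∩ S2) (σ \ U)).card = (S1 ∩ S2).card := by
  classical
  have hS1U : S1 ⊆ U := h1.trans sdiff_subset
  have hS2U : S2 ⊆ U := h2.trans sdiff_subset
  have e1 := nb_submod G (S := S1) (S' := S2) (Subset.refl (σ \ U))
  have e2 := hU.2.2.2 (S1 ∪ S2) (union_subset hS1U hS2U)
  have e3 := hU.2.2.2 (S1 ∩ S2) (inter_subset_left.trans hS1U)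
  have e4 := card_union_add_card_inter S1 S2
  refine ⟨?_, by omega⟩
  by_contra hcon
  rw [not_nonempty_iff_eq_empty] at hcon
  have e5 : nb G (S1 ∪ S2) (σ \ U) ⊆ nb G S1 (σ \ U) ∪ nb G S2 (σ \ U) := by
    intro y hy
    rw [mem_union, mem_nb, mem_nb]
    rw [mem_nb] at hy
    obtain ⟨hy1, x, hx, hxy⟩ := hy
    rcases mem_union.1 hx with h | h
    · exact Or.inl ⟨hy1, x, h, hxy⟩
    · exact Or.inr ⟨hy1, x, h, hxy⟩
  have e6 := card_le_card e5
  have e7 := card_union_add_card_inter (nb G S1 (σ \ U)) (nb G S2 (σ \ U))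
  rw [hcon, card_empty] at e4
  have e8 : (nb G S1 (σ \ U) ∩ nb G S2 (σ \ U)).card = 0 := by omega
  rw [card_eq_zero] at e8
  have p1 : 0 < (nb G S1 (σ \ U)).card := by rw [t1]; exact card_pos.2 n1
  have p2 : 0 < (nb G S2 (σ \ U)).card := by rw [t2]; exact card_pos.2 n2
  obtain ⟨y1, hy1⟩ := card_pos.1 p1
  obtain ⟨y2, hy2⟩ := card_pos.1 p2
  have hy12 : y1 ∉ nb G S2 (σ \ U) := fun h => by
    have : y1 ∈ (∅ : Finset V) := e8 ▸ mem_inter.2 ⟨hy1, h⟩
    simp at this
  have hy21 : y2 ∉ nb G S1 (σ \ U) := fun h => by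
    have : y2 ∈ (∅ : Finset V) := e8 ▸ mem_inter.2 ⟨h, hy2⟩
    simp at this
  rw [mem_nb] at hy1 hy2
  obtain ⟨hy1a, s1, hs1, hs1y⟩ := hy1
  obtain ⟨hy2a, s2, hs2, hs2y⟩ := hy2
  have q1 : s1 ≠ s2 := by
    intro h
    have : s1 ∈ (∅ : Finset V) := hcon ▸ mem_inter.2 ⟨hs1, h ▸ hs2⟩
    simp at this
  have q2 : s1 ≠ y2 := fun h => (mem_sdiff.1 hy2a).2 (h ▸ hS1U hs1)
  have q3 : y1 ≠ s2 := fun h => (mem_sdiff.1 hy1a).2 (h ▸ hS2U hs2)
  have q4 : y1 ≠ y2 := fun h => hy12 (mem_nb.2 ⟨hy1a, s2, hs2, h ▸ hs2y⟩)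
  rcases hG s1 y1 s2 y2 hs1y hs2y q1 q2 q3 q4 with h | h | h | h
  · have a1 := mem_sdiff.1 (h1 hs1)
    have a2 := mem_sdiff.1 (h2 hs2)
    exact hR.2.2.1 s1 (mem_sdiff.2 ⟨hU.2.1 a1.1, a1.2⟩) s2 (mem_sdiff.2 ⟨hU.2.1 a2.1, a2.2⟩) h
  · exact hy21 (mem_nb.2 ⟨hy2a, s1, hs1, h⟩)
  · exact hy12 (mem_nb.2 ⟨hy1a, s2, hs2, h.symm⟩)
  · exact hU.2.2.1 y1 hy1a y2 hy2a h

/-- the least tight set -/
lemma exists_least_tight {G : SimpleGraph V} (hG : GapFree G) {h : ℕ} {σ U R : Finset V}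
    (hU : MC G h σ U) (hR : MC G h σ R) (hne : U ≠ R) :
    ∃ S ⊆ U \ R, S.Nonempty ∧ (nb G S (σ \ U)).card = S.card ∧
      ∀ S' ⊆ U \ R, S'.Nonempty → (nb G S' (σ \ U)).card = S'.card → S ⊆ S' := by
  classical
  have hcUR : U.card = R.card := by rw [hU.1, hR.1]
  have hD : (U \ R).Nonempty := by
    rw [sdiff_nonempty]
    intro h
    exact hne (eq_of_subset_of_card_le h hcUR.ge)
  have hDt : (nb G (U \ R) (σ \ U)).card = (U \ R).card := by
    rw [mcov_nb hU.2 hR.2 hcUR]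
    have h4 := card_sdiff_add_card_inter U R
    have h5 := card_sdiff_add_card_inter R U
    rw [inter_comm] at h5
    omega
  have hex : ∃ n, ∃ S ⊆ U \ R, S.Nonempty ∧ (nb G S (σ \ U)).card = S.card ∧ S.card = n :=
    ⟨_, U \ R, Subset.refl _, hD, hDt, rfl⟩
  obtain ⟨S, hS, hSn, hSt, hSc⟩ := Nat.find_spec hex
  refine ⟨S, hS, hSn, hSt, ?_⟩
  intro S' hS' hS'n hS't
  by_contra hcon
  obtain ⟨h1, h2⟩ := tight_inter hG hU hR hS hS' hSn hS'n hSt hS't
  have h3 : (S ∩ S').card < S.card := by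
    apply card_lt_card
    refine ⟨inter_subset_left, fun h => hcon (h.trans inter_subset_right)⟩
  rw [hSc] at h3
  exact Nat.find_min hex h3 ⟨_, inter_subset_left.trans hS, h1, h2, rfl⟩

/-- majority of three minimum covers -/
lemma maj_card {G : SimpleGraph V} {h : ℕ} {σ U U' R : Finset V} (hU : MC G h σ U)
    (hU' : MC G h σ U') (hR : MC G h σ R) :
    MC G h σ ((U ∩ U') ∪ (U ∩ R) ∪ (U' ∩ R)) := by
  classical
  set M := (U ∩ U') ∪ (U ∩ R) ∪ (U' ∩ R) with hM
  have hMs : M ⊆ σ := by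
    intro v hv
    rw [hM, mem_union, mem_union, mem_inter, mem_inter, mem_inter] at hv
    rcases hv with (h | h) | h
    · exact hU.2.1 h.1
    · exact hU.2.1 h.1
    · exact hR.2.1 h.2
  have hInd : Ind G (σ \ M) := by
    intro u hu v hv huv
    have a1 : u ∈ U ∨ v ∈ U := by
      by_contra h; push Not at h
      exact hU.2.2.1 u (mem_sdiff.2 ⟨(mem_sdiff.1 hu).1, h.1⟩) v (mem_sdiff.2 ⟨(mem_sdiff.1 hv).1, h.2⟩) huv
    have a2 : u ∈ U' ∨ v ∈ U' := by
      by_contra h; push Not at h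
      exact hU'.2.2.1 u (mem_sdiff.2 ⟨(mem_sdiff.1 hu).1, h.1⟩) v (mem_sdiff.2 ⟨(mem_sdiff.1 hv).1, h.2⟩) huv
    have a3 : u ∈ R ∨ v ∈ R := by
      by_contra h; push Not at h
      exact hR.2.2.1 u (mem_sdiff.2 ⟨(mem_sdiff.1 hu).1, h.1⟩) v (mem_sdiff.2 ⟨(mem_sdiff.1 hv).1, h.2⟩) huv
    have b1 := (mem_sdiff.1 hu).2
    have b2 := (mem_sdiff.1 hv).2
    rw [hM, mem_union, mem_union, mem_inter, mem_inter, mem_inter] at b1 b2
    tauto
  have hopt : Opt G σ (ic M) := by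
    have h1 : ic M = jn (jn (jn (ic U) (ic U')) (ic R)) (jn (ic U) (ic U')) := by
      funext v
      unfold jn ic
      rw [hM]
      simp only [mem_union, mem_inter]
      by_cases c1 : v ∈ U <;> by_cases c2 : v ∈ U' <;> by_cases c3 : v ∈ R <;>
        simp [c1, c2, c3]
    rw [h1]
    exact ((hU.2.opt.jn hU'.2.opt).jn hR.2.opt).jn (hU.2.opt.jn hU'.2.opt)
  have hc : M.card = h := by
    have h1 := hopt.2
    rw [wt_ic hMs, (mcov_iff.1 hU.2).2.2, hU.1] at h1
    omega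
  refine ⟨hc, mcov_iff.2 ⟨hMs, hInd, ?_⟩⟩
  rw [(mcov_iff.1 hU.2).2.2, hU.1, hc]

/-- an intermediate cover is a cover of the whole -/
lemma between {G : SimpleGraph V} {h : ℕ} {σ U U' Y : Finset V} (hU : MC G h σ U)
    (hU' : MC G h σ U') (h1 : U ∩ U' ⊆ Y) (h2 : Y ⊆ U ∪ U') (h3 : Y.card = h)
    (h4 : Ind G ((U ∪ U') \ Y)) : MC G h σ Y := by
  classical
  have hYs : Y ⊆ σ := h2.trans (union_subset hU.2.1 hU'.2.1)
  refine ⟨h3, mcov_iff.2 ⟨hYs, ?_, by rw [(mcov_iff.1 hU.2).2.2, hU.1, h3]⟩⟩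
  have key : ∀ u ∈ σ \ Y, ∀ v ∈ σ \ Y, G.Adj u v → u ∈ U ∪ U' := by
    intro u hu v hv huv
    by_contra h
    rw [mem_union] at h
    push Not at h
    rw [mem_sdiff] at hu hv
    have a1 : v ∈ U := by
      by_contra h'
      exact hU.2.2.1 u (mem_sdiff.2 ⟨hu.1, h.1⟩) v (mem_sdiff.2 ⟨hv.1, h'⟩) huv
    have a2 : v ∈ U' := by
      by_contra h'
      exact hU'.2.2.1 u (mem_sdiff.2 ⟨hu.1, h.2⟩) v (mem_sdiff.2 ⟨hv.1, h'⟩) huv
    exact hv.2 (h1 (mem_inter.2 ⟨a1, a2⟩))
  intro u hu v hv huv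
  have a1 := key u hu v hv huv
  have a2 := key v hv u hu huv.symm
  exact h4 u (mem_sdiff.2 ⟨a1, (mem_sdiff.1 hu).2⟩) v (mem_sdiff.2 ⟨a2, (mem_sdiff.1 hv).2⟩) huv

/-- the parent of a cover -/
theorem exists_parent {G : SimpleGraph V} (hG : GapFree G) {h : ℕ} {σ U R : Finset V}
    (hU : MC G h σ U) (hR : MC G h σ R) (hne : U ≠ R) :
    ∃ P : Finset V, MC G h σ P ∧ P ≠ U ∧ (P \ R).card < (U \ R).card ∧ Prm G h U P ∧
      ∀ U', MC G h σ U' → U' ≠ U → Prm G h U U' → U \ U' ⊆ U \ R → U' = P := by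
  classical
  obtain ⟨S, hS, hSn, hSt, hSmin⟩ := exists_least_tight hG hU hR hne
  have hcUR : U.card = R.card := by rw [hU.1, hR.1]
  have hSU : S ⊆ U := hS.trans sdiff_subset
  set N := nb G S (σ \ U) with hN
  have hNR : N ⊆ R \ U := by
    rw [← mcov_nb hU.2 hR.2 hcUR]
    exact nb_mono hS (Subset.refl _)
  have hNU : Disjoint U N := by
    rw [disjoint_left]
    intro v hv hv'
    exact (mem_sdiff.1 (hNR hv')).2 hv
  set P := (U \ S) ∪ N with hP
  have hPc : P.card = h := by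
    rw [hP, card_union_of_disjoint (disjoint_of_subset_left sdiff_subset hNU),
      card_sdiff_of_subset hSU, hSt]
    have := card_le_card hSU
    have := hU.1
    omega
  have hPs : P ⊆ σ := by
    intro v hv
    rw [hP, mem_union, mem_sdiff] at hv
    rcases hv with h | h
    · exact hU.2.1 h.1
    · exact hR.2.1 (mem_sdiff.1 (hNR h)).1
  have hPind : Ind G (σ \ P) := by
    have hc : ∀ v ∈ σ \ P, v ∈ S ∨ (v ∈ σ \ U ∧ v ∉ N) := by
      intro v hv
      rw [mem_sdiff, hP, mem_union, mem_sdiff] at hv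
      by_cases hvU : v ∈ U
      · left
        by_contra h
        exact hv.2 (Or.inl ⟨hvU, h⟩)
      · right
        exact ⟨mem_sdiff.2 ⟨hv.1, hvU⟩, fun h => hv.2 (Or.inr h)⟩
    have key : ∀ u ∈ S, ∀ v, v ∈ σ \ U → v ∉ N → ¬ G.Adj u v := by
      intro u hu v hv hvN huv
      apply hvN
      rw [hN, mem_nb]
      exact ⟨hv, u, hu, huv⟩
    intro u hu v hv huv
    rcases hc u hu with h | h
    · rcases hc v hv with h' | h'
      · have a1 := mem_sdiff.1 (hS h)
        have a2 := mem_sdiff.1 (hS h')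
        exact hR.2.2.1 u (mem_sdiff.2 ⟨hU.2.1 a1.1, a1.2⟩) v (mem_sdiff.2 ⟨hU.2.1 a2.1, a2.2⟩) huv
      · exact key u h v h'.1 h'.2 huv
    · rcases hc v hv with h' | h'
      · exact key v h' u h.1 h.2 huv.symm
      · exact hU.2.2.1 u h.1 v h'.1 huv
  have hPM : MC G h σ P :=
    ⟨hPc, mcov_iff.2 ⟨hPs, hPind, by rw [(mcov_iff.1 hU.2).2.2, hU.1, hPc]⟩⟩
  obtain ⟨s, hs⟩ := hSn
  have hsP : s ∉ P := by
    rw [hP, mem_union, mem_sdiff]
    rintro (h | h)
    · exact h.2 hs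
    · exact disjoint_left.1 hNU (hSU hs) h
  have hPU : P ≠ U := fun h => hsP (h ▸ hSU hs)
  -- the general step: a cover between, different from U, equals P
  have hstep : ∀ Y, MC G h σ Y → Y ≠ U → U \ Y ⊆ U \ R → S ⊆ U \ Y := by
    intro Y hY hYU hYR
    apply hSmin (U \ Y) hYR
    · rw [sdiff_nonempty]
      intro h'
      exact hYU (eq_of_subset_of_card_le h' (by rw [hY.1, hU.1])).symm
    · rw [mcov_nb hU.2 hY.2 (by rw [hU.1, hY.1])]
      have h4 := card_sdiff_add_card_inter U Y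
      have h5 := card_sdiff_add_card_inter Y U
      rw [inter_comm] at h5
      have := hY.1
      have := hU.1
      omega
  refine ⟨P, hPM, hPU, ?_, ?_, ?_⟩
  · apply card_lt_card
    refine ⟨?_, ?_⟩
    · intro v hv
      rw [mem_sdiff, hP, mem_union, mem_sdiff] at hv
      rw [mem_sdiff]
      rcases hv.1 with h | h
      · exact ⟨h.1, hv.2⟩
      · exact absurd (mem_sdiff.1 (hNR h)).1 hv.2
    · intro h'
      exact hsP (mem_sdiff.1 (h' (hS hs))).1
  · -- prime
    intro Y h1 h2 h3 h4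
    have hY := between hU hPM h1 h2 h3 h4
    by_cases hYU : Y = U
    · exact Or.inl hYU
    · right
      have hUY : U \ Y ⊆ S := by
        intro v hv
        rw [mem_sdiff] at hv
        by_contra h
        exact hv.2 (h1 (mem_inter.2 ⟨hv.1, by rw [hP, mem_union, mem_sdiff]; exact Or.inl ⟨hv.1, h⟩⟩))
      have h5 := hstep Y hY hYU (hUY.trans hS)
      apply eq_of_subset_of_card_le
      · intro v hv
        rw [hP, mem_union, mem_sdiff]
        by_cases hvU : v ∈ U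
        · left
          exact ⟨hvU, fun h => (mem_sdiff.1 (h5 h)).2 hv⟩
        · right
          rcases mem_union.1 (h2 hv) with h | h
          · exact absurd h hvU
          · rw [hP, mem_union, mem_sdiff] at h
            rcases h with h | h
            · exact absurd h.1 hvU
            · exact h
      · rw [hPc, h3]
  · intro U' hU' hne' hp hsub
    have h5 := hstep U' hU' hne' hsub
    have h6 : P = U ∨ P = U' := by
      apply hp P
      · intro v hv
        rw [mem_inter] at hv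
        rw [hP, mem_union, mem_sdiff]
        left
        exact ⟨hv.1, fun h => (mem_sdiff.1 (h5 h)).2 hv.2⟩
      · intro v hv
        rw [hP, mem_union, mem_sdiff] at hv
        rw [mem_union]
        rcases hv with h | h
        · exact Or.inl h.1
        · right
          have h7 : v ∈ U' \ U := by
            rw [← mcov_nb hU.2 hU'.2 (by rw [hU.1, hU'.1])]
            exact nb_mono h5 (Subset.refl _) h
          exact (mem_sdiff.1 h7).1
      · exact hPc
      · exact hPind.mono (sdiff_subset_sdiff (union_subset hU.2.1 hU'.2.1) (Subset.refl _))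
    rcases h6 with h | h
    · exact absurd h hPU
    · exact h.symm

/-- in a prime pair one of the two covers is the parent of the other -/
theorem prime_cases {G : SimpleGraph V} {h : ℕ} {σ U U' R : Finset V} (hU : MC G h σ U)
    (hU' : MC G h σ U') (hR : MC G h σ R) (hne : U ≠ U') (hp : Prm G h U U') :
    U \ U' ⊆ U \ R ∨ U' \ U ⊆ U' \ R := by
  classical
  have hM := maj_card hU hU' hR
  have h1 := hp _ (fun v hv => mem_union_left _ (mem_union_left _ hv)) (by
    intro v hv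
    rw [mem_union, mem_union, mem_inter, mem_inter, mem_inter] at hv
    rw [mem_union]; tauto) hM.1
    (hM.2.2.1.mono (sdiff_subset_sdiff (union_subset hU.2.1 hU'.2.1) (Subset.refl _)))
  rcases h1 with h1 | h1
  · right
    intro v hv
    rw [mem_sdiff] at hv ⊢
    refine ⟨hv.1, fun hvR => hv.2 ?_⟩
    rw [← h1]
    exact mem_union_right _ (mem_inter.2 ⟨hv.1, hvR⟩)
  · left
    intro v hv
    rw [mem_sdiff] at hv ⊢
    refine ⟨hv.1, fun hvR => hv.2 ?_⟩
    rw [← h1]
    exact mem_union_left _ (mem_union_right _ (mem_inter.2 ⟨hv.1, hvR⟩))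

end

end Pool.Agent.Helper82.Gap
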