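import Mathlib
import Pool.Agent.Helper82.GapPair

set_option autoImplicit false
set_option linter.unusedSectionVars false
set_option linter.unusedVariables false

namespace Pool.Agent.Helper82.Gap

open Finset

section
variable {V : Type*} [LinearOrder V] {K : Type*} [CommRing K]

/-- parent functions exist -/
lemma exists_parent_fun {G : SimpleGraph V} (hG : GapFree G) {h : ℕ} {σ R : Finset V}
    (hR : MC G h σ R) :
    ∃ p : Finset V → Finset V, (∀ U, MC G h σ U → U ≠ R → MC G h σ (p U) ∧ p U ≠ U ∧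
      (p U \ R).card < (U \ R).card ∧ Prm G h U (p U)) ∧
      ∀ U U', MC G h σ U → MC G h σ U' → U ≠ U' → Prm G h U U' →
        (U ≠ R ∧ p U = U') ∨ (U' ≠ R ∧ p U' = U) := by
  classical
  have H : ∀ U, ∃ P : Finset V, MC G h σ U → U ≠ R → MC G h σ P ∧ P ≠ U ∧
      (P \ R).card < (U \ R).card ∧ Prm G h U P ∧
      ∀ U', MC G h σ U' → U' ≠ U → Prm G h U U' → U \ U' ⊆ U \ R → U' = P := by
    intro U
    by_cases hU : MC G h σ U ∧ U ≠ R
    · obtain ⟨P, hP⟩ := exists_parent hG hU.1 hR hU.2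
      exact ⟨P, fun _ _ => hP⟩
    · exact ⟨∅, fun h1 h2 => absurd ⟨h1, h2⟩ hU⟩
  choose p hp using H
  refine ⟨p, fun U hU hne => ?_, ?_⟩
  · obtain ⟨h1, h2, h3, h4, _⟩ := hp U hU hne
    exact ⟨h1, h2, h3, h4⟩
  · intro U U' hU hU' hne hprm
    rcases prime_cases hU hU' hR hne hprm with h1 | h1
    · left
      have hUR : U ≠ R := by
        rintro rfl
        have h1' : U \ U' = ∅ := by simpa using h1
        rw [sdiff_eq_empty_iff_subset] at h1'
        exact hne (eq_of_subset_of_card_le h1' (by rw [hU.1, hU'.1]))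
      exact ⟨hUR, ((hp U hU hUR).2.2.2.2 U' hU' hne.symm hprm h1).symm⟩
    · right
      have hUR : U' ≠ R := by
        rintro rfl
        have h1' : U' \ U = ∅ := by simpa using h1
        rw [sdiff_eq_empty_iff_subset] at h1'
        exact hne.symm (eq_of_subset_of_card_le h1' (by rw [hU.1, hU'.1]))
      exact ⟨hUR, ((hp U' hU' hUR).2.2.2.2 U hU hne hprm.symm h1).symm⟩

/-- potentials on a rooted forest -/
lemma exists_potential {G : SimpleGraph V} {h : ℕ} {σ R : Finset V} (hR : MC G h σ R)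
    (p : Finset V → Finset V) (hp : ∀ U, MC G h σ U → U ≠ R → MC G h σ (p U) ∧ p U ≠ U ∧
      (p U \ R).card < (U \ R).card ∧ Prm G h U (p U)) (w : Finset V → K) :
    ∃ k : Finset V → K, ∀ U, MC G h σ U → U ≠ R → k U = k (p U) + w U := by
  classical
  -- by induction on a bound for the distance
  have key : ∀ n : ℕ, ∃ k : Finset V → K, ∀ U, MC G h σ U → U ≠ R → (U \ R).card ≤ n →
      k U = k (p U) + w U := by
    intro n
    induction n with
    | zero =>
      refine ⟨0, fun U hU hne hc => ?_⟩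
      exfalso
      have h1 : U \ R = ∅ := by rw [← card_eq_zero]; omega
      rw [sdiff_eq_empty_iff_subset] at h1
      exact hne (eq_of_subset_of_card_le h1 (by rw [hU.1, hR.1]))
    | succ n ih =>
      obtain ⟨k, hk⟩ := ih
      refine ⟨fun U => if (U \ R).card = n + 1 then k (p U) + w U else k U, ?_⟩
      intro U hU hne hc
      have h1 := (hp U hU hne).2.2.1
      have h2 : ¬ (p U \ R).card = n + 1 := by omega
      simp only [h2, if_false]
      by_cases h3 : (U \ R).card = n + 1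
      · rw [if_pos h3]
      · rw [if_neg h3]
        exact hk U hU hne (by omega)
  obtain ⟨k, hk⟩ := key h
  refine ⟨k, fun U hU hne => hk U hU hne ?_⟩
  rw [← hU.1]
  exact card_le_card sdiff_subset

/-- connectivity of the tree of minimum covers -/
lemma tree_const {G : SimpleGraph V} {h : ℕ} {σ R : Finset V} (hR : MC G h σ R)
    (p : Finset V → Finset V) (hp : ∀ U, MC G h σ U → U ≠ R → MC G h σ (p U) ∧ p U ≠ U ∧
      (p U \ R).card < (U \ R).card ∧ Prm G h U (p U)) (a : Finset V → K)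
    (ha : ∀ U, MC G h σ U → U ≠ R → a U = a (p U)) : ∀ U, MC G h σ U → a U = a R := by
  classical
  intro U
  induction' hc : (U \ R).card using Nat.strong_induction_on with c ih generalizing U
  intro hU
  by_cases hne : U = R
  · rw [hne]
  · obtain ⟨h1, _, h2, _⟩ := hp U hU hne
    rw [ha U hU hne]
    exact ih _ (by omega) (p U) rfl h1

theorem ex_SK {G : SimpleGraph V} (hG : GapFree G) {X : Finset V} {h m : ℕ}
    (hFU : ∀ U : Finset V, U.card = h → Ex K (FU G X U) (m + 1))
    (hpair : ∀ U U' : Finset V, U ≠ U' → U.card = h → U'.card = h →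
      Ex K (FU G X U ∩ FU G X U') m) : Ex K (SK G X h) (m + 1) := by
  classical
  intro f hf hcyc
  -- step 1: local primitives
  have H1 : ∀ U : Finset V, ∃ g : Finset V → K, U.card = h → SupP (FU G X U) (m + 1) g ∧
      ∀ σ ∈ FU G X U, up g σ = f σ := by
    intro U
    by_cases hU : U.card = h
    · obtain ⟨g, hg, hg2⟩ := hFU U hU (cut (FU G X U) f) (sup_cut hf) (by
        intro σ hσ
        rw [← hcyc σ (FU_sub_SK hU hσ)]
        apply up_congr
        intro v hv
        by_cases h1 : σ.erase v ∈ FU G X U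
        · rw [cut_of_mem h1]
        · rw [cut_of_not_mem h1]
          symm
          by_contra hne
          exact h1 (FU_erase hU hσ hv (hf _ hne).1))
      refine ⟨g, fun _ => ⟨hg, fun σ hσ => ?_⟩⟩
      rw [hg2 σ hσ, cut_of_mem hσ]
    · exact ⟨0, fun h => absurd h hU⟩
  choose g hg using H1
  -- agreement of membership on pairs
  have hmem : ∀ U U' : Finset V, U.card = h → U'.card = h → ∀ σ ∈ FU G X U ∩ FU G X U', ∀ v ∈ σ,
      (σ.erase v ∈ FU G X U ↔ σ.erase v ∈ FU G X U') := by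
    intro U U' hU hU' σ hσ v hv
    constructor
    · intro h1; exact FU_erase hU' hσ.2 hv (FU_sub_SK hU h1)
    · intro h1; exact FU_erase hU hσ.1 hv (FU_sub_SK hU' h1)
  -- step 2: primitives of the differences
  have H2 : ∀ U U' : Finset V, ∃ e : Finset V → K, U ≠ U' → U.card = h → U'.card = h →
      SupP (FU G X U ∩ FU G X U') m e ∧
      ∀ σ ∈ FU G X U ∩ FU G X U', up e σ = g U σ - g U' σ := by
    intro U U'
    by_cases hc : U ≠ U' ∧ U.card = h ∧ U'.card = h
    · obtain ⟨hne, hU, hU'⟩ := hc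
      obtain ⟨e, he, he2⟩ := hpair U U' hne hU hU' (cut (FU G X U ∩ FU G X U') (g U - g U')) (by
        intro σ h1
        by_cases h2 : σ ∈ FU G X U ∩ FU G X U'
        · rw [cut_of_mem h2] at h1
          refine ⟨h2, ?_⟩
          have h3 := SupP.sub (F := Set.univ) (n := m + 1)
            (((hg U hU).1).mono (Set.subset_univ _)) (((hg U' hU').1).mono (Set.subset_univ _)) σ h1
          have := h3.2
          omega
        · rw [cut_of_not_mem h2] at h1; exact absurd rfl h1) (by
        intro σ hσ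
        have h1 : up (cut (FU G X U ∩ FU G X U') (g U - g U')) σ = up (g U - g U') σ := by
          apply up_congr
          intro v hv
          by_cases h2 : σ.erase v ∈ FU G X U ∩ FU G X U'
          · rw [cut_of_mem h2]
          · rw [cut_of_not_mem h2]
            have h3 : σ.erase v ∉ FU G X U := fun h4 => h2 ⟨h4, (hmem U U' hU hU' σ hσ v hv).1 h4⟩
            have h3' : σ.erase v ∉ FU G X U' := fun h4 => h2 ⟨(hmem U U' hU hU' σ hσ v hv).2 h4, h4⟩
            have h5 : g U (σ.erase v) = 0 := by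
              by_contra hne'; exact h3 ((hg U hU).1 _ hne').1
            have h6 : g U' (σ.erase v) = 0 := by
              by_contra hne'; exact h3' ((hg U' hU').1 _ hne').1
            rw [Pi.sub_apply, h5, h6, sub_zero]
        rw [h1, up_sub, (hg U hU).2 σ hσ.1, (hg U' hU').2 σ hσ.2, sub_self])
      refine ⟨e, fun _ _ _ => ⟨he, fun σ hσ => ?_⟩⟩
      rw [he2 σ hσ, cut_of_mem hσ, Pi.sub_apply]
    · exact ⟨0, fun h1 h2 h3 => absurd ⟨h1, h2, h3⟩ hc⟩
  choose e he using H2
  -- antisymmetric version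
  let w : Finset V → Finset V → Finset V → K := fun U U' =>
    if toColex U < toColex U' then e U U' else - e U' U
  have hw_anti : ∀ U U' : Finset V, U ≠ U' → w U U' = - w U' U := by
    intro U U' hne
    show (if toColex U < toColex U' then e U U' else - e U' U) =
      - (if toColex U' < toColex U then e U' U else - e U U')
    rcases lt_trichotomy (toColex U) (toColex U') with h1 | h1 | h1
    · rw [if_pos h1, if_neg (not_lt.mpr h1.le), neg_neg]
    · exact absurd (toColex_inj.1 h1) hne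
    · rw [if_neg (not_lt.mpr h1.le), if_pos h1]
  have hw_sup : ∀ U U' : Finset V, U ≠ U' → U.card = h → U'.card = h →
      ∀ σ, w U U' σ ≠ 0 → σ ∈ FU G X U ∧ σ ∈ FU G X U' ∧ σ.card + 1 = m := by
    intro U U' hne hU hU' σ h1
    by_cases h2 : toColex U < toColex U'
    · have h3 : w U U' = e U U' := if_pos h2
      rw [h3] at h1
      obtain ⟨h4, h5⟩ := (he U U' hne hU hU').1 σ h1
      exact ⟨h4.1, h4.2, h5⟩
    · have h3 : w U U' = - e U' U := if_neg h2
      rw [h3] at h1
      have h1' : e U' U σ ≠ 0 := fun h' => h1 (by rw [Pi.neg_apply, h', neg_zero])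
      obtain ⟨h4, h5⟩ := (he U' U hne.symm hU' hU).1 σ h1'
      exact ⟨h4.2, h4.1, h5⟩
  have hw_up : ∀ U U' : Finset V, U ≠ U' → U.card = h → U'.card = h →
      ∀ σ ∈ FU G X U ∩ FU G X U', up (w U U') σ = g U σ - g U' σ := by
    intro U U' hne hU hU' σ hσ
    by_cases h2 : toColex U < toColex U'
    · have h3 : w U U' = e U U' := if_pos h2
      rw [h3]; exact (he U U' hne hU hU').2 σ hσ
    · have h3 : w U U' = 0 - e U' U := by
        rw [zero_sub]; exact if_neg h2
      rw [h3, up_sub, up_zero, (he U' U hne.symm hU' hU).2 σ ⟨hσ.2, hσ.1⟩]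
      ring
  -- step 3: roots and parents for every σ
  have H3 : ∀ σ : Finset V, ∃ (R : Finset V) (p : Finset V → Finset V) (k : Finset V → K),
      σ ∈ SK G X h → MC G h σ R ∧ (∀ U, MC G h σ U → U ≠ R → MC G h σ (p U) ∧ p U ≠ U ∧
      (p U \ R).card < (U \ R).card ∧ Prm G h U (p U)) ∧
      (∀ U U', MC G h σ U → MC G h σ U' → U ≠ U' → Prm G h U U' →
        (U ≠ R ∧ p U = U') ∨ (U' ≠ R ∧ p U' = U)) ∧
      (∀ U, MC G h σ U → U ≠ R → k U = k (p U) + w U (p U) σ) := by
    intro σ
    by_cases hσ : σ ∈ SK G X h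
    · obtain ⟨_, R, hRc, hR⟩ := mem_SK.1 hσ
      have hRM : MC G h σ R := ⟨hRc, hR⟩
      obtain ⟨p, hp1, hp2⟩ := exists_parent_fun hG hRM
      obtain ⟨k, hk⟩ := exists_potential (K := K) hRM p hp1 (fun U => w U (p U) σ)
      exact ⟨R, p, k, fun _ => ⟨hRM, hp1, hp2, hk⟩⟩
    · exact ⟨∅, id, 0, fun h1 => absurd h1 hσ⟩
  choose R p k hRpk using H3
  -- step 4: the corrections
  let κ : Finset V → Finset V → K := fun U σ =>
    if σ ∈ FU G X U ∧ σ.card + 1 = m then k σ U else 0
  have hκdiff : ∀ U U' : Finset V, U ≠ U' → U.card = h → U'.card = h → Prm G h U U' →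
      ∀ σ ∈ FU G X U ∩ FU G X U', κ U σ - κ U' σ = w U U' σ := by
    intro U U' hne hU hU' hprm σ hσ
    show (if σ ∈ FU G X U ∧ σ.card + 1 = m then k σ U else 0) -
      (if σ ∈ FU G X U' ∧ σ.card + 1 = m then k σ U' else 0) = _
    by_cases hm : σ.card + 1 = m
    · rw [if_pos ⟨hσ.1, hm⟩, if_pos ⟨hσ.2, hm⟩]
      obtain ⟨h1, h2, h3, h4⟩ := hRpk σ (FU_sub_SK hU hσ.1)
      have hUM : MC G h σ U := ⟨hU, hσ.1.2⟩
      have hUM' : MC G h σ U' := ⟨hU', hσ.2.2⟩
      rcases h3 U U' hUM hUM' hne hprm with ⟨h5, h6⟩ | ⟨h5, h6⟩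
      · rw [h4 U hUM h5, h6]; ring
      · rw [h4 U' hUM' h5, h6, hw_anti U U' hne, Pi.neg_apply]; ring
    · rw [if_neg (fun h' => hm h'.2), if_neg (fun h' => hm h'.2), sub_zero]
      symm
      by_contra h'
      exact hm (hw_sup U U' hne hU hU' σ h').2.2
  have hκsup : ∀ U : Finset V, SupP (FU G X U) m (κ U) := by
    intro U σ h1
    by_cases h2 : σ ∈ FU G X U ∧ σ.card + 1 = m
    · exact h2
    · exact absurd (if_neg h2) h1
  let g' : Finset V → Finset V → K := fun U => g U - cut (FU G X U) (up (κ U))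
  have hg'sup : ∀ U : Finset V, U.card = h → SupP (FU G X U) (m + 1) (g' U) := by
    intro U hU
    refine (hg U hU).1.sub ?_
    intro σ h1
    have := sup_cut_up (hκsup U) σ h1
    exact ⟨this.1, by rw [this.2]⟩
  have hg'up : ∀ U : Finset V, U.card = h → ∀ σ ∈ FU G X U, up (g' U) σ = f σ := by
    intro U hU σ hσ
    show up (g U - cut (FU G X U) (up (κ U))) σ = f σ
    rw [up_sub, (hg U hU).2 σ hσ, up_cut_up (FU_cvx G X U) (fun τ hτ => (hκsup U τ hτ).1) hσ,
      sub_zero]
  have hg'eq : ∀ U U' : Finset V, U ≠ U' → U.card = h → U'.card = h → Prm G h U U' →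
      ∀ σ ∈ FU G X U ∩ FU G X U', g' U σ = g' U' σ := by
    intro U U' hne hU hU' hprm σ hσ
    show g U σ - cut (FU G X U) (up (κ U)) σ = g U' σ - cut (FU G X U') (up (κ U')) σ
    rw [cut_of_mem hσ.1, cut_of_mem hσ.2]
    have h1 : up (κ U) σ - up (κ U') σ = up (w U U') σ := by
      rw [← up_sub]
      apply up_congr
      intro v hv
      rw [Pi.sub_apply]
      by_cases h2 : σ.erase v ∈ FU G X U
      · exact hκdiff U U' hne hU hU' hprm _ ⟨h2, (hmem U U' hU hU' σ hσ v hv).1 h2⟩
      · have h3 : σ.erase v ∉ FU G X U' := fun h4 => h2 ((hmem U U' hU hU' σ hσ v hv).2 h4)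
        have h5 : κ U (σ.erase v) = 0 := by
          by_contra h'; exact h2 (hκsup U _ h').1
        have h6 : κ U' (σ.erase v) = 0 := by
          by_contra h'; exact h3 (hκsup U' _ h').1
        have h7 : w U U' (σ.erase v) = 0 := by
          by_contra h'; exact h2 (hw_sup U U' hne hU hU' _ h').1
        rw [h5, h6, h7, sub_zero]
    rw [hw_up U U' hne hU hU' σ hσ] at h1
    linear_combination - h1
  -- all values agree
  have hall : ∀ σ ∈ SK G X h, ∀ U, MC G h σ U → g' U σ = g' (R σ) σ := by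
    intro σ hσ U hU
    obtain ⟨h1, h2, h3, h4⟩ := hRpk σ hσ
    refine tree_const h1 (p σ) h2 (fun U => g' U σ) ?_ U hU
    intro U hU hne
    obtain ⟨h5, h6, h7, h8⟩ := h2 U hU hne
    exact hg'eq U (p σ U) h6.symm hU.1 h5.1 h8 σ ⟨⟨hσ.1, hU.2⟩, ⟨hσ.1, h5.2⟩⟩
  refine ⟨fun σ => if σ ∈ SK G X h then g' (R σ) σ else 0, ?_, ?_⟩
  · intro σ h1
    by_cases hσ : σ ∈ SK G X h
    · simp only [hσ, if_true] at h1
      obtain ⟨h2, _⟩ := hRpk σ hσ
      exact ⟨hσ, (hg'sup (R σ) h2.1 σ h1).2⟩
    · simp [hσ] at h1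
  · intro σ hσ
    obtain ⟨h1, _⟩ := hRpk σ hσ
    rw [← hg'up (R σ) h1.1 σ ⟨hσ.1, h1.2⟩]
    apply up_congr
    intro v hv
    by_cases h2 : σ.erase v ∈ SK G X h
    · simp only [h2, if_true]
      have h3 := FU_erase h1.1 (X := X) ⟨hσ.1, h1.2⟩ hv h2
      exact (hall _ h2 (R σ) ⟨h1.1, h3.2⟩).symm
    · simp only [h2, if_false]
      symm
      by_contra h'
      exact h2 (FU_sub_SK h1.1 (hg'sup (R σ) h1.1 _ h').1)

end

end Pool.Agent.Helper82.Gap
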