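import Mathlib
import Pool.Agent.Helper82.GapGlue

set_option autoImplicit false
set_option linter.unusedSectionVars false
set_option linter.unusedVariables false

namespace Pool.Agent.Helper82.Gap

open Finset

section
variable {V : Type*} [LinearOrder V] {K : Type*} [CommRing K]

lemma t2_even {G : SimpleGraph V} {σ : Finset V} (h : Cmin G σ = ∅) : ∃ k, t2 G σ = 2 * k := by
  classical
  obtain ⟨x, hx, hxC⟩ := exists_opt_min G σ
  refine ⟨(σ.filter (fun v => x v = 2)).card, ?_⟩
  rw [← hx.2]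
  unfold wt
  have h1 : ∀ v ∈ σ, x v = if x v = 2 then 2 else 0 := by
    intro v hv
    have h2 := hxC v hv
    rw [h] at h2
    have h3 : x v ≠ 1 := fun h' => absurd (h2.1 h') (notMem_empty v)
    have := hx.1.1 v
    split_ifs <;> omega
  rw [sum_congr rfl h1, ← sum_filter, sum_const, smul_eq_mul, mul_comm]

theorem ex_main {G : SimpleGraph V} (hG : GapFree G) {X : Finset V} {s r N : ℕ}
    (hΔ : ∀ n, r + 1 ≤ n → Ex K {I : Finset V | I ⊆ X ∧ Ind G I} n)
    (h1 : 2 * s ≤ N) (h2 : s + r ≤ N) : Ex K {σ : Finset V | σ ⊆ X ∧ t2 G σ < 2 * s} N := by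
  classical
  have hCX : ∀ σ : Finset V, σ ⊆ X → (Cmin G σ).card ≤ X.card := by
    intro σ hσ
    exact card_le_card (fun v hv => hσ (mem_Cmin.1 hv).1)
  refine Ex.filtration (L := Finset V × Finset V) ?_ (fun σ => t2 G σ * (X.card + 1) + (Cmin G σ).card)
    (fun σ => (Cmin G σ, if Cmin G σ = ∅ then ∅ else near G (Cmin G σ) σ))
    (2 * s * (X.card + 1) + X.card + 1) ?_ ?_ ?_
  · rintro ρ σ τ h3 h4 ⟨h5, h6⟩ ⟨h7, h8⟩
    exact ⟨h4.trans h7, (t2_mono h4).trans_lt h8⟩
  · rintro σ ⟨h3, h4⟩
    have h5 := hCX σ h3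
    have h6 : t2 G σ * (X.card + 1) ≤ 2 * s * (X.card + 1) := Nat.mul_le_mul_right _ h4.le
    omega
  · rintro σ ⟨h3, h4⟩ v hv ⟨h5, h6⟩
    rcases lt_or_eq_of_le (t2_mono (G := G) (erase_subset v σ)) with h7 | h7
    · left
      have h8 := hCX _ h5
      have h9 : (t2 G (σ.erase v) + 1) * (X.card + 1) ≤ t2 G σ * (X.card + 1) :=
        Nat.mul_le_mul_right _ h7
      rw [add_mul, one_mul] at h9
      show t2 G (σ.erase v) * (X.card + 1) + (Cmin G (σ.erase v)).card <
        t2 G σ * (X.card + 1) + (Cmin G σ).card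
      omega
    · have h8 := Cmin_erase hv h7
      rcases lt_or_eq_of_le (card_le_card h8) with h9 | h9
      · left
        show t2 G (σ.erase v) * (X.card + 1) + (Cmin G (σ.erase v)).card <
          t2 G σ * (X.card + 1) + (Cmin G σ).card
        rw [h7]; omega
      · right
        have h10 := eq_of_subset_of_card_le h8 h9.ge
        refine ⟨?_, ?_⟩
        · show t2 G (σ.erase v) * (X.card + 1) + (Cmin G (σ.erase v)).card =
            t2 G σ * (X.card + 1) + (Cmin G σ).card
          rw [h7, h9]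
        · show (Cmin G (σ.erase v), if Cmin G (σ.erase v) = ∅ then ∅ else
            near G (Cmin G (σ.erase v)) (σ.erase v)) = _
          rw [h10]
          by_cases h11 : Cmin G σ = ∅
          · rw [if_pos h11, if_pos h11]
          · rw [if_neg h11, if_neg h11]
            congr 1
            ext w
            rw [mem_near, mem_near]
            constructor
            · rintro ⟨h12, h13⟩
              exact ⟨mem_of_mem_erase h12, h13⟩
            · rintro ⟨h12, h13, c, hc, hcw⟩
              refine ⟨mem_erase.2 ⟨?_, h12⟩, h13, c, hc, hcw⟩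
              rintro rfl
              obtain ⟨x, hx, hxC⟩ := exists_opt_min G σ
              have h14 := hx.two hxC h12 h13 hc hcw
              have h15 := (Opt.erase hv h7 hx).1
              omega
  · rintro ρ ⟨C0, U⟩
    by_cases hne : ∃ σ0, σ0 ∈ {σ : Finset V | σ ∈ {σ : Finset V | σ ⊆ X ∧ t2 G σ < 2 * s} ∧
        t2 G σ * (X.card + 1) + (Cmin G σ).card = ρ ∧
        (Cmin G σ, if Cmin G σ = ∅ then ∅ else near G (Cmin G σ) σ) = (C0, U)}
    swap
    · apply Ex.of_card
      intro σ hσ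
      exact absurd ⟨σ, hσ⟩ hne
    obtain ⟨σ0, ⟨h0X, h0s⟩, h0r, h0l⟩ := hne
    rw [Prod.mk.injEq] at h0l
    obtain ⟨h0C, h0U⟩ := h0l
    have ht : ∀ σ : Finset V, (t2 G σ * (X.card + 1) + (Cmin G σ).card = ρ ∧ Cmin G σ = C0) ↔
        (t2 G σ = t2 G σ0 ∧ Cmin G σ = C0) := by
      intro σ
      constructor
      · rintro ⟨h3, h4⟩
        refine ⟨?_, h4⟩
        rw [← h0r, h4, h0C] at h3
        have h5 : t2 G σ * (X.card + 1) = t2 G σ0 * (X.card + 1) := by omega
        exact Nat.eq_of_mul_eq_mul_right (Nat.succ_pos _) h5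
      · rintro ⟨h3, h4⟩
        refine ⟨?_, h4⟩
        rw [← h0r, h4, h0C, h3]
    by_cases hC0 : C0 = ∅
    · subst hC0
      have hU : U = ∅ := by rw [← h0U, if_pos h0C]
      subst hU
      obtain ⟨h, hh⟩ := t2_even h0C
      have hhs : h < s := by omega
      obtain ⟨m, rfl⟩ : ∃ m, N = m + 1 := ⟨N - 1, by omega⟩
      refine Ex.congr ?_ (ex_SK (K := K) hG (X := X) (h := h) (m := m) ?_ ?_)
      · intro σ
        simp only [Set.mem_ofPred_eq]
        constructor
        · rintro ⟨h3, h4, h5⟩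
          refine ⟨⟨h3, by omega⟩, ?_, ?_⟩
          · exact ((ht σ).2 ⟨by rw [h4, hh], h5⟩).1
          · rw [if_pos h5, h5]
        · rintro ⟨⟨h3, h4⟩, h5, h6⟩
          rw [Prod.mk.injEq] at h6
          have h7 := (ht σ).1 ⟨h5, h6.1⟩
          exact ⟨h3, by rw [h7.1, hh], h6.1⟩
      · intro U hU
        by_cases hUX : U ⊆ X
        · have h3 := ex_FU (K := K) hG hUX (k := m - h) (by omega) (hΔ _ (by omega))
          have h4 : m - h + 1 + U.card = m + 1 := by omega
          rw [h4] at h3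
          exact h3
        · apply Ex.of_card
          rintro σ ⟨h3, h4⟩
          exact absurd (h4.1.trans h3) hUX
      · intro U U' hne hU hU'
        exact ex_pair hG hne hU hU' (by omega)
    · refine Ex.congr ?_ (ex_stratum_C (K := K) hG X C0 U (nonempty_iff_ne_empty.2 hC0)
        (τ := t2 G σ0) (n := N) (by omega))
      intro σ
      simp only [Set.mem_ofPred_eq]
      constructor
      · rintro ⟨h3, h4, h5, h6⟩
        refine ⟨⟨h3, by omega⟩, ?_, ?_⟩
        · exact ((ht σ).2 ⟨h4, h5⟩).1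
        · rw [h5, if_neg hC0, h6]
      · rintro ⟨⟨h3, h4⟩, h5, h6⟩
        rw [Prod.mk.injEq] at h6
        have h7 := (ht σ).1 ⟨h5, h6.1⟩
        refine ⟨h3, h7.1, h6.1, ?_⟩
        have h8 := h6.2
        rw [h6.1, if_neg hC0] at h8
        exact h8

end

end Pool.Agent.Helper82.Gap
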