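import Mathlib
import Pool.Agent.Helper82.GapCover

set_option autoImplicit false
set_option linter.unusedSectionVars false
set_option linter.unusedVariables false

namespace Pool.Agent.Helper82.Gap

open Finset

section
variable {V : Type*} [LinearOrder V]

/-- `s` pairwise disjoint edges inside `σ` -/
def HM (G : SimpleGraph V) : ℕ → Finset V → Prop
  | 0, _ => True
  | (s + 1), σ => ∃ u ∈ σ, ∃ v ∈ σ, G.Adj u v ∧ HM G s ((σ.erase u).erase v)

lemma HM.le_t2 {G : SimpleGraph V} {s : ℕ} : ∀ {σ : Finset V}, HM G s σ → 2 * s ≤ t2 G σ := by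
  induction s with
  | zero => intro σ _; omega
  | succ s ih =>
    rintro σ ⟨u, hu, v, hv, huv, h⟩
    have h1 := ih h
    obtain ⟨x, hx⟩ := exists_opt G σ
    have hne : v ≠ u := fun h' => G.loopless.irrefl u (h' ▸ huv)
    have h2 := wt_erase (x := x) hu
    have h3 := wt_erase (x := x) (mem_erase.2 ⟨hne, hv⟩)
    have h4 := hx.1.2 u hu v hv huv
    have h5 := t2_le (hx.1.mono ((erase_subset v _).trans (erase_subset u σ)))
    have h6 := hx.2
    omega

/-- matchings as involutions -/
def Mt (G : SimpleGraph V) (σ : Finset V) (m : V → V) : Prop :=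
  (∀ v, m (m v) = v) ∧ ∀ v, m v ≠ v → v ∈ σ ∧ G.Adj v (m v)

/-- covered vertices -/
def cvd (σ : Finset V) (m : V → V) : Finset V := σ.filter (fun v => m v ≠ v)

/-- delete the edge at `y` -/
def del (N : V → V) (y : V) (v : V) : V := if v = y ∨ v = N y then v else N v

/-- add the edge `x y` -/
def add (N : V → V) (x y : V) (v : V) : V := if v = x then y else if v = y then x else N v

lemma Mt.del {G : SimpleGraph V} {σ : Finset V} {N : V → V} (h : Mt G σ N) (y : V) :
    Mt G σ (del N y) := by
  obtain ⟨h1, h2⟩ := h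
  have key : ∀ v, ¬ (v = y ∨ v = N y) → ¬ (N v = y ∨ N v = N y) := by
    intro v hv h3
    rcases h3 with h3 | h3
    · apply hv; right; rw [← h3, h1]
    · apply hv; left; rw [← h1 v, h3, h1]
  constructor
  · intro v
    unfold Gap.del
    by_cases h3 : v = y ∨ v = N y
    · rw [if_pos h3, if_pos h3]
    · rw [if_neg h3, if_neg (key v h3), h1]
  · intro v hv
    unfold Gap.del at hv ⊢
    by_cases h3 : v = y ∨ v = N y
    · rw [if_pos h3] at hv; exact absurd rfl hv
    · rw [if_neg h3] at hv ⊢; exact h2 v hv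

lemma cvd_del {G : SimpleGraph V} {σ : Finset V} {N : V → V} (y : V) :
    cvd σ (del N y) = cvd σ N \ {y, N y} := by
  ext v
  unfold cvd del
  simp only [mem_filter, mem_sdiff, mem_insert, mem_singleton]
  by_cases h3 : v = y ∨ v = N y
  · simp [h3]
  · simp only [h3, if_false, not_false_eq_true, and_true]

lemma Mt.add {G : SimpleGraph V} {σ : Finset V} {N : V → V} (h : Mt G σ N) {x y : V}
    (hx : N x = x) (hy : N y = y) (hxσ : x ∈ σ) (hyσ : y ∈ σ) (hxy : G.Adj x y) :
    Mt G σ (add N x y) := by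
  obtain ⟨h1, h2⟩ := h
  have hne : y ≠ x := fun h' => G.loopless.irrefl x (h' ▸ hxy)
  constructor
  · intro v
    unfold Gap.add
    by_cases h3 : v = x
    · rw [if_pos h3, if_neg hne, if_pos rfl, h3]
    · by_cases h4 : v = y
      · rw [if_neg h3, if_pos h4, if_pos rfl, h4]
      · rw [if_neg h3, if_neg h4]
        have h5 : N v ≠ x := fun h' => h3 (by rw [← h1 v, h', hx])
        have h6 : N v ≠ y := fun h' => h4 (by rw [← h1 v, h', hy])
        rw [if_neg h5, if_neg h6, h1]
  · intro v hv
    unfold Gap.add at hv ⊢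
    by_cases h3 : v = x
    · rw [if_pos h3, h3]; exact ⟨hxσ, hxy⟩
    · by_cases h4 : v = y
      · rw [if_neg h3, if_pos h4, h4]; exact ⟨hyσ, hxy.symm⟩
      · rw [if_neg h3, if_neg h4] at hv ⊢; exact h2 v hv

lemma cvd_add {σ : Finset V} {N : V → V} {x y : V} (hxσ : x ∈ σ) (hyσ : y ∈ σ) (hne : x ≠ y) :
    cvd σ (add N x y) = insert x (insert y (cvd σ N)) := by
  ext v
  unfold cvd add
  simp only [mem_filter, mem_insert]
  by_cases h3 : v = x
  · subst h3; simp [hxσ, hne.symm]
  · by_cases h4 : v = y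
    · subst h4; simp [hyσ, hne, h3]
    · simp [h3, h4]

lemma Mt.mem_cvd {G : SimpleGraph V} {σ : Finset V} {N : V → V} (h : Mt G σ N) {v : V} :
    v ∈ cvd σ N ↔ N v ≠ v := by
  unfold cvd
  rw [mem_filter]
  exact ⟨fun h' => h'.2, fun h' => ⟨(h.2 v h').1, h'⟩⟩

lemma Mt.partner {G : SimpleGraph V} {σ : Finset V} {N : V → V} (h : Mt G σ N) {v : V}
    (hv : N v ≠ v) : N (N v) ≠ N v := by rw [h.1]; exact hv.symm

lemma Mt.extract {G : SimpleGraph V} : ∀ (c : ℕ) {σ : Finset V} {N : V → V}, Mt G σ N →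
    (cvd σ N).card = c → ∃ k, c = 2 * k ∧ HM G k σ := by
  intro c
  induction' c using Nat.strong_induction_on with c ih
  intro σ N h hc
  by_cases h0 : cvd σ N = ∅
  · refine ⟨0, ?_, trivial⟩
    rw [← hc, h0, card_empty]
  · obtain ⟨v, hv⟩ := nonempty_iff_ne_empty.2 h0
    have hv' := h.mem_cvd.1 hv
    have hu' := h.partner hv'
    have hu : N v ∈ cvd σ N := h.mem_cvd.2 hu'
    have h1 : Mt G ((σ.erase v).erase (N v)) (Gap.del N v) := by
      refine ⟨(h.del v).1, fun w hw => ?_⟩
      obtain ⟨h2, h3⟩ := (h.del v).2 w hw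
      refine ⟨?_, h3⟩
      unfold Gap.del at hw
      by_cases h4 : w = v ∨ w = N v
      · rw [if_pos h4] at hw; exact absurd rfl hw
      · push Not at h4
        exact mem_erase.2 ⟨h4.2, mem_erase.2 ⟨h4.1, h2⟩⟩
    have h2 : cvd ((σ.erase v).erase (N v)) (Gap.del N v) = cvd σ N \ {v, N v} := by
      rw [← cvd_del (G := G) v]
      ext w
      rw [h1.mem_cvd, (h.del v).mem_cvd]
    have h3 : (cvd σ N \ {v, N v}).card + 2 = c := by
      have h4 : ({v, N v} : Finset V) ⊆ cvd σ N := by
        intro w hw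
        rcases mem_insert.1 hw with rfl | hw
        · exact hv
        · rw [mem_singleton.1 hw]; exact hu
      have h5 := card_sdiff_add_card_eq_card h4
      rw [card_pair hv'.symm] at h5
      rw [h5, hc]
    obtain ⟨k, hk, hHM⟩ := ih ((cvd σ N \ {v, N v}).card) (by omega) h1 (by rw [h2])
    refine ⟨k + 1, by omega, v, (h.2 v hv').1, N v, (h.2 _ hu').1, (h.2 v hv').2, hHM⟩

/-- the Gallai relation is transitive -/
lemma gallai_trans {G : SimpleGraph V} {σ : Finset V} {c : ℕ}
    (hmax : ∀ m, Mt G σ m → (cvd σ m).card ≤ c)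
    (hmiss : ∀ v ∈ σ, ∃ m, Mt G σ m ∧ (cvd σ m).card = c ∧ m v = v) {u w v : V}
    (hw : w ∈ σ) (huv : u ≠ v)
    (h1 : ∀ m, Mt G σ m → (cvd σ m).card = c → m u = u → m w = w → False)
    (h2 : ∀ m, Mt G σ m → (cvd σ m).card = c → m w = w → m v = v → False) :
    ∀ m, Mt G σ m → (cvd σ m).card = c → m u = u → m v = v → False := by
  intro M hM hMc hMu hMv
  have hMw : M w ≠ w := fun h => h1 M hM hMc hMu h
  -- agreement measure
  let ag : (V → V) → ℕ := fun N => ((cvd σ M).filter (fun x => N x = M x)).card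
  have hex : ∃ k, ∃ N, Mt G σ N ∧ (cvd σ N).card = c ∧ N w = w ∧ (cvd σ M).card - ag N = k := by
    obtain ⟨N, h3, h4, h5⟩ := hmiss w hw
    exact ⟨_, N, h3, h4, h5, rfl⟩
  classical
  obtain ⟨N, hN, hNc, hNw, hNk⟩ := Nat.find_spec hex
  have hNu : N u ≠ u := fun h => h1 N hN hNc h hNw
  have hNv : N v ≠ v := fun h => h2 N hN hNc hNw h
  -- a second vertex covered by M only
  obtain ⟨x, hx, hxw⟩ : ∃ x ∈ cvd σ M \ cvd σ N, x ≠ w := by
    have h3 : ({u, v} : Finset V) ⊆ cvd σ N \ cvd σ M := by
      intro z hz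
      rcases mem_insert.1 hz with rfl | hz
      · exact mem_sdiff.2 ⟨hN.mem_cvd.2 hNu, fun h => hM.mem_cvd.1 h hMu⟩
      · rw [mem_singleton.1 hz]
        exact mem_sdiff.2 ⟨hN.mem_cvd.2 hNv, fun h => hM.mem_cvd.1 h hMv⟩
    have h4 := card_le_card h3
    rw [card_pair huv] at h4
    have h5 : (cvd σ M \ cvd σ N).card = (cvd σ N \ cvd σ M).card := by
      have h6 := card_sdiff_add_card_inter (cvd σ M) (cvd σ N)
      have h7 := card_sdiff_add_card_inter (cvd σ N) (cvd σ M)
      rw [inter_comm] at h7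
      omega
    by_contra hcon
    push Not at hcon
    have h8 : cvd σ M \ cvd σ N ⊆ {w} := fun z hz => mem_singleton.2 (hcon z hz)
    have h9 := card_le_card h8
    rw [card_singleton] at h9
    omega
  obtain ⟨hxM, hxN⟩ := mem_sdiff.1 hx
  have hMx := hM.mem_cvd.1 hxM
  have hNx : N x = x := by by_contra h; exact hxN (hN.mem_cvd.2 h)
  have hxσ := (hM.2 x hMx).1
  have hxy := (hM.2 x hMx).2
  have hMy := hM.partner hMx
  have hyσ := (hM.2 _ hMy).1
  have hNy : N (M x) ≠ M x := by
    intro h
    have h3 := hmax _ (hN.add hNx h hxσ hyσ hxy)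
    rw [cvd_add hxσ hyσ hMx.symm, card_insert_of_notMem, card_insert_of_notMem, hNc] at h3
    · omega
    · exact fun h' => hN.mem_cvd.1 h' h
    · rw [mem_insert]
      rintro (h' | h')
      · exact hMx h'.symm
      · exact hN.mem_cvd.1 h' hNx
  have hNz := hN.partner hNy
  have hzx : N (M x) ≠ x := by
    intro h
    have := hN.1 (M x)
    rw [h, hNx] at this
    exact hMx this.symm
  have hd := hN.del (M x)
  have hdx : Gap.del N (M x) x = x := by
    unfold Gap.del
    by_cases h3 : x = M x ∨ x = N (M x)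
    · rw [if_pos h3]
    · rw [if_neg h3, hNx]
  have hdy : Gap.del N (M x) (M x) = M x := by
    unfold Gap.del
    rw [if_pos (Or.inl rfl)]
  have ha := hd.add hdx hdy hxσ hyσ hxy
  have hac : (cvd σ (Gap.add (Gap.del N (M x)) x (M x))).card = c := by
    rw [cvd_add hxσ hyσ hMx.symm, card_insert_of_notMem, card_insert_of_notMem, cvd_del (G := G)]
    · have h4 : ({M x, N (M x)} : Finset V) ⊆ cvd σ N := by
        intro z hz
        rcases mem_insert.1 hz with rfl | hz
        · exact hN.mem_cvd.2 hNy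
        · rw [mem_singleton.1 hz]; exact hN.mem_cvd.2 hNz
      have h5 := card_sdiff_add_card_eq_card h4
      rw [card_pair hNy.symm] at h5
      omega
    · exact fun h' => hd.mem_cvd.1 h' hdy
    · rw [mem_insert]
      rintro (h' | h')
      · exact hMx h'.symm
      · exact hd.mem_cvd.1 h' hdx
  have hwy : w ≠ M x := fun h => hNy (h ▸ hNw)
  have haw : Gap.add (Gap.del N (M x)) x (M x) w = w := by
    unfold Gap.add Gap.del
    rw [if_neg hxw.symm, if_neg hwy]
    by_cases h3 : w = M x ∨ w = N (M x)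
    · rw [if_pos h3]
    · rw [if_neg h3, hNw]
  -- the agreement increases
  have hag : ag N < ag (Gap.add (Gap.del N (M x)) x (M x)) := by
    apply card_lt_card
    constructor
    · intro z hz
      rw [mem_filter] at hz ⊢
      refine ⟨hz.1, ?_⟩
      have h3 : z ≠ x := by
        rintro rfl
        exact hMx (by rw [← hz.2, hNx])
      have h4 : z ≠ M x := by
        rintro rfl
        rw [hM.1] at hz
        exact hzx hz.2
      have h5 : z ≠ N (M x) := by
        rintro rfl
        have h6 := hz.2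
        rw [hN.1] at h6
        apply hzx
        rw [← hM.1 (N (M x)), ← h6, hM.1]
      unfold Gap.add Gap.del
      rw [if_neg h3, if_neg h4, if_neg (by push Not; exact ⟨h4, h5⟩)]
      exact hz.2
    · intro h
      have h3 : x ∈ (cvd σ M).filter (fun z => Gap.add (Gap.del N (M x)) x (M x) z = M z) := by
        rw [mem_filter]
        refine ⟨hxM, ?_⟩
        unfold Gap.add
        rw [if_pos rfl]
      have h4 := h h3
      rw [mem_filter] at h4
      exact hMx (by rw [← h4.2, hNx])
  have hle : ag (Gap.add (Gap.del N (M x)) x (M x)) ≤ (cvd σ M).card := card_filter_le _ _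
  refine Nat.find_min hex (m := (cvd σ M).card - ag (Gap.add (Gap.del N (M x)) x (M x))) ?_
    ⟨_, ha, hac, haw, rfl⟩
  omega

/-- in a gap-free graph the fractional cover number exceeds the matching number by at most 1/2 -/
theorem t2_le_match {G : SimpleGraph V} (hG : GapFree G) : ∀ (n : ℕ) (σ : Finset V), σ.card = n →
    ∃ m, Mt G σ m ∧ t2 G σ ≤ (cvd σ m).card + 1 := by
  classical
  intro n
  induction' n using Nat.strong_induction_on with n ih
  intro σ hσ
  -- a maximum matching
  have hex : ∃ k, ∃ m, Mt G σ m ∧ σ.card - (cvd σ m).card = k := by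
    refine ⟨_, id, ⟨fun v => rfl, fun v hv => absurd rfl hv⟩, rfl⟩
  obtain ⟨m, hm, hmk⟩ := Nat.find_spec hex
  have hmax : ∀ m', Mt G σ m' → (cvd σ m').card ≤ (cvd σ m).card := by
    intro m' hm'
    by_contra hlt
    push Not at hlt
    have h1 : (cvd σ m').card ≤ σ.card := card_filter_le _ _
    exact Nat.find_min hex (m := σ.card - (cvd σ m').card) (by omega) ⟨m', hm', rfl⟩
  refine ⟨m, hm, ?_⟩
  by_cases hcase : ∀ v ∈ σ, ∃ m', Mt G σ m' ∧ (cvd σ m').card = (cvd σ m).card ∧ m' v = v
  · -- Gallai case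
    set c := (cvd σ m).card with hc
    have hadj : ∀ u ∈ σ, ∀ v ∈ σ, G.Adj u v → ∀ m, Mt G σ m → (cvd σ m).card = c →
        m u = u → m v = v → False := by
      intro u hu v hv huv m1 h1 h2 h3 h4
      have hne : u ≠ v := fun h' => G.loopless.irrefl u (by rw [← h'] at huv; exact huv)
      have h5 := hmax _ (h1.add h3 h4 hu hv huv)
      rw [cvd_add hu hv hne, card_insert_of_notMem, card_insert_of_notMem, h2] at h5
      · omega
      · exact fun h' => h1.mem_cvd.1 h' h4
      · rw [mem_insert]
        rintro (h' | h')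
        · exact hne h'
        · exact h1.mem_cvd.1 h' h3
    have hall : ∀ u ∈ σ, ∀ w ∈ σ, u ≠ w → (∃ u' ∈ σ, G.Adj u u') → (∃ w' ∈ σ, G.Adj w w') →
        ∀ m, Mt G σ m → (cvd σ m).card = c → m u = u → m w = w → False := by
      rintro u hu w hw huw ⟨u', hu', huu'⟩ ⟨w', hw', hww'⟩
      by_cases h1 : G.Adj u w
      · exact hadj u hu w hw h1
      have h2 : u' ≠ w := fun h => h1 (h ▸ huu')
      have h3 : w' ≠ u := fun h => h1 (h ▸ hww').symm
      by_cases h4 : u' = w'
      · subst h4
        exact gallai_trans hmax hcase hu' huw (hadj u hu u' hu' huu') (hadj u' hu' w hw hww'.symm)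
      rcases hG u u' w w' huu' hww' huw h3.symm h2 h4 with h | h | h | h
      · exact absurd h h1
      · exact gallai_trans hmax hcase hw' huw (hadj u hu w' hw' h) (hadj w' hw' w hw hww'.symm)
      · exact gallai_trans hmax hcase hu' huw (hadj u hu u' hu' huu') (hadj u' hu' w hw h)
      · refine gallai_trans hmax hcase hw' huw ?_ (hadj w' hw' w hw hww'.symm)
        exact gallai_trans hmax hcase hu' h3.symm (hadj u hu u' hu' huu') (hadj u' hu' w' hw' h)
    -- the cover
    let Nn : Finset V := σ.filter (fun v => ∃ u ∈ σ, G.Adj v u)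
    have hcov : Cov G σ (fun v => if v ∈ Nn then 1 else 0) := by
      constructor
      · intro v
        show (if v ∈ Nn then 1 else 0) ≤ 2
        split_ifs <;> omega
      · intro u hu v hv huv
        show 2 ≤ (if u ∈ Nn then 1 else 0) + (if v ∈ Nn then 1 else 0)
        rw [if_pos (mem_filter.2 ⟨hu, v, hv, huv⟩), if_pos (mem_filter.2 ⟨hv, u, hu, huv.symm⟩)]
    have hwt : wt σ (fun v => if v ∈ Nn then 1 else 0) = Nn.card := by
      unfold wt
      rw [sum_ite_mem, inter_eq_right.2 (filter_subset _ _), sum_const, smul_eq_mul, mul_one]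
    have h1 := t2_le hcov
    rw [hwt] at h1
    refine h1.trans ?_
    have h2 : (Nn \ cvd σ m).card ≤ 1 := by
      rw [card_le_one]
      intro a ha b hb
      by_contra hab
      obtain ⟨ha1, ha2⟩ := mem_sdiff.1 ha
      obtain ⟨hb1, hb2⟩ := mem_sdiff.1 hb
      rw [mem_filter] at ha1 hb1
      refine hall a ha1.1 b hb1.1 hab ha1.2 hb1.2 m hm rfl ?_ ?_
      · by_contra h; exact ha2 (hm.mem_cvd.2 h)
      · by_contra h; exact hb2 (hm.mem_cvd.2 h)
    have h3 : Nn.card ≤ (Nn \ cvd σ m).card + (cvd σ m).card := by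
      have := card_sdiff_add_card_inter Nn (cvd σ m)
      have := card_le_card (inter_subset_right : Nn ∩ cvd σ m ⊆ cvd σ m)
      omega
    omega
  · -- some vertex is covered by all maximum matchings
    push Not at hcase
    obtain ⟨v, hv, hvm⟩ := hcase
    have hpos : 0 < σ.card := card_pos.2 ⟨v, hv⟩
    obtain ⟨m', hm', ht⟩ := ih (σ.erase v).card (by rw [card_erase_of_mem hv]; omega) (σ.erase v) rfl
    have hm'σ : Mt G σ m' := ⟨hm'.1, fun w hw => ⟨mem_of_mem_erase (hm'.2 w hw).1, (hm'.2 w hw).2⟩⟩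
    have hcv : cvd σ m' = cvd (σ.erase v) m' := by
      ext w; rw [hm'σ.mem_cvd, hm'.mem_cvd]
    have hv0 : m' v = v := by
      by_contra h
      exact (mem_erase.1 (hm'.2 v h).1).1 rfl
    have h1 : (cvd σ m').card ≠ (cvd σ m).card := fun h => hvm m' hm'σ h hv0
    have h2 := hmax m' hm'σ
    obtain ⟨k, hk, _⟩ := hm.extract _ rfl
    obtain ⟨k', hk', _⟩ := hm'σ.extract _ rfl
    have h3 : t2 G σ ≤ t2 G (σ.erase v) + 2 := by
      obtain ⟨x, hx⟩ := exists_opt G (σ.erase v)
      let y : V → ℕ := fun w => if w = v then 2 else x w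
      have hy : Cov G σ y := by
        constructor
        · intro w
          have := hx.1.1 w
          show (if w = v then 2 else x w) ≤ 2
          split_ifs <;> omega
        · intro a ha b hb hab
          show 2 ≤ (if a = v then 2 else x a) + (if b = v then 2 else x b)
          by_cases h4 : a = v
          · rw [if_pos h4]; omega
          · by_cases h5 : b = v
            · rw [if_pos h5]; omega
            · rw [if_neg h4, if_neg h5]
              exact hx.1.2 a (mem_erase.2 ⟨h4, ha⟩) b (mem_erase.2 ⟨h5, hb⟩) hab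
      have h4 := t2_le hy
      have h5 := wt_erase (x := y) hv
      have h6 : wt (σ.erase v) y = wt (σ.erase v) x := by
        unfold wt
        apply sum_congr rfl
        intro w hw
        show (if w = v then 2 else x w) = x w
        rw [if_neg (mem_erase.1 hw).1]
      have h7 : y v = 2 := if_pos rfl
      have h8 := hx.2
      omega
    rw [← hcv] at ht
    omega

theorem HM_iff {G : SimpleGraph V} (hG : GapFree G) {s : ℕ} {σ : Finset V} :
    HM G s σ ↔ 2 * s ≤ t2 G σ := by
  constructor
  · exact HM.le_t2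
  · intro h
    obtain ⟨m, hm, ht⟩ := t2_le_match hG _ σ rfl
    obtain ⟨k, hk, hHM⟩ := hm.extract _ rfl
    have hsk : s ≤ k := by omega
    have hmono : ∀ (k s : ℕ) (σ : Finset V), s ≤ k → HM G k σ → HM G s σ := by
      intro k
      induction k with
      | zero =>
        intro s σ h1 _
        have : s = 0 := by omega
        subst this; trivial
      | succ k ih =>
        rintro s σ h1 ⟨u, hu, v, hv, huv, h2⟩
        rcases s with _ | s
        · trivial
        · exact ⟨u, hu, v, hv, huv, ih s _ (by omega) h2⟩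
    exact hmono k s σ hsk hHM

end

end Pool.Agent.Helper82.Gap
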