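import Mathlib
import Pool.Agent.Helper82.GapTree

set_option autoImplicit false
set_option linter.unusedSectionVars false
set_option linter.unusedVariables false

namespace Pool.Agent.Helper82.Gap

open Finset

section
variable {V : Type*} [LinearOrder V] {K : Type*} [CommRing K]

/-- pull back along the map sending `y'` to `y` -/
noncomputable def pb (y y' : V) (g : Finset V → K) (σ : Finset V) : K :=
  if y' ∈ σ then (if y ∈ σ then 0 else
    sg K y' (σ.erase y') * sg K y (σ.erase y') * g (insert y (σ.erase y'))) else g σ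

lemma up_pb {y y' : V} (hne : y ≠ y') (g : Finset V → K) (σ : Finset V) :
    up (pb y y' g) σ = pb y y' (up g) σ := by
  by_cases h1 : y' ∈ σ
  · by_cases h2 : y ∈ σ
    · -- both vertices
      have hR : pb y y' (up g) σ = 0 := by unfold pb; rw [if_pos h1, if_pos h2]
      rw [hR]
      obtain ⟨ρ, hρ, hρ'⟩ : ∃ ρ : Finset V, σ = insert y (insert y' ρ) ∧ y ∉ ρ ∧ y' ∉ ρ := by
        refine ⟨(σ.erase y).erase y', ?_, ?_, ?_⟩
        · rw [insert_erase (mem_erase.2 ⟨hne.symm, h1⟩), insert_erase h2]
        · intro h; exact (mem_erase.1 (mem_of_mem_erase h)).1 rfl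
        · intro h; exact (mem_erase.1 h).1 rfl
      obtain ⟨hyρ, hy'ρ⟩ := hρ'
      subst hρ
      have hy1 : y ∉ insert y' ρ := by
        rw [mem_insert]; rintro (h | h); exacts [hne h, hyρ h]
      have e1 : (insert y (insert y' ρ)).erase y = insert y' ρ := erase_insert hy1
      have e2 : (insert y (insert y' ρ)).erase y' = insert y ρ := by
        rw [Finset.erase_insert_of_ne hne, erase_insert hy'ρ]
      unfold up
      rw [sum_insert hy1, sum_insert hy'ρ, e1, e2]
      have hrest : ∑ x ∈ ρ, sg K x (insert y (insert y' ρ)) *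
          pb y y' g ((insert y (insert y' ρ)).erase x) = 0 := by
        apply sum_eq_zero
        intro x hx
        have hxy : x ≠ y := fun h => hyρ (h ▸ hx)
        have hxy' : x ≠ y' := fun h => hy'ρ (h ▸ hx)
        unfold pb
        rw [if_pos (mem_erase.2 ⟨hxy'.symm, by simp⟩), if_pos (mem_erase.2 ⟨hxy.symm, by simp⟩),
          mul_zero]
      have e3 : pb y y' g (insert y' ρ) = sg K y' ρ * sg K y ρ * g (insert y ρ) := by
        unfold pb
        rw [if_pos (mem_insert_self _ _), if_neg hy1, erase_insert hy'ρ]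
      have hy'1 : y' ∉ insert y ρ := by
        rw [mem_insert]; rintro (h | h); exacts [hne h.symm, hy'ρ h]
      have e4 : pb y y' g (insert y ρ) = g (insert y ρ) := by
        unfold pb; rw [if_neg hy'1]
      rw [hrest, e3, e4]
      have k1 := sg_anti (K := K) (v := y) (w := y') (σ := ρ) hne hyρ hy'ρ
      have k2 : sg K y (insert y (insert y' ρ)) = sg K y (insert y' ρ) := sg_insert_self _ _
      have k3 : sg K y' (insert y (insert y' ρ)) = sg K y' (insert y ρ) := by
        rw [insert_comm, sg_insert_self]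
      rw [k2, k3]
      have k4 := sg_mul_self (K := K) y ρ
      -- a c = - b d : a = sg y ρ, c = sg y' (insert y ρ), b = sg y' ρ, d = sg y (insert y' ρ)
      linear_combination (-(sg K y' (insert y ρ)) * g (insert y ρ)) * k4 +
        (sg K y ρ * g (insert y ρ)) * k1
    · -- only y'
      obtain ⟨ρ, hρ, hρ'⟩ : ∃ ρ : Finset V, σ = insert y' ρ ∧ y' ∉ ρ :=
        ⟨σ.erase y', by rw [insert_erase h1], fun h => (mem_erase.1 h).1 rfl⟩
      subst hρ
      have hyρ : y ∉ ρ := fun h => h2 (mem_insert_of_mem h)
      have hR : pb y y' (up g) (insert y' ρ) = sg K y' ρ * sg K y ρ * up g (insert y ρ) := by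
        unfold pb; rw [if_pos h1, if_neg h2, erase_insert hρ']
      rw [hR]
      unfold up
      rw [sum_insert hρ', sum_insert hyρ, erase_insert hρ', erase_insert hyρ]
      have e1 : pb y y' g ρ = g ρ := by unfold pb; rw [if_neg hρ']
      rw [e1, sg_insert_self, sg_insert_self, mul_add, mul_sum]
      have k4 := sg_mul_self (K := K) y ρ
      congr 1
      · linear_combination (-(sg K y' ρ) * g ρ) * k4
      · apply sum_congr rfl
        intro v hv
        have hvy : v ≠ y := fun h => hyρ (h ▸ hv)
        have hvy' : v ≠ y' := fun h => hρ' (h ▸ hv)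
        have e2 : (insert y' ρ).erase v = insert y' (ρ.erase v) :=
          Finset.erase_insert_of_ne hvy'.symm
        have e3 : (insert y ρ).erase v = insert y (ρ.erase v) :=
          Finset.erase_insert_of_ne hvy.symm
        have h3 : y' ∉ ρ.erase v := fun h => hρ' (mem_of_mem_erase h)
        have h4 : y ∉ ρ.erase v := fun h => hyρ (mem_of_mem_erase h)
        have h5 : y ∉ insert y' (ρ.erase v) := by
          rw [mem_insert]; rintro (h | h); exacts [hne h, h4 h]
        have e4 : pb y y' g (insert y' (ρ.erase v)) =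
            sg K y' (ρ.erase v) * sg K y (ρ.erase v) * g (insert y (ρ.erase v)) := by
          unfold pb
          rw [if_pos (mem_insert_self _ _), if_neg h5, erase_insert h3]
        rw [e2, e3, e4]
        have k1 := sg_anti (K := K) (v := v) (w := y') (σ := ρ.erase v) hvy' (by simp) h3
        have k2 := sg_anti (K := K) (v := v) (w := y) (σ := ρ.erase v) hvy (by simp) h4
        rw [insert_erase hv] at k1 k2
        have s1 : sg K v (insert y' ρ) = sg K v (insert y' (ρ.erase v)) := by
          rw [← e2, sg_erase_self]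
        have s2 : sg K v (insert y ρ) = sg K v (insert y (ρ.erase v)) := by
          rw [← e3, sg_erase_self]
        rw [s1, s2]
        have k5 := sg_mul_self (K := K) y (ρ.erase v)
        -- k1 : sg v ρ' * sg y' ρ = -(sg y' ρ' * sg v (y'ρ'))
        -- k2 : sg v ρ' * sg y ρ = -(sg y ρ' * sg v (yρ'))
        -- goal: S(v,y'ρ') * (S(y',ρ') S(y,ρ') G) = S(y',ρ) S(y,ρ) (S(v,yρ') G)
        -- S(v,yρ') = - S(v,ρ') S(y,ρ) S(y,ρ')
        have k6 : sg K v (insert y (ρ.erase v)) =
            - (sg K v (ρ.erase v) * sg K y ρ * sg K y (ρ.erase v)) := by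
          linear_combination (sg K y (ρ.erase v)) * k2 - (sg K v (insert y (ρ.erase v))) * k5
        rw [k6]
        linear_combination (sg K y (ρ.erase v) * g (insert y (ρ.erase v))) * k1 +
          (sg K y' ρ * sg K v (ρ.erase v) * sg K y (ρ.erase v) * g (insert y (ρ.erase v))) * k4
  · have hR : pb y y' (up g) σ = up g σ := by unfold pb; rw [if_neg h1]
    rw [hR]
    apply up_congr
    intro v hv
    have h2 : y' ∉ σ.erase v := fun h => h1 (mem_of_mem_erase h)
    unfold pb
    rw [if_neg h2]

/-- links inside `X` -/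
def Lk (M : Set (Finset V)) (X T : Finset V) : Set (Finset V) := {σ | σ ⊆ X ∧ σ ∪ T ∈ M}

theorem ex_link_step {M : Set (Finset V)} {y y' : V} (hne : y ≠ y')
    (hdown : ∀ σ τ : Finset V, τ ⊆ σ → σ ∈ M → τ ∈ M)
    (hsw : ∀ σ ∈ M, y' ∈ σ → insert y (σ.erase y') ∈ M)
    (hsw' : ∀ σ ∈ M, y ∈ σ → insert y' (σ.erase y) ∈ M)
    {X T : Finset V} (hy : y ∈ X) (hy' : y' ∉ X) (hyT : y ∉ T) (hy'T : y' ∉ T) {n : ℕ}
    (h : Ex K (Lk M (insert y' X) T) (n + 1)) : Ex K (Lk M X (insert y' T)) n := by
  classical
  intro f hf hcyc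
  let fh : Finset V → K := fun σ => if y' ∈ σ then sg K y' (σ.erase y') * f (σ.erase y') else 0
  have hfh0 : ∀ σ, y' ∉ σ → fh σ = 0 := fun σ h => if_neg h
  have hfh1 : ∀ J, y' ∉ J → sg K y' J * fh (insert y' J) = f J := by
    intro J hJ
    show sg K y' J * (if y' ∈ insert y' J then
      sg K y' ((insert y' J).erase y') * f ((insert y' J).erase y') else 0) = f J
    rw [if_pos (mem_insert_self _ _), erase_insert hJ, ← mul_assoc, sg_mul_self, one_mul]
  have hmem : ∀ J : Finset V, y' ∉ J → (insert y' J ∈ Lk M (insert y' X) T ↔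
      J ∈ Lk M X (insert y' T)) := by
    intro J hJ
    have e : insert y' J ∪ T = J ∪ insert y' T := by
      rw [insert_union, union_insert]
    constructor
    · rintro ⟨h1, h2⟩
      rw [e] at h2
      refine ⟨fun v hv => ?_, h2⟩
      rcases mem_insert.1 (h1 (mem_insert_of_mem hv)) with rfl | h3
      · exact absurd hv hJ
      · exact h3
    · rintro ⟨h1, h2⟩
      rw [← e] at h2
      exact ⟨insert_subset_insert _ h1, h2⟩
  have hupfh : ∀ J ∈ Lk M X (insert y' T), y' ∉ J → up fh (insert y' J) = -(sg K y' J * up f J) := by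
    intro J hJ hyJ
    rw [up_shift y' hfh0 hyJ]
    congr 2
    apply up_congr
    intro v hv
    exact hfh1 _ (fun h => hyJ (mem_of_mem_erase h))
  have hfhsup : Sup (Lk M (insert y' X) T) (n + 1) fh := by
    intro σ hσ
    have h1 : y' ∈ σ := by by_contra h; exact hσ (hfh0 σ h)
    have h2 : f (σ.erase y') ≠ 0 := by
      intro h
      apply hσ
      show (if y' ∈ σ then sg K y' (σ.erase y') * f (σ.erase y') else 0) = 0
      rw [if_pos h1, h, mul_zero]
    obtain ⟨h3, h4⟩ := hf _ h2
    have h5 := (hmem (σ.erase y') (fun h => (mem_erase.1 h).1 rfl)).2 h3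
    rw [insert_erase h1] at h5
    refine ⟨h5, ?_⟩
    rw [card_erase_of_mem h1] at h4
    have : 0 < σ.card := card_pos.2 ⟨y', h1⟩
    omega
  obtain ⟨g, hg, hg2⟩ := h fh hfhsup (by
    intro σ hσ
    by_cases h1 : y' ∈ σ
    · have h2 : y' ∉ σ.erase y' := fun h => (mem_erase.1 h).1 rfl
      have h3 : σ.erase y' ∈ Lk M X (insert y' T) := (hmem _ h2).1 (by rw [insert_erase h1]; exact hσ)
      have h4 := hupfh _ h3 h2
      rw [insert_erase h1] at h4
      rw [h4, hcyc _ h3, mul_zero, neg_zero]
    · apply up_eq_zero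
      intro v hv
      exact hfh0 _ (fun h => h1 (mem_of_mem_erase h)))
  let g0 : Finset V → K := fun σ => if y' ∈ σ then 0 else g σ
  have hg0 : ∀ σ ∈ Lk M (insert y' X) T, y' ∉ σ → up g0 σ = 0 := by
    intro σ hσ h1
    have h2 : up g0 σ = up g σ := by
      apply up_congr
      intro v hv
      exact if_neg (fun h => h1 (mem_of_mem_erase h))
    rw [h2, hg2 σ hσ, hfh0 σ h1]
  let h' : Finset V → K := pb y y' g0
  have hh' : ∀ σ ∈ Lk M (insert y' X) T, up h' σ = 0 := by
    intro σ hσ
    show up (pb y y' g0) σ = 0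
    rw [up_pb hne]
    unfold pb
    by_cases h1 : y' ∈ σ
    · by_cases h2 : y ∈ σ
      · rw [if_pos h1, if_pos h2]
      · rw [if_pos h1, if_neg h2, hg0, mul_zero]
        · refine ⟨?_, ?_⟩
          · intro v hv
            rcases mem_insert.1 hv with rfl | hv
            · exact mem_insert_of_mem hy
            · exact hσ.1 (mem_of_mem_erase hv)
          · have h3 := hsw _ hσ.2 (mem_union_left _ h1)
            apply hdown _ _ _ h3
            intro v hv
            rcases mem_union.1 hv with hv | hv
            · rcases mem_insert.1 hv with rfl | hv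
              · exact mem_insert_self _ _
              · exact mem_insert_of_mem (mem_erase.2 ⟨(mem_erase.1 hv).1,
                  mem_union_left _ (mem_of_mem_erase hv)⟩)
            · exact mem_insert_of_mem (mem_erase.2 ⟨fun h => hy'T (h ▸ hv), mem_union_right _ hv⟩)
        · intro h
          rcases mem_insert.1 h with h | h
          · exact hne h.symm
          · exact (mem_erase.1 h).1 rfl
    · rw [if_neg h1]; exact hg0 σ hσ h1
  let e : Finset V → K := g - h'
  have he0 : ∀ σ, y' ∉ σ → e σ = 0 := by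
    intro σ h1
    show g σ - pb y y' g0 σ = 0
    unfold pb
    rw [if_neg h1]
    show g σ - (if y' ∈ σ then 0 else g σ) = 0
    rw [if_neg h1, sub_self]
  have hesup : SupP (Lk M (insert y' X) T) (n + 1) e := by
    intro σ hσ
    by_cases h1 : g σ = 0
    · have h2 : h' σ ≠ 0 := by
        intro h; apply hσ; show g σ - h' σ = 0; rw [h1, h, sub_zero]
      have h3 : y' ∈ σ := by by_contra h; exact hσ (he0 σ h)
      have h4 : y ∉ σ := by
        intro h; apply h2; show pb y y' g0 σ = 0; unfold pb; rw [if_pos h3, if_pos h]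
      have h5 : g0 (insert y (σ.erase y')) ≠ 0 := by
        intro h; apply h2; show pb y y' g0 σ = 0
        unfold pb; rw [if_pos h3, if_neg h4, h, mul_zero]
      have h6 : g (insert y (σ.erase y')) ≠ 0 := by
        intro h
        apply h5
        show (if y' ∈ insert y (σ.erase y') then 0 else g (insert y (σ.erase y'))) = 0
        rw [h]; simp
      obtain ⟨⟨h7, h8⟩, h9⟩ := hg _ h6
      have h10 : y ∉ σ.erase y' := fun h => h4 (mem_of_mem_erase h)
      rw [card_insert_of_notMem h10, card_erase_of_mem h3] at h9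
      have : 0 < σ.card := card_pos.2 ⟨y', h3⟩
      refine ⟨⟨?_, ?_⟩, by omega⟩
      · intro v hv
        by_cases hvy : v = y'
        · rw [hvy]; exact mem_insert_self _ _
        · exact h7 (mem_insert_of_mem (mem_erase.2 ⟨hvy, hv⟩))
      · have h11 := hsw' _ h8 (mem_union_left _ (mem_insert_self _ _))
        apply hdown _ _ _ h11
        intro v hv
        by_cases hvy : v = y'
        · rw [hvy]; exact mem_insert_self _ _
        · apply mem_insert_of_mem
          rcases mem_union.1 hv with hv | hv
          · exact mem_erase.2 ⟨fun h => h4 (h ▸ hv), mem_union_left _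
              (mem_insert_of_mem (mem_erase.2 ⟨hvy, hv⟩))⟩
          · exact mem_erase.2 ⟨fun h => hyT (h ▸ hv), mem_union_right _ hv⟩
    · exact hg _ h1
  refine ⟨fun J => if y' ∈ J then 0 else -(sg K y' J * e (insert y' J)), ?_, ?_⟩
  · intro J hJ
    by_cases h1 : y' ∈ J
    · simp [h1] at hJ
    · simp only [h1, if_false] at hJ
      have h2 : e (insert y' J) ≠ 0 := by
        intro h; apply hJ; rw [h, mul_zero, neg_zero]
      obtain ⟨h3, h4⟩ := hesup _ h2
      rw [card_insert_of_notMem h1] at h4
      exact ⟨(hmem J h1).1 h3, by omega⟩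
  · intro I hI
    have h1 : y' ∉ I := fun h => hy' (hI.1 h)
    have h2 := up_shift y' he0 h1
    have h3 : up e (insert y' I) = fh (insert y' I) := by
      have h4 := (hmem I h1).2 hI
      show up (g - h') (insert y' I) = _
      rw [up_sub, hg2 _ h4, hh' _ h4, sub_zero]
    rw [h3] at h2
    have h5 : up (fun J => if y' ∈ J then 0 else -(sg K y' J * e (insert y' J))) I =
        - up (fun J => sg K y' J * e (insert y' J)) I := by
      unfold up
      rw [← sum_neg_distrib]
      apply sum_congr rfl
      intro v hv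
      have h6 : y' ∉ I.erase v := fun h => h1 (mem_of_mem_erase h)
      simp only [h6, if_false]
      ring
    rw [h5]
    have h7 := hfh1 I h1
    have k := sg_mul_self (K := K) y' I
    linear_combination h7 - (sg K y' I) * h2 +
      (up (fun J => sg K y' J * e (insert y' J)) I) * k

theorem ex_link {M : Set (Finset V)} (tw : V → V → Prop) (htw : ∀ a b, tw a b → tw b a)
    (hdown : ∀ σ τ : Finset V, τ ⊆ σ → σ ∈ M → τ ∈ M)
    (hsw : ∀ y y', tw y y' → ∀ σ ∈ M, y' ∈ σ → insert y (σ.erase y') ∈ M) {q : ℕ}
    (H : ∀ (X : Finset V) (n : ℕ), q ≤ n → Ex K (Lk M X ∅) n) (T : Finset V) :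
    ∀ (X : Finset V) (n : ℕ), Disjoint X T → (∀ y' ∈ T, ∃ y ∈ X, tw y y') → q ≤ n + T.card →
      Ex K (Lk M X T) n := by
  classical
  induction T using Finset.induction_on with
  | empty =>
    intro X n _ _ h
    exact H X n (by rw [card_empty] at h; omega)
  | insert y' T hy'T ih =>
    intro X n hd ht hq
    rw [disjoint_insert_right] at hd
    obtain ⟨y, hyX, hyt⟩ := ht y' (mem_insert_self _ _)
    have hne : y ≠ y' := fun h => hd.1 (h ▸ hyX)
    refine ex_link_step hne hdown (hsw y y' hyt) (hsw y' y (htw _ _ hyt)) hyX hd.1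
      (disjoint_left.1 hd.2 hyX) hy'T ?_
    apply ih
    · rw [disjoint_insert_left]
      exact ⟨hy'T, hd.2⟩
    · intro z hz
      obtain ⟨w, hw, hwt⟩ := ht z (mem_insert_of_mem hz)
      exact ⟨w, mem_insert_of_mem hw, hwt⟩
    · rw [card_insert_of_notMem hy'T] at hq; omega

end

end Pool.Agent.Helper82.Gap
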