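import Mathlib
import Pool.Agent.Helper82.GapMain
import Pool.Agent.Helper82.GapTutte
import Pool.Agent.Helper82.GapTwin

set_option autoImplicit false
set_option linter.unusedSectionVars false
set_option linter.unusedVariables false

namespace Pool.Agent.Helper82.Gap

open Finset

section transfer
variable {V V' : Type*} [LinearOrder V] [LinearOrder V'] {K : Type*} [CommRing K]

lemma sg_map (e : V ↪o V') (v : V) (σ : Finset V) :
    sg K (e v) (σ.map e.toEmbedding) = sg K v σ := by
  unfold sg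
  congr 1
  rw [filter_map, card_map]
  congr 1
  ext x
  simp

lemma up_map (e : V ↪o V') (f : Finset V' → K) (σ : Finset V) :
    up f (σ.map e.toEmbedding) = up (fun τ => f (τ.map e.toEmbedding)) σ := by
  unfold up
  rw [sum_map]
  apply sum_congr rfl
  intro v hv
  have h1 := sg_map (K := K) e v σ
  have h2 : (σ.map e.toEmbedding).erase (e.toEmbedding v) = (σ.erase v).map e.toEmbedding := by
    rw [map_erase]
  rw [h2]
  congr 1

lemma map_inj' (e : V ↪o V') : Function.Injective (fun σ : Finset V => σ.map e.toEmbedding) :=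
  map_injective _

theorem Ex.map (e : V ↪o V') {F : Set (Finset V)} {n : ℕ} (h : Ex K F n) :
    Ex K {σ' : Finset V' | ∃ σ ∈ F, σ.map e.toEmbedding = σ'} n := by
  intro f hf hcyc
  obtain ⟨g, hg, hg2⟩ := h (fun τ => f (τ.map e.toEmbedding)) (by
    intro σ hσ
    obtain ⟨⟨σ', h1, h2⟩, h3⟩ := hf _ hσ
    have := map_inj' e h2
    subst this
    rw [card_map] at h3
    exact ⟨h1, h3⟩) (by
    intro σ hσ
    rw [← up_map e]
    exact hcyc _ ⟨σ, hσ, rfl⟩)
  refine ⟨Function.extend (fun σ : Finset V => σ.map e.toEmbedding) g 0, ?_, ?_⟩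
  · intro σ' hσ'
    by_cases hex : ∃ σ : Finset V, σ.map e.toEmbedding = σ'
    · obtain ⟨σ, rfl⟩ := hex
      rw [(map_inj' e).extend_apply] at hσ'
      obtain ⟨h1, h2⟩ := hg σ hσ'
      refine ⟨⟨σ, h1, rfl⟩, ?_⟩
      rw [card_map]; exact h2
    · rw [Function.extend_apply' _ _ _ hex] at hσ'
      exact absurd rfl hσ'
  · rintro σ' ⟨σ, hσ, rfl⟩
    rw [up_map e]
    have : (fun τ : Finset V => Function.extend (fun σ : Finset V => σ.map e.toEmbedding) g 0
        (τ.map e.toEmbedding)) = g := by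
      funext τ
      exact (map_inj' e).extend_apply _ _ _
    rw [this]
    exact hg2 σ hσ

theorem Ex.of_map (e : V ↪o V') {F : Set (Finset V)} {n : ℕ}
    (h : Ex K {σ' : Finset V' | ∃ σ ∈ F, σ.map e.toEmbedding = σ'} n) : Ex K F n := by
  intro f hf hcyc
  have hext : (fun τ : Finset V => Function.extend (fun σ : Finset V => σ.map e.toEmbedding) f 0
      (τ.map e.toEmbedding)) = f := by
    funext τ
    exact (map_inj' e).extend_apply _ _ _
  obtain ⟨g, hg, hg2⟩ := h (Function.extend (fun σ : Finset V => σ.map e.toEmbedding) f 0) (by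
    intro σ' hσ'
    by_cases hex : ∃ σ : Finset V, σ.map e.toEmbedding = σ'
    · obtain ⟨σ, rfl⟩ := hex
      rw [(map_inj' e).extend_apply] at hσ'
      obtain ⟨h1, h2⟩ := hf σ hσ'
      refine ⟨⟨σ, h1, rfl⟩, ?_⟩
      rw [card_map]; exact h2
    · rw [Function.extend_apply' _ _ _ hex] at hσ'
      exact absurd rfl hσ') (by
    rintro σ' ⟨σ, hσ, rfl⟩
    rw [up_map e, hext]
    exact hcyc σ hσ)
  refine ⟨fun τ => g (τ.map e.toEmbedding), ?_, ?_⟩
  · intro σ hσ
    obtain ⟨⟨σ', h1, h2⟩, h3⟩ := hg _ hσ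
    have := map_inj' e h2
    subst this
    rw [card_map] at h3
    exact ⟨h1, h3⟩
  · intro σ hσ
    rw [← up_map e, hg2 _ ⟨σ, hσ, rfl⟩]
    exact congrFun hext σ

end transfer

section blow
variable {V : Type*} [LinearOrder V] {K : Type*} [CommRing K]

/-- the blow-up with countably many twins of every vertex -/
def bl (G : SimpleGraph V) : SimpleGraph (V ×ₗ ℕ) := G.comap (fun p => (ofLex p).1)

lemma bl_adj {G : SimpleGraph V} {p q : V ×ₗ ℕ} :
    (bl G).Adj p q ↔ G.Adj (ofLex p).1 (ofLex q).1 := Iff.rfl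

lemma bl_gapFree {G : SimpleGraph V} (hG : GapFree G) : GapFree (bl G) := by
  intro p q p' q' h1 h2 _ _ _ _
  rw [bl_adj] at h1 h2
  simp only [bl_adj]
  by_cases e1 : (ofLex p).1 = (ofLex p').1
  · right; left; rw [e1]; exact h2
  by_cases e2 : (ofLex p).1 = (ofLex q').1
  · left; rw [e2]; exact h2.symm
  by_cases e3 : (ofLex q).1 = (ofLex p').1
  · right; right; right; rw [e3]; exact h2
  by_cases e4 : (ofLex q).1 = (ofLex q').1
  · right; right; left; rw [e4]; exact h2.symm
  exact hG _ _ _ _ h1 h2 e1 e2 e3 e4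

/-- twins -/
def Tw (p q : V ×ₗ ℕ) : Prop := (ofLex p).1 = (ofLex q).1

lemma t2_swap {G : SimpleGraph V} {y y' : V ×ₗ ℕ} (h : Tw y y') {σ : Finset (V ×ₗ ℕ)}
    (hy' : y' ∈ σ) : t2 (bl G) (insert y (σ.erase y')) ≤ t2 (bl G) σ := by
  classical
  by_cases hy : y ∈ σ.erase y'
  · rw [insert_eq_of_mem hy]
    exact t2_mono (erase_subset _ _)
  · obtain ⟨x, hx⟩ := exists_opt (bl G) σ
    have hcov : Cov (bl G) (insert y (σ.erase y')) (fun v => if v = y then x y' else x v) := by
      constructor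
      · intro v
        have := hx.1.1 v; have := hx.1.1 y'
        show (if v = y then x y' else x v) ≤ 2
        split_ifs <;> omega
      · intro u hu v hv huv
        show 2 ≤ (if u = y then x y' else x u) + (if v = y then x y' else x v)
        rw [bl_adj] at huv
        by_cases h1 : u = y
        · subst h1
          have h2 : v ≠ u := fun h' => G.loopless.irrefl _ (by rw [h'] at huv; exact huv)
          have h3 : v ∈ σ := by
            rcases mem_insert.1 hv with h4 | h4
            · exact absurd h4 h2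
            · exact mem_of_mem_erase h4
          rw [if_pos rfl, if_neg h2]
          apply hx.1.2 y' hy' v h3
          rw [bl_adj, ← (show (ofLex u).1 = (ofLex y').1 from h)]
          exact huv
        · by_cases h2 : v = y
          · subst h2
            have h3 : u ∈ σ := by
              rcases mem_insert.1 hu with h4 | h4
              · exact absurd h4 h1
              · exact mem_of_mem_erase h4
            rw [if_pos rfl, if_neg h1]
            apply hx.1.2 u h3 y' hy'
            rw [bl_adj, ← (show (ofLex v).1 = (ofLex y').1 from h)]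
            exact huv
          · rw [if_neg h1, if_neg h2]
            have h3 : u ∈ σ := by
              rcases mem_insert.1 hu with h4 | h4
              · exact absurd h4 h1
              · exact mem_of_mem_erase h4
            have h4 : v ∈ σ := by
              rcases mem_insert.1 hv with h4 | h4
              · exact absurd h4 h2
              · exact mem_of_mem_erase h4
            exact hx.1.2 u h3 v h4 (by rw [bl_adj]; exact huv)
    refine (t2_le hcov).trans ?_
    rw [← hx.2]
    have h1 : wt (insert y (σ.erase y')) (fun v => if v = y then x y' else x v)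
        = x y' + wt (σ.erase y') x := by
      unfold wt
      rw [sum_insert hy]
      simp only [if_true]
      congr 1
      apply sum_congr rfl
      intro v hv
      have hvy : v ≠ y := by
        intro h'
        rw [h'] at hv
        exact hy hv
      rw [if_neg hvy]
    rw [h1, wt_erase hy']

/-- transversal embedding -/
def tr (f : V → ℕ) : V ↪o V ×ₗ ℕ :=
  OrderEmbedding.ofStrictMono (fun v => toLex (v, f v)) (by
    intro a b hab
    rw [Prod.Lex.toLex_lt_toLex]
    exact Or.inl hab)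

lemma tr_apply (f : V → ℕ) (v : V) : tr f v = toLex (v, f v) := rfl

theorem ex_blow_indep {G : SimpleGraph V} {r : ℕ}
    (hΔ : ∀ (X : Finset V) (n : ℕ), r + 1 ≤ n → Ex K {I : Finset V | I ⊆ X ∧ Ind G I} n) :
    ∀ (c : ℕ) (X : Finset (V ×ₗ ℕ)), X.card = c → ∀ n, r + 1 ≤ n →
      Ex K {I : Finset (V ×ₗ ℕ) | I ⊆ X ∧ Ind (bl G) I} n := by
  classical
  intro c
  induction' c using Nat.strong_induction_on with c ih
  intro X hX n hn
  by_cases htw : ∃ p ∈ X, ∃ q ∈ X, p ≠ q ∧ Tw p q
  · obtain ⟨p, hp, q, hq, hpq, ht⟩ := htw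
    have hpos : 0 < X.card := card_pos.2 ⟨q, hq⟩
    refine Ex.union (A := {I : Finset (V ×ₗ ℕ) | I ⊆ X.erase q ∧ Ind (bl G) I})
      (B := {I : Finset (V ×ₗ ℕ) | I ⊆ X ∧ Ind (bl G) I ∧ q ∈ I}) ?_ ?_ ?_ ?_
      (ih (X.erase q).card (by rw [card_erase_of_mem hq]; omega) _ rfl n hn) ?_
    · rintro ρ σ τ h1 h2 ⟨h3, h4⟩ ⟨h5, h6⟩
      exact ⟨h2.trans h5, h6.mono h2⟩
    · intro σ
      simp only [Set.mem_ofPred_eq]
      constructor
      · rintro ⟨h1, h2⟩
        by_cases h3 : q ∈ σ
        · exact Or.inr ⟨h1, h2, h3⟩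
        · exact Or.inl ⟨fun v hv => mem_erase.2 ⟨fun h => h3 (h ▸ hv), h1 hv⟩, h2⟩
      · rintro (⟨h1, h2⟩ | ⟨h1, h2, _⟩)
        · exact ⟨h1.trans (erase_subset _ _), h2⟩
        · exact ⟨h1, h2⟩
    · rintro σ ⟨h1, _⟩ ⟨_, _, h2⟩
      exact (mem_erase.1 (h1 h2)).1 rfl
    · rintro σ ⟨h1, _⟩ v hv ⟨_, _, h2⟩
      exact (mem_erase.1 (h1 (mem_of_mem_erase h2))).1 rfl
    · apply Ex.cone p
      intro σ hσ
      simp only [Set.mem_ofPred_eq]
      constructor
      · rintro ⟨h1, h2, h3⟩
        refine ⟨?_, ?_, mem_insert_of_mem h3⟩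
        · intro v hv
          rcases mem_insert.1 hv with rfl | hv
          · exact hp
          · exact h1 hv
        · have key : ∀ v ∈ σ, ¬ (bl G).Adj p v := by
            intro v hv hpv
            rw [bl_adj, (show (ofLex p).1 = (ofLex q).1 from ht)] at hpv
            exact h2 q h3 v hv hpv
          intro u hu v hv huv
          rcases mem_insert.1 hu with h4 | h4
          · rcases mem_insert.1 hv with h5 | h5
            · rw [h4, h5] at huv; exact (bl G).loopless.irrefl _ huv
            · rw [h4] at huv; exact key v h5 huv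
          · rcases mem_insert.1 hv with h5 | h5
            · rw [h5] at huv; exact key u h4 huv.symm
            · exact h2 u h4 v h5 huv
      · rintro ⟨h1, h2, h3⟩
        refine ⟨(subset_insert _ _).trans h1, h2.mono (subset_insert _ _), ?_⟩
        rcases mem_insert.1 h3 with h4 | h4
        · exact absurd h4.symm hpq
        · exact h4
  · push Not at htw
    -- X is a transversal
    have hf : ∃ f : V → ℕ, ∀ p ∈ X, f (ofLex p).1 = (ofLex p).2 := by
      refine ⟨fun v => if h : ∃ p ∈ X, (ofLex p).1 = v then (ofLex h.choose).2 else 0, ?_⟩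
      intro p hp
      have hex : ∃ p' ∈ X, (ofLex p').1 = (ofLex p).1 := ⟨p, hp, rfl⟩
      show (if h : ∃ p' ∈ X, (ofLex p').1 = (ofLex p).1 then (ofLex h.choose).2 else 0) = _
      rw [dif_pos hex]
      obtain ⟨h1, h2⟩ := hex.choose_spec
      by_contra hne
      have h3 : hex.choose ≠ p := fun h => hne (by rw [h])
      exact htw _ h1 p hp h3 h2
    obtain ⟨f, hf⟩ := hf
    have hpt : ∀ p ∈ X, tr f (ofLex p).1 = p := by
      intro p hp
      rw [tr_apply, hf p hp]
      rfl
    refine Ex.congr ?_ (Ex.map (tr f) (hΔ (X.image (fun p => (ofLex p).1)) n hn))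
    intro σ'
    simp only [Set.mem_ofPred_eq]
    constructor
    · rintro ⟨σ, ⟨h1, h2⟩, rfl⟩
      constructor
      · intro p hp
        obtain ⟨v, hv, rfl⟩ := mem_map.1 hp
        obtain ⟨q, hq, hq2⟩ := mem_image.1 (h1 hv)
        have h3 := hpt q hq
        rw [hq2] at h3
        show tr f v ∈ X
        rw [h3]; exact hq
      · intro p hp q hq hpq
        obtain ⟨v, hv, rfl⟩ := mem_map.1 hp
        obtain ⟨w, hw, rfl⟩ := mem_map.1 hq
        exact h2 v hv w hw hpq
    · rintro ⟨h1, h2⟩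
      refine ⟨σ'.image (fun p => (ofLex p).1), ⟨image_subset_image h1, ?_⟩, ?_⟩
      · intro u hu v hv huv
        obtain ⟨p, hp, rfl⟩ := mem_image.1 hu
        obtain ⟨q, hq, rfl⟩ := mem_image.1 hv
        exact h2 p hp q hq huv
      · ext p
        rw [mem_map]
        constructor
        · rintro ⟨v, hv, rfl⟩
          obtain ⟨q, hq, rfl⟩ := mem_image.1 hv
          have h3 := hpt q (h1 hq)
          show tr f (ofLex q).1 ∈ σ'
          rw [h3]; exact hq
        · intro hp
          exact ⟨(ofLex p).1, mem_image_of_mem _ hp, hpt p (h1 hp)⟩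

/-- multiplicities -/
noncomputable def mu (T : Finset (V ×ₗ ℕ)) : V →₀ ℕ := ∑ p ∈ T, Finsupp.single (ofLex p).1 1

/-- divisibility of a monomial by a product of `s` edges -/
def MM (G : SimpleGraph V) : ℕ → (V →₀ ℕ) → Prop
  | 0, _ => True
  | (s + 1), a => ∃ u v b, G.Adj u v ∧ a = b + Finsupp.single u 1 + Finsupp.single v 1 ∧ MM G s b

lemma mu_erase {T : Finset (V ×ₗ ℕ)} {p : V ×ₗ ℕ} (hp : p ∈ T) :
    mu T = mu (T.erase p) + Finsupp.single (ofLex p).1 1 := by
  unfold mu
  rw [sum_erase_add _ _ hp]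

lemma exists_of_mu {T : Finset (V ×ₗ ℕ)} {v : V} (h : mu T v ≠ 0) : ∃ p ∈ T, (ofLex p).1 = v := by
  by_contra hcon
  push Not at hcon
  apply h
  unfold mu
  rw [Finsupp.finsetSum_apply]
  apply sum_eq_zero
  intro p hp
  rw [Finsupp.single_apply, if_neg (hcon p hp)]

theorem HM_bl_iff {G : SimpleGraph V} {s : ℕ} : ∀ {T : Finset (V ×ₗ ℕ)},
    HM (bl G) s T ↔ MM G s (mu T) := by
  classical
  induction s with
  | zero => intro T; exact Iff.rfl
  | succ s ih =>
    intro T
    constructor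
    · rintro ⟨p, hp, q, hq, hpq, h⟩
      have hne : q ≠ p := fun h' => (bl G).loopless.irrefl p (h' ▸ hpq)
      refine ⟨(ofLex p).1, (ofLex q).1, mu ((T.erase p).erase q), hpq, ?_, ih.1 h⟩
      rw [mu_erase hp, mu_erase (mem_erase.2 ⟨hne, hq⟩)]
      abel
    · rintro ⟨u, v, b, huv, hb, h⟩
      have h1 : mu T u ≠ 0 := by
        rw [hb]; simp
      have h2 : mu T v ≠ 0 := by
        rw [hb]; simp
      obtain ⟨p, hp, rfl⟩ := exists_of_mu h1
      obtain ⟨q, hq, rfl⟩ := exists_of_mu h2
      have hne : q ≠ p := fun h' => G.loopless.irrefl _ (by rw [h'] at huv; exact huv)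
      refine ⟨p, hp, q, hq, huv, ih.2 ?_⟩
      have h3 : mu T = mu ((T.erase p).erase q) + Finsupp.single (ofLex p).1 1 +
          Finsupp.single (ofLex q).1 1 := by
        rw [mu_erase hp, mu_erase (mem_erase.2 ⟨hne, hq⟩)]
        abel
      rw [hb] at h3
      have h4 : b = mu ((T.erase p).erase q) := by
        have := add_right_cancel h3
        exact add_right_cancel this
      rw [← h4]; exact h

/-- the extra twins prescribed by `t` -/
noncomputable def xt (t : V →₀ ℕ) : Finset (V ×ₗ ℕ) :=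
  t.support.sigma (fun v => range (t v)) |>.map
    ⟨fun p => toLex (p.1, p.2 + 1), by
      rintro ⟨a, b⟩ ⟨c, d⟩ h
      have h1 : a = c := congrArg (fun z => (ofLex z).1) h
      have h2 : b + 1 = d + 1 := congrArg (fun z => (ofLex z).2) h
      subst h1
      have h3 : b = d := by omega
      subst h3
      rfl⟩

lemma mem_xt {t : V →₀ ℕ} {p : V ×ₗ ℕ} :
    p ∈ xt t ↔ ∃ i, i < t (ofLex p).1 ∧ (ofLex p).2 = i + 1 := by
  unfold xt
  rw [mem_map]
  constructor
  · rintro ⟨⟨v, i⟩, h1, rfl⟩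
    rw [mem_sigma] at h1
    exact ⟨i, mem_range.1 h1.2, rfl⟩
  · rintro ⟨i, h1, h2⟩
    refine ⟨⟨(ofLex p).1, i⟩, ?_, ?_⟩
    · rw [mem_sigma]
      refine ⟨?_, mem_range.2 h1⟩
      show (ofLex p).1 ∈ t.support
      rw [Finsupp.mem_support_iff]; omega
    · show toLex ((ofLex p).1, i + 1) = p
      rw [← h2]
      rfl

lemma mu_xt (t : V →₀ ℕ) : mu (xt t) = t := by
  unfold mu xt
  rw [sum_map]
  have h1 : ∀ p : (Σ _ : V, ℕ), Finsupp.single (ofLex ((⟨fun p : (Σ _ : V, ℕ) => toLex (p.1, p.2 + 1), by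
      rintro ⟨a, b⟩ ⟨c, d⟩ h
      have h1 : a = c := congrArg (fun z => (ofLex z).1) h
      have h2 : b + 1 = d + 1 := congrArg (fun z => (ofLex z).2) h
      subst h1
      have h3 : b = d := by omega
      subst h3
      rfl⟩ : (Σ _ : V, ℕ) ↪ V ×ₗ ℕ) p)).1 1 = (Finsupp.single p.1 1 : V →₀ ℕ) := fun p => rfl
  rw [sum_congr rfl (fun p _ => h1 p), sum_sigma]
  conv_rhs => rw [← Finsupp.sum_single t]
  unfold Finsupp.sum
  apply sum_congr rfl
  intro v _
  show ∑ s ∈ range (t v), (Finsupp.single v 1 : V →₀ ℕ) = Finsupp.single v (t v)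
  rw [sum_const, card_range]
  ext w
  simp [Finsupp.single_apply]

lemma card_xt (t : V →₀ ℕ) : (xt t).card = ∑ v ∈ t.support, t v := by
  unfold xt
  rw [card_map, card_sigma]
  simp

/-- the squarefree indicator exponent -/
noncomputable def ind (σ : Finset V) : V →₀ ℕ := ∑ v ∈ σ, Finsupp.single v 1

theorem ex_powers {G : SimpleGraph V} (hG : GapFree G) {r : ℕ}
    (hΔ : ∀ (X : Finset V) (n : ℕ), r + 1 ≤ n → Ex K {I : Finset V | I ⊆ X ∧ Ind G I} n)
    {s : ℕ} {t : V →₀ ℕ} {W : Finset V} (ht : t.support ⊆ W) {n : ℕ}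
    (h1 : 2 * s ≤ n + ∑ v ∈ t.support, t v) (h2 : s + r ≤ n + ∑ v ∈ t.support, t v) :
    Ex K {σ : Finset V | σ ⊆ W ∧ ¬ MM G s (t + ind σ)} n := by
  classical
  have hΔ' := ex_blow_indep (K := K) (G := G) (r := r) hΔ
  -- the squarefree statement for the blow-up
  have H : ∀ (X : Finset (V ×ₗ ℕ)) (n : ℕ), max (2 * s) (s + r) ≤ n →
      Ex K (Lk {σ | t2 (bl G) σ < 2 * s} X ∅) n := by
    intro X n hn
    refine Ex.congr ?_ (ex_main (K := K) (bl_gapFree hG) (X := X) (s := s) (r := r) (N := n)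
      (fun n hn => hΔ' _ X rfl n hn) ((le_max_left _ _).trans hn) ((le_max_right _ _).trans hn))
    intro σ
    simp only [Set.mem_ofPred_eq, Lk, union_empty]
  have H2 := ex_link (K := K) (M := {σ | t2 (bl G) σ < 2 * s}) Tw (fun a b h => h.symm)
    (fun σ τ h3 h4 => (t2_mono h3).trans_lt h4)
    (fun y y' hyy σ hσ hy => (t2_swap hyy hy).trans_lt hσ) H (xt t) (W.map (tr (fun _ => 0)).toEmbedding)
    n ?_ ?_ ?_
  · apply Ex.of_map (tr (fun _ => 0))
    refine Ex.congr ?_ H2
    intro σ'
    have key : ∀ σ : Finset V, t2 (bl G) (σ.map (tr (fun _ => 0)).toEmbedding ∪ xt t) < 2 * s ↔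
        ¬ MM G s (t + ind σ) := by
      intro σ
      rw [← not_le, ← HM_iff (bl_gapFree hG), HM_bl_iff]
      have hd : Disjoint (σ.map (tr (fun _ => 0)).toEmbedding) (xt t) := by
        rw [disjoint_left]
        intro p hp hp2
        obtain ⟨v, hv, rfl⟩ := mem_map.1 hp
        obtain ⟨i, h3, h4⟩ := mem_xt.1 hp2
        have h5 : (0 : ℕ) = i + 1 := h4
        omega
      have h3 : mu (σ.map (tr (fun _ => 0)).toEmbedding ∪ xt t) = t + ind σ := by
        have h4 : mu (σ.map (tr (fun _ => 0)).toEmbedding ∪ xt t) =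
            mu (σ.map (tr (fun _ => 0)).toEmbedding) + mu (xt t) := by
          unfold mu
          rw [sum_union hd]
        have h5 : mu (σ.map (tr (fun _ => 0)).toEmbedding) = ind σ := by
          unfold mu ind
          rw [sum_map]
          rfl
        rw [h4, h5, mu_xt, add_comm]
      rw [h3]
    constructor
    · rintro ⟨h3, h4⟩
      have h5 : ∃ σ : Finset V, σ ⊆ W ∧ σ.map (tr (fun _ => 0)).toEmbedding = σ' := by
        obtain ⟨σ, h6, h7⟩ := subset_map_iff.1 h3
        exact ⟨σ, h6, h7.symm⟩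
      obtain ⟨σ, h6, rfl⟩ := h5
      exact ⟨σ, ⟨h6, (key σ).1 h4⟩, rfl⟩
    · rintro ⟨σ, ⟨h3, h4⟩, rfl⟩
      exact ⟨map_subset_map.2 h3, (key σ).2 h4⟩
  · rw [disjoint_left]
    intro p hp hp2
    obtain ⟨v, hv, rfl⟩ := mem_map.1 hp
    obtain ⟨i, h3, h4⟩ := mem_xt.1 hp2
    have h5 : (0 : ℕ) = i + 1 := h4
    omega
  · intro p hp
    obtain ⟨i, h3, h4⟩ := mem_xt.1 hp
    refine ⟨tr (fun _ => 0) (ofLex p).1, mem_map.2 ⟨(ofLex p).1, ht ?_, rfl⟩, rfl⟩
    rw [Finsupp.mem_support_iff]; omega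
  · rw [card_xt]
    exact max_le h1 h2

end blow

end Pool.Agent.Helper82.Gap
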