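import Mathlib

set_option autoImplicit false

namespace Pool.Agent.Helper82.GapPowers

open MvPolynomial

/-- The edge ideal `I(G) = (x_i x_j : {i, j} an edge of G)` in `S = K[x_0, ..., x_{m-1}]`. -/
noncomputable def edgeIdeal (K : Type*) [Field K] {m : ℕ} (G : SimpleGraph (Fin m)) :
    Ideal (MvPolynomial (Fin m) K) :=
  Ideal.span {p | ∃ i j, G.Adj i j ∧ p = X i * X j}

/-- `G` is gap-free: any two edges `{a, b}`, `{c, d}` with no common vertex are joined by an
edge of `G`. -/
def GapFree {m : ℕ} (G : SimpleGraph (Fin m)) : Prop :=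
  ∀ a b c d, G.Adj a b → G.Adj c d → a ≠ c → a ≠ d → b ≠ c → b ≠ d →
    G.Adj a c ∨ G.Adj a d ∨ G.Adj b c ∨ G.Adj b d

/-- A graded free resolution `... → F_2 → F_1 → F_0 → J → 0` of an ideal `J` of
`S = K[x_0, ..., x_{m-1}]` by graded free modules of finite rank:
`F_i` is the direct sum of the modules `S(-deg i k)` for `k` in `Fin (rank i)`, the `k`-th basis
vector being `Pi.single k 1`, placed in degree `deg i k`. The augmentation `aug : F_0 → S` has
image `J`, the differentials are `d i : F_{i+1} → F_i`, all these maps are `S`-linear and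
homogeneous of degree zero (for the differentials: the `l`-th coordinate of the image of the `k`-th
basis vector is zero or homogeneous of degree `deg (i+1) k - deg i l`), and the sequence is
exact. -/
structure GradedFreeResolution {K : Type*} [Field K] {m : ℕ}
    (J : Ideal (MvPolynomial (Fin m) K)) where
  rank : ℕ → ℕ
  deg : (i : ℕ) → Fin (rank i) → ℕ
  aug : (Fin (rank 0) → MvPolynomial (Fin m) K) →ₗ[MvPolynomial (Fin m) K]
    MvPolynomial (Fin m) K
  d : (i : ℕ) → (Fin (rank (i + 1)) → MvPolynomial (Fin m) K) →ₗ[MvPolynomial (Fin m) K]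
    (Fin (rank i) → MvPolynomial (Fin m) K)
  aug_homogeneous : ∀ k, (aug (Pi.single k 1)).IsHomogeneous (deg 0 k)
  d_homogeneous : ∀ i k l, (deg i l ≤ deg (i + 1) k ∧
    (d i (Pi.single k 1) l).IsHomogeneous (deg (i + 1) k - deg i l)) ∨
    d i (Pi.single k 1) l = 0
  range_aug : LinearMap.range aug = J
  exact_zero : LinearMap.ker aug = LinearMap.range (d 0)
  exact_succ : ∀ i, LinearMap.ker (d i) = LinearMap.range (d (i + 1))

/-- `reg J ≤ r`: there is a graded free resolution of `J` in which the generators of `F_i` have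
degrees at most `r + i`. -/
def RegLE {K : Type*} [Field K] {m : ℕ} (J : Ideal (MvPolynomial (Fin m) K)) (r : ℕ) : Prop :=
  ∃ F : GradedFreeResolution J, ∀ i k, F.deg i k ≤ r + i

/-- `reg J = n` (Castelnuovo-Mumford regularity of the graded module `J`). -/
def HasReg {K : Type*} [Field K] {m : ℕ} (J : Ideal (MvPolynomial (Fin m) K)) (n : ℕ) : Prop :=
  IsLeast {r | RegLE J r} n

/-- `J` is generated in degree `q` and has a linear resolution: there is a graded free resolution
of `J` in which all generators of `F_i` have degree exactly `q + i`. -/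
def LinearResolution {K : Type*} [Field K] {m : ℕ} (J : Ideal (MvPolynomial (Fin m) K))
    (q : ℕ) : Prop :=
  ∃ F : GradedFreeResolution J, ∀ i k, F.deg i k = q + i

end Pool.Agent.Helper82.GapPowers
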