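import Mathlib
import Pool.Agent.Helper82.GapChain

set_option autoImplicit false
set_option linter.unusedSectionVars false
set_option linter.unusedVariables false

namespace Pool.Agent.Helper82.Gap

open Finset MvPolynomial

section
variable {V : Type*} [LinearOrder V] [Fintype V] {K : Type*} [Field K]
variable {M M' : Type*} [AddCommGroup M] [Module (MvPolynomial V K) M]
  [AddCommGroup M'] [Module (MvPolynomial V K) M']

/-- the Koszul operator -/
noncomputable def kd (K : Type*) [Field K] {M : Type*} [AddCommGroup M] [Module (MvPolynomial V K) M]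
    (z : Finset V → M) (τ : Finset V) : M :=
  ∑ v ∈ univ \ τ, (sg (MvPolynomial V K) v τ * X v) • z (insert v τ)

lemma kd_map (φ : M →ₗ[MvPolynomial V K] M') (z : Finset V → M) (τ : Finset V) :
    kd K (fun ρ => φ (z ρ)) τ = φ (kd K z τ) := by
  unfold kd
  rw [map_sum]
  apply sum_congr rfl
  intro v _
  rw [map_smul]

lemma kd_sub (z w : Finset V → M) (τ : Finset V) :
    kd K (fun ρ => z ρ - w ρ) τ = kd K z τ - kd K w τ := by
  unfold kd
  rw [← sum_sub_distrib]
  apply sum_congr rfl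
  intro v _
  rw [smul_sub]

lemma kd_kd (z : Finset V → M) (τ : Finset V) : kd K (kd K z) τ = 0 := by
  classical
  unfold kd
  have h1 : ∀ v ∈ univ \ τ, (sg (MvPolynomial V K) v τ * X v) •
      ∑ w ∈ univ \ insert v τ, (sg (MvPolynomial V K) w (insert v τ) * X w) • z (insert w (insert v τ))
      = ∑ w ∈ univ \ τ, if w = v then 0 else
        ((sg (MvPolynomial V K) v τ * X v) * (sg (MvPolynomial V K) w (insert v τ) * X w)) •
          z (insert w (insert v τ)) := by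
    intro v hv
    rw [smul_sum]
    have h2 : univ \ insert v τ = (univ \ τ).erase v := by
      ext x; simp
    rw [h2, ← sum_erase_add (univ \ τ) _ hv, if_pos rfl, add_zero]
    apply sum_congr rfl
    intro w hw
    rw [if_neg (mem_erase.1 hw).1, smul_smul]
  rw [sum_congr rfl h1]
  -- antisymmetry
  have key : ∑ v ∈ univ \ τ, ∑ w ∈ univ \ τ, (if w = v then 0 else
        ((sg (MvPolynomial V K) v τ * X v) * (sg (MvPolynomial V K) w (insert v τ) * X w)) •
          z (insert w (insert v τ))) =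
      ∑ p ∈ (univ \ τ) ×ˢ (univ \ τ), (if p.2 = p.1 then 0 else
        ((sg (MvPolynomial V K) p.1 τ * X p.1) * (sg (MvPolynomial V K) p.2 (insert p.1 τ) * X p.2)) •
          z (insert p.2 (insert p.1 τ))) := by
    rw [sum_product]
  rw [key]
  apply sum_involution (fun p _ => (p.2, p.1))
  · rintro ⟨v, w⟩ hp
    rw [mem_product, mem_sdiff, mem_sdiff] at hp
    obtain ⟨⟨_, hv⟩, ⟨_, hw⟩⟩ := hp
    simp only at hv hw ⊢
    by_cases hvw : w = v
    · subst hvw; simp
    · rw [if_neg hvw, if_neg (Ne.symm hvw), insert_comm w v τ, ← add_smul]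
      have hs := sg_anti (K := MvPolynomial V K) (v := v) (w := w) (σ := τ) (Ne.symm hvw) hv hw
      have : (sg (MvPolynomial V K) v τ * X v) * (sg (MvPolynomial V K) w (insert v τ) * X w) +
          (sg (MvPolynomial V K) w τ * X w) * (sg (MvPolynomial V K) v (insert w τ) * X v) = 0 := by
        linear_combination (X v * X w : MvPolynomial V K) * hs
      rw [this, zero_smul]
  · rintro ⟨v, w⟩ hp hne heq
    simp only [Prod.mk.injEq] at heq
    obtain ⟨h1, _⟩ := heq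
    exact hne (by simp [h1])
  · rintro ⟨v, w⟩ hp
    rw [mem_product] at hp ⊢
    exact ⟨hp.2, hp.1⟩
  · rintro ⟨v, w⟩ hp
    rfl

lemma kd_card {z : Finset V → M} {i : ℕ} (hz : ∀ τ, z τ ≠ 0 → τ.card = i + 1) (τ : Finset V)
    (h : kd K z τ ≠ 0) : τ.card = i := by
  by_contra hne
  apply h
  unfold kd
  apply sum_eq_zero
  intro v hv
  by_cases h1 : z (insert v τ) = 0
  · rw [h1, smul_zero]
  · exfalso
    have h2 := hz _ h1
    rw [card_insert_of_notMem (mem_sdiff.1 hv).2] at h2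
    omega

/-- Koszul exactness in homological degree `i`, coefficient degree `a + 1` -/
def KE (K : Type*) [Field K] {V : Type*} [LinearOrder V] [Fintype V]
    {M : Type*} [AddCommGroup M] [Module (MvPolynomial V K) M] (g : ℕ → Set M) (i a : ℕ) : Prop :=
  ∀ z : Finset V → M, (∀ τ, z τ ≠ 0 → τ.card = i) → (∀ τ, z τ ∈ g (a + 1)) →
    (∀ τ, kd K z τ = 0) → ∃ w : Finset V → M, (∀ τ, w τ ≠ 0 → τ.card = i + 1) ∧
      (∀ τ, w τ ∈ g a) ∧ ∀ τ, kd K w τ = z τ

/-- a family of additive subgroups compatible with the variables -/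
structure Gf (K : Type*) [Field K] (V : Type*) [LinearOrder V] [Fintype V]
    {M : Type*} [AddCommGroup M] [Module (MvPolynomial V K) M] (g : ℕ → Set M) : Prop where
  zero : ∀ a, 0 ∈ g a
  sub : ∀ a, ∀ x ∈ g a, ∀ y ∈ g a, x - y ∈ g a
  mul : ∀ a, ∀ x ∈ g a, ∀ v : V, (X v : MvPolynomial V K) • x ∈ g (a + 1)

lemma Gf.neg {g : ℕ → Set M} (hg : Gf K V g) {a : ℕ} {x : M} (hx : x ∈ g a) : -x ∈ g a := by
  have := hg.sub a 0 (hg.zero a) x hx
  rwa [zero_sub] at this

lemma Gf.add {g : ℕ → Set M} (hg : Gf K V g) {a : ℕ} {x y : M} (hx : x ∈ g a) (hy : y ∈ g a) :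
    x + y ∈ g a := by
  have := hg.sub a x hx _ (hg.neg hy)
  rwa [sub_neg_eq_add] at this

lemma Gf.sum {g : ℕ → Set M} (hg : Gf K V g) {a : ℕ} {ι : Type*} (s : Finset ι) (f : ι → M)
    (h : ∀ i ∈ s, f i ∈ g a) : ∑ i ∈ s, f i ∈ g a := by
  classical
  induction s using Finset.induction_on with
  | empty => rw [sum_empty]; exact hg.zero a
  | insert i s hi ih =>
    rw [sum_insert hi]
    exact hg.add (h i (mem_insert_self _ _)) (ih (fun j hj => h j (mem_insert_of_mem hj)))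

lemma Gf.sgX {g : ℕ → Set M} (hg : Gf K V g) {a : ℕ} {x : M} (hx : x ∈ g a) (v : V) (τ : Finset V) :
    (sg (MvPolynomial V K) v τ * X v) • x ∈ g (a + 1) := by
  unfold sg
  rcases neg_one_pow_eq_or (MvPolynomial V K) (filter (fun x => x < v) τ).card with h | h
  · rw [h, one_mul]; exact hg.mul a x hx v
  · rw [h, neg_one_mul, neg_smul]; exact hg.neg (hg.mul a x hx v)

lemma Gf.kd {g : ℕ → Set M} (hg : Gf K V g) {a : ℕ} {z : Finset V → M} (hz : ∀ τ, z τ ∈ g a)
    (τ : Finset V) : kd K z τ ∈ g (a + 1) := by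
  unfold Gap.kd
  exact hg.sum _ _ (fun v _ => hg.sgX (hz _) v τ)

/-- from the kernel and the free module to the image, homological degree zero -/
theorem KE.down_zero {g' : ℕ → Set M'} {g : ℕ → Set M} (φ : M' →ₗ[MvPolynomial V K] M)
    (hφ : ∀ a, ∀ x ∈ g' a, φ x ∈ g a) (hg' : Gf K V g') (hsurj : ∀ a, ∀ y ∈ g a, ∃ x ∈ g' a, φ x = y)
    {a : ℕ} (h : KE K (V := V) g' 0 a) : KE K (V := V) g 0 a := by
  classical
  intro z hz1 hz2 hz3
  obtain ⟨x, hx, hx2⟩ := hsurj (a + 1) (z ∅) (hz2 ∅)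
  obtain ⟨w, hw1, hw2, hw3⟩ := h (fun τ => if τ = ∅ then x else 0) (by
    intro τ hτ
    by_cases h1 : τ = ∅
    · rw [h1, card_empty]
    · simp [h1] at hτ) (by
    intro τ
    by_cases h1 : τ = ∅
    · simp only [h1, if_true]; exact hx
    · simp only [h1, if_false]; exact hg'.zero _) (by
    intro τ
    unfold Gap.kd
    apply sum_eq_zero
    intro v _
    have : insert v τ ≠ ∅ := (insert_nonempty v τ).ne_empty
    simp only [this, if_false, smul_zero])
  refine ⟨fun τ => φ (w τ), ?_, fun τ => hφ a _ (hw2 τ), ?_⟩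
  · intro τ hτ
    apply hw1
    intro h1; apply hτ; show φ (w τ) = 0; rw [h1, map_zero]
  · intro τ
    rw [kd_map, hw3]
    by_cases h1 : τ = ∅
    · simp only [h1, if_true]; exact hx2
    · simp only [h1, if_false, map_zero]
      symm
      by_contra hne
      have := hz1 τ hne
      rw [card_eq_zero] at this
      exact h1 this

/-- from the kernel and the free module to the image -/
theorem KE.down_succ {g' : ℕ → Set M'} {g : ℕ → Set M} (φ : M' →ₗ[MvPolynomial V K] M)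
    (hφ : ∀ a, ∀ x ∈ g' a, φ x ∈ g a) (hg' : Gf K V g') (hsurj : ∀ a, ∀ y ∈ g a, ∃ x ∈ g' a, φ x = y)
    {i a : ℕ} (h : KE K (V := V) g' (i + 1) a)
    (hk : KE K (V := V) (fun b => {x | x ∈ g' b ∧ φ x = 0}) i (a + 1)) :
    KE K (V := V) g (i + 1) a := by
  classical
  intro z hz1 hz2 hz3
  have hlift : ∀ τ : Finset V, ∃ x, x ∈ g' (a + 1) ∧ φ x = z τ ∧ (z τ = 0 → x = 0) := by
    intro τ
    by_cases h1 : z τ = 0
    · exact ⟨0, hg'.zero _, by rw [map_zero, h1], fun _ => rfl⟩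
    · obtain ⟨x, hx, hx2⟩ := hsurj (a + 1) (z τ) (hz2 τ)
      exact ⟨x, hx, hx2, fun h => absurd h h1⟩
  choose y hy1 hy2 hy3 using hlift
  have hycard : ∀ τ, y τ ≠ 0 → τ.card = i + 1 := fun τ hτ => hz1 τ (fun h => hτ (hy3 τ h))
  obtain ⟨w, hw1, hw2, hw3⟩ := hk (Gap.kd K y) (fun τ hτ => kd_card hycard τ hτ) (by
    intro τ
    refine ⟨hg'.kd hy1 τ, ?_⟩
    rw [← kd_map]
    have : (fun ρ => φ (y ρ)) = z := funext hy2
    rw [this]
    exact hz3 τ) (fun τ => kd_kd y τ)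
  obtain ⟨u, hu1, hu2, hu3⟩ := h (fun τ => y τ - w τ) (by
    intro τ hτ
    by_cases h1 : y τ = 0
    · apply hw1
      intro h2; apply hτ; show y τ - w τ = 0; rw [h1, h2, sub_zero]
    · exact hycard τ h1) (fun τ => hg'.sub _ _ (hy1 τ) _ (hw2 τ).1) (by
    intro τ
    rw [kd_sub, hw3, sub_self])
  refine ⟨fun τ => φ (u τ), ?_, fun τ => hφ a _ (hu2 τ), ?_⟩
  · intro τ hτ
    apply hu1
    intro h1; apply hτ; show φ (u τ) = 0; rw [h1, map_zero]
  · intro τ
    rw [kd_map, hu3, map_sub, hy2, (hw2 τ).2, sub_zero]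

/-- from the image and the free module to the kernel -/
theorem KE.to_ker {g' : ℕ → Set M'} {g : ℕ → Set M} (φ : M' →ₗ[MvPolynomial V K] M)
    (hφ : ∀ a, ∀ x ∈ g' a, φ x ∈ g a) (hg' : Gf K V g') (hsurj : ∀ a, ∀ y ∈ g a, ∃ x ∈ g' a, φ x = y)
    {i a : ℕ} (h : KE K (V := V) g' i (a + 1)) (hk : KE K (V := V) g (i + 1) a) :
    KE K (V := V) (fun b => {x | x ∈ g' b ∧ φ x = 0}) i (a + 1) := by
  classical
  intro z hz1 hz2 hz3
  obtain ⟨u, hu1, hu2, hu3⟩ := h z hz1 (fun τ => (hz2 τ).1) hz3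
  obtain ⟨w, hw1, hw2, hw3⟩ := hk (fun τ => φ (u τ)) (by
    intro τ hτ
    apply hu1
    intro h1; apply hτ; show φ (u τ) = 0; rw [h1, map_zero]) (fun τ => hφ _ _ (hu2 τ)) (by
    intro τ
    rw [kd_map, hu3, (hz2 τ).2])
  have hlift : ∀ τ : Finset V, ∃ x, x ∈ g' a ∧ φ x = w τ ∧ (w τ = 0 → x = 0) := by
    intro τ
    by_cases h1 : w τ = 0
    · exact ⟨0, hg'.zero _, by rw [map_zero, h1], fun _ => rfl⟩
    · obtain ⟨x, hx, hx2⟩ := hsurj a (w τ) (hw2 τ)
      exact ⟨x, hx, hx2, fun h => absurd h h1⟩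
  choose y hy1 hy2 hy3 using hlift
  have hycard : ∀ τ, y τ ≠ 0 → τ.card = (i + 1) + 1 := fun τ hτ => hw1 τ (fun h => hτ (hy3 τ h))
  refine ⟨fun τ => u τ - Gap.kd K y τ, ?_, ?_, ?_⟩
  · intro τ hτ
    by_cases h1 : u τ = 0
    · refine kd_card (K := K) (z := y) hycard τ ?_
      intro h2; apply hτ; show u τ - Gap.kd K y τ = 0; rw [h1, h2, sub_zero]
    · exact hu1 τ h1
  · intro τ
    refine ⟨hg'.sub _ _ (hu2 τ) _ (hg'.kd hy1 τ), ?_⟩
    rw [map_sub, ← kd_map]
    have : (fun ρ => φ (y ρ)) = w := funext hy2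
    rw [this, hw3, sub_self]
  · intro τ
    rw [kd_sub, hu3, kd_kd, sub_zero]

end

end Pool.Agent.Helper82.Gap
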