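import Mathlib
import Pool.Agent.Helper82.GapKos
import Pool.Agent.Helper82.GapBlow

set_option autoImplicit false
set_option linter.unusedSectionVars false
set_option linter.unusedVariables false

namespace Pool.Agent.Helper82.Gap

open Finset MvPolynomial

section
variable {V : Type*} [LinearOrder V] [Fintype V] {K : Type*} [Field K]

lemma ind_apply (σ : Finset V) (v : V) : ind σ v = if v ∈ σ then 1 else 0 := by
  unfold ind
  rw [Finsupp.finsetSum_apply]
  simp only [Finsupp.single_apply]
  rw [sum_ite_eq']

lemma ind_erase {σ : Finset V} {v : V} (hv : v ∈ σ) : ind σ = ind (σ.erase v) + Finsupp.single v 1 := by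
  unfold ind
  rw [sum_erase_add _ _ hv]

lemma ind_support (σ : Finset V) : (ind σ).support = σ := by
  ext v
  rw [Finsupp.mem_support_iff, ind_apply]
  by_cases h : v ∈ σ <;> simp [h]

lemma sg_C (v : V) (τ : Finset V) : sg (MvPolynomial V K) v τ = C (sg K v τ) := by
  unfold sg
  simp

lemma sg_split {σ τ W : Finset V} (hd : Disjoint σ τ) (hW : σ ∪ τ = W) (v : V) :
    sg K v σ * sg K v τ = sg K v W := by
  unfold sg
  rw [← pow_add, ← hW, filter_union, card_union_of_disjoint (disjoint_filter_filter hd)]

/-- gauge -/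
noncomputable def eta (K : Type*) [Field K] (W τ : Finset V) : K := ∏ v ∈ τ, sg K v W

lemma eta_sq (W τ : Finset V) : eta K W τ * eta K W τ = 1 := by
  unfold eta
  rw [← prod_mul_distrib]
  exact prod_eq_one (fun v _ => sg_mul_self v W)

lemma eta_ne (W τ : Finset V) : eta K W τ ≠ 0 := by
  intro h
  have := eta_sq (K := K) W τ
  rw [h, mul_zero] at this
  exact zero_ne_one this

/-- the multigraded strand of a Koszul chain, as a cochain on subsets of `W` -/
noncomputable def cf (W : Finset V) (t : V →₀ ℕ) (y : Finset V → MvPolynomial V K) (σ : Finset V) : K :=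
  if σ ⊆ W then eta K W (W \ σ) * coeff (t + ind σ) (y (W \ σ)) else 0

lemma coeff_kd {W : Finset V} {t : V →₀ ℕ} (ht : t.support ⊆ W) (y : Finset V → MvPolynomial V K)
    {σ : Finset V} (hσ : σ ⊆ W) :
    coeff (t + ind σ) (kd K y (W \ σ)) =
      ∑ v ∈ σ, sg K v (W \ σ) * coeff (t + ind (σ.erase v)) (y (insert v (W \ σ))) := by
  classical
  unfold kd
  rw [coeff_sum]
  have hsub : σ ⊆ univ \ (W \ σ) := by
    intro v hv; simp [hv]
  rw [← sum_subset hsub]
  · apply sum_congr rfl
    intro v hv
    rw [sg_C, smul_eq_mul, mul_assoc, coeff_C_mul, coeff_X_mul']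
    have h1 : v ∈ (t + ind σ).support := by
      rw [Finsupp.mem_support_iff, Finsupp.add_apply, ind_apply, if_pos hv]; omega
    rw [if_pos h1]
    have h2 : t + ind σ - Finsupp.single v 1 = t + ind (σ.erase v) := by
      rw [ind_erase hv, ← add_assoc, add_tsub_cancel_right]
    rw [h2]
  · intro v hv hvσ
    rw [sg_C, smul_eq_mul, mul_assoc, coeff_C_mul, coeff_X_mul']
    have h1 : v ∉ (t + ind σ).support := by
      rw [Finsupp.mem_support_iff, Finsupp.add_apply, ind_apply, if_neg hvσ]
      have h2 : v ∉ W := by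
        intro h; rw [mem_sdiff, mem_sdiff] at hv; exact hv.2 ⟨h, hvσ⟩
      have h3 : t v = 0 := by
        by_contra h4
        exact h2 (ht (Finsupp.mem_support_iff.2 h4))
      omega
    rw [if_neg h1, mul_zero]

lemma cf_of {W : Finset V} {t : V →₀ ℕ} {y : Finset V → MvPolynomial V K} {σ : Finset V}
    (h : σ ⊆ W) : cf W t y σ = eta K W (W \ σ) * coeff (t + ind σ) (y (W \ σ)) := if_pos h

lemma cf_not {W : Finset V} {t : V →₀ ℕ} {y : Finset V → MvPolynomial V K} {σ : Finset V}
    (h : ¬ σ ⊆ W) : cf W t y σ = 0 := if_neg h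

lemma up_cf {W : Finset V} {t : V →₀ ℕ} (ht : t.support ⊆ W) (y : Finset V → MvPolynomial V K)
    {σ : Finset V} (hσ : σ ⊆ W) : up (cf W t y) σ = cf W t (kd K y) σ := by
  classical
  rw [cf_of hσ, coeff_kd ht y hσ]
  unfold up
  rw [mul_sum]
  apply sum_congr rfl
  intro v hv
  rw [cf_of ((erase_subset v σ).trans hσ)]
  have e1 : W \ σ.erase v = insert v (W \ σ) := by
    ext x
    simp only [mem_sdiff, mem_erase, mem_insert]
    constructor
    · rintro ⟨h1, h2⟩
      by_cases h3 : x = v
      · exact Or.inl h3
      · exact Or.inr ⟨h1, fun h4 => h2 ⟨h3, h4⟩⟩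
    · rintro (h1 | ⟨h1, h2⟩)
      · rw [h1]; exact ⟨hσ hv, fun h => h.1 rfl⟩
      · exact ⟨h1, fun h => h2 h.2⟩
  rw [e1]
  have hv' : v ∉ W \ σ := by simp [hv]
  have e2 : eta K W (insert v (W \ σ)) = sg K v W * eta K W (W \ σ) := by
    unfold eta; rw [prod_insert hv']
  rw [e2, ← sg_split (K := K) (σ := σ) (τ := W \ σ) disjoint_sdiff (union_sdiff_of_subset hσ) v]
  linear_combination (sg K v (W \ σ) * eta K W (W \ σ) *
    coeff (t + ind (σ.erase v)) (y (insert v (W \ σ)))) * sg_mul_self (K := K) v σ

/-- the graded pieces of the monomial ideal of a predicate -/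
def mono (K : Type*) [Field K] {V : Type*} (P : (V →₀ ℕ) → Prop) (a : ℕ) : Set (MvPolynomial V K) :=
  {p | p.IsHomogeneous a ∧ ∀ c, coeff c p ≠ 0 → P c}

lemma ind_mono_deg (σ : Finset V) : (ind σ).degree = σ.card := by
  unfold ind
  rw [map_sum]
  simp

lemma degree_eq_sum (t : V →₀ ℕ) : t.degree = ∑ v ∈ t.support, t v := rfl

/-- the full simplex is exact -/
lemma ex_full {W : Finset V} (hW : W.Nonempty) (n : ℕ) : Ex K {σ : Finset V | σ ⊆ W} n := by
  obtain ⟨x, hx⟩ := hW
  apply Ex.cone x
  intro σ _
  simp only [Set.mem_ofPred_eq]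
  constructor
  · intro h v hv
    rcases mem_insert.1 hv with rfl | hv
    · exact hx
    · exact h hv
  · exact fun h => (subset_insert _ _).trans h

lemma P_mono {P : (V →₀ ℕ) → Prop} (hP : ∀ c v, P c → P (c + Finsupp.single v 1))
    (t : V →₀ ℕ) {σ τ : Finset V} (h : σ ⊆ τ) : P (t + ind σ) → P (t + ind τ) := by
  classical
  induction' hc : (τ \ σ).card with k ih generalizing τ
  · intro hσ
    rw [card_eq_zero, sdiff_eq_empty_iff_subset] at hc
    rw [subset_antisymm hc h]; exact hσ
  · intro hσ
    obtain ⟨v, hv⟩ : (τ \ σ).Nonempty := card_pos.1 (by omega)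
    rw [mem_sdiff] at hv
    have h1 : σ ⊆ τ.erase v := fun x hx => mem_erase.2 ⟨fun h' => hv.2 (h' ▸ hx), h hx⟩
    have h2 : (τ.erase v \ σ).card = k := by
      have : τ.erase v \ σ = (τ \ σ).erase v := by
        ext x; simp only [mem_sdiff, mem_erase]; tauto
      rw [this, card_erase_of_mem (mem_sdiff.2 hv), hc]
      rfl
    rw [ind_erase hv.1, ← add_assoc]
    exact hP _ _ (ih h1 h2 hσ)

theorem KE_of_Ex {P : (V →₀ ℕ) → Prop} (hP : ∀ c v, P c → P (c + Finsupp.single v 1)) {i a : ℕ}
    (h : ∀ (t : V →₀ ℕ) (W : Finset V), t.support ⊆ W → ∀ n, n + t.degree = a →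
      Ex K {σ : Finset V | σ ⊆ W ∧ ¬ P (t + ind σ)} n) :
    KE K (V := V) (mono K P) i a := by
  classical
  intro z hz1 hz2 hz3
  -- the strand at `b`
  have hstrand : ∀ b : V →₀ ℕ, ∃ g : Finset V → K,
      (∀ σ, g σ ≠ 0 → σ ⊆ b.support ∧ P (b - ind b.support + ind σ) ∧ σ.card + 1 + i = b.support.card) ∧
      ∀ σ, σ ⊆ b.support → up g σ = cf b.support (b - ind b.support) z σ := by
    intro b
    set W := b.support with hWdef
    set t := b - ind W with htdef
    have hbt : t + ind W = b := by
      rw [htdef]
      ext v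
      rw [Finsupp.add_apply, Finsupp.tsub_apply, ind_apply]
      by_cases hv : v ∈ W
      · rw [if_pos hv]
        have : b v ≠ 0 := by rw [hWdef] at hv; exact Finsupp.mem_support_iff.1 hv
        omega
      · rw [if_neg hv]; omega
    have ht : t.support ⊆ W := by
      intro v hv
      rw [Finsupp.mem_support_iff] at hv
      by_contra h1
      apply hv
      have h2 : b v = 0 := by
        by_contra h3
        exact h1 (by rw [hWdef]; exact Finsupp.mem_support_iff.2 h3)
      rw [htdef, Finsupp.tsub_apply, h2, Nat.zero_sub]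
    have hcfsup : ∀ σ, cf W t z σ ≠ 0 → σ ⊆ W ∧ P (t + ind σ) ∧ σ.card + i = W.card ∧
        (t + ind σ).degree = a + 1 := by
      intro σ hσ
      by_cases h1 : σ ⊆ W
      · rw [cf_of h1] at hσ
        have h2 : coeff (t + ind σ) (z (W \ σ)) ≠ 0 := fun h' => hσ (by rw [h', mul_zero])
        have h3 : z (W \ σ) ≠ 0 := by
          intro h'; apply h2; rw [h', coeff_zero]
        have h4 := hz1 _ h3
        have h5 := card_sdiff_add_card_eq_card h1
        refine ⟨h1, (hz2 _).2 _ h2, by omega, ?_⟩
        by_contra h6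
        exact h2 (((hz2 (W \ σ)).1).coeff_eq_zero h6)
      · rw [cf_not h1] at hσ; exact absurd rfl hσ
    have hcocyc : ∀ σ, σ ⊆ W → up (cf W t z) σ = 0 := by
      intro σ hσ
      rw [up_cf ht z hσ, cf_of hσ, hz3, coeff_zero, mul_zero]
    by_cases hz0 : ∀ σ, cf W t z σ = 0
    · refine ⟨0, fun σ hσ => absurd rfl hσ, fun σ _ => ?_⟩
      rw [up_zero, hz0]
    · push Not at hz0
      obtain ⟨σ0, hσ0⟩ := hz0
      obtain ⟨h01, h02, h03, h04⟩ := hcfsup σ0 hσ0
      rw [map_add, ind_mono_deg] at h04
      have hWne : W.Nonempty := by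
        by_contra h1
        rw [not_nonempty_iff_eq_empty] at h1
        have h2 : σ0 = ∅ := by rw [← subset_empty, ← h1]; exact h01
        have h3 : t = 0 := by
          rw [h1, subset_empty, Finsupp.support_eq_empty] at ht; exact ht
        rw [h2, h3, card_empty, map_zero] at h04
        omega
      -- exactness of the upper family
      have hup : ∀ n', n' + i = W.card → Ex K {σ : Finset V | σ ⊆ W ∧ P (t + ind σ)} n' := by
        intro n' hn'
        rcases n' with _ | k
        · by_cases h1 : P (t + ind ∅)
          · refine Ex.congr ?_ (ex_full (K := K) hWne 0)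
            intro σ
            simp only [Set.mem_ofPred_eq]
            exact ⟨fun h2 => ⟨h2, P_mono hP t (empty_subset σ) h1⟩, fun h2 => h2.1⟩
          · apply Ex.of_card
            rintro σ ⟨_, h2⟩ h3
            rw [card_eq_zero] at h3
            rw [h3] at h2
            exact h1 h2
        · refine Ex.upper (A := {σ : Finset V | σ ⊆ W ∧ ¬ P (t + ind σ)})
            (F := {σ : Finset V | σ ⊆ W}) ?_ ?_ ?_ ?_ (ex_full hWne _) (h t W ht k (by omega))
          · rintro ρ σ τ _ h2 _ h4
            exact Finset.Subset.trans h2 h4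
          · intro σ
            simp only [Set.mem_ofPred_eq]
            tauto
          · rintro σ ⟨_, h1⟩ ⟨_, h2⟩
            exact h1 h2
          · rintro σ ⟨_, h1⟩ v hv ⟨_, h2⟩
            exact h1 (P_mono hP t (erase_subset v σ) h2)
      obtain ⟨g, hg, hg2⟩ := hup (W.card - i) (by omega) (cf W t z) (by
        intro σ hσ
        obtain ⟨h1, h2, h3, _⟩ := hcfsup σ hσ
        exact ⟨⟨h1, h2⟩, by omega⟩) (fun σ hσ => hcocyc σ hσ.1)
      refine ⟨g, ?_, ?_⟩
      · intro σ hσ
        obtain ⟨⟨h1, h2⟩, h3⟩ := hg σ hσ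
        exact ⟨h1, h2, by omega⟩
      · intro σ hσ
        by_cases h1 : P (t + ind σ)
        · exact hg2 σ ⟨hσ, h1⟩
        · have h2 : cf W t z σ = 0 := by
            by_contra h3
            exact h1 (hcfsup σ h3).2.1
          rw [h2]
          apply up_eq_zero
          intro v hv
          by_contra h3
          exact h1 (P_mono hP t (erase_subset v σ) (hg _ h3).1.2)
  choose g hg1 hg2 using hstrand
  -- assemble
  let val : Finset V → (V →₀ ℕ) → K := fun τ c =>
    eta K (c + ind τ).support τ * g (c + ind τ) ((c + ind τ).support \ τ)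
  let w : Finset V → MvPolynomial V K := fun τ =>
    ∑ c ∈ finsuppAntidiag univ a, monomial c (val τ c)
  have hmemD : ∀ (c : V →₀ ℕ), c ∈ finsuppAntidiag (univ : Finset V) a ↔ c.degree = a := by
    intro c
    rw [mem_finsuppAntidiag]
    constructor
    · rintro ⟨h1, _⟩
      rw [Finsupp.degree_eq_sum]; exact h1
    · intro h1
      rw [Finsupp.degree_eq_sum] at h1
      exact ⟨h1, subset_univ _⟩
  have hcoeff : ∀ τ c, coeff c (w τ) = if c.degree = a then val τ c else 0 := by
    intro τ c
    show coeff c (∑ c ∈ finsuppAntidiag univ a, monomial c (val τ c)) = _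
    rw [coeff_sum]
    simp only [coeff_monomial]
    rw [sum_ite_eq']
    simp only [hmemD]
  have hsupp : ∀ τ : Finset V, ∀ c : V →₀ ℕ, τ ⊆ (c + ind τ).support := by
    intro τ c v hv
    rw [Finsupp.mem_support_iff, Finsupp.add_apply, ind_apply, if_pos hv]; omega
  have hback : ∀ (τ : Finset V) (c : V →₀ ℕ), (c + ind τ) - ind (c + ind τ).support +
      ind ((c + ind τ).support \ τ) = c := by
    intro τ c
    ext v
    rw [Finsupp.add_apply, Finsupp.tsub_apply, ind_apply, ind_apply, Finsupp.add_apply, ind_apply]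
    by_cases h1 : v ∈ τ
    · have h2 := hsupp τ c h1
      have h3 : v ∉ (c + ind τ).support \ τ := by simp [h1]
      rw [if_pos h1, if_pos h2, if_neg h3]; omega
    · by_cases h2 : v ∈ (c + ind τ).support
      · have h3 : v ∈ (c + ind τ).support \ τ := mem_sdiff.2 ⟨h2, h1⟩
        have h4 := Finsupp.mem_support_iff.1 h2
        rw [Finsupp.add_apply, ind_apply, if_neg h1] at h4
        rw [if_neg h1, if_pos h2, if_pos h3]; omega
      · have h3 : v ∉ (c + ind τ).support \ τ := fun h => h2 (mem_sdiff.1 h).1
        rw [if_neg h1, if_neg h2, if_neg h3]; omega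
  have hwne : ∀ τ, w τ ≠ 0 → ∃ c, c.degree = a ∧ val τ c ≠ 0 := by
    intro τ hτ
    obtain ⟨c, hc⟩ := ne_zero_iff.1 hτ
    rw [hcoeff] at hc
    by_cases h1 : c.degree = a
    · rw [if_pos h1] at hc; exact ⟨c, h1, hc⟩
    · rw [if_neg h1] at hc; exact absurd rfl hc
  refine ⟨w, ?_, ?_, ?_⟩
  · intro τ hτ
    obtain ⟨c, _, hc⟩ := hwne τ hτ
    have h1 : g (c + ind τ) ((c + ind τ).support \ τ) ≠ 0 := fun h' => hc (by
      show eta K _ _ * _ = 0
      rw [h', mul_zero])
    obtain ⟨_, _, h2⟩ := hg1 _ _ h1
    have h3 := card_sdiff_add_card_eq_card (hsupp τ c)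
    omega
  · intro τ
    constructor
    · apply IsHomogeneous.sum
      intro c hc
      exact isHomogeneous_monomial _ ((hmemD c).1 hc)
    · intro c hc
      rw [hcoeff] at hc
      by_cases h1 : c.degree = a
      · rw [if_pos h1] at hc
        have h2 : g (c + ind τ) ((c + ind τ).support \ τ) ≠ 0 := fun h' => hc (by
          show eta K _ _ * _ = 0
          rw [h', mul_zero])
        obtain ⟨_, h3, _⟩ := hg1 _ _ h2
        rw [hback] at h3
        exact h3
      · rw [if_neg h1] at hc; exact absurd rfl hc
  · intro τ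
    ext c
    by_cases hdeg : c.degree = a + 1
    · -- use the strand at b = c + ind τ
      set b := c + ind τ with hb
      set W := b.support with hW
      have hτW : τ ⊆ W := hsupp τ c
      set t := b - ind W with ht
      have htW : t.support ⊆ W := by
        intro v hv
        rw [Finsupp.mem_support_iff] at hv
        by_contra h1
        apply hv
        have h2 : b v = 0 := by
          by_contra h3
          exact h1 (by rw [hW]; exact Finsupp.mem_support_iff.2 h3)
        rw [ht, Finsupp.tsub_apply, h2, Nat.zero_sub]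
      have hWW : W \ (W \ τ) = τ := by rw [sdiff_sdiff_right_self]; exact inter_eq_right.2 hτW
      have hc : t + ind (W \ τ) = c := hback τ c
      have hgw : ∀ σ, σ ⊆ W → σ ⊂ W \ τ ∨ σ ⊆ W → (t + ind σ).degree = a → cf W t w σ = g b σ := by
        intro σ hσ _ hdσ
        rw [cf_of hσ, hcoeff, if_pos hdσ]
        show eta K W (W \ σ) * (eta K (t + ind σ + ind (W \ σ)).support (W \ σ) *
          g (t + ind σ + ind (W \ σ)) ((t + ind σ + ind (W \ σ)).support \ (W \ σ))) = g b σ
        have h1 : t + ind σ + ind (W \ σ) = b := by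
          have h2 : ind σ + ind (W \ σ) = ind W := by
            ext v
            rw [Finsupp.add_apply, ind_apply, ind_apply, ind_apply]
            by_cases h3 : v ∈ σ
            · have h4 : v ∉ W \ σ := by simp [h3]
              rw [if_pos h3, if_neg h4, if_pos (hσ h3)]
            · by_cases h4 : v ∈ W
              · have h5 : v ∈ W \ σ := mem_sdiff.2 ⟨h4, h3⟩
                rw [if_neg h3, if_pos h5, if_pos h4]
              · have h5 : v ∉ W \ σ := fun h => h4 (mem_sdiff.1 h).1
                rw [if_neg h3, if_neg h5, if_neg h4]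
          rw [add_assoc, h2, ht]
          ext v
          rw [Finsupp.add_apply, Finsupp.tsub_apply, ind_apply]
          by_cases hv : v ∈ W
          · rw [if_pos hv]
            have : b v ≠ 0 := by rw [hW] at hv; exact Finsupp.mem_support_iff.1 hv
            omega
          · rw [if_neg hv]; omega
        rw [h1, ← hW, sdiff_sdiff_right_self, ← mul_assoc, eta_sq, one_mul]
        congr 1
        exact inter_eq_right.2 hσ
      have h1 := hg2 b (W \ τ) sdiff_subset
      rw [← hW, ← ht] at h1
      have h2 : up (g b) (W \ τ) = up (cf W t w) (W \ τ) := by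
        apply up_congr
        intro v hv
        symm
        apply hgw
        · exact (erase_subset _ _).trans sdiff_subset
        · exact Or.inr ((erase_subset _ _).trans sdiff_subset)
        · have h3 := congrArg Finsupp.degree hc
          rw [ind_erase hv, ← add_assoc, map_add, Finsupp.degree_single, hdeg] at h3
          omega
      rw [h2, up_cf htW w sdiff_subset, cf_of sdiff_subset, cf_of sdiff_subset, hWW, hc] at h1
      exact mul_left_cancel₀ (eta_ne W τ) h1
    · rw [((hz2 τ).1).coeff_eq_zero hdeg]
      -- degree of kd w τ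
      unfold kd
      rw [coeff_sum]
      apply sum_eq_zero
      intro v hv
      rw [sg_C, smul_eq_mul, mul_assoc, coeff_C_mul, coeff_X_mul']
      by_cases h1 : v ∈ c.support
      · rw [if_pos h1, hcoeff]
        have h2 : ¬ (c - Finsupp.single v 1).degree = a := by
          intro h3
          apply hdeg
          have h4 : c = (c - Finsupp.single v 1) + Finsupp.single v 1 := by
            ext u
            rw [Finsupp.add_apply, Finsupp.tsub_apply, Finsupp.single_apply]
            have h5 := Finsupp.mem_support_iff.1 h1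
            by_cases h6 : v = u
            · rw [if_pos h6, ← h6]; omega
            · rw [if_neg h6]; omega
          rw [h4, map_add, h3, Finsupp.degree_single]
        rw [if_neg h2, mul_zero]
      · rw [if_neg h1, mul_zero]

theorem Ex_of_KE {P : (V →₀ ℕ) → Prop} (hP : ∀ c v, P c → P (c + Finsupp.single v 1)) {N : ℕ}
    (hN : 1 ≤ N) (h : ∀ i, KE K (V := V) (mono K P) i N) (X : Finset V) :
    Ex K {σ : Finset V | σ ⊆ X ∧ ¬ P (ind σ)} N := by
  classical
  by_cases hX : X.Nonempty
  swap
  · apply Ex.of_card
    rintro σ ⟨h1, _⟩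
    rw [not_nonempty_iff_eq_empty.1 hX, subset_empty] at h1
    rw [h1, card_empty]; omega
  have h0 : ∀ σ : Finset V, (0 : V →₀ ℕ) + ind σ = ind σ := fun σ => zero_add _
  refine Ex.lower (B := {σ : Finset V | σ ⊆ X ∧ P (ind σ)}) (F := {σ : Finset V | σ ⊆ X})
    ?_ ?_ ?_ ?_ (ex_full hX _) ?_
  · rintro ρ σ τ _ h2 _ h4
    exact Finset.Subset.trans h2 h4
  · intro σ
    simp only [Set.mem_ofPred_eq]
    tauto
  · rintro σ ⟨_, h1⟩ ⟨_, h2⟩
    exact h1 h2
  · rintro σ ⟨_, h1⟩ v hv ⟨_, h2⟩
    rw [← h0] at h1 h2
    exact h1 (P_mono hP 0 (erase_subset v σ) h2)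
  · by_cases hXN : X.card < N + 1
    · apply Ex.of_card
      rintro σ ⟨h1, _⟩
      have := card_le_card h1
      omega
    · push Not at hXN
      intro f hf hcyc
      have hf0 : ∀ σ, σ ⊆ X → up f σ = 0 := by
        intro σ hσ
        by_cases h1 : P (ind σ)
        · exact hcyc σ ⟨hσ, h1⟩
        · apply up_eq_zero
          intro v hv
          by_contra h2
          apply h1
          rw [← h0]
          apply P_mono hP 0 (erase_subset v σ)
          rw [h0]
          exact (hf _ h2).1.2
      let z : Finset V → MvPolynomial V K := fun τ =>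
        if τ ⊆ X then monomial (ind (X \ τ)) (eta K X τ * f (X \ τ)) else 0
      have hz1 : ∀ τ, τ ⊆ X → z τ = monomial (ind (X \ τ)) (eta K X τ * f (X \ τ)) :=
        fun τ h => if_pos h
      have hz0 : ∀ τ, ¬ τ ⊆ X → z τ = 0 := fun τ h => if_neg h
      have hkd : ∀ τ, kd K z τ = 0 := by
        intro τ
        by_cases hτ : τ ⊆ X
        · have e1 : kd K z τ = monomial (ind (X \ τ)) (eta K X τ * up f (X \ τ)) := by
            unfold kd up
            rw [mul_sum, map_sum]
            have hsub : X \ τ ⊆ univ \ τ := sdiff_subset_sdiff (subset_univ _) (Subset.refl _)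
            rw [← sum_subset hsub]
            · apply sum_congr rfl
              intro v hv
              have hv2 := mem_sdiff.1 hv
              have e2 : insert v τ ⊆ X := insert_subset hv2.1 hτ
              have e3 : X \ insert v τ = (X \ τ).erase v := by
                ext x; simp only [mem_sdiff, mem_insert, mem_erase]; tauto
              rw [hz1 _ e2, e3, sg_C, smul_eq_mul, C_mul_X_eq_monomial, monomial_mul, ind_erase hv,
                add_comm (Finsupp.single v 1)]
              congr 1
              have e4 : eta K X (insert v τ) = sg K v X * eta K X τ := by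
                unfold eta; rw [prod_insert hv2.2]
              rw [e4, ← sg_split (K := K) (σ := X \ τ) (τ := τ) sdiff_disjoint
                (sdiff_union_of_subset hτ) v]
              linear_combination (sg K v (X \ τ) * eta K X τ * f ((X \ τ).erase v)) *
                sg_mul_self (K := K) v τ
            · intro v hv hv2
              have e2 : ¬ insert v τ ⊆ X := by
                intro h1
                apply hv2
                exact mem_sdiff.2 ⟨h1 (mem_insert_self _ _), (mem_sdiff.1 hv).2⟩
              rw [hz0 _ e2, smul_zero]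
          rw [e1, hf0 _ sdiff_subset, mul_zero, monomial_zero]
        · unfold kd
          apply sum_eq_zero
          intro v hv
          rw [hz0 _ (fun h1 => hτ ((subset_insert _ _).trans h1)), smul_zero]
      obtain ⟨w, hw1, hw2, hw3⟩ := h (X.card - (N + 1)) z (by
        intro τ hτ
        by_cases h1 : τ ⊆ X
        · rw [hz1 τ h1] at hτ
          have h2 : f (X \ τ) ≠ 0 := by
            intro h3; apply hτ; rw [h3, mul_zero, monomial_zero]
          have h3 := (hf _ h2).2
          have h4 := card_sdiff_add_card_eq_card h1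
          omega
        · exact absurd (hz0 τ h1) hτ) (by
        intro τ
        by_cases h1 : τ ⊆ X
        · rw [hz1 τ h1]
          by_cases h2 : f (X \ τ) = 0
          · rw [h2, mul_zero, monomial_zero]
            refine ⟨isHomogeneous_zero _ _ _, fun c hc => absurd (coeff_zero c) hc⟩
          · obtain ⟨⟨h3, h4⟩, h5⟩ := hf _ h2
            refine ⟨isHomogeneous_monomial _ (by rw [ind_mono_deg, h5]), fun c hc => ?_⟩
            rw [coeff_monomial] at hc
            by_cases h6 : ind (X \ τ) = c
            · rw [← h6]; exact h4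
            · rw [if_neg h6] at hc; exact absurd rfl hc
        · rw [hz0 τ h1]
          exact ⟨isHomogeneous_zero _ _ _, fun c hc => absurd (coeff_zero c) hc⟩) hkd
      have h0s : (0 : V →₀ ℕ).support ⊆ X := by simp
      refine ⟨cf X 0 w, ?_, ?_⟩
      · intro σ hσ
        by_cases h1 : σ ⊆ X
        · rw [cf_of h1] at hσ
          have h2 : coeff (0 + ind σ) (w (X \ σ)) ≠ 0 := fun h' => hσ (by rw [h', mul_zero])
          have h3 := (hw2 _).2 _ h2
          rw [h0] at h3
          refine ⟨⟨h1, h3⟩, ?_⟩
          by_contra h4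
          apply h2
          apply ((hw2 (X \ σ)).1).coeff_eq_zero
          rw [h0, ind_mono_deg]
          omega
        · rw [cf_not h1] at hσ; exact absurd rfl hσ
      · rintro σ ⟨h1, h2⟩
        rw [up_cf h0s w h1]
        have h3 : kd K w = z := funext hw3
        rw [h3, cf_of h1, hz1 _ sdiff_subset, sdiff_sdiff_right_self]
        have h4 : X ⊓ σ = σ := inter_eq_right.2 h1
        rw [h4, h0, coeff_monomial, if_pos rfl, ← mul_assoc, eta_sq, one_mul]

end

end Pool.Agent.Helper82.Gap
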