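import Mathlib
import Pool.Agent.Helper82.GapMono

set_option autoImplicit false
set_option linter.unusedSectionVars false
set_option linter.unusedVariables false

namespace Pool.Agent.Helper82.Gap

open Finset MvPolynomial

section
variable {V : Type*} [LinearOrder V] [Fintype V] {K : Type*} [Field K]
variable {ι ι' : Type*} [Fintype ι] [Fintype ι']

/-- graded pieces of the graded free module with generators in degrees `d k` -/
def grs (K V : Type*) [Field K] {ι : Type*} (d : ι → ℕ) (a : ℕ) : Set (ι → MvPolynomial V K) :=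
  {f | ∀ k, (d k ≤ a ∧ (f k).IsHomogeneous (a - d k)) ∨ f k = 0}

lemma grs_gf (d : ι → ℕ) : Gf K V (grs K V d) := by
  constructor
  · intro a k; right; rfl
  · intro a x hx y hy k
    rcases hx k with ⟨h1, h2⟩ | h1
    · rcases hy k with ⟨h3, h4⟩ | h3
      · left; exact ⟨h1, h2.sub h4⟩
      · left; refine ⟨h1, ?_⟩
        rw [Pi.sub_apply, h3, sub_zero]; exact h2
    · rcases hy k with ⟨h3, h4⟩ | h3
      · left; refine ⟨h3, ?_⟩
        rw [Pi.sub_apply, h1, zero_sub]; exact h4.neg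
      · right; rw [Pi.sub_apply, h1, h3, sub_zero]
  · intro a x hx v k
    rcases hx k with ⟨h1, h2⟩ | h1
    · left
      refine ⟨by omega, ?_⟩
      have h3 : a + 1 - d k = 1 + (a - d k) := by omega
      rw [h3, Pi.smul_apply, smul_eq_mul]
      exact (isHomogeneous_X K v).mul h2
    · right; rw [Pi.smul_apply, h1, smul_zero]

/-- the graded free module is Koszul-exact above its generators -/
theorem KE_grs (d : ι → ℕ) {i a : ℕ} (hd : ∀ k, d k ≤ a) : KE K (V := V) (grs K V d) i a := by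
  classical
  intro z hz1 hz2 hz3
  have H : ∀ k : ι, ∃ w : Finset V → MvPolynomial V K, (∀ τ, w τ ≠ 0 → τ.card = i + 1) ∧
      (∀ τ, w τ ∈ mono K (fun _ : V →₀ ℕ => True) (a - d k)) ∧ ∀ τ, kd K w τ = z τ k := by
    intro k
    have hKE : KE K (V := V) (mono K (fun _ : V →₀ ℕ => True)) i (a - d k) := by
      apply KE_of_Ex (fun _ _ h => h)
      intro t W _ n _
      apply Ex.of_card
      rintro σ ⟨_, h⟩
      exact absurd trivial h
    apply hKE (fun τ => z τ k)
    · intro τ hτ
      apply hz1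
      intro h; apply hτ; show z τ k = 0; rw [h]; rfl
    · intro τ
      refine ⟨?_, fun _ _ => trivial⟩
      rcases hz2 τ k with ⟨h1, h2⟩ | h1
      · have h3 : a - d k + 1 = a + 1 - d k := by have := hd k; omega
        rw [h3]; exact h2
      · show (z τ k).IsHomogeneous _
        rw [h1]; exact isHomogeneous_zero _ _ _
    · intro τ
      have h1 := kd_map (K := K) (LinearMap.proj (R := MvPolynomial V K) (φ := fun _ : ι => MvPolynomial V K) k) z τ
      rw [hz3 τ, map_zero] at h1
      exact h1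
  choose w hw1 hw2 hw3 using H
  refine ⟨fun τ k => w k τ, ?_, ?_, ?_⟩
  · intro τ hτ
    obtain ⟨k, hk⟩ := Function.ne_iff.1 hτ
    exact hw1 k τ hk
  · intro τ k
    left
    exact ⟨hd k, (hw2 k τ).1⟩
  · intro τ
    funext k
    have h1 := kd_map (K := K) (LinearMap.proj (R := MvPolynomial V K) (φ := fun _ : ι => MvPolynomial V K) k)
      (fun τ k => w k τ) τ
    have h2 : kd K (fun τ k => w k τ) τ k = kd K (w k) τ := h1.symm
    rw [h2, hw3]

/-- homogeneous components -/
noncomputable def cmp (d : ι → ℕ) (a : ℕ) (f : ι → MvPolynomial V K) : ι → MvPolynomial V K :=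
  fun k => if d k ≤ a then homogeneousComponent (a - d k) (f k) else 0

lemma cmp_mem (d : ι → ℕ) (a : ℕ) (f : ι → MvPolynomial V K) : cmp d a f ∈ grs K V d a := by
  intro k
  unfold cmp
  by_cases h : d k ≤ a
  · left; rw [if_pos h]; exact ⟨h, homogeneousComponent_isHomogeneous _ _⟩
  · right; rw [if_neg h]

lemma cmp_of_mem {d : ι → ℕ} {a b : ℕ} {f : ι → MvPolynomial V K} (hf : f ∈ grs K V d b) :
    cmp d a f = if a = b then f else 0 := by
  funext k
  unfold cmp
  rcases hf k with ⟨h1, h2⟩ | h1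
  · by_cases h3 : d k ≤ a
    · rw [if_pos h3, homogeneousComponent_of_mem h2]
      by_cases h4 : a = b
      · subst h4; simp
      · rw [if_neg (by omega), if_neg h4]; rfl
    · rw [if_neg h3, if_neg (by omega)]; rfl
  · rw [h1, map_zero, ite_self]
    by_cases h4 : a = b
    · rw [if_pos h4, h1]
    · rw [if_neg h4]; rfl

lemma cmp_sum {d : ι → ℕ} {a : ℕ} {J : Type*} (s : Finset J) (f : J → ι → MvPolynomial V K) :
    cmp d a (∑ j ∈ s, f j) = ∑ j ∈ s, cmp d a (f j) := by
  funext k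
  rw [Finset.sum_apply]
  unfold cmp
  by_cases h : d k ≤ a
  · simp only [if_pos h]
    rw [Finset.sum_apply, map_sum]
  · simp only [if_neg h]
    rw [sum_const_zero]

lemma exists_sum_cmp (d : ι → ℕ) (f : ι → MvPolynomial V K) :
    ∃ N : ℕ, f = ∑ a ∈ range N, cmp d a f := by
  classical
  refine ⟨∑ k, (d k + (f k).totalDegree + 1), ?_⟩
  funext k
  rw [Finset.sum_apply]
  set N := ∑ k, (d k + (f k).totalDegree + 1) with hN
  have h1 : d k + (f k).totalDegree + 1 ≤ N :=
    single_le_sum (f := fun k => d k + (f k).totalDegree + 1) (fun _ _ => Nat.zero_le _) (mem_univ k)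
  have h2 : ∑ a ∈ range N, cmp d a f k = ∑ a ∈ Ico (d k) N, homogeneousComponent (a - d k) (f k) := by
    symm
    have h3 : Ico (d k) N ⊆ range N := by
      intro a ha; rw [mem_Ico] at ha; exact mem_range.2 ha.2
    rw [← sum_subset h3]
    · apply sum_congr rfl
      intro a ha
      rw [mem_Ico] at ha
      unfold cmp
      rw [if_pos ha.1]
    · intro a ha ha2
      unfold cmp
      rw [mem_range] at ha
      rw [mem_Ico] at ha2
      rw [if_neg (fun h => ha2 ⟨h, ha⟩)]
  rw [h2, sum_Ico_eq_sum_range]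
  have h3 : ∀ i ∈ range (N - d k), homogeneousComponent (d k + i - d k) (f k) =
      homogeneousComponent i (f k) := by
    intro i _
    rw [Nat.add_sub_cancel_left]
  rw [sum_congr rfl h3]
  conv_lhs => rw [← sum_homogeneousComponent (f k)]
  apply sum_subset
  · intro i hi
    rw [mem_range] at hi ⊢
    omega
  · intro i _ hi
    rw [mem_range, not_lt] at hi
    exact homogeneousComponent_eq_zero _ _ (by omega)

/-- homogeneous maps commute with components -/
lemma cmp_hom {d' : ι' → ℕ} {d : ι → ℕ} (φ : (ι' → MvPolynomial V K) →ₗ[MvPolynomial V K] (ι → MvPolynomial V K))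
    (hφ : ∀ a, ∀ x ∈ grs K V d' a, φ x ∈ grs K V d a) (a : ℕ) (f : ι' → MvPolynomial V K) :
    cmp d a (φ f) = φ (cmp d' a f) := by
  obtain ⟨N, hN⟩ := exists_sum_cmp d' f
  have h1 : φ f = ∑ b ∈ range N, φ (cmp d' b f) := by
    conv_lhs => rw [hN]
    rw [map_sum]
  rw [h1, cmp_sum]
  have h2 : ∀ b ∈ range N, cmp d a (φ (cmp d' b f)) = if a = b then φ (cmp d' b f) else 0 :=
    fun b _ => cmp_of_mem (hφ b _ (cmp_mem d' b f))
  rw [sum_congr rfl h2, sum_ite_eq]
  by_cases h3 : a ∈ range N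
  · rw [if_pos h3]
  · rw [if_neg h3]
    -- the component vanishes
    have h4 : cmp d' a f = 0 := by
      conv_lhs => rw [hN]
      rw [cmp_sum]
      apply sum_eq_zero
      intro b hb
      rw [cmp_of_mem (cmp_mem d' b f), if_neg]
      rintro rfl
      exact h3 hb
    rw [h4, map_zero]

/-- homogeneity on the basis gives homogeneity -/
lemma hom_of_basis [DecidableEq ι'] {d' : ι' → ℕ} {d : ι → ℕ}
    (φ : (ι' → MvPolynomial V K) →ₗ[MvPolynomial V K] (ι → MvPolynomial V K))
    (hφ : ∀ k, φ (Pi.single k 1) ∈ grs K V d (d' k)) :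
    ∀ a, ∀ x ∈ grs K V d' a, φ x ∈ grs K V d a := by
  intro a x hx
  have h1 : φ x = ∑ k, x k • φ (Pi.single k 1) := by
    conv_lhs => rw [← Finset.univ_sum_single x]
    rw [map_sum]
    apply sum_congr rfl
    intro k _
    rw [← map_smul]
    congr 1
    rw [← Pi.single_smul, smul_eq_mul, mul_one]
  rw [h1]
  apply (grs_gf (K := K) (V := V) d).sum
  intro k _ l
  rcases hx k with ⟨h2, h3⟩ | h2
  · rcases hφ k l with ⟨h4, h5⟩ | h4
    · left
      refine ⟨h4.trans h2, ?_⟩
      have h6 : a - d l = (a - d' k) + (d' k - d l) := by omega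
      rw [h6, Pi.smul_apply, smul_eq_mul]
      exact h3.mul h5
    · right; rw [Pi.smul_apply, h4, smul_zero]
  · right; rw [Pi.smul_apply, h2, zero_smul]

/-- graded pieces of a submodule -/
def pc {ι : Type*} (N : Submodule (MvPolynomial V K) (ι → MvPolynomial V K)) (d : ι → ℕ) (a : ℕ) :
    Set (ι → MvPolynomial V K) := {f | f ∈ N ∧ f ∈ grs K V d a}

/-- graded submodules -/
def IsGr (N : Submodule (MvPolynomial V K) (ι → MvPolynomial V K)) (d : ι → ℕ) : Prop :=
  ∀ f ∈ N, ∀ a, cmp d a f ∈ N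

lemma pc_gf (N : Submodule (MvPolynomial V K) (ι → MvPolynomial V K)) (d : ι → ℕ) :
    Gf K V (pc N d) := by
  constructor
  · intro a; exact ⟨N.zero_mem, (grs_gf d).zero a⟩
  · rintro a x ⟨h1, h2⟩ y ⟨h3, h4⟩
    exact ⟨N.sub_mem h1 h3, (grs_gf d).sub a x h2 y h4⟩
  · rintro a x ⟨h1, h2⟩ v
    exact ⟨N.smul_mem _ h1, (grs_gf d).mul a x h2 v⟩

lemma ker_isGr {d' : ι' → ℕ} {d : ι → ℕ} (φ : (ι' → MvPolynomial V K) →ₗ[MvPolynomial V K] (ι → MvPolynomial V K))
    (hφ : ∀ a, ∀ x ∈ grs K V d' a, φ x ∈ grs K V d a) : IsGr (LinearMap.ker φ) d' := by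
  intro f hf a
  rw [LinearMap.mem_ker] at hf ⊢
  rw [← cmp_hom φ hφ, hf]
  funext k
  unfold cmp
  simp

/-- homogeneous elements of the range come from homogeneous elements -/
lemma exists_lift {d' : ι' → ℕ} {d : ι → ℕ} (φ : (ι' → MvPolynomial V K) →ₗ[MvPolynomial V K] (ι → MvPolynomial V K))
    (hφ : ∀ a, ∀ x ∈ grs K V d' a, φ x ∈ grs K V d a) {a : ℕ} {y : ι → MvPolynomial V K}
    (hy : y ∈ grs K V d a) (hyr : y ∈ LinearMap.range φ) : ∃ x ∈ grs K V d' a, φ x = y := by
  obtain ⟨x, rfl⟩ := hyr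
  refine ⟨cmp d' a x, cmp_mem _ _ _, ?_⟩
  rw [← cmp_hom φ hφ, cmp_of_mem hy, if_pos rfl]

end

end Pool.Agent.Helper82.Gap
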