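import Mathlib
import Pool.Agent.Helper82.GapGr
import Pool.Agent.Helper82.GapDefs

set_option autoImplicit false
set_option linter.unusedSectionVars false
set_option linter.unusedVariables false

namespace Pool.Agent.Helper82.Gap

open Finset MvPolynomial Pool.Agent.Helper82.GapPowers

section one
variable {K : Type*} [Field K] {m : ℕ} {J : Ideal (MvPolynomial (Fin m) K)}

lemma res_hom (F : GradedFreeResolution J) (j : ℕ) :
    ∀ a, ∀ x ∈ grs K (Fin m) (F.deg (j + 1)) a, F.d j x ∈ grs K (Fin m) (F.deg j) a :=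
  hom_of_basis (F.d j) (fun k l => F.d_homogeneous j k l)

lemma KE_range (F : GradedFreeResolution J) {ρ : ℕ} (h : ∀ i k, F.deg i k ≤ ρ + i) (i : ℕ) :
    ∀ j a, ρ + j + 1 ≤ a → KE K (V := Fin m) (pc (LinearMap.range (F.d j)) (F.deg j)) i a := by
  induction i with
  | zero =>
    intro j a ha
    refine KE.down_zero (g' := grs K (Fin m) (F.deg (j + 1))) (F.d j) ?_ (grs_gf _) ?_ ?_
    · intro b x hx
      exact ⟨⟨x, rfl⟩, res_hom F j b x hx⟩
    · rintro b y ⟨h1, h2⟩
      exact exists_lift (F.d j) (res_hom F j) h2 h1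
    · exact KE_grs _ (fun k => (h (j + 1) k).trans (by omega))
  | succ i ih =>
    intro j a ha
    refine KE.down_succ (g' := grs K (Fin m) (F.deg (j + 1))) (F.d j) ?_ (grs_gf _) ?_ ?_ ?_
    · intro b x hx
      exact ⟨⟨x, rfl⟩, res_hom F j b x hx⟩
    · rintro b y ⟨h1, h2⟩
      exact exists_lift (F.d j) (res_hom F j) h2 h1
    · exact KE_grs _ (fun k => (h (j + 1) k).trans (by omega))
    · have e : (fun b => {x | x ∈ grs K (Fin m) (F.deg (j + 1)) b ∧ F.d j x = 0}) =
          pc (LinearMap.range (F.d (j + 1))) (F.deg (j + 1)) := by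
        funext b
        ext x
        unfold pc
        rw [Set.mem_ofPred_eq, Set.mem_ofPred_eq, ← F.exact_succ, LinearMap.mem_ker, and_comm]
      rw [e]
      exact ih (j + 1) (a + 1) (by omega)

/-- a bounded resolution forces Koszul exactness of the ideal -/
theorem KE_of_res (F : GradedFreeResolution J) {ρ : ℕ} (h : ∀ i k, F.deg i k ≤ ρ + i) (i a : ℕ)
    (ha : ρ ≤ a) : KE K (V := Fin m) (fun b => {p | p ∈ J ∧ p.IsHomogeneous b}) i a := by
  have hφ0 : ∀ b, ∀ x ∈ grs K (Fin m) (F.deg 0) b, F.aug x ∈ J ∧ (F.aug x).IsHomogeneous b := by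
    intro b x hx
    refine ⟨F.range_aug.le ⟨x, rfl⟩, ?_⟩
    have h1 := hom_of_basis (d := fun _ : Fin 1 => 0) (LinearMap.pi (fun _ : Fin 1 => F.aug)) (d' := F.deg 0)
      (fun k l => Or.inl ⟨Nat.zero_le _, F.aug_homogeneous k⟩) b x hx 0
    rcases h1 with ⟨_, h2⟩ | h2
    · exact h2
    · have h3 : F.aug x = 0 := h2
      rw [h3]; exact isHomogeneous_zero _ _ _
  have hsurj : ∀ b, ∀ y ∈ {p | p ∈ J ∧ p.IsHomogeneous b}, ∃ x ∈ grs K (Fin m) (F.deg 0) b,
      F.aug x = y := by
    rintro b y ⟨h1, h2⟩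
    obtain ⟨x0, rfl⟩ := F.range_aug.ge h1
    have h3 := exists_lift (d' := F.deg 0) (d := fun _ : Fin 1 => 0)
      (LinearMap.pi (fun _ : Fin 1 => F.aug))
      (hom_of_basis (d := fun _ : Fin 1 => 0) (LinearMap.pi (fun _ : Fin 1 => F.aug)) (d' := F.deg 0)
      (fun k l => Or.inl ⟨Nat.zero_le _, F.aug_homogeneous k⟩)) (a := b)
      (y := fun _ => F.aug x0) (fun k => Or.inl ⟨Nat.zero_le _, h2⟩) ⟨x0, rfl⟩
    obtain ⟨x, hx, hx2⟩ := h3
    exact ⟨x, hx, congrFun hx2 0⟩
  rcases i with _ | i
  · exact KE.down_zero (g' := grs K (Fin m) (F.deg 0)) F.aug hφ0 (grs_gf _) hsurj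
      (KE_grs _ (fun k => (h 0 k).trans (by omega)))
  · refine KE.down_succ (g' := grs K (Fin m) (F.deg 0)) F.aug hφ0 (grs_gf _) hsurj
      (KE_grs _ (fun k => (h 0 k).trans (by omega))) ?_
    have e : (fun b => {x | x ∈ grs K (Fin m) (F.deg 0) b ∧ F.aug x = 0}) =
          pc (LinearMap.range (F.d 0)) (F.deg 0) := by
      funext b
      ext x
      unfold pc
      rw [Set.mem_ofPred_eq, Set.mem_ofPred_eq, ← F.exact_zero, LinearMap.mem_ker, and_comm]
    rw [e]
    exact KE_range F h i 0 (a + 1) (by omega)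

end one

section two
variable {K : Type*} [Field K] {V : Type*} [LinearOrder V] [Fintype V]

/-- a homogeneous piece of a submodule has a finite basis -/
lemma exists_basis_pc {ι : Type*} [Fintype ι] (N : Submodule (MvPolynomial V K) (ι → MvPolynomial V K))
    (d : ι → ℕ) (a : ℕ) : ∃ (r : ℕ) (gen : Fin r → ι → MvPolynomial V K),
      (∀ j, gen j ∈ pc N d a) ∧
      (∀ f ∈ pc N d a, f ∈ Submodule.span (MvPolynomial V K) (Set.range gen)) ∧
      (∀ c : Fin r → K, ∑ j, c j • gen j = 0 → c = 0) := by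
  classical
  let P : Submodule K (ι → MvPolynomial V K) :=
    { carrier := pc N d a
      add_mem' := fun hx hy => (pc_gf N d).add hx hy
      zero_mem' := (pc_gf N d).zero a
      smul_mem' := by
        rintro c f ⟨h1, h2⟩
        refine ⟨?_, ?_⟩
        · have h3 : c • f = (C c : MvPolynomial V K) • f := by
            funext k
            rw [Pi.smul_apply, Pi.smul_apply, smul_eq_mul, smul_eq_C_mul]
          rw [h3]
          exact N.smul_mem _ h1
        · intro k
          rcases h2 k with ⟨h3, h4⟩ | h3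
          · left
            exact ⟨h3, (homogeneousSubmodule V K (a - d k)).smul_mem c h4⟩
          · right; rw [Pi.smul_apply, h3, smul_zero] }
  let D : Finset (V →₀ ℕ) := (range (a + 1)).biUnion (fun b => finsuppAntidiag univ b)
  have hD : ∀ c : V →₀ ℕ, c.degree ≤ a → c ∈ D := by
    intro c hc
    rw [mem_biUnion]
    refine ⟨c.degree, mem_range.2 (by omega), ?_⟩
    rw [mem_finsuppAntidiag]
    exact ⟨(Finsupp.degree_eq_sum c).symm, subset_univ _⟩
  let L : P →ₗ[K] (ι → D → K) :=
    { toFun := fun f k c => coeff c.1 (f.1 k)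
      map_add' := by
        intro f g
        funext k c
        show coeff c.1 ((f.1 + g.1) k) = _
        rw [Pi.add_apply, coeff_add]; rfl
      map_smul' := by
        intro r f
        funext k c
        show coeff c.1 ((r • f.1) k) = _
        rw [Pi.smul_apply, coeff_smul]; rfl }
  have hL : Function.Injective L := by
    intro f g hfg
    apply Subtype.ext
    funext k
    ext c
    by_cases hc : c.degree ≤ a
    · exact congrFun (congrFun hfg k) ⟨c, hD c hc⟩
    · have key : ∀ f ∈ pc N d a, coeff c (f k) = 0 := by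
        rintro f ⟨_, h2⟩
        rcases h2 k with ⟨h3, h4⟩ | h3
        · exact h4.coeff_eq_zero (by omega)
        · rw [h3, coeff_zero]
      rw [key _ f.2, key _ g.2]
  have : Module.Finite K P := Module.Finite.of_injective L hL
  let b := Module.finBasis K P
  refine ⟨Module.finrank K P, fun j => (b j).1, fun j => (b j).2, ?_, ?_⟩
  · intro f hf
    have h1 := b.sum_repr ⟨f, hf⟩
    have h2 : f = ∑ j, (C (b.repr ⟨f, hf⟩ j) : MvPolynomial V K) • (b j).1 := by
      have h3 : (∑ j, (b.repr ⟨f, hf⟩) j • b j : P).1 = f := congrArg Subtype.val h1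
      have h4 : (∑ j, (b.repr ⟨f, hf⟩) j • b j : P).1 =
          ∑ j, (C (b.repr ⟨f, hf⟩ j) : MvPolynomial V K) • (b j).1 := by
        simp only [Submodule.coe_sum, Submodule.coe_smul]
        apply sum_congr rfl
        intro j _
        funext k
        rw [Pi.smul_apply, Pi.smul_apply, smul_eq_mul, smul_eq_C_mul]
      exact h3.symm.trans h4
    rw [h2]
    apply Submodule.sum_mem
    intro j _
    exact Submodule.smul_mem _ _ (Submodule.subset_span ⟨j, rfl⟩)
  · intro c hc
    have h1 : ∑ j, c j • b j = 0 := by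
      apply Subtype.ext
      simp only [Submodule.coe_sum, Submodule.coe_smul]
      exact hc
    funext j
    exact (Fintype.linearIndependent_iff.1 b.linearIndependent) c h1 j

/-- a stage of the construction of a resolution -/
structure Stg (K : Type*) [Field K] (V : Type*) [LinearOrder V] [Fintype V] (lin : Prop) (ρ : ℕ) where
  n : ℕ
  d : Fin n → ℕ
  N : Submodule (MvPolynomial V K) (Fin n → MvPolynomial V K)
  gr : IsGr N d
  ke : ∀ i a, ρ ≤ a → KE K (V := V) (pc N d) i a
  low : lin → ∀ a, a < ρ → ∀ f ∈ pc N d a, f = 0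

theorem exists_gens {lin : Prop} {ρ : ℕ} (S : Stg K V lin ρ) :
    ∃ (n' : ℕ) (d' : Fin n' → ℕ) (gen : Fin n' → Fin S.n → MvPolynomial V K),
      (∀ k, gen k ∈ pc S.N S.d (d' k)) ∧ (∀ k, d' k ≤ ρ) ∧
      (∀ a, a ≤ ρ → ∀ f ∈ pc S.N S.d a, f ∈ Submodule.span (MvPolynomial V K) (Set.range gen)) ∧
      (lin → (∀ k, d' k = ρ) ∧ ∀ c : Fin n' → K, ∑ k, c k • gen k = 0 → c = 0) := by
  classical
  by_cases hl : lin
  · obtain ⟨r, gen, h1, h2, h3⟩ := exists_basis_pc S.N S.d ρ
    refine ⟨r, fun _ => ρ, gen, h1, fun _ => le_refl ρ, ?_, fun _ => ⟨fun _ => rfl, h3⟩⟩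
    intro a ha f hf
    rcases lt_or_eq_of_le ha with h4 | h4
    · rw [S.low hl a h4 f hf]; exact Submodule.zero_mem _
    · subst h4; exact h2 f hf
  · have H := fun a => exists_basis_pc S.N S.d a
    choose r gen h1 h2 h3 using H
    let I := Σ a : Fin (ρ + 1), Fin (r a)
    let e : Fin (Fintype.card I) ≃ I := (Fintype.equivFin I).symm
    refine ⟨Fintype.card I, fun k => (e k).1, fun k => gen (e k).1 (e k).2, ?_, ?_, ?_, ?_⟩
    · intro k; exact h1 _ _
    · intro k
      show ((e k).1 : ℕ) ≤ ρ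
      have := (e k).1.2
      omega
    · intro a ha f hf
      have h4 := h2 a f hf
      refine Submodule.span_mono ?_ h4
      rintro _ ⟨j, rfl⟩
      have key : ∀ y : I, y = ⟨⟨a, by omega⟩, j⟩ → gen y.1 y.2 = gen a j := by
        rintro _ rfl; rfl
      exact ⟨e.symm ⟨⟨a, by omega⟩, j⟩, key _ (e.apply_symm_apply _)⟩
    · intro h; exact absurd h hl

theorem Stg.next {lin : Prop} {ρ : ℕ} (S : Stg K V lin ρ) :
    ∃ (S' : Stg K V lin (ρ + 1))
      (φ : (Fin S'.n → MvPolynomial V K) →ₗ[MvPolynomial V K] (Fin S.n → MvPolynomial V K)),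
      LinearMap.range φ = S.N ∧ S'.N = LinearMap.ker φ ∧
      (∀ k, φ (Pi.single k 1) ∈ grs K V S.d (S'.d k)) ∧ (∀ k, S'.d k ≤ ρ) ∧
      (lin → ∀ k, S'.d k = ρ) := by
  classical
  obtain ⟨n', d', gen, h1, h2, h3, h4⟩ := exists_gens S
  let φ : (Fin n' → MvPolynomial V K) →ₗ[MvPolynomial V K] (Fin S.n → MvPolynomial V K) :=
    Fintype.linearCombination (MvPolynomial V K) gen
  have hφs : ∀ k, φ (Pi.single k 1) = gen k := by
    intro k
    show Fintype.linearCombination (MvPolynomial V K) gen (Pi.single k 1) = gen k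
    rw [Fintype.linearCombination_apply_single, one_smul]
  have hφ : ∀ a, ∀ x ∈ grs K V d' a, φ x ∈ grs K V S.d a := by
    apply hom_of_basis
    intro k
    rw [hφs]
    exact (h1 k).2
  have hpcs : ∀ a, ∀ f ∈ pc S.N S.d a, f ∈ Submodule.span (MvPolynomial V K) (Set.range gen) := by
    intro a
    induction a with
    | zero => exact h3 0 (Nat.zero_le _)
    | succ a ih =>
      intro f hf
      by_cases ha : a + 1 ≤ ρ
      · exact h3 _ ha f hf
      · obtain ⟨w, _, hw2, hw3⟩ := S.ke 0 a (by omega) (fun τ => if τ = ∅ then f else 0) (by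
          intro τ hτ
          by_cases h5 : τ = ∅
          · rw [h5, card_empty]
          · simp [h5] at hτ) (by
          intro τ
          by_cases h5 : τ = ∅
          · simp only [h5, if_true]; exact hf
          · simp only [h5, if_false]; exact (pc_gf _ _).zero _) (by
          intro τ
          unfold Gap.kd
          apply sum_eq_zero
          intro v _
          have : insert v τ ≠ ∅ := (insert_nonempty v τ).ne_empty
          simp only [this, if_false, smul_zero])
        have h5 := hw3 ∅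
        simp only [if_true] at h5
        rw [← h5]
        unfold kd
        apply Submodule.sum_mem
        intro v _
        exact Submodule.smul_mem _ _ (ih _ (hw2 _))
  have hrange : LinearMap.range φ = S.N := by
    have e1 : LinearMap.range φ = Submodule.span (MvPolynomial V K) (Set.range gen) :=
      Fintype.range_linearCombination _ _
    rw [e1]
    apply le_antisymm
    · rw [Submodule.span_le]
      rintro _ ⟨k, rfl⟩
      exact (h1 k).1
    · intro f hf
      obtain ⟨M, hM⟩ := exists_sum_cmp S.d f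
      rw [hM]
      apply Submodule.sum_mem
      intro a _
      exact hpcs a _ ⟨S.gr f hf a, cmp_mem _ _ _⟩
  have epc : ∀ b, pc (LinearMap.ker φ) d' b = {x | x ∈ grs K V d' b ∧ φ x = 0} := by
    intro b
    ext x
    unfold pc
    rw [Set.mem_ofPred_eq, Set.mem_ofPred_eq, LinearMap.mem_ker, and_comm]
  refine ⟨⟨n', d', LinearMap.ker φ, ker_isGr φ hφ, ?_, ?_⟩, φ, hrange, rfl, ?_, h2, fun hl => (h4 hl).1⟩
  · intro i a ha
    obtain ⟨a', rfl⟩ : ∃ a', a = a' + 1 := ⟨a - 1, by omega⟩
    have e2 : pc (LinearMap.ker φ) d' = (fun b => {x | x ∈ grs K V d' b ∧ φ x = 0}) := funext epc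
    rw [e2]
    refine KE.to_ker (g := pc S.N S.d) φ ?_ (grs_gf _) ?_ ?_ (S.ke (i + 1) a' (by omega))
    · intro b x hx
      exact ⟨by rw [← hrange]; exact ⟨x, rfl⟩, hφ b x hx⟩
    · rintro b y ⟨h5, h6⟩
      rw [← hrange] at h5
      exact exists_lift φ hφ h6 h5
    · exact KE_grs _ (fun k => (h2 k).trans (by omega))
  · intro hl a ha f hf
    obtain ⟨h5, h6⟩ := h4 hl
    rw [epc] at hf
    obtain ⟨h7, h8⟩ := hf
    have hdeg0 : ∀ k, f k = C (coeff 0 (f k)) := by
      intro k
      rcases h7 k with ⟨h9, h10⟩ | h9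
      · rw [h5 k] at h9 h10
        have h11 : a - ρ = 0 := by omega
        rw [h11] at h10
        by_cases h12 : f k = 0
        · rw [h12]; simp
        · have := h10.totalDegree h12
          exact totalDegree_eq_zero_iff_eq_C.1 this
      · rw [h9]; simp
    have h13 : ∑ k, coeff 0 (f k) • gen k = 0 := by
      have h14 : φ f = ∑ k, f k • gen k := Fintype.linearCombination_apply _ _ _
      rw [h14] at h8
      rw [← h8]
      apply sum_congr rfl
      intro k _
      conv_rhs => rw [hdeg0 k]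
      funext l
      rw [Pi.smul_apply, Pi.smul_apply, smul_eq_mul, smul_eq_C_mul]
    have h15 := h6 _ h13
    funext k
    rw [hdeg0 k, congrFun h15 k]
    simp
  · intro k
    show φ (Pi.single k 1) ∈ grs K V S.d (d' k)
    rw [hφs]; exact (h1 k).2

/-- the sequence of stages -/
noncomputable def stages {lin : Prop} {ρ : ℕ} (S : Stg K V lin ρ) : (i : ℕ) → Stg K V lin (ρ + i)
  | 0 => S
  | (i + 1) => (stages S i).next.choose

lemma exists_stages {lin : Prop} {ρ : ℕ} (S : Stg K V lin ρ) :
    ∃ (st : (i : ℕ) → Stg K V lin (ρ + i))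
      (φ : (i : ℕ) → ((Fin (st (i + 1)).n → MvPolynomial V K) →ₗ[MvPolynomial V K]
        (Fin (st i).n → MvPolynomial V K))), st 0 = S ∧
      ∀ i, (LinearMap.range (φ i) = (st i).N ∧ (st (i + 1)).N = LinearMap.ker (φ i) ∧
      (∀ k, φ i (Pi.single k 1) ∈ grs K V (st i).d ((st (i + 1)).d k)) ∧
      (∀ k, (st (i + 1)).d k ≤ ρ + i) ∧ (lin → ∀ k, (st (i + 1)).d k = ρ + i)) := by
  have hnext : ∀ i, ∃ φ : (Fin (stages S (i + 1)).n → MvPolynomial V K) →ₗ[MvPolynomial V K]
      (Fin (stages S i).n → MvPolynomial V K),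
      LinearMap.range φ = (stages S i).N ∧ (stages S (i + 1)).N = LinearMap.ker φ ∧
      (∀ k, φ (Pi.single k 1) ∈ grs K V (stages S i).d ((stages S (i + 1)).d k)) ∧
      (∀ k, (stages S (i + 1)).d k ≤ ρ + i) ∧ (lin → ∀ k, (stages S (i + 1)).d k = ρ + i) :=
    fun i => (stages S i).next.choose_spec
  choose φ hφ using hnext
  exact ⟨stages S, φ, rfl, hφ⟩

end two

section three
variable {K : Type*} [Field K] {m : ℕ} {J : Ideal (MvPolynomial (Fin m) K)}

theorem exists_res {lin : Prop} {ρ : ℕ}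
    (hgr : ∀ p ∈ J, ∀ a, homogeneousComponent a p ∈ J)
    (hke : ∀ i a, ρ ≤ a → KE K (V := Fin m) (fun b => {p | p ∈ J ∧ p.IsHomogeneous b}) i a)
    (hlow : lin → ∀ a, a < ρ → ∀ p ∈ J, p.IsHomogeneous a → p = 0) :
    ∃ F : GradedFreeResolution J, (∀ i k, F.deg i k ≤ ρ + i) ∧ (lin → ∀ i k, F.deg i k = ρ + i) := by
  classical
  let N0 : Submodule (MvPolynomial (Fin m) K) (Fin 1 → MvPolynomial (Fin m) K) :=
    Submodule.comap (LinearMap.proj 0) J
  have hN0 : ∀ f, f ∈ N0 ↔ f 0 ∈ J := fun f => Iff.rfl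
  let S0 : Stg K (Fin m) lin ρ :=
    { n := 1
      d := fun _ => 0
      N := N0
      gr := by
        intro f hf a
        rw [hN0] at hf ⊢
        unfold cmp
        rw [if_pos (Nat.zero_le _)]
        exact hgr _ hf _
      ke := by
        intro i a ha z hz1 hz2 hz3
        have hpr : ∀ (y : Finset (Fin m) → Fin 1 → MvPolynomial (Fin m) K) (τ : Finset (Fin m)),
            kd K (fun τ => y τ 0) τ = kd K y τ 0 := by
          intro y τ
          exact kd_map (K := K) (LinearMap.proj (R := MvPolynomial (Fin m) K)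
            (φ := fun _ : Fin 1 => MvPolynomial (Fin m) K) 0) y τ
        obtain ⟨w, hw1, hw2, hw3⟩ := hke i a ha (fun τ => z τ 0) (by
          intro τ hτ
          apply hz1
          intro h; apply hτ; show z τ 0 = 0; rw [h]; rfl) (by
          intro τ
          refine ⟨(hN0 _).1 (hz2 τ).1, ?_⟩
          rcases (hz2 τ).2 0 with ⟨_, h1⟩ | h1
          · exact h1
          · show (z τ 0).IsHomogeneous _
            rw [h1]; exact isHomogeneous_zero _ _ _) (by
          intro τ
          rw [hpr, hz3]; rfl)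
        refine ⟨fun τ _ => w τ, ?_, ?_, ?_⟩
        · intro τ hτ
          apply hw1
          intro h; apply hτ; funext k; exact h
        · intro τ
          refine ⟨(hN0 _).2 (hw2 τ).1, fun k => Or.inl ⟨Nat.zero_le _, (hw2 τ).2⟩⟩
        · intro τ
          funext k
          have hk : k = 0 := Subsingleton.elim _ _
          subst hk
          rw [← hpr]
          exact hw3 τ
      low := by
        rintro hl a ha f ⟨h1, h2⟩
        funext k
        have hk : k = 0 := Subsingleton.elim _ _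
        subst hk
        rcases h2 0 with ⟨_, h3⟩ | h3
        · exact hlow hl a ha _ ((hN0 _).1 h1) h3
        · exact h3 }
  obtain ⟨S1, φ0, h01, h02, h03, h04, h05⟩ : ∃ (S1 : Stg K (Fin m) lin (ρ + 1))
      (φ : (Fin S1.n → MvPolynomial (Fin m) K) →ₗ[MvPolynomial (Fin m) K]
        (Fin 1 → MvPolynomial (Fin m) K)),
      LinearMap.range φ = N0 ∧ S1.N = LinearMap.ker φ ∧
      (∀ k, φ (Pi.single k 1) ∈ grs K (Fin m) (fun _ : Fin 1 => 0) (S1.d k)) ∧ (∀ k, S1.d k ≤ ρ) ∧
      (lin → ∀ k, S1.d k = ρ) := S0.next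
  obtain ⟨st, φ, hst0, hφ⟩ := exists_stages S1
  subst hst0
  have hp : ∀ f : Fin 1 → MvPolynomial (Fin m) K, f 0 = 0 → f = 0 := by
    intro f hf
    funext k
    have hk : k = 0 := Subsingleton.elim _ _
    subst hk
    exact hf
  refine ⟨⟨fun i => (st i).n, fun i => (st i).d,
    (LinearMap.proj (R := MvPolynomial (Fin m) K) (φ := fun _ : Fin 1 => MvPolynomial (Fin m) K) 0).comp φ0,
    fun i => φ i, ?_, ?_, ?_, ?_, ?_⟩, ?_, ?_⟩
  · intro k
    rcases h03 k 0 with ⟨_, h1⟩ | h1
    · exact h1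
    · show (φ0 (Pi.single k 1) 0).IsHomogeneous _
      rw [h1]; exact isHomogeneous_zero _ _ _
  · intro i k l
    exact (hφ i).2.2.1 k l
  · rw [LinearMap.range_comp, h01]
    ext p
    constructor
    · rintro ⟨f, hf, rfl⟩
      exact (hN0 f).1 hf
    · intro hp'
      exact ⟨fun _ => p, (hN0 _).2 hp', rfl⟩
  · rw [(hφ 0).1, h02]
    ext x
    rw [LinearMap.mem_ker, LinearMap.mem_ker]
    constructor
    · intro h; exact hp _ h
    · intro h
      show φ0 x 0 = 0
      rw [h]; rfl
  · intro i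
    rw [(hφ (i + 1)).1, (hφ i).2.1]
  · intro i k
    rcases i with _ | i
    · exact h04 k
    · have := (hφ i).2.2.2.1 k
      show (st (i + 1)).d k ≤ ρ + (i + 1)
      omega
  · intro hl i k
    rcases i with _ | i
    · exact h05 hl k
    · have := (hφ i).2.2.2.2 hl k
      show (st (i + 1)).d k = ρ + (i + 1)
      omega

end three

end Pool.Agent.Helper82.Gap
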