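import Mathlib
import Pool.Agent.Helper82.GapRes

set_option autoImplicit false
set_option linter.unusedSectionVars false
set_option linter.unusedVariables false

namespace Pool.Agent.Helper82.Gap

open Finset MvPolynomial Pool.Agent.Helper82.GapPowers

section
variable {K : Type*} [Field K] {m : ℕ}

lemma MM_up {V : Type*} {G : SimpleGraph V} [LinearOrder V] {s : ℕ} : ∀ (c : V →₀ ℕ) (v : V), MM G s c →
    MM G s (c + Finsupp.single v 1) := by
  induction s with
  | zero => intro c v _; trivial
  | succ s ih =>
    rintro c v ⟨u, w, b, h1, h2, h3⟩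
    refine ⟨u, w, b + Finsupp.single v 1, h1, ?_, ih b v h3⟩
    rw [h2]; abel

lemma MM_up' {V : Type*} {G : SimpleGraph V} [LinearOrder V] {s : ℕ} (c e : V →₀ ℕ) (h : MM G s c) :
    MM G s (c + e) := by
  classical
  induction e using Finsupp.induction_linear with
  | zero => rwa [add_zero]
  | add f g hf hg =>
    -- go through single steps
    have key : ∀ (k : ℕ) (e c : V →₀ ℕ), e.degree = k → MM G s c → MM G s (c + e) := by
      intro k
      induction k with
      | zero =>
        intro e c he hc
        have : e = 0 := by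
          rwa [Finsupp.degree_eq_zero_iff] at he
        rw [this, add_zero]; exact hc
      | succ k ih =>
        intro e c he hc
        have hne : e ≠ 0 := by
          rintro rfl; rw [map_zero] at he; omega
        obtain ⟨v, hv⟩ := Finsupp.ne_iff.1 hne
        have h4 : e = (e - Finsupp.single v 1) + Finsupp.single v 1 := by
          ext u
          rw [Finsupp.add_apply, Finsupp.tsub_apply, Finsupp.single_apply]
          by_cases h6 : v = u
          · subst h6
            rw [Finsupp.coe_zero, Pi.zero_apply] at hv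
            rw [if_pos rfl]; omega
          · rw [if_neg h6]; omega
        rw [h4, ← add_assoc]
        apply MM_up
        apply ih _ _ _ hc
        have h5 := congrArg Finsupp.degree h4
        rw [map_add, Finsupp.degree_single] at h5
        omega
    exact key _ _ _ rfl h
  | single v n =>
    induction n with
    | zero => rwa [Finsupp.single_zero, add_zero]
    | succ n ih =>
      rw [Finsupp.single_add, ← add_assoc]
      exact MM_up _ _ ih

lemma MM_deg {V : Type*} {G : SimpleGraph V} [LinearOrder V] {s : ℕ} : ∀ {c : V →₀ ℕ}, MM G s c → 2 * s ≤ c.degree := by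
  induction s with
  | zero => intro c _; omega
  | succ s ih =>
    rintro c ⟨u, w, b, h1, h2, h3⟩
    have := ih h3
    rw [h2, map_add, map_add, Finsupp.degree_single, Finsupp.degree_single]
    omega

/-- the monomial ideal of an up-closed predicate -/
def mI (K : Type*) [Field K] {m : ℕ} (G : SimpleGraph (Fin m)) (s : ℕ) : Ideal (MvPolynomial (Fin m) K) where
  carrier := {p | ∀ c, coeff c p ≠ 0 → MM G s c}
  add_mem' := by
    intro p q hp hq c hc
    by_cases h : coeff c p = 0
    · apply hq; intro h2; apply hc; rw [coeff_add, h, h2, add_zero]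
    · exact hp c h
  zero_mem' := fun c hc => absurd (coeff_zero c) hc
  smul_mem' := by
    intro r p hp c hc
    rw [smul_eq_mul, coeff_mul] at hc
    obtain ⟨⟨x, y⟩, hxy, hne⟩ := exists_ne_zero_of_sum_ne_zero hc
    rw [HasAntidiagonal.mem_antidiagonal] at hxy
    have h1 : coeff y p ≠ 0 := fun h => hne (by simp only [h, mul_zero])
    rw [← hxy, add_comm]
    exact MM_up' _ _ (hp y h1)

lemma mem_mI {G : SimpleGraph (Fin m)} {s : ℕ} {p : MvPolynomial (Fin m) K} :
    p ∈ mI K G s ↔ ∀ c, coeff c p ≠ 0 → MM G s c := Iff.rfl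

lemma pow_eq_mI (G : SimpleGraph (Fin m)) (s : ℕ) : edgeIdeal K G ^ s = mI K G s := by
  classical
  induction s with
  | zero =>
    rw [pow_zero, Ideal.one_eq_top]
    symm
    rw [Ideal.eq_top_iff_one, mem_mI]
    intro c _
    trivial
  | succ s ih =>
    rw [pow_succ, ih]
    apply le_antisymm
    · rw [Ideal.mul_le]
      intro p hp q hq
      unfold edgeIdeal at hq
      induction hq using Submodule.span_induction with
      | mem q hq =>
        obtain ⟨u, v, huv, rfl⟩ := hq
        rw [mem_mI]
        intro c hc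
        have h1 : (X u * X v : MvPolynomial (Fin m) K) =
            monomial (Finsupp.single u 1 + Finsupp.single v 1) 1 := by
          rw [X, X, monomial_mul, one_mul]
        rw [h1, coeff_mul_monomial'] at hc
        by_cases h2 : Finsupp.single u 1 + Finsupp.single v 1 ≤ c
        · rw [if_pos h2, mul_one] at hc
          refine ⟨u, v, c - (Finsupp.single u 1 + Finsupp.single v 1), huv, ?_, hp _ hc⟩
          rw [add_assoc, tsub_add_cancel_of_le h2]
        · rw [if_neg h2] at hc; exact absurd rfl hc
      | zero => rw [mul_zero]; exact Ideal.zero_mem _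
      | add x y _ _ hx hy => rw [mul_add]; exact Ideal.add_mem _ hx hy
      | smul a x _ hx =>
        rw [smul_eq_mul, mul_left_comm]
        exact Ideal.mul_mem_left _ _ hx
    · intro p hp
      rw [p.as_sum]
      apply Ideal.sum_mem
      intro c hc
      obtain ⟨u, v, b, huv, hb, hM⟩ := hp c (mem_support_iff.1 hc)
      have h1 : monomial c (coeff c p) = monomial b (coeff c p) * (X u * X v) := by
        rw [X, X, monomial_mul, monomial_mul, one_mul, mul_one, hb, add_assoc]
      rw [h1]
      apply Ideal.mul_mem_mul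
      · rw [mem_mI]
        intro c' hc'
        rw [coeff_monomial] at hc'
        by_cases h2 : b = c'
        · rw [← h2]; exact hM
        · rw [if_neg h2] at hc'; exact absurd rfl hc'
      · exact Ideal.subset_span ⟨u, v, huv, rfl⟩

lemma pieces_eq (G : SimpleGraph (Fin m)) (s : ℕ) :
    (fun b => {p : MvPolynomial (Fin m) K | p ∈ edgeIdeal K G ^ s ∧ p.IsHomogeneous b}) =
      mono K (MM G s) := by
  funext b
  ext p
  rw [Set.mem_ofPred_eq, pow_eq_mI, mem_mI]
  exact and_comm

lemma MM_one_ind {G : SimpleGraph (Fin m)} {σ : Finset (Fin m)} : ¬ MM G 1 (ind σ) ↔ Ind G σ := by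
  constructor
  · intro h u hu v hv huv
    apply h
    have hne : v ≠ u := fun h' => G.loopless.irrefl u (h' ▸ huv)
    refine ⟨u, v, ind ((σ.erase u).erase v), huv, ?_, trivial⟩
    rw [ind_erase hu, ind_erase (mem_erase.2 ⟨hne, hv⟩)]
    abel
  · rintro h ⟨u, v, b, huv, hb, _⟩
    have h1 : u ∈ σ := by
      by_contra h'
      have h2 := ind_apply σ u
      rw [if_neg h', hb] at h2
      simp at h2
    have h3 : v ∈ σ := by
      by_contra h'
      have h2 := ind_apply σ v
      rw [if_neg h', hb] at h2
      simp at h2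
    exact h u h1 v h3 huv

theorem main_aux {G : SimpleGraph (Fin m)} (hG : Gap.GapFree G) {n : ℕ} (hn : RegLE (edgeIdeal K G) n)
    (s : ℕ) {lin : Prop} {ρ : ℕ} (h1 : 2 * s ≤ ρ) (h2 : s + (n - 1) ≤ ρ) (h3 : lin → ρ = 2 * s) :
    ∃ F : GradedFreeResolution (edgeIdeal K G ^ s), (∀ i k, F.deg i k ≤ ρ + i) ∧
      (lin → ∀ i k, F.deg i k = ρ + i) := by
  classical
  obtain ⟨F, hF⟩ := hn
  have hΔ : ∀ (X : Finset (Fin m)) (N : ℕ), (n - 1) + 1 ≤ N →
      Ex K {I : Finset (Fin m) | I ⊆ X ∧ Ind G I} N := by
    intro X N hN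
    have hke : ∀ i, KE K (V := Fin m) (mono K (MM G 1)) i N := by
      intro i
      rw [← pieces_eq]
      have h4 := KE_of_res F hF i N (by omega)
      simp only [pow_one]
      exact h4
    refine Ex.congr ?_ (Ex_of_KE (P := MM G 1) (fun c v => MM_up c v) (by omega) hke X)
    intro σ
    simp only [Set.mem_ofPred_eq, MM_one_ind]
  apply exists_res
  · intro p hp a
    rw [pow_eq_mI, mem_mI] at hp ⊢
    intro c hc
    rw [coeff_homogeneousComponent] at hc
    by_cases h4 : c.degree = a
    · rw [if_pos h4] at hc; exact hp c hc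
    · rw [if_neg h4] at hc; exact absurd rfl hc
  · intro i a ha
    rw [pieces_eq]
    apply KE_of_Ex (fun c v => MM_up c v)
    intro t W ht n' hn'
    rw [degree_eq_sum] at hn'
    exact ex_powers hG hΔ ht (by omega) (by omega)
  · intro hl a ha p hp hpa
    rw [pow_eq_mI, mem_mI] at hp
    ext c
    rw [coeff_zero]
    by_contra hc
    have h4 := MM_deg (hp c hc)
    have h5 : c.degree = a := by
      by_contra h6
      exact hc (hpa.coeff_eq_zero h6)
    have := h3 hl
    omega

/-- a power of the edge ideal of a graph with an edge has no resolution bounded below `2 s` -/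
lemma reg_lower {G : SimpleGraph (Fin m)} (hE : ∃ i j, G.Adj i j) {s r : ℕ}
    (h : RegLE (edgeIdeal K G ^ s) r) : 2 * s ≤ r := by
  classical
  by_contra hlt
  push Not at hlt
  obtain ⟨F, hF⟩ := h
  have h1 : F.aug = 0 := by
    apply LinearMap.pi_ext'
    intro k
    apply LinearMap.ext_ring
    show F.aug (Pi.single k 1) = 0
    have h2' : F.aug (Pi.single k 1) ∈ edgeIdeal K G ^ s := F.range_aug.le ⟨_, rfl⟩
    have h2 := mem_mI.1 ((pow_eq_mI G s).le h2')
    ext c
    rw [coeff_zero]
    by_contra hc
    have h4 := MM_deg (h2 c hc)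
    have h5 : c.degree = F.deg 0 k := by
      by_contra h6
      exact hc ((F.aug_homogeneous k).coeff_eq_zero h6)
    have h6 := hF 0 k
    omega
  obtain ⟨i, j, hij⟩ := hE
  have h0 : (X i * X j : MvPolynomial (Fin m) K) ∈ edgeIdeal K G :=
    Ideal.subset_span ⟨i, j, hij, rfl⟩
  have h2 : (X i * X j : MvPolynomial (Fin m) K) ^ s ∈ edgeIdeal K G ^ s :=
    Ideal.pow_mem_pow h0 s
  obtain ⟨x, hx⟩ := F.range_aug.ge h2
  rw [h1, LinearMap.zero_apply] at hx
  have h3 : (X i * X j : MvPolynomial (Fin m) K) ≠ 0 := mul_ne_zero (X_ne_zero i) (X_ne_zero j)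
  exact pow_ne_zero s h3 hx.symm

theorem main {G : SimpleGraph (Fin m)} (hG : GapPowers.GapFree G) (hE : ∃ i j, G.Adj i j) {n : ℕ}
    (hn : HasReg (edgeIdeal K G) n) :
    (∀ s, n ≤ s + 1 → LinearResolution (edgeIdeal K G ^ s) (2 * s) ∧
      HasReg (edgeIdeal K G ^ s) (2 * s)) ∧
    ∀ s, RegLE (edgeIdeal K G ^ s) (max (2 * s) (s + n - 1)) := by
  have hG' : Gap.GapFree G := hG
  refine ⟨fun s hs => ?_, fun s => ?_⟩
  · obtain ⟨F, hF1, hF2⟩ := main_aux hG' hn.1 s (lin := True) (ρ := 2 * s) le_rfl (by omega)
      (fun _ => rfl)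
    exact ⟨⟨F, hF2 trivial⟩, ⟨F, hF1⟩, fun r hr => reg_lower hE hr⟩
  · obtain ⟨F, hF1, _⟩ := main_aux hG' hn.1 s (lin := False) (ρ := max (2 * s) (s + n - 1))
      (le_max_left _ _) (by
        rcases n with _ | n
        · have := le_max_left (2 * s) (s + 0 - 1); omega
        · have := le_max_right (2 * s) (s + (n + 1) - 1); omega) (fun h => h.elim)
    exact ⟨F, hF1⟩

end

end Pool.Agent.Helper82.Gap
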