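import Mathlib

set_option autoImplicit false

open Set Topology

namespace Pool.Agent.Helper82.NC

variable {E : Type*} [NormedAddCommGroup E] [InnerProductSpace ℝ E]

/-- A set `C` is nearly convex if there is a convex set `D` with `D ⊆ C ⊆ cl D`. -/
def NearlyConvex (C : Set E) : Prop :=
  ∃ D : Set E, Convex ℝ D ∧ D ⊆ C ∧ C ⊆ closure D

/-- `f` is a proper lower semicontinuous convex function with values in `(-∞, +∞]`: it never takes
the value `-∞`, it is not identically `+∞`, it is lower semicontinuous, and its epigraph is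
convex. -/
structure IsProperLscConvex (f : E → EReal) : Prop where
  ne_bot : ∀ x, f x ≠ ⊥
  exists_ne_top : ∃ x, f x ≠ ⊤
  lsc : LowerSemicontinuous f
  convex_epigraph : Convex ℝ {p : E × ℝ | f p.1 ≤ (p.2 : EReal)}

/-- The subdifferential of `f`: `u ∈ ∂f(x)` iff `f(y) ≥ f(x) + ⟪u, y - x⟫` for all `y`. -/
def subdifferential (f : E → EReal) (x : E) : Set E :=
  {u | ∀ y, f x + ((inner ℝ u (y - x) : ℝ) : EReal) ≤ f y}

/-- The domain of a set-valued map: the points with nonempty image. -/
def dom (A : E → Set E) : Set E := {x | (A x).Nonempty}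

/-- The range of a set-valued map: the union of its images. -/
def ran (A : E → Set E) : Set E := {u | ∃ x, u ∈ A x}

/-- A set-valued map is monotone if `⟪u - v, x - y⟫ ≥ 0` whenever `u ∈ A x` and `v ∈ A y`. -/
def IsMonotone (A : E → Set E) : Prop :=
  ∀ x y, ∀ u ∈ A x, ∀ v ∈ A y, 0 ≤ (inner ℝ (u - v) (x - y) : ℝ)

/-- A set-valued map is maximally monotone if it is monotone and its graph is not properly
contained in the graph of another monotone map. -/
def IsMaximallyMonotone (A : E → Set E) : Prop :=
  IsMonotone A ∧ ∀ B : E → Set E, IsMonotone B → (∀ x, A x ⊆ B x) → B = A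

/-- `C` is an `F_σ` set: a countable union of closed sets. -/
def IsFsigma (C : Set E) : Prop := ∃ F : ℕ → Set E, (∀ j, IsClosed (F j)) ∧ C = ⋃ j, F j

end Pool.Agent.Helper82.NC
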