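import Pool.Agent.Helper82.NCDefs

set_option autoImplicit false
set_option linter.unusedSectionVars false

open Set Topology

namespace Pool.Agent.Helper82.NC

variable {E : Type*} [NormedAddCommGroup E] [InnerProductSpace ℝ E]

section construction

variable (K C : Set E) (j : E → ℕ) (w : E → E)

open scoped Classical in
/-- The slopes used in the construction. -/
noncomputable def slope (c : E) (m : ℕ) : ℝ :=
  if c ∈ C then ((min (j c) (m + 1) : ℕ) : ℝ) else ((m + 1 : ℕ) : ℝ)

/-- The affine functions used in the construction. -/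
noncomputable def aff (i : Option ((frontier K) × ℕ)) (x : E) : ℝ :=
  match i with
  | none => -1
  | some (c, m) => ‖(c : E)‖ ^ 2 / 2 + inner ℝ (c : E) (x - c) - 1 / ((m : ℝ) + 1)
      - slope C j c m * inner ℝ (w c) (c - x)

open scoped Classical in
/-- The function of the construction: supremum of the affine functions plus the indicator of
`K`. -/
noncomputable def bigF (x : E) : EReal :=
  (⨆ i : Option ((frontier K) × ℕ), ((aff K C j w i x : ℝ) : EReal)) ⊔ (if x ∈ K then ⊥ else ⊤)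

variable {K C j w}

theorem slope_nonneg (c : E) (m : ℕ) : 0 ≤ slope C j c m := by
  unfold slope; split_ifs <;> positivity

theorem continuous_aff (i : Option ((frontier K) × ℕ)) : Continuous (aff K C j w i) := by
  rcases i with _ | ⟨c, m⟩
  · exact continuous_const
  · unfold aff
    fun_prop

theorem bigF_le_iff (x : E) (t : ℝ) :
    bigF K C j w x ≤ (t : EReal) ↔ x ∈ K ∧ ∀ i, aff K C j w i x ≤ t := by
  unfold bigF
  rw [sup_le_iff, iSup_le_iff]
  constructor
  · rintro ⟨h1, h2⟩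
    refine ⟨?_, fun i => EReal.coe_le_coe_iff.mp (h1 i)⟩
    by_contra hx
    rw [if_neg hx] at h2
    exact absurd h2 (by simp)
  · rintro ⟨h1, h2⟩
    refine ⟨fun i => EReal.coe_le_coe_iff.mpr (h2 i), ?_⟩
    rw [if_pos h1]; exact bot_le

theorem aff_le_bigF (x : E) (i : Option ((frontier K) × ℕ)) :
    ((aff K C j w i x : ℝ) : EReal) ≤ bigF K C j w x := by
  unfold bigF
  exact le_sup_of_le_left (le_iSup (fun i => ((aff K C j w i x : ℝ) : EReal)) i)

theorem bigF_top {x : E} (hx : x ∉ K) : bigF K C j w x = ⊤ := by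
  unfold bigF
  rw [if_neg hx]
  simp

theorem le_bigF (x : E) (t : ℝ) (h : x ∈ K → ∀ ε : ℝ, 0 < ε → ∃ i, t - ε ≤ aff K C j w i x) :
    (t : EReal) ≤ bigF K C j w x := by
  by_cases hx : x ∈ K
  · refine EReal.le_of_forall_lt_iff_le.mp ?_
    intro z hz
    by_contra hcon
    push Not at hcon
    have hz' : z < t := EReal.coe_lt_coe_iff.mp hcon
    obtain ⟨i, hi⟩ := h hx ((t - z) / 2) (by linarith)
    have h2 : ((aff K C j w i x : ℝ) : EReal) < (z : EReal) :=
      lt_of_le_of_lt (aff_le_bigF x i) hz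
    have h3 : aff K C j w i x < z := EReal.coe_lt_coe_iff.mp h2
    linarith
  · rw [bigF_top hx]; exact le_top

theorem bigF_ne_bot (x : E) : bigF K C j w x ≠ ⊥ := by
  intro h
  have h1 := aff_le_bigF (K := K) (C := C) (j := j) (w := w) x none
  rw [h, le_bot_iff] at h1
  exact EReal.coe_ne_bot _ h1

theorem lsc_bigF (hK : IsClosed K) : LowerSemicontinuous (bigF K C j w) := by
  rw [lowerSemicontinuous_iff_isClosed_preimage]
  intro t
  have h : bigF K C j w ⁻¹' Iic t =
      (⋂ i : Option ((frontier K) × ℕ), {x | ((aff K C j w i x : ℝ) : EReal) ≤ t}) ∩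
        (if t = ⊤ then univ else K) := by
    ext x
    simp only [mem_preimage, mem_Iic, mem_inter_iff, mem_iInter]
    unfold bigF
    rw [sup_le_iff, iSup_le_iff]
    refine and_congr Iff.rfl ?_
    by_cases ht : t = ⊤
    · simp [ht]
    · rw [if_neg ht]
      by_cases hx : x ∈ K
      · simp [hx]
      · simp [hx, ht]
  rw [h]
  refine IsClosed.inter (isClosed_iInter fun i => ?_) ?_
  · exact isClosed_le (continuous_coe_real_ereal.comp (continuous_aff i)) continuous_const
  · split_ifs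
    · exact isClosed_univ
    · exact hK

theorem aff_combo (i : Option ((frontier K) × ℕ)) {x y : E} {a b : ℝ} (hab : a + b = 1) :
    aff K C j w i (a • x + b • y) = a * aff K C j w i x + b * aff K C j w i y := by
  rcases i with _ | ⟨c, m⟩
  · simp only [aff]; linear_combination hab
  · simp only [aff, inner_sub_right, inner_add_right, inner_smul_right]
    have hb : b = 1 - a := by linarith
    subst hb
    ring

theorem isProperLscConvex_bigF (hK : IsClosed K) (hKc : Convex ℝ K)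
    (hle : ∀ x ∈ K, ∀ i, aff K C j w i x ≤ ‖x‖ ^ 2 / 2) (hne : K.Nonempty) :
    IsProperLscConvex (bigF K C j w) := by
  refine ⟨bigF_ne_bot, ?_, lsc_bigF hK, ?_⟩
  · obtain ⟨x, hx⟩ := hne
    refine ⟨x, fun htop => ?_⟩
    have h1 := (bigF_le_iff (K := K) (C := C) (j := j) (w := w) x (‖x‖ ^ 2 / 2)).mpr
      ⟨hx, hle x hx⟩
    rw [htop, top_le_iff] at h1
    exact EReal.coe_ne_top _ h1
  · intro p hp q hq a b ha hb hab
    simp only [mem_ofPred_eq, bigF_le_iff] at hp hq ⊢
    refine ⟨hKc hp.1 hq.1 ha hb hab, fun i => ?_⟩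
    have h1 := hp.2 i
    have h2 := hq.2 i
    have : aff K C j w i (a • p + b • q).1 = a * aff K C j w i p.1 + b * aff K C j w i q.1 := by
      rw [Prod.fst_add, Prod.smul_fst, Prod.smul_fst]
      exact aff_combo i hab
    rw [this]
    simp only [Prod.snd_add, Prod.smul_snd, smul_eq_mul]
    nlinarith

theorem aff_some (c : frontier K) (m : ℕ) (x : E) :
    aff K C j w (some (c, m)) x = ‖x‖ ^ 2 / 2 - ‖x - c‖ ^ 2 / 2 - 1 / ((m : ℝ) + 1)
      - slope C j c m * inner ℝ (w c) (c - x) := by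
  simp only [aff]
  have h1 : ‖x - c‖ ^ 2 = ‖x‖ ^ 2 - 2 * inner ℝ x (c : E) + ‖(c : E)‖ ^ 2 := norm_sub_sq_real _ _
  have h2 : inner ℝ (c : E) (x - c) = inner ℝ x (c : E) - ‖(c : E)‖ ^ 2 := by
    rw [inner_sub_right, real_inner_self_eq_norm_sq, real_inner_comm]
  rw [h1, h2]
  ring

/-- (P1) all affine functions lie below `‖x‖²/2` on `K`. -/
theorem aff_le_half_sq (hw : ∀ c ∈ frontier K, ∀ x ∈ K, 0 ≤ (inner ℝ (w c) (c - x) : ℝ)) :
    ∀ x ∈ K, ∀ i, aff K C j w i x ≤ ‖x‖ ^ 2 / 2 := by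
  intro x hx i
  rcases i with _ | ⟨c, m⟩
  · simp only [aff]; nlinarith [sq_nonneg ‖x‖]
  · rw [aff_some]
    have h1 : 0 ≤ slope C j (c : E) m * inner ℝ (w c) (c - x) :=
      mul_nonneg (slope_nonneg _ _) (hw c c.2 x hx)
    have h2 : (0:ℝ) ≤ 1 / ((m : ℝ) + 1) := by positivity
    nlinarith [sq_nonneg ‖x - c‖]

theorem bigF_le_half_sq (hw : ∀ c ∈ frontier K, ∀ x ∈ K, 0 ≤ (inner ℝ (w c) (c - x) : ℝ))
    {x : E} (hx : x ∈ K) : bigF K C j w x ≤ ((‖x‖ ^ 2 / 2 : ℝ) : EReal) :=
  (bigF_le_iff x _).mpr ⟨hx, aff_le_half_sq hw x hx⟩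

/-- (P5) explicit subgradients at the good boundary points. -/
theorem mem_subdifferential_bigF (hK : IsClosed K)
    (hw : ∀ c ∈ frontier K, ∀ x ∈ K, 0 ≤ (inner ℝ (w c) (c - x) : ℝ))
    {x : E} (hxC : x ∈ C) (hxf : x ∈ frontier K) :
    x + (j x : ℝ) • w x ∈ subdifferential (bigF K C j w) x := by
  intro y
  have hxK : x ∈ K := hK.frontier_subset hxf
  have h1 : bigF K C j w x + ((inner ℝ (x + (j x : ℝ) • w x) (y - x) : ℝ) : EReal) ≤
      ((‖x‖ ^ 2 / 2 + inner ℝ (x + (j x : ℝ) • w x) (y - x) : ℝ) : EReal) := by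
    rw [EReal.coe_add]
    gcongr
    exact bigF_le_half_sq hw hxK
  refine h1.trans (le_bigF y _ ?_)
  intro hyK ε hε
  obtain ⟨m, hm⟩ := exists_nat_one_div_lt hε
  refine ⟨some (⟨x, hxf⟩, m), ?_⟩
  simp only [aff]
  have h2 : slope C j x m ≤ (j x : ℝ) := by
    unfold slope
    rw [if_pos hxC]
    exact_mod_cast min_le_left _ _
  have h3 : 0 ≤ (inner ℝ (w x) (x - y) : ℝ) := hw x hxf y hyK
  have h4 : (inner ℝ (w x) (y - x) : ℝ) = - inner ℝ (w x) (x - y) := by
    rw [← inner_neg_right, neg_sub]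
  have h5 : slope C j x m * inner ℝ (w x) (x - y) ≤ (j x : ℝ) * inner ℝ (w x) (x - y) :=
    mul_le_mul_of_nonneg_right h2 h3
  rw [inner_add_left, inner_smul_left, h4]
  simp only [RCLike.conj_to_real]
  nlinarith

/-- (P4) no subgradients at the bad boundary points. -/
theorem subdifferential_bigF_eq_empty {p : E} {F : ℕ → Set E} (hF : ∀ m, IsClosed (F m))
    (hKc : Convex ℝ K) (hpK : p ∈ K)
    (hw : ∀ c ∈ frontier K, ∀ x ∈ K, 0 ≤ (inner ℝ (w c) (c - x) : ℝ))
    (hwp : ∀ c ∈ frontier K, 1 ≤ (inner ℝ (w c) (c - p) : ℝ))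
    (hj : ∀ c ∈ C, ∀ m, j c ≤ m → c ∈ F m) (hFC : ∀ m, F m ⊆ C)
    {x : E} (hxK : x ∈ K) (hxf : x ∈ frontier K) (hxC : x ∉ C) :
    subdifferential (bigF K C j w) x = ∅ := by
  rw [eq_empty_iff_forall_notMem]
  intro u hu
  -- choose `M`
  obtain ⟨M, hM⟩ := exists_nat_gt (inner ℝ (x - u) (p - x) + ‖p - x‖ ^ 2 / 2 : ℝ)
  -- choose `δ`
  have hxF : x ∈ (F M)ᶜ := fun h => hxC (hFC M h)
  obtain ⟨δ, hδ, hball⟩ := Metric.isOpen_iff.mp (hF M).isOpen_compl x hxF
  -- choose `t`
  obtain ⟨t, ht0, ht1, htd, htM, htδ, htM1⟩ : ∃ t : ℝ, 0 < t ∧ t ≤ 1 ∧ t * ‖p - x‖ ≤ δ / 2 ∧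
      ((M : ℝ) + 1) * t ≤ 1 / ((M : ℝ) + 1) ∧ ((M : ℝ) + 1) * t ≤ δ ^ 2 / 8 ∧
      ((M : ℝ) + 1) * t ≤ 1 := by
    set A : ℝ := (M : ℝ) + 1 with hA
    have hApos : 0 < A := by positivity
    set N : ℝ := ‖p - x‖ + 1 with hN
    have hNpos : 0 < N := by positivity
    refine ⟨min 1 (min (δ / 2 / N) (min (1 / A / A) (min (δ ^ 2 / 8 / A) (1 / A)))), ?_, ?_, ?_,
      ?_, ?_, ?_⟩
    · positivity
    · exact min_le_left _ _
    · calc min 1 (min (δ / 2 / N) (min (1 / A / A) (min (δ ^ 2 / 8 / A) (1 / A)))) * ‖p - x‖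
          ≤ (δ / 2 / N) * N := by
            gcongr
            · exact (min_le_right _ _).trans (min_le_left _ _)
            · linarith
        _ = δ / 2 := by field_simp
    · calc A * min 1 (min (δ / 2 / N) (min (1 / A / A) (min (δ ^ 2 / 8 / A) (1 / A))))
          ≤ A * (1 / A / A) := by
            gcongr
            exact (min_le_right _ _).trans ((min_le_right _ _).trans (min_le_left _ _))
        _ = 1 / A := by field_simp
    · calc A * min 1 (min (δ / 2 / N) (min (1 / A / A) (min (δ ^ 2 / 8 / A) (1 / A))))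
          ≤ A * (δ ^ 2 / 8 / A) := by
            gcongr
            exact (min_le_right _ _).trans ((min_le_right _ _).trans
              ((min_le_right _ _).trans (min_le_left _ _)))
        _ = δ ^ 2 / 8 := by field_simp
    · calc A * min 1 (min (δ / 2 / N) (min (1 / A / A) (min (δ ^ 2 / 8 / A) (1 / A))))
          ≤ A * (1 / A) := by
            gcongr
            exact (min_le_right _ _).trans ((min_le_right _ _).trans
              ((min_le_right _ _).trans (min_le_right _ _)))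
        _ = 1 := by field_simp
  -- the nearby point
  set y : E := x + t • (p - x) with hy
  have hyK : y ∈ K := by
    have : y = (1 - t) • x + t • p := by rw [hy, smul_sub, sub_smul, one_smul]; abel
    rw [this]
    exact hKc hxK hpK (by linarith) ht0.le (by ring)
  have hyx : ‖y - x‖ = t * ‖p - x‖ := by
    rw [hy, add_sub_cancel_left, norm_smul, Real.norm_of_nonneg ht0.le]
  have hupper : ∀ i, aff K C j w i y ≤ ‖y‖ ^ 2 / 2 - ((M : ℝ) + 1) * t := by
    intro i
    rcases i with _ | ⟨c, m⟩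
    · simp only [aff]; nlinarith [sq_nonneg ‖y‖]
    · rw [aff_some]
      have hin : t ≤ (inner ℝ (w c) (c - y) : ℝ) := by
        have e : (c : E) - y = (1 - t) • ((c : E) - x) + t • ((c : E) - p) := by
          rw [hy]; module
        rw [e, inner_add_right, inner_smul_right, inner_smul_right]
        have h1 := hw c c.2 x hxK
        have h2 := hwp c c.2
        nlinarith [mul_nonneg (sub_nonneg.mpr ht1) h1]
      have hs0 : 0 ≤ slope C j (c : E) m := slope_nonneg _ _
      have hm0 : (0:ℝ) ≤ 1 / ((m : ℝ) + 1) := by positivity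
      by_cases hcx : ‖(c : E) - x‖ < δ
      · by_cases hm : M ≤ m
        · -- the slope is large
          have hs : (M : ℝ) + 1 ≤ slope C j (c : E) m := by
            unfold slope
            split_ifs with hcC
            · have hj1 : M < j c := by
                by_contra hcon
                push Not at hcon
                have h3 := hj c hcC M hcon
                have h4 : (c : E) ∈ (F M)ᶜ := hball (by rw [mem_ball_iff_norm]; exact hcx)
                exact h4 h3
              have : M + 1 ≤ min (j (c : E)) (m + 1) := by omega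
              exact_mod_cast this
            · have : M + 1 ≤ m + 1 := by omega
              exact_mod_cast this
          have h5 : ((M : ℝ) + 1) * t ≤ slope C j (c : E) m * inner ℝ (w c) (c - y) :=
            mul_le_mul hs hin ht0.le hs0
          nlinarith [sq_nonneg ‖y - c‖]
        · -- `1/(m+1)` is large
          push Not at hm
          have h6 : 1 / ((M : ℝ) + 1) ≤ 1 / ((m : ℝ) + 1) := by
            gcongr
          have h7 : 0 ≤ slope C j (c : E) m * inner ℝ (w c) (c - y) :=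
            mul_nonneg hs0 (ht0.le.trans hin)
          nlinarith [sq_nonneg ‖y - c‖]
      · -- the distance is large
        push Not at hcx
        have h8 : δ / 2 ≤ ‖y - c‖ := by
          have h9 : ‖(c : E) - x‖ ≤ ‖y - c‖ + ‖y - x‖ := by
            calc ‖(c : E) - x‖ = ‖(y - x) - (y - c)‖ := by congr 1; abel
              _ ≤ ‖y - x‖ + ‖y - c‖ := norm_sub_le _ _
              _ = ‖y - c‖ + ‖y - x‖ := add_comm _ _
          rw [hyx] at h9
          linarith
        have h10 : δ ^ 2 / 8 ≤ ‖y - c‖ ^ 2 / 2 := by nlinarith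
        have h7 : 0 ≤ slope C j (c : E) m * inner ℝ (w c) (c - y) :=
          mul_nonneg hs0 (ht0.le.trans hin)
        linarith
  have hFy : bigF K C j w y ≤ ((‖y‖ ^ 2 / 2 - ((M : ℝ) + 1) * t : ℝ) : EReal) :=
    (bigF_le_iff y _).mpr ⟨hyK, hupper⟩
  have hFx : ((‖x‖ ^ 2 / 2 : ℝ) : EReal) ≤ bigF K C j w x := by
    refine le_bigF x _ fun _ ε hε => ?_
    obtain ⟨m, hm⟩ := exists_nat_one_div_lt hε
    refine ⟨some (⟨x, hxf⟩, m), ?_⟩
    rw [aff_some]
    simp only [sub_self, norm_zero, inner_zero_right, mul_zero]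
    nlinarith
  have h11 := hu y
  have h12 : ((‖x‖ ^ 2 / 2 + inner ℝ u (y - x) : ℝ) : EReal) ≤
      ((‖y‖ ^ 2 / 2 - ((M : ℝ) + 1) * t : ℝ) : EReal) := by
    rw [EReal.coe_add]
    refine le_trans ?_ (h11.trans hFy)
    gcongr
  have h13 : ‖x‖ ^ 2 / 2 + inner ℝ u (y - x) ≤ ‖y‖ ^ 2 / 2 - ((M : ℝ) + 1) * t :=
    EReal.coe_le_coe_iff.mp h12
  have h14 : ‖y‖ ^ 2 = ‖x‖ ^ 2 + 2 * (t * inner ℝ x (p - x)) + t ^ 2 * ‖p - x‖ ^ 2 := by
    rw [hy, norm_add_sq_real, inner_smul_right, norm_smul, Real.norm_of_nonneg ht0.le]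
    ring
  have h15 : (inner ℝ u (y - x) : ℝ) = t * inner ℝ u (p - x) := by
    rw [hy, add_sub_cancel_left, inner_smul_right]
  rw [inner_sub_left] at hM
  rw [h14, h15] at h13
  have h16 : t * (((M : ℝ) + 1)) ≤ t * (inner ℝ x (p - x) - inner ℝ u (p - x) + ‖p - x‖ ^ 2 / 2) := by
    nlinarith [mul_nonneg ht0.le (mul_nonneg (sub_nonneg.mpr ht1) (sq_nonneg ‖p - x‖))]
  have h17 := le_of_mul_le_mul_left h16 ht0
  linarith

end construction

/-- A subgradient exists at `x` if the epigraph is convex and has an interior point above `x`. -/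
theorem subdifferential_nonempty_of_interior [CompleteSpace E] {f : E → EReal}
    (hc : Convex ℝ {p : E × ℝ | f p.1 ≤ (p.2 : EReal)}) {x : E} (hbot : ∀ y, f y ≠ ⊥)
    (htop : f x ≠ ⊤) {t₀ : ℝ} (hint : (x, t₀) ∈ interior {p : E × ℝ | f p.1 ≤ (p.2 : EReal)}) :
    (subdifferential f x).Nonempty := by
  set S : Set (E × ℝ) := {p : E × ℝ | f p.1 ≤ (p.2 : EReal)} with hS
  obtain ⟨r, hr⟩ : ∃ r : ℝ, f x = (r : EReal) := ⟨(f x).toReal, (EReal.coe_toReal htop (hbot x)).symm⟩
  have hxr : (x, r) ∉ interior S := by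
    intro h
    have hcont : Filter.Tendsto (fun δ : ℝ => ((x, r - δ) : E × ℝ)) (𝓝 0) (𝓝 (x, r - 0)) :=
      (Continuous.tendsto (by fun_prop) 0)
    rw [sub_zero] at hcont
    have h1 := hcont.eventually (mem_interior_iff_mem_nhds.mp h)
    obtain ⟨ε, hε, hball⟩ := Metric.eventually_nhds_iff.mp h1
    have h2 := @hball (ε / 2) (by
      rw [Real.dist_eq, sub_zero, abs_of_pos (by linarith)]; linarith)
    simp only [hS, mem_ofPred_eq, hr, EReal.coe_le_coe_iff] at h2
    linarith
  obtain ⟨Λ, hΛ⟩ := geometric_hahn_banach_open_point hc.interior isOpen_interior hxr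
  have hΛle : ∀ q ∈ S, Λ q ≤ Λ (x, r) := by
    intro q hq
    have hq' : q ∈ closure (interior S) := by
      rw [hc.closure_interior_eq_closure_of_nonempty_interior ⟨_, hint⟩]
      exact subset_closure hq
    have hcl : IsClosed {q : E × ℝ | Λ q ≤ Λ (x, r)} := isClosed_le Λ.continuous continuous_const
    exact closure_minimal (fun a ha => (hΛ a ha).le) hcl hq'
  set s : ℝ := Λ (0, 1) with hs
  let Λ₁ : StrongDual ℝ E := Λ.comp (ContinuousLinearMap.inl ℝ E ℝ)
  have hdec : ∀ (y : E) (t : ℝ), Λ (y, t) = Λ₁ y + s * t := by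
    intro y t
    have : ((y, t) : E × ℝ) = (y, 0) + t • ((0, 1) : E × ℝ) := by simp
    rw [this, map_add, map_smul]
    simp [Λ₁, hs, mul_comm]
  have hsneg : s < 0 := by
    have h1 := hΛ _ hint
    rw [hdec, hdec] at h1
    have h2 : (x, t₀) ∈ S := interior_subset hint
    have h3 : r ≤ t₀ := by
      have : f x ≤ (t₀ : EReal) := h2
      rw [hr] at this
      exact EReal.coe_le_coe_iff.mp this
    by_contra hcon
    push Not at hcon
    nlinarith
  let u : E := (InnerProductSpace.toDual ℝ E).symm ((-s⁻¹) • Λ₁)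
  have hu : ∀ v, (inner ℝ u v : ℝ) = -s⁻¹ * Λ₁ v := by
    intro v
    have := InnerProductSpace.toDual_symm_apply (𝕜 := ℝ) (x := v) (y := (-s⁻¹) • Λ₁)
    simpa [u] using this
  refine ⟨u, fun y => ?_⟩
  rw [hr, hu, ← EReal.coe_add]
  by_cases hy : f y = ⊤
  · rw [hy]; exact le_top
  obtain ⟨t, ht⟩ : ∃ t : ℝ, f y = (t : EReal) := ⟨(f y).toReal, (EReal.coe_toReal hy (hbot y)).symm⟩
  have h1 : Λ (y, t) ≤ Λ (x, r) := hΛle (y, t) (by simp only [hS, mem_ofPred_eq, ht, le_refl])
  rw [hdec, hdec] at h1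
  rw [ht, EReal.coe_le_coe_iff, map_sub]
  have hs0 : s ≠ 0 := hsneg.ne
  have h2 : r - t ≤ s⁻¹ * (Λ₁ y - Λ₁ x) := by
    have h3 : s * (r - t) ≥ Λ₁ y - Λ₁ x := by linarith
    have h4 : s⁻¹ < 0 := inv_lt_zero.mpr hsneg
    calc r - t = s⁻¹ * (s * (r - t)) := by field_simp
      _ ≤ s⁻¹ * (Λ₁ y - Λ₁ x) := by nlinarith
  linarith

/-- A point where a proper function is `+∞` has no subgradient. -/
theorem subdifferential_eq_empty_of_top {f : E → EReal} (hf : IsProperLscConvex f) {x : E}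
    (hx : f x = ⊤) : subdifferential f x = ∅ := by
  rw [eq_empty_iff_forall_notMem]
  intro u hu
  obtain ⟨y, hy⟩ := hf.exists_ne_top
  have h := hu y
  rw [hx, EReal.top_add_coe, top_le_iff] at h
  exact hy h

/-- The full-dimensional case of the existence theorem. -/
theorem exists_of_interior_nonempty [FiniteDimensional ℝ E] {C D : Set E} (hD : Convex ℝ D)
    (hDC : D ⊆ C) (hCD : C ⊆ closure D) (hint : (interior D).Nonempty) (hC : IsFsigma C) :
    ∃ f : E → EReal, IsProperLscConvex f ∧ dom (subdifferential f) = C := by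
  haveI : CompleteSpace E := FiniteDimensional.complete ℝ E
  obtain ⟨F₀, hF₀, hCF₀⟩ := hC
  obtain ⟨p, hp⟩ := hint
  set K := closure D with hKdef
  have hK : IsClosed K := isClosed_closure
  have hKc : Convex ℝ K := hD.closure
  have hintK : interior K = interior D :=
    hD.interior_closure_eq_interior_of_nonempty_interior ⟨p, hp⟩
  have hpint : p ∈ interior K := by rw [hintK]; exact hp
  have hpK : p ∈ K := interior_subset hpint
  have hfr : ∀ x ∈ K, x ∉ interior K → x ∈ frontier K := by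
    intro x hx hxi
    rw [hK.frontier_eq]; exact ⟨hx, hxi⟩
  have hfr' : ∀ x ∈ frontier K, x ∈ K ∧ x ∉ interior K := by
    intro x hx
    rw [hK.frontier_eq] at hx; exact hx
  -- normals
  have hnorm : ∀ c ∈ frontier K, ∃ v : E, (∀ x ∈ K, 0 ≤ (inner ℝ v (c - x) : ℝ)) ∧
      1 ≤ (inner ℝ v (c - p) : ℝ) := by
    intro c hc
    obtain ⟨Λ, hΛ⟩ := geometric_hahn_banach_open_point hKc.interior isOpen_interior (hfr' c hc).2
    have hγ : 0 < Λ c - Λ p := sub_pos.mpr (hΛ p hpint)
    have hle : ∀ x ∈ K, Λ x ≤ Λ c := by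
      intro x hx
      have hx' : x ∈ closure (interior K) := by
        rw [hKc.closure_interior_eq_closure_of_nonempty_interior ⟨p, hpint⟩]
        exact subset_closure hx
      exact closure_minimal (fun a ha => (hΛ a ha).le)
        (isClosed_le Λ.continuous continuous_const) hx'
    let v : E := (InnerProductSpace.toDual ℝ E).symm ((Λ c - Λ p)⁻¹ • Λ)
    have hv : ∀ z, (inner ℝ v z : ℝ) = (Λ c - Λ p)⁻¹ * Λ z := by
      intro z
      have := InnerProductSpace.toDual_symm_apply (𝕜 := ℝ) (x := z) (y := (Λ c - Λ p)⁻¹ • Λ)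
      simpa [v] using this
    refine ⟨v, fun x hx => ?_, ?_⟩
    · rw [hv, map_sub]
      exact mul_nonneg (inv_nonneg.mpr hγ.le) (sub_nonneg.mpr (hle x hx))
    · rw [hv, map_sub, inv_mul_cancel₀ hγ.ne']
  choose! w hw0 hw1 using hnorm
  -- increasing closed sets
  let F : ℕ → Set E := fun m => ⋃ i ∈ Finset.range (m + 1), F₀ i
  have hFcl : ∀ m, IsClosed (F m) := fun m =>
    isClosed_biUnion_finset (fun i _ => hF₀ i)
  have hFC : ∀ m, F m ⊆ C := by
    intro m x hx
    simp only [F, mem_iUnion] at hx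
    obtain ⟨i, -, hi⟩ := hx
    rw [hCF₀]; exact mem_iUnion.mpr ⟨i, hi⟩
  have hFmono : ∀ m m', m ≤ m' → F m ⊆ F m' := by
    intro m m' hmm x hx
    simp only [F, mem_iUnion, Finset.mem_range] at hx ⊢
    obtain ⟨i, hi, hi'⟩ := hx
    exact ⟨i, by omega, hi'⟩
  have hFex : ∀ c ∈ C, ∃ m, c ∈ F m := by
    intro c hc
    rw [hCF₀] at hc
    obtain ⟨i, hi⟩ := mem_iUnion.mp hc
    refine ⟨i, ?_⟩
    simp only [F, mem_iUnion, Finset.mem_range]
    exact ⟨i, by omega, hi⟩
  choose! j hj using hFex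
  have hj' : ∀ c ∈ C, ∀ m, j c ≤ m → c ∈ F m := fun c hc m hm => hFmono _ _ hm (hj c hc)
  have hproper := isProperLscConvex_bigF (K := K) (C := C) (j := j) (w := w) hK hKc
    (aff_le_half_sq hw0) ⟨p, hpK⟩
  refine ⟨bigF K C j w, hproper, ?_⟩
  ext x
  constructor
  · intro hx
    by_contra hxC
    by_cases hxK : x ∈ K
    · have hxi : x ∉ interior K := fun h => hxC (hDC (interior_subset (hintK ▸ h)))
      have hemp := subdifferential_bigF_eq_empty hFcl hKc hpK hw0 hw1 hj' hFC hxK
        (hfr x hxK hxi) hxC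
      have hx' : (subdifferential (bigF K C j w) x).Nonempty := hx
      rw [hemp] at hx'
      exact not_nonempty_empty hx'
    · have hemp := subdifferential_eq_empty_of_top hproper (bigF_top hxK)
      have hx' : (subdifferential (bigF K C j w) x).Nonempty := hx
      rw [hemp] at hx'
      exact not_nonempty_empty hx'
  · intro hxC
    have hxK : x ∈ K := hCD hxC
    by_cases hxi : x ∈ interior K
    · have hfx : bigF K C j w x ≠ ⊤ := by
        intro h
        have h1 := bigF_le_half_sq (C := C) (j := j) hw0 hxK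
        rw [h, top_le_iff] at h1
        exact EReal.coe_ne_top _ h1
      refine subdifferential_nonempty_of_interior (t₀ := ‖x‖ ^ 2 / 2 + 1) hproper.convex_epigraph
        bigF_ne_bot hfx ?_
      have hopen : IsOpen {q : E × ℝ | q.1 ∈ interior K ∧ ‖q.1‖ ^ 2 / 2 < q.2} := by
        refine IsOpen.and (isOpen_interior.preimage continuous_fst) ?_
        exact isOpen_lt (by fun_prop) continuous_snd
      refine interior_maximal ?_ hopen ⟨hxi, by simp⟩
      rintro q ⟨hq1, hq2⟩
      have h1 := bigF_le_half_sq (C := C) (j := j) hw0 (interior_subset hq1)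
      exact h1.trans (EReal.coe_le_coe_iff.mpr hq2.le)
    · exact ⟨_, mem_subdifferential_bigF hK hw0 hxC (hfr x hxK hxi)⟩

end Pool.Agent.Helper82.NC
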