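import Pool.Agent.Helper82.NCFull

set_option autoImplicit false
set_option linter.unusedSectionVars false

open Set Topology

namespace Pool.Agent.Helper82.NC

variable {E : Type*} [NormedAddCommGroup E] [InnerProductSpace ℝ E]

open scoped Classical in
/-- Extension by `+∞` of a function defined on the affine subspace `x₀ + V`. -/
noncomputable def ext (V : Submodule ℝ E) (x₀ : E) (g : V → EReal) (x : E) : EReal :=
  if h : x - x₀ ∈ V then g ⟨x - x₀, h⟩ else ⊤

theorem ext_mem {V : Submodule ℝ E} {x₀ : E} {g : V → EReal} {x : E} (h : x - x₀ ∈ V) :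
    ext V x₀ g x = g ⟨x - x₀, h⟩ := by
  unfold ext; rw [dif_pos h]

theorem ext_notMem {V : Submodule ℝ E} {x₀ : E} {g : V → EReal} {x : E} (h : x - x₀ ∉ V) :
    ext V x₀ g x = ⊤ := by
  unfold ext; rw [dif_neg h]

theorem ext_add {V : Submodule ℝ E} {x₀ : E} {g : V → EReal} (v : V) :
    ext V x₀ g (x₀ + v) = g v := by
  have h : x₀ + (v : E) - x₀ ∈ V := by rw [add_sub_cancel_left]; exact v.2
  rw [ext_mem h]
  congr 1
  ext
  simp

theorem isProperLscConvex_ext [FiniteDimensional ℝ E] {V : Submodule ℝ E} {x₀ : E}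
    {g : V → EReal} (hg : IsProperLscConvex g) : IsProperLscConvex (ext V x₀ g) := by
  have hclemb : IsClosedEmbedding (fun v : V => x₀ + (v : E)) := by
    have h1 : IsClosedEmbedding (fun v : V => (v : E)) :=
      (Submodule.closed_of_finiteDimensional V).isClosedEmbedding_subtypeVal
    exact (Homeomorph.addLeft x₀).isClosedEmbedding.comp h1
  refine ⟨fun x => ?_, ?_, ?_, ?_⟩
  · by_cases h : x - x₀ ∈ V
    · rw [ext_mem h]; exact hg.ne_bot _
    · rw [ext_notMem h]; exact top_ne_bot
  · obtain ⟨v, hv⟩ := hg.exists_ne_top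
    exact ⟨x₀ + v, by rw [ext_add]; exact hv⟩
  · rw [lowerSemicontinuous_iff_isClosed_preimage]
    intro t
    by_cases ht : t = ⊤
    · subst ht; simp
    · have h : ext V x₀ g ⁻¹' Iic t = (fun v : V => x₀ + (v : E)) '' (g ⁻¹' Iic t) := by
        ext x
        simp only [mem_preimage, mem_Iic, mem_image]
        constructor
        · intro hx
          by_cases hV : x - x₀ ∈ V
          · refine ⟨⟨x - x₀, hV⟩, ?_, by simp⟩
            rwa [ext_mem hV] at hx
          · rw [ext_notMem hV, top_le_iff] at hx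
            exact absurd hx ht
        · rintro ⟨v, hv, rfl⟩
          rw [ext_add]; exact hv
      rw [h]
      exact hclemb.isClosedMap _ ((lowerSemicontinuous_iff_isClosed_preimage.mp hg.lsc) t)
  · intro q hq q' hq' a b ha hb hab
    simp only [mem_ofPred_eq] at hq hq' ⊢
    have hV : q.1 - x₀ ∈ V := by
      by_contra h
      rw [ext_notMem h, top_le_iff] at hq
      exact EReal.coe_ne_top _ hq
    have hV' : q'.1 - x₀ ∈ V := by
      by_contra h
      rw [ext_notMem h, top_le_iff] at hq'
      exact EReal.coe_ne_top _ hq'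
    rw [ext_mem hV] at hq
    rw [ext_mem hV'] at hq'
    have h1 := hg.convex_epigraph (x := (⟨q.1 - x₀, hV⟩, q.2)) hq
      (y := (⟨q'.1 - x₀, hV'⟩, q'.2)) hq' ha hb hab
    have e : (a • q + b • q').1 - x₀ = a • (q.1 - x₀) + b • (q'.1 - x₀) := by
      have hb' : b = 1 - a := by linarith
      rw [Prod.fst_add, Prod.smul_fst, Prod.smul_fst, hb']
      module
    have hV2 : (a • q + b • q').1 - x₀ ∈ V := by
      rw [e]; exact V.add_mem (V.smul_mem _ hV) (V.smul_mem _ hV')
    rw [ext_mem hV2]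
    have h2 : (⟨(a • q + b • q').1 - x₀, hV2⟩ : V) =
        (a • ((⟨q.1 - x₀, hV⟩, q.2) : V × ℝ) + b • ((⟨q'.1 - x₀, hV'⟩, q'.2) : V × ℝ)).1 := by
      ext
      simpa using e
    rw [h2]
    exact h1

theorem dom_subdifferential_ext [FiniteDimensional ℝ E] {V : Submodule ℝ E} {x₀ : E}
    {g : V → EReal} (hg : IsProperLscConvex g) :
    dom (subdifferential (ext V x₀ g)) =
      (fun v : V => x₀ + (v : E)) '' dom (subdifferential g) := by
  ext x
  simp only [mem_image]
  constructor
  · rintro ⟨u, hu⟩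
    have hV : x - x₀ ∈ V := by
      by_contra h
      have hemp := subdifferential_eq_empty_of_top (isProperLscConvex_ext (x₀ := x₀) hg)
        (ext_notMem h)
      have : u ∈ subdifferential (ext V x₀ g) x := hu
      rw [hemp] at this
      exact this
    refine ⟨⟨x - x₀, hV⟩, ⟨V.orthogonalProjectionOnto u, fun v' => ?_⟩, by simp⟩
    have h1 := hu (x₀ + v')
    rw [ext_mem hV, ext_add] at h1
    have e : (inner ℝ (V.orthogonalProjectionOnto u) (v' - ⟨x - x₀, hV⟩) : ℝ) =
        inner ℝ u (x₀ + v' - x) := by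
      rw [Submodule.inner_orthogonalProjectionOnto_eq_of_mem_right]
      congr 1
      simp only [Submodule.coe_sub]
      abel
    rw [e]
    exact h1
  · rintro ⟨v, ⟨u, hu⟩, rfl⟩
    refine ⟨(u : E), fun y => ?_⟩
    rw [ext_add]
    by_cases hV : y - x₀ ∈ V
    · rw [ext_mem hV]
      have h1 := hu ⟨y - x₀, hV⟩
      have e : (inner ℝ u (⟨y - x₀, hV⟩ - v) : ℝ) = inner ℝ (u : E) (y - (x₀ + v)) := by
        rw [Submodule.coe_inner]
        congr 1
        simp only [Submodule.coe_sub]
        abel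
      rw [← e]
      exact h1
    · rw [ext_notMem hV]; exact le_top

/-- Existence theorem: a nonempty nearly convex `F_σ` set is the domain of a subdifferential. -/
theorem exists_dom_eq [FiniteDimensional ℝ E] {C : Set E} (hne : C.Nonempty)
    (hC : NearlyConvex C) (hCF : IsFsigma C) :
    ∃ f : E → EReal, IsProperLscConvex f ∧ dom (subdifferential f) = C := by
  obtain ⟨D, hD, hDC, hCD⟩ := hC
  have hDne : D.Nonempty := by
    obtain ⟨c, hc⟩ := hne
    exact closure_nonempty_iff.mp ⟨c, hCD hc⟩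
  obtain ⟨x₀, hx₀⟩ := hDne
  set V : Submodule ℝ E := vectorSpan ℝ D with hV
  have hmemV : ∀ x ∈ D, x - x₀ ∈ V := fun x hx => vsub_mem_vectorSpan ℝ hx hx₀
  let ι : V → E := fun v => x₀ + (v : E)
  have hclemb : IsClosedEmbedding ι := by
    have h1 : IsClosedEmbedding (fun v : V => (v : E)) :=
      (Submodule.closed_of_finiteDimensional V).isClosedEmbedding_subtypeVal
    exact (Homeomorph.addLeft x₀).isClosedEmbedding.comp h1
  have hDimg : ι '' (ι ⁻¹' D) = D := by
    rw [image_preimage_eq_iff]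
    intro x hx
    exact ⟨⟨x - x₀, hmemV x hx⟩, by simp [ι]⟩
  have hCrange : C ⊆ range ι := by
    refine hCD.trans (closure_minimal ?_ hclemb.isClosed_range)
    rw [← hDimg]; exact image_subset_range _ _
  have hCimg : ι '' (ι ⁻¹' C) = C := image_preimage_eq_iff.mpr hCrange
  -- the hypotheses in `V`
  have h1 : Convex ℝ (ι ⁻¹' D) := by
    intro v hv v' hv' a b ha hb hab
    have := hD hv hv' ha hb hab
    simp only [mem_preimage, ι] at this ⊢
    convert this using 1
    have hb' : b = 1 - a := by linarith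
    subst hb'
    simp only [Submodule.coe_add, Submodule.coe_smul]
    module
  have h2 : ι ⁻¹' D ⊆ ι ⁻¹' C := preimage_mono hDC
  have h3 : ι ⁻¹' C ⊆ closure (ι ⁻¹' D) := by
    rw [hclemb.isInducing.closure_eq_preimage_closure_image, hDimg]
    exact preimage_mono hCD
  have h4 : (interior (ι ⁻¹' D)).Nonempty := by
    rw [h1.interior_nonempty_iff_affineSpan_eq_top]
    have h0 : (0 : V) ∈ ι ⁻¹' D := by simp [ι, hx₀]
    have hne0 : (ι ⁻¹' D).Nonempty := ⟨0, h0⟩
    rw [AffineSubspace.affineSpan_eq_top_iff_vectorSpan_eq_top_of_nonempty ℝ V V hne0,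
      vectorSpan_eq_span_vsub_set_right ℝ h0]
    apply Submodule.map_injective_of_injective V.injective_subtype
    rw [Submodule.map_span, Submodule.map_top, Submodule.range_subtype]
    refine Eq.trans ?_ ((vectorSpan_eq_span_vsub_set_right ℝ hx₀).symm.trans hV.symm)
    congr 1
    ext y
    simp only [mem_image, vsub_eq_sub, sub_zero, Submodule.subtype_apply]
    constructor
    · rintro ⟨v, ⟨v', hv', rfl⟩, rfl⟩
      exact ⟨x₀ + v', hv', by simp⟩
    · rintro ⟨z, hz, rfl⟩
      refine ⟨(⟨z - x₀, hmemV z hz⟩ : V), ⟨(⟨z - x₀, hmemV z hz⟩ : V), ?_, rfl⟩, rfl⟩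
      simp [ι, hz]
  have h5 : IsFsigma (ι ⁻¹' C) := by
    obtain ⟨F, hF, hCF'⟩ := hCF
    exact ⟨fun m => ι ⁻¹' F m, fun m => (hF m).preimage hclemb.continuous, by
      rw [hCF', preimage_iUnion]⟩
  obtain ⟨g, hg, hdom⟩ := exists_of_interior_nonempty h1 h2 h3 h4 h5
  refine ⟨ext V x₀ g, isProperLscConvex_ext hg, ?_⟩
  rw [dom_subdifferential_ext hg, hdom]
  exact hCimg

end Pool.Agent.Helper82.NC
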