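import Pool.Agent.Helper82.NCGen

set_option autoImplicit false
set_option linter.unusedSectionVars false

open Set Topology

namespace Pool.Agent.Helper82.NC

variable {E : Type*} [NormedAddCommGroup E] [InnerProductSpace ℝ E]

theorem coe_of_ne {f : E → EReal} {x : E} (hb : f x ≠ ⊥) (ht : f x ≠ ⊤) :
    ∃ r : ℝ, f x = (r : EReal) := ⟨(f x).toReal, (EReal.coe_toReal ht hb).symm⟩

theorem ne_top_of_mem {f : E → EReal} (hf : IsProperLscConvex f) {x u : E}
    (hu : u ∈ subdifferential f x) : f x ≠ ⊤ := by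
  intro h
  rw [subdifferential_eq_empty_of_top hf h] at hu
  exact hu

theorem isMonotone_subdifferential {f : E → EReal} (hf : IsProperLscConvex f) :
    IsMonotone (subdifferential f) := by
  intro x y u hu v hv
  obtain ⟨r, hr⟩ := coe_of_ne (hf.ne_bot x) (ne_top_of_mem hf hu)
  obtain ⟨s, hs⟩ := coe_of_ne (hf.ne_bot y) (ne_top_of_mem hf hv)
  have h1 := hu y
  have h2 := hv x
  rw [hr, hs, ← EReal.coe_add, EReal.coe_le_coe_iff] at h1 h2
  have e1 : (inner ℝ u (y - x) : ℝ) = - inner ℝ u (x - y) := by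
    rw [← inner_neg_right, neg_sub]
  rw [inner_sub_left]
  linarith

/-- Existence of proximal points. -/
theorem exists_prox [FiniteDimensional ℝ E] {f : E → EReal} (hf : IsProperLscConvex f)
    {x₀ u₀ : E} (hu₀ : u₀ ∈ subdifferential f x₀) (z : E) :
    ∃ p, z - p ∈ subdifferential f p := by
  obtain ⟨r₀, hr₀⟩ := coe_of_ne (hf.ne_bot x₀) (ne_top_of_mem hf hu₀)
  -- the function to be minimised
  set h : E → EReal := fun y => f y + ((‖y - z‖ ^ 2 / 2 : ℝ) : EReal) with hh
  set a : ℝ := r₀ + inner ℝ u₀ (z - x₀) with ha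
  set h₀ : ℝ := r₀ + ‖x₀ - z‖ ^ 2 / 2 with hh₀
  set R : ℝ := 2 * (‖u₀‖ + 1 + |h₀ - a|) + ‖x₀ - z‖ with hR
  have hRpos : 0 < R := by
    have := abs_nonneg (h₀ - a); have := norm_nonneg u₀; have := norm_nonneg (x₀ - z)
    rw [hR]; nlinarith
  have hhx₀ : h x₀ = (h₀ : EReal) := by
    simp only [hh, hr₀, hh₀, EReal.coe_add]
  have hlsc : LowerSemicontinuous h := by
    rw [lowerSemicontinuous_iff_isClosed_preimage]
    intro t
    have e : h ⁻¹' Iic t = (fun y : E => (y, t + ((-(‖y - z‖ ^ 2 / 2) : ℝ) : EReal))) ⁻¹'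
        {q : E × EReal | f q.1 ≤ q.2} := by
      ext y
      simp only [mem_preimage, mem_Iic, mem_ofPred_eq, hh]
      rw [EReal.coe_neg, ← sub_eq_add_neg]
      exact (EReal.le_sub_iff_add_le (Or.inl (EReal.coe_ne_bot _))
        (Or.inl (EReal.coe_ne_top _))).symm
    rw [e]
    refine hf.lsc.isClosed_epigraph.preimage ?_
    refine continuous_id.prodMk ?_
    have hc : Continuous (fun y : E => ((-(‖y - z‖ ^ 2 / 2) : ℝ) : EReal)) :=
      continuous_coe_real_ereal.comp (by fun_prop)
    rw [continuous_iff_continuousAt]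
    intro y
    have h2 : ContinuousAt (fun q : EReal × EReal => q.1 + q.2)
        (t, ((-(‖y - z‖ ^ 2 / 2) : ℝ) : EReal)) :=
      EReal.continuousAt_add (Or.inr (EReal.coe_ne_bot _)) (Or.inr (EReal.coe_ne_top _))
    exact ContinuousAt.comp (f := fun y : E => (t, ((-(‖y - z‖ ^ 2 / 2) : ℝ) : EReal))) h2
      (continuousAt_const.prodMk hc.continuousAt)
  -- minimiser on a ball
  obtain ⟨p, hpB, hpmin⟩ := LowerSemicontinuousOn.exists_isMinOn
    (s := Metric.closedBall z R) (f := h) ⟨z, Metric.mem_closedBall_self hRpos.le⟩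
    (isCompact_closedBall z R) (hlsc.lowerSemicontinuousOn _)
  have hx₀B : x₀ ∈ Metric.closedBall z R := by
    rw [mem_closedBall_iff_norm]
    have := abs_nonneg (h₀ - a); have := norm_nonneg u₀
    rw [hR]; nlinarith
  have hpx₀ : h p ≤ (h₀ : EReal) := by rw [← hhx₀]; exact hpmin hx₀B
  -- global minimiser
  have hglob : ∀ y, h p ≤ h y := by
    intro y
    by_cases hy : y ∈ Metric.closedBall z R
    · exact hpmin hy
    · rw [mem_closedBall_iff_norm, not_le] at hy
      refine hpx₀.trans ?_
      have h1 : ((r₀ + inner ℝ u₀ (y - x₀) : ℝ) : EReal) ≤ f y := by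
        have := hu₀ y
        rwa [hr₀, ← EReal.coe_add] at this
      have h2 : (((r₀ + inner ℝ u₀ (y - x₀)) + ‖y - z‖ ^ 2 / 2 : ℝ) : EReal) ≤ h y := by
        rw [EReal.coe_add]
        simp only [hh]
        gcongr
      refine le_trans (EReal.coe_le_coe_iff.mpr ?_) h2
      have h3 : (inner ℝ u₀ (y - x₀) : ℝ) = inner ℝ u₀ (y - z) + inner ℝ u₀ (z - x₀) := by
        rw [← inner_add_right]; congr 1; abel
      have h4 : - (‖u₀‖ * ‖y - z‖) ≤ (inner ℝ u₀ (y - z) : ℝ) := by
        have := abs_real_inner_le_norm u₀ (y - z)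
        exact (abs_le.mp this).1
      have h5 : h₀ - a ≤ |h₀ - a| := le_abs_self _
      have h6 : 0 ≤ |h₀ - a| := abs_nonneg _
      have h7 := norm_nonneg u₀
      have h8 := norm_nonneg (x₀ - z)
      set ρ := ‖y - z‖ with hρ
      have h9 : 2 * (‖u₀‖ + 1 + |h₀ - a|) ≤ ρ := by rw [hR] at hy; linarith
      have h10 : |h₀ - a| ≤ ρ * (ρ / 2 - ‖u₀‖) := by
        have h11 : 1 + |h₀ - a| ≤ ρ / 2 - ‖u₀‖ := by linarith
        have h12 : 1 ≤ ρ := by linarith
        nlinarith
      rw [h3]
      have : h₀ = a + (h₀ - a) := by ring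
      nlinarith
  -- optimality condition
  have hpt : f p ≠ ⊤ := by
    intro htop
    have : h p = ⊤ := by simp only [hh, htop]; exact EReal.top_add_coe _
    rw [this, top_le_iff] at hpx₀
    exact EReal.coe_ne_top _ hpx₀
  obtain ⟨r, hr⟩ := coe_of_ne (hf.ne_bot p) hpt
  refine ⟨p, fun y => ?_⟩
  by_cases hyt : f y = ⊤
  · rw [hyt]; exact le_top
  obtain ⟨s, hs⟩ := coe_of_ne (hf.ne_bot y) hyt
  rw [hr, hs, ← EReal.coe_add, EReal.coe_le_coe_iff]
  -- inequality for small t
  have key : ∀ t : ℝ, 0 < t → t ≤ 1 →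
      r + inner ℝ (z - p) (y - p) ≤ s + t * (‖y - p‖ ^ 2 / 2) := by
    intro t ht0 ht1
    have h1 : f (p + t • (y - p)) ≤ (((1 - t) * r + t * s : ℝ) : EReal) := by
      have h2 := hf.convex_epigraph (x := (p, r)) (by simp [hr]) (y := (y, s)) (by simp [hs])
        (a := 1 - t) (b := t) (by linarith) ht0.le (by ring)
      have h3 : (1 - t) • ((p, r) : E × ℝ) + t • ((y, s) : E × ℝ) =
          (p + t • (y - p), (1 - t) * r + t * s) := by
        ext
        · simp only [Prod.fst_add, Prod.smul_fst]; module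
        · simp
      rw [h3] at h2
      exact h2
    have h4 := hglob (p + t • (y - p))
    have h5 : h (p + t • (y - p)) ≤
        (((1 - t) * r + t * s + ‖p + t • (y - p) - z‖ ^ 2 / 2 : ℝ) : EReal) := by
      rw [EReal.coe_add]
      simp only [hh]
      gcongr
    have h6 : ((r + ‖p - z‖ ^ 2 / 2 : ℝ) : EReal) ≤
        (((1 - t) * r + t * s + ‖p + t • (y - p) - z‖ ^ 2 / 2 : ℝ) : EReal) := by
      refine le_trans (le_of_eq ?_) (h4.trans h5)
      simp only [hh, hr, EReal.coe_add]
    rw [EReal.coe_le_coe_iff] at h6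
    have h7 : ‖p + t • (y - p) - z‖ ^ 2 =
        ‖p - z‖ ^ 2 + 2 * (t * inner ℝ (p - z) (y - p)) + t ^ 2 * ‖y - p‖ ^ 2 := by
      have e : p + t • (y - p) - z = (p - z) + t • (y - p) := by abel
      rw [e, norm_add_sq_real, inner_smul_right, norm_smul, Real.norm_of_nonneg ht0.le]
      ring
    have h8 : (inner ℝ (z - p) (y - p) : ℝ) = - inner ℝ (p - z) (y - p) := by
      rw [← inner_neg_left, neg_sub]
    rw [h7] at h6
    rw [h8]
    have h9 : t * (r - inner ℝ (p - z) (y - p)) ≤ t * (s + t * (‖y - p‖ ^ 2 / 2)) := by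
      nlinarith
    have h10 := le_of_mul_le_mul_left h9 ht0
    linarith
  refine le_of_forall_pos_le_add fun ε hε => ?_
  set N := ‖y - p‖ ^ 2 / 2 with hN
  have hN0 : 0 ≤ N := by positivity
  have ht : 0 < min 1 (ε / (N + 1)) := by positivity
  have h1 := key _ ht (min_le_left _ _)
  have h2 : min 1 (ε / (N + 1)) * N ≤ ε := by
    calc min 1 (ε / (N + 1)) * N ≤ (ε / (N + 1)) * (N + 1) := by
          gcongr
          · exact min_le_right _ _
          · linarith
      _ = ε := by field_simp
  linarith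

/-- Maximal monotonicity of subdifferentials (finite-dimensional case, with a subgradient
somewhere). -/
theorem isMaximallyMonotone_subdifferential [FiniteDimensional ℝ E] {f : E → EReal}
    (hf : IsProperLscConvex f) (hne : (dom (subdifferential f)).Nonempty) :
    IsMaximallyMonotone (subdifferential f) := by
  refine ⟨isMonotone_subdifferential hf, fun B hB hsub => ?_⟩
  obtain ⟨x₀, u₀, hu₀⟩ := hne
  funext x
  refine subset_antisymm (fun u hu => ?_) (hsub x)
  obtain ⟨p, hp⟩ := exists_prox hf hu₀ (x + u)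
  have h1 := hB x p u hu (x + u - p) (hsub p hp)
  have e : u - (x + u - p) = -(x - p) := by abel
  rw [e, inner_neg_left, real_inner_self_eq_norm_sq] at h1
  have h2 : ‖x - p‖ = 0 := by
    have := sq_nonneg ‖x - p‖
    have h3 : ‖x - p‖ ^ 2 = 0 := by linarith
    exact pow_eq_zero_iff (two_ne_zero) |>.mp h3
  have h4 : x = p := sub_eq_zero.mp (norm_eq_zero.mp h2)
  subst h4
  rwa [add_sub_cancel_left] at hp

/-- The Fenchel conjugate. -/
noncomputable def conj (f : E → EReal) (u : E) : EReal :=
  ⨆ x : E, (((inner ℝ u x : ℝ) : EReal) - f x)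

theorem conj_le_iff {f : E → EReal} (u : E) (t : EReal) :
    conj f u ≤ t ↔ ∀ x, ((inner ℝ u x : ℝ) : EReal) - f x ≤ t := iSup_le_iff

theorem mem_conj_of_mem {f : E → EReal} (hf : IsProperLscConvex f) {x u : E}
    (hu : u ∈ subdifferential f x) : x ∈ subdifferential (conj f) u := by
  obtain ⟨r, hr⟩ := coe_of_ne (hf.ne_bot x) (ne_top_of_mem hf hu)
  have h1 : conj f u ≤ ((inner ℝ u x - r : ℝ) : EReal) := by
    rw [conj_le_iff]
    intro y
    by_cases hy : f y = ⊤
    · rw [hy, EReal.sub_top]; exact bot_le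
    obtain ⟨s, hs⟩ := coe_of_ne (hf.ne_bot y) hy
    have h2 := hu y
    rw [hr, hs, ← EReal.coe_add, EReal.coe_le_coe_iff, inner_sub_right] at h2
    rw [hs, ← EReal.coe_sub, EReal.coe_le_coe_iff]
    linarith
  intro w
  have h3 : (((inner ℝ u x - r) + inner ℝ x (w - u) : ℝ) : EReal) ≤ conj f w := by
    refine le_trans (le_of_eq ?_) (le_iSup (fun y => ((inner ℝ w y : ℝ) : EReal) - f y) x)
    simp only [hr]
    rw [← EReal.coe_sub, inner_sub_right, real_inner_comm w x, real_inner_comm u x]
    congr 1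
    ring
  refine le_trans ?_ h3
  rw [EReal.coe_add]
  gcongr

theorem isProperLscConvex_conj {f : E → EReal} (hf : IsProperLscConvex f)
    (hne : (dom (subdifferential f)).Nonempty) : IsProperLscConvex (conj f) := by
  refine ⟨fun u => ?_, ?_, ?_, ?_⟩
  · obtain ⟨x, hx⟩ := hf.exists_ne_top
    obtain ⟨r, hr⟩ := coe_of_ne (hf.ne_bot x) hx
    intro hbot
    have h1 : ((inner ℝ u x : ℝ) : EReal) - f x ≤ conj f u :=
      le_iSup (fun y => ((inner ℝ u y : ℝ) : EReal) - f y) x
    rw [hbot, hr, ← EReal.coe_sub, le_bot_iff] at h1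
    exact EReal.coe_ne_bot _ h1
  · obtain ⟨x, u, hu⟩ := hne
    obtain ⟨r, hr⟩ := coe_of_ne (hf.ne_bot x) (ne_top_of_mem hf hu)
    refine ⟨u, fun htop => ?_⟩
    have h1 : conj f u ≤ ((inner ℝ u x - r : ℝ) : EReal) := by
      rw [conj_le_iff]
      intro y
      by_cases hy : f y = ⊤
      · rw [hy, EReal.sub_top]; exact bot_le
      obtain ⟨s, hs⟩ := coe_of_ne (hf.ne_bot y) hy
      have h2 := hu y
      rw [hr, hs, ← EReal.coe_add, EReal.coe_le_coe_iff, inner_sub_right] at h2
      rw [hs, ← EReal.coe_sub, EReal.coe_le_coe_iff]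
      linarith
    rw [htop, top_le_iff] at h1
    exact EReal.coe_ne_top _ h1
  · refine lowerSemicontinuous_iSup fun x => ?_
    by_cases hx : f x = ⊤
    · simp only [hx, EReal.sub_top]
      exact lowerSemicontinuous_const
    · obtain ⟨r, hr⟩ := coe_of_ne (hf.ne_bot x) hx
      simp only [hr, ← EReal.coe_sub]
      exact (continuous_coe_real_ereal.comp (by fun_prop)).lowerSemicontinuous
  · intro q hq q' hq' a b ha hb hab
    simp only [mem_ofPred_eq, conj_le_iff] at hq hq' ⊢
    intro x
    have h1 := hq x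
    have h2 := hq' x
    by_cases hx : f x = ⊤
    · rw [hx, EReal.sub_top]; exact bot_le
    · obtain ⟨r, hr⟩ := coe_of_ne (hf.ne_bot x) hx
      rw [hr, ← EReal.coe_sub, EReal.coe_le_coe_iff] at h1 h2 ⊢
      simp only [Prod.fst_add, Prod.smul_fst, Prod.snd_add, Prod.smul_snd, smul_eq_mul,
        inner_add_left, inner_smul_left, RCLike.conj_to_real]
      have hb' : b = 1 - a := by linarith
      subst hb'
      nlinarith

/-- The range of the subdifferential of the conjugate is the domain of the subdifferential. -/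
theorem ran_subdifferential_conj [FiniteDimensional ℝ E] {f : E → EReal}
    (hf : IsProperLscConvex f) (hne : (dom (subdifferential f)).Nonempty) :
    ran (subdifferential (conj f)) = dom (subdifferential f) := by
  have hmax := isMaximallyMonotone_subdifferential hf hne
  have hmon := isMonotone_subdifferential (isProperLscConvex_conj hf hne)
  have hB : (fun x => {u | x ∈ subdifferential (conj f) u}) = subdifferential f := by
    apply hmax.2
    · intro x y u hu v hv
      have := hmon u v x hu y hv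
      rw [real_inner_comm (u - v) (x - y)] at this
      exact this
    · intro x u hu
      show x ∈ subdifferential (conj f) u
      exact mem_conj_of_mem hf hu
  ext x
  constructor
  · rintro ⟨u, hu⟩
    have : u ∈ (fun x => {u | x ∈ subdifferential (conj f) u}) x := hu
    rw [hB] at this
    exact ⟨u, this⟩
  · rintro ⟨u, hu⟩
    exact ⟨u, mem_conj_of_mem hf hu⟩

/-- The graph of a maximally monotone map is closed. -/
theorem isClosed_graph_of_isMaximallyMonotone {A : E → Set E} (hA : IsMaximallyMonotone A) :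
    IsClosed {p : E × E | p.2 ∈ A p.1} := by
  have h : {p : E × E | p.2 ∈ A p.1} =
      ⋂ (q : E × E) (_ : q.2 ∈ A q.1),
        {p : E × E | 0 ≤ (inner ℝ (p.2 - q.2) (p.1 - q.1) : ℝ)} := by
    ext p
    simp only [mem_ofPred_eq, mem_iInter]
    constructor
    · intro hp q hq
      exact hA.1 p.1 q.1 p.2 hp q.2 hq
    · intro hp
      let B : E → Set E := fun x => {u | u ∈ A x ∨ (x = p.1 ∧ u = p.2)}
      have hB : IsMonotone B := by
        intro x y u hu v hv
        rcases hu with hu | ⟨rfl, rfl⟩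
        · rcases hv with hv | ⟨rfl, rfl⟩
          · exact hA.1 x y u hu v hv
          · have h := hp (x, u) hu
            have e : (inner ℝ (u - p.2) (x - p.1) : ℝ) = inner ℝ (p.2 - u) (p.1 - x) := by
              rw [← neg_sub p.2 u, ← neg_sub p.1 x, inner_neg_neg]
            rw [e]; exact h
        · rcases hv with hv | ⟨rfl, rfl⟩
          · exact hp (y, v) hv
          · simp
      have hBA : B = A := hA.2 B hB (fun x u hu => Or.inl hu)
      have h1 : p.2 ∈ B p.1 := Or.inr ⟨rfl, rfl⟩
      rw [hBA] at h1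
      exact h1
  rw [h]
  refine isClosed_iInter fun q => isClosed_iInter fun _ => ?_
  exact isClosed_le continuous_const
    ((continuous_snd.sub continuous_const).inner (continuous_fst.sub continuous_const))

/-- The inverse of a maximally monotone map is maximally monotone. -/
theorem isMaximallyMonotone_inv {A : E → Set E} (hA : IsMaximallyMonotone A) :
    IsMaximallyMonotone (fun u => {x | u ∈ A x}) := by
  refine ⟨?_, ?_⟩
  · intro u v x hx y hy
    have := hA.1 x y u hx v hy
    rw [real_inner_comm (x - y) (u - v)] at this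
    exact this
  · intro B hB hsub
    have h1 : (fun x => {u | x ∈ B u}) = A := by
      apply hA.2
      · intro x y u hu v hv
        have := hB u v x hu y hv
        rw [real_inner_comm (u - v) (x - y)] at this
        exact this
      · intro x u hu
        exact hsub u hu
    funext u
    ext x
    rw [← h1]
    rfl

theorem isFsigma_dom_of_isClosed [FiniteDimensional ℝ E] {A : E → Set E}
    (hA : IsClosed {p : E × E | p.2 ∈ A p.1}) : IsFsigma (dom A) := by
  have h : dom A = Prod.fst '' {p : E × E | p.2 ∈ A p.1} := by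
    ext x
    simp only [dom, Set.Nonempty, mem_ofPred_eq, mem_image, Prod.exists, exists_and_right,
      exists_eq_right]
  have hs : IsSigmaCompact (dom A) := by
    rw [h]
    exact (isSigmaCompact_univ.of_isClosed_subset hA (subset_univ _)).image continuous_fst
  obtain ⟨K, hK, hU⟩ := hs
  exact ⟨K, fun j => (hK j).isClosed, hU.symm⟩

theorem isFsigma_dom [FiniteDimensional ℝ E] {A : E → Set E} (hA : IsMaximallyMonotone A) :
    IsFsigma (dom A) := isFsigma_dom_of_isClosed (isClosed_graph_of_isMaximallyMonotone hA)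

end Pool.Agent.Helper82.NC
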